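import Mathlib

/-!
# Nerves of cells: an abstract interface for blocks with their windows

A `Nerve` is a finite graph with a rotation at every vertex such that all triangles are faces,
there is no `K4`, no induced 4-cycle, no cut vertex and at least five vertices.  The faces which are
not triangles are the windows.
-/

set_option autoImplicit false

open Finset

namespace Pool.Agent.Helper26.OC

/-- The nerve of a cell which has no cut vertex (and at least five vertices). -/
structure Nerve (κ : Type) where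
  /-- adjacency (orthogonality) -/
  adj : κ → κ → Prop
  symm : ∀ {a b : κ}, adj a b → adj b a
  irr : ∀ a : κ, ¬ adj a a
  noK4 : ∀ {a b c d : κ}, adj a b → adj a c → adj a d → adj b c → adj b d → adj c d → False
  noC4 : ∀ {a b c d : κ}, adj a b → adj b c → adj c d → adj d a → a ≠ c → b ≠ d →
    adj a c ∨ adj b d
  /-- the rotation at `b` (meaningful for neighbours of `b`) -/
  rot : κ → κ → κ
  rot_adj : ∀ {b y : κ}, adj b y → adj b (rot b y)
  rot_inj : ∀ {b y z : κ}, adj b y → adj b z → rot b y = rot b z → y = z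
  rot_ne : ∀ {b y : κ}, adj b y → rot b y ≠ y
  rot_ind : ∀ {b y : κ} (P : κ → Prop), adj b y → P y →
    (∀ z, adj b z → P z → P (rot b z)) → ∀ z, adj b z → P z
  /-- `win x y`: the face of the dart `x → y` is a window -/
  win : κ → κ → Prop
  win_next : ∀ {x y z : κ}, adj x y → adj y z → rot y z = x → (win x y ↔ win y z)
  /-- a dart whose face is not a window lies on the triangle `x → y → rot x y → x` -/
  tri_of : ∀ {x y : κ}, adj x y → ¬ win x y →
    adj y (rot x y) ∧ rot y (rot x y) = x ∧ rot (rot x y) x = y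
  /-- all triangles are faces -/
  tri : ∀ {x y z : κ}, adj x y → adj y z → adj x z →
    (rot x y = z ∧ ¬ win x y) ∨ (rot x z = y ∧ ¬ win x z)
  /-- no cut vertex -/
  conn_del : ∀ (x : κ) (P : κ → Prop), (∀ a b, a ≠ x → b ≠ x → P a → adj a b → P b) →
    ∀ a b, a ≠ x → b ≠ x → P a → P b
  conn : ∀ (P : κ → Prop), (∀ a b, P a → adj a b → P b) → ∀ a b, P a → P b
  /-- a window visits every vertex at most once -/
  cut : ∀ b : ℕ → κ, (∀ i, adj (b i) (b (i + 1)) ∧ rot (b (i + 1)) (b (i + 2)) = b i ∧
    win (b i) (b (i + 1))) → ∀ i j, b i = b j → b (i + 1) = b (j + 1)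
  /-- a window has at least five corners -/
  len5 : ∀ b : ℕ → κ, (∀ i, adj (b i) (b (i + 1)) ∧ rot (b (i + 1)) (b (i + 2)) = b i ∧
    win (b i) (b (i + 1))) → ∀ i m, 0 < m → m < 5 → b (i + m) ≠ b i

namespace Nerve

variable {κ : Type} [Fintype κ] [DecidableEq κ] (N : Nerve κ)

/-- `u, b, w` are consecutive on a window (`b` is the corner) -/
def Cor (u b w : κ) : Prop := N.adj u b ∧ N.adj b w ∧ N.rot b w = u ∧ N.win u b ∧ N.win b w

open Classical in
/-- the degree -/
noncomputable def G (b : κ) : ℕ := (univ.filter (fun y => N.adj b y)).card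

open Classical in
/-- the number of corners at `b` -/
noncomputable def a (b : κ) : ℕ := (univ.filter (fun y => N.adj b y ∧ N.win b y)).card

open Classical in
/-- the number of marks at `b` -/
noncomputable def nu (T : Finset κ) (b : κ) : ℕ := (T.filter (fun y => N.adj b y)).card

/-- `b y` is an edge in no triangle -/
def Thin (b y : κ) : Prop := N.adj b y ∧ ∀ z, N.adj z b → ¬ N.adj z y

/-- short corners -/
def S (b : κ) : Prop := N.a b = 1 ∧ N.G b ≤ 3

/-- strips -/
def St (b : κ) : Prop := N.a b = 2 ∧ N.G b = 2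

/-- facets of type (2,1) -/
def T21 (b : κ) : Prop := N.a b = 2 ∧ N.G b = 3

/-- a far facet of type (2,1) all of whose marks are thin -/
def Free (T : Finset κ) (b : κ) : Prop := b ∉ T ∧ N.T21 b ∧ ∀ y ∈ T, N.adj b y → N.Thin b y

open Classical in
/-- weight of a corner `u, b, w` with `b` far; `q` = weight of a corner of a `Free` vertex -/
noncomputable def wf (q : ℚ) (T : Finset κ) (u b w : κ) : ℚ :=
  if N.a b = 1 then
    if N.G b ≤ 3 then (if N.nu T b = 2 then 1 else 0)
    else if N.nu T b = 0 then (if N.G b = 4 then 2 else 3)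
    else if N.nu T b = 1 then (if u ∈ T ∨ w ∈ T then 2 else if N.G b = 4 then 1 else 3 / 2)
    else 3 / 2
  else
    if N.G b = 2 then (if N.nu T b = 0 then 1 / 2 else 1)
    else if N.Free T b then q
    else if N.G b = 3 ∧ N.a b = 3 ∧ N.nu T b = 0 then 11 / 6
    else if N.nu T b = 0 then 2
    else if N.nu T b = 1 then (if u ∈ T ∨ w ∈ T then 2 else 3 / 2)
    else 3 / 2

open Classical in
/-- weight of a corner `u, b, w` with `b` near -/
noncomputable def wn (T : Finset κ) (u b w : κ) : ℚ :=
  if T.card = 1 then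
    if N.a b = 1 then (if N.G b ≤ 2 then 2 else if N.G b = 3 then 1 else 0)
    else if N.G b = 2 then 1
    else if N.G b = 3 ∧ N.a b = 2 then 1 / 4
    else if N.G b = 3 ∧ N.a b = 3 then 1 / 6
    else 0
  else if T.card = 2 then
    if N.a b = 1 then
      (if N.G b ≤ 3 then 2 else if u ∈ T ∨ w ∈ T then 0 else if N.G b = 4 then 1 else 1 / 2)
    else if N.G b = 2 then 1
    else if N.G b = 3 ∧ N.a b = 2 ∧ (∀ y ∈ T, N.adj b y → N.Thin b y) then 1 / 4
    else if u ∈ T ∨ w ∈ T then 0 else 1 / 2
  else
    if N.a b = 1 ∧ N.G b ≤ 3 then 1 else 1 / 2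

open Classical in
/-- weight of a corner -/
noncomputable def wt (q : ℚ) (T : Finset κ) (u b w : κ) : ℚ :=
  if b ∈ T then N.wn T u b w else N.wf q T u b w

/-- `b` runs around a window with `k` corners -/
structure IsWin (k : ℕ) (b : ℕ → κ) : Prop where
  five : 5 ≤ k
  cor : ∀ i, N.Cor (b i) (b (i + 1)) (b (i + 2))
  per : ∀ i, b (i + k) = b i
  inj : ∀ i < k, ∀ j < k, b i = b j → i = j

open Classical in
/-- the sum of the weights of the corners, plus the number of edges of the window inside `T` -/
noncomputable def TF (q : ℚ) (T : Finset κ) (k : ℕ) (b : ℕ → κ) : ℚ :=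
  ∑ i ∈ range k, (N.wt q T (b i) (b (i + 1)) (b (i + 2)) +
    (if b i ∈ T ∧ b (i + 1) ∈ T then 1 else 0))

/-- the surplus of a window -/
noncomputable def D (q : ℚ) (T : Finset κ) (k : ℕ) (b : ℕ → κ) : ℚ := (k : ℚ) - 9 + N.TF q T k b

open Classical in
/-- the number of non short corners -/
noncomputable def lng (k : ℕ) (b : ℕ → κ) : ℕ := ((range k).filter (fun i => ¬ N.S (b i))).card

/-- a set of pairwise adjacent vertices -/
def Clq (T : Finset κ) : Prop := ∀ x ∈ T, ∀ y ∈ T, x ≠ y → N.adj x y

/-- no two adjacent far strips one of which is adjacent to a near facet -/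
def NR2 (T : Finset κ) : Prop := ∀ x ∈ T, ∀ s t : κ, s ∉ T → t ∉ T → N.adj x s → N.adj s t →
  x ≠ t → N.St s → N.St t → False

end Nerve

end Pool.Agent.Helper26.OC
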