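import Mathlib
import Pool.Agent.Helper26.OC.Nerve

/-!
# Basic facts about the windows of a nerve
-/

set_option autoImplicit false

open Finset

namespace Pool.Agent.Helper26.OC

namespace Nerve

variable {κ : Type} [Fintype κ] [DecidableEq κ] (N : Nerve κ)

omit [Fintype κ] [DecidableEq κ] in
theorem ne_of_adj {x y : κ} (h : N.adj x y) : x ≠ y := by
  rintro rfl; exact N.irr _ h

omit [Fintype κ] [DecidableEq κ] in
theorem Cor.ne_ub {u b w : κ} (h : N.Cor u b w) : u ≠ b := N.ne_of_adj h.1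

omit [Fintype κ] [DecidableEq κ] in
theorem Cor.ne_bw {u b w : κ} (h : N.Cor u b w) : b ≠ w := N.ne_of_adj h.2.1

omit [Fintype κ] [DecidableEq κ] in
theorem Cor.ne_uw {u b w : κ} (h : N.Cor u b w) : u ≠ w := by
  rw [← h.2.2.1]; exact N.rot_ne h.2.1

omit [Fintype κ] [DecidableEq κ] in
theorem Cor.prev_unique {u u' b w : κ} (h : N.Cor u b w) (h' : N.Cor u' b w) : u = u' := by
  rw [← h.2.2.1, ← h'.2.2.1]

omit [Fintype κ] [DecidableEq κ] in
theorem Cor.next_unique {u b w w' : κ} (h : N.Cor u b w) (h' : N.Cor u b w') : w = w' :=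
  N.rot_inj h.2.1 h'.2.1 (h.2.2.1.trans h'.2.2.1.symm)

omit [Fintype κ] [DecidableEq κ] in
/-- a window dart gives a corner at its start -/
theorem cor_of_win {b w : κ} (h : N.adj b w) (hw : N.win b w) : N.Cor (N.rot b w) b w :=
  ⟨N.symm (N.rot_adj h), h, rfl, (N.win_next (N.symm (N.rot_adj h)) h rfl).2 hw, hw⟩

omit [Fintype κ] [DecidableEq κ] in
/-- the rotation is surjective -/
theorem exists_rot {b y : κ} (h : N.adj b y) : ∃ z, N.adj b z ∧ N.rot b z = y :=
  N.rot_ind (P := fun y => ∃ z, N.adj b z ∧ N.rot b z = y) (N.rot_adj h) ⟨y, h, rfl⟩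
    (fun z hz _ => ⟨z, hz, rfl⟩) y h

omit [Fintype κ] [DecidableEq κ] in
theorem Cor.exists_next {u b w : κ} (h : N.Cor u b w) : ∃ z, N.Cor b w z := by
  obtain ⟨z, hz, hzr⟩ := N.exists_rot (N.symm h.2.1)
  exact ⟨z, h.2.1, hz, hzr, h.2.2.2.2, (N.win_next h.2.1 hz hzr).1 h.2.2.2.2⟩

omit [Fintype κ] [DecidableEq κ] in
theorem Cor.exists_prev {u b w : κ} (h : N.Cor u b w) : ∃ z, N.Cor z u b :=
  ⟨_, N.cor_of_win h.1 h.2.2.2.1⟩

omit [Fintype κ] [DecidableEq κ] in
/-- consecutive neighbours -/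
theorem adj_rot {b y z : κ} (hy : N.adj b y) (hz : N.adj b z) (hyz : N.adj y z) :
    (N.rot b y = z ∧ ¬ N.win b y) ∨ (N.rot b z = y ∧ ¬ N.win b z) :=
  N.tri hy hyz hz

omit [Fintype κ] [DecidableEq κ] in
/-- common neighbours of the ends of `b → w` -/
theorem Cor.cn_right {u b w p : κ} (h : N.Cor u b w) (hb : N.adj b p) (hw : N.adj p w) :
    N.rot b p = w ∧ ¬ N.win b p := by
  rcases N.adj_rot h.2.1 hb (N.symm hw) with h1 | h1
  · exact absurd h.2.2.2.2 h1.2
  · exact h1

omit [Fintype κ] [DecidableEq κ] in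
/-- common neighbours of the ends of `u → b` -/
theorem Cor.cn_left {u b w p : κ} (h : N.Cor u b w) (hb : N.adj b p) (hu : N.adj u p) :
    N.rot b u = p ∧ ¬ N.win b u := by
  rcases N.adj_rot h.1 hu (N.symm (N.symm hb)) with h1 | h1
  · exact absurd h.2.2.2.1 h1.2
  · obtain ⟨e1, e2, e3⟩ := N.tri_of hu h1.2
    rw [h1.1] at e2 e3
    refine ⟨e3, fun hw => h1.2 ?_⟩
    -- win b u → win u p ?  faces: u → p → b → u is a triangle
    have e4 : N.rot u p = b := h1.1
    exact (N.win_next (N.symm h.1) hu e4).1 hw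

omit [Fintype κ] [DecidableEq κ] in
theorem Cor.cn_right_unique {u b w p q : κ} (h : N.Cor u b w) (hb : N.adj b p) (hw : N.adj p w)
    (hb' : N.adj b q) (hw' : N.adj q w) : p = q :=
  N.rot_inj hb hb' ((h.cn_right N hb hw).1.trans (h.cn_right N hb' hw').1.symm)

omit [Fintype κ] [DecidableEq κ] in
theorem Cor.cn_left_unique {u b w p q : κ} (h : N.Cor u b w) (hb : N.adj b p) (hw : N.adj u p)
    (hb' : N.adj b q) (hw' : N.adj u q) : p = q :=
  (h.cn_left N hb hw).1.symm.trans (h.cn_left N hb' hw').1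

omit [Fintype κ] [DecidableEq κ] in
/-- E3 -/
theorem Cor.nbr2 {u b w : κ} (h : N.Cor u b w) (huw : N.adj u w) (z : κ) :
    N.adj b z ↔ z = u ∨ z = w := by
  constructor
  · intro hz
    refine N.rot_ind (b := b) (y := u) (fun z => z = u ∨ z = w) (N.symm h.1) (Or.inl rfl) ?_ z hz
    rintro z hz (rfl | rfl)
    · exact Or.inr (h.cn_left N h.2.1 huw).1
    · exact Or.inl h.2.2.1
  · rintro (rfl | rfl)
    · exact N.symm h.1
    · exact h.2.1

omit [Fintype κ] [DecidableEq κ] in
/-- E4 -/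
theorem Cor.nbr3 {u b w p : κ} (h : N.Cor u b w) (hp : N.adj b p) (hup : N.adj u p)
    (hpw : N.adj p w) (z : κ) : N.adj b z ↔ z = u ∨ z = p ∨ z = w := by
  constructor
  · intro hz
    refine N.rot_ind (b := b) (y := u) (fun z => z = u ∨ z = p ∨ z = w) (N.symm h.1) (Or.inl rfl)
      ?_ z hz
    rintro z hz (rfl | rfl | rfl)
    · exact Or.inr (Or.inl (h.cn_left N hp hup).1)
    · exact Or.inr (Or.inr (h.cn_right N hp hpw).1)
    · exact Or.inl h.2.2.1
  · rintro (rfl | rfl | rfl)
    · exact N.symm h.1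
    · exact hp
    · exact h.2.1

omit [Fintype κ] [DecidableEq κ] in
/-- E5 -/
theorem Cor.nbr4 {u b w p q : κ} (h : N.Cor u b w) (hp : N.adj b p) (hup : N.adj u p)
    (hq : N.adj b q) (hqw : N.adj q w) (hpq : N.adj p q) (hpw : p ≠ w) (z : κ) :
    N.adj b z ↔ z = u ∨ z = p ∨ z = q ∨ z = w := by
  have e1 := (h.cn_left N hp hup).1
  have e2 := (h.cn_right N hq hqw).1
  have e3 : N.rot b p = q := by
    rcases N.adj_rot hp hq hpq with h1 | h1
    · exact h1.1
    · exact absurd (h1.1.symm.trans e2) hpw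
  constructor
  · intro hz
    refine N.rot_ind (b := b) (y := u) (fun z => z = u ∨ z = p ∨ z = q ∨ z = w) (N.symm h.1)
      (Or.inl rfl) ?_ z hz
    rintro z hz (rfl | rfl | rfl | rfl)
    · exact Or.inr (Or.inl e1)
    · exact Or.inr (Or.inr (Or.inl e3))
    · exact Or.inr (Or.inr (Or.inr e2))
    · exact Or.inl h.2.2.1
  · rintro (rfl | rfl | rfl | rfl)
    · exact N.symm h.1
    · exact hp
    · exact hq
    · exact h.2.1

/-! ### Counting -/

theorem G_eq_of {b : κ} {s : Finset κ} (h : ∀ z, N.adj b z ↔ z ∈ s) : N.G b = s.card := by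
  classical
  unfold G
  congr 1
  ext z
  rw [mem_filter, h]
  simp

theorem a_eq_of {b : κ} {s : Finset κ} (h : ∀ z, (N.adj b z ∧ N.win b z) ↔ z ∈ s) :
    N.a b = s.card := by
  classical
  unfold a
  congr 1
  ext z
  rw [mem_filter, h]
  simp

omit [DecidableEq κ] in
theorem a_pos {b w : κ} (h : N.adj b w) (hw : N.win b w) : 1 ≤ N.a b := by
  classical
  unfold a
  exact card_pos.2 ⟨w, by rw [mem_filter]; exact ⟨mem_univ _, h, hw⟩⟩

omit [DecidableEq κ] in
theorem a_le_G (b : κ) : N.a b ≤ N.G b := by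
  classical
  unfold a G
  apply card_le_card
  intro z hz
  rw [mem_filter] at hz ⊢
  exact ⟨hz.1, hz.2.1⟩

/-- the only corner of a vertex with `a = 1` -/
theorem win_unique {b w z : κ} (ha : N.a b = 1) (hw : N.adj b w) (hww : N.win b w)
    (hz : N.adj b z) (hzw : N.win b z) : z = w := by
  classical
  unfold a at ha
  rw [card_eq_one] at ha
  obtain ⟨v, hv⟩ := ha
  have h1 : w ∈ ({v} : Finset κ) := by
    rw [← hv, mem_filter]; exact ⟨mem_univ _, hw, hww⟩
  have h2 : z ∈ ({v} : Finset κ) := by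
    rw [← hv, mem_filter]; exact ⟨mem_univ _, hz, hzw⟩
  rw [mem_singleton] at h1 h2
  rw [h1, h2]

/-- two different corners -/
theorem two_le_a {b w z : κ} (hw : N.adj b w) (hww : N.win b w) (hz : N.adj b z)
    (hzw : N.win b z) (hne : z ≠ w) : 2 ≤ N.a b := by
  classical
  unfold a
  have h1 : ({w, z} : Finset κ) ⊆ univ.filter (fun y => N.adj b y ∧ N.win b y) := by
    intro v hv
    rw [mem_insert, mem_singleton] at hv
    rw [mem_filter]
    rcases hv with rfl | rfl
    · exact ⟨mem_univ _, hw, hww⟩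
    · exact ⟨mem_univ _, hz, hzw⟩
  calc 2 = ({w, z} : Finset κ).card := (card_pair hne.symm).symm
    _ ≤ _ := card_le_card h1

theorem two_le_G {u b w : κ} (h : N.Cor u b w) : 2 ≤ N.G b := by
  classical
  unfold G
  have h1 : ({u, w} : Finset κ) ⊆ univ.filter (fun y => N.adj b y) := by
    intro v hv
    rw [mem_insert, mem_singleton] at hv
    rw [mem_filter]
    rcases hv with rfl | rfl
    · exact ⟨mem_univ _, N.symm h.1⟩
    · exact ⟨mem_univ _, h.2.1⟩
  calc 2 = ({u, w} : Finset κ).card := (card_pair h.ne_uw).symm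
    _ ≤ _ := card_le_card h1

/-- a set of neighbours of full size -/
theorem nbr_of_card {b : κ} {s : Finset κ} (hs : ∀ z ∈ s, N.adj b z) (hc : N.G b ≤ s.card)
    (z : κ) : N.adj b z ↔ z ∈ s := by
  classical
  have h1 : s ⊆ univ.filter (fun y => N.adj b y) := by
    intro v hv
    rw [mem_filter]
    exact ⟨mem_univ _, hs v hv⟩
  have h2 : s = univ.filter (fun y => N.adj b y) := eq_of_subset_of_card_le h1 hc
  constructor
  · intro h; rw [h2, mem_filter]; exact ⟨mem_univ _, h⟩
  · exact hs z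

/-! ### The type of a corner from the numbers -/

/-- short corners -/
theorem S_cases {u b w : κ} (h : N.Cor u b w) (hS : N.S b) :
    (N.adj u w ∧ ∀ z, N.adj b z ↔ z = u ∨ z = w) ∨
    (∃ p, N.adj b p ∧ N.adj u p ∧ N.adj p w ∧ ¬ N.adj u w ∧ p ≠ u ∧ p ≠ w ∧
      ∀ z, N.adj b z ↔ z = u ∨ z = p ∨ z = w) := by
  classical
  obtain ⟨ha, hG⟩ := hS
  have hne := h.ne_uw
  have hbu : N.adj b u := N.symm h.1
  have hwu : ¬ N.win b u := fun hw => hne (N.win_unique ha h.2.1 h.2.2.2.2 hbu hw)
  obtain ⟨e1, -, -⟩ := N.tri_of hbu hwu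
  set p := N.rot b u with hp
  have hbp : N.adj b p := N.rot_adj hbu
  by_cases hpw : p = w
  · left
    rw [hpw] at e1
    exact ⟨e1, h.nbr2 N e1⟩
  · right
    have hpu : p ≠ u := N.rot_ne hbu
    have hN := N.nbr_of_card (b := b) (s := {u, p, w}) (by
      intro z hz
      simp only [mem_insert, mem_singleton] at hz
      rcases hz with rfl | rfl | rfl
      · exact hbu
      · exact hbp
      · exact h.2.1) (by
      rw [card_insert_of_notMem, card_pair hpw]
      · exact hG
      · simp only [mem_insert, mem_singleton, not_or]; exact ⟨hpu.symm, hne⟩)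
    have hwp : ¬ N.win b p := fun hw => hpw (N.win_unique ha h.2.1 h.2.2.2.2 hbp hw)
    obtain ⟨e2, -, -⟩ := N.tri_of hbp hwp
    have e3 : N.rot b p = w := by
      have h1 := (hN (N.rot b p)).1 (N.rot_adj hbp)
      simp only [mem_insert, mem_singleton] at h1
      rcases h1 with h1 | h1 | h1
      · exact absurd (N.rot_inj hbp h.2.1 (h1.trans h.2.2.1.symm)) hpw
      · exact absurd h1 (N.rot_ne hbp)
      · exact h1
    rw [e3] at e2
    refine ⟨p, hbp, e1, e2, ?_, hpu, hpw, ?_⟩
    · intro huw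
      exact N.noK4 hbu hbp h.2.1 e1 huw e2
    · intro z
      rw [hN z]
      simp only [mem_insert, mem_singleton]

/-- corners of vertices with one chain of length four -/
theorem Q_cases {u b w : κ} (h : N.Cor u b w) (ha : N.a b = 1) (hG : N.G b = 4) :
    ∃ p q, N.adj b p ∧ N.adj b q ∧ N.adj u p ∧ N.adj p q ∧ N.adj q w ∧ p ≠ u ∧ p ≠ w ∧ q ≠ u ∧
      q ≠ w ∧ p ≠ q ∧ ∀ z, N.adj b z ↔ z = u ∨ z = p ∨ z = q ∨ z = w := by
  classical
  have hne := h.ne_uw
  have hbu : N.adj b u := N.symm h.1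
  have hwu : ¬ N.win b u := fun hw => hne (N.win_unique ha h.2.1 h.2.2.2.2 hbu hw)
  obtain ⟨e1, -, -⟩ := N.tri_of hbu hwu
  set p := N.rot b u with hp
  have hbp : N.adj b p := N.rot_adj hbu
  have hpu : p ≠ u := N.rot_ne hbu
  have hpw : p ≠ w := by
    intro hpw
    rw [hpw] at e1
    have h1 := N.G_eq_of (b := b) (s := {u, w}) (by
      intro z; rw [h.nbr2 N e1]; simp only [mem_insert, mem_singleton])
    rw [card_pair hne] at h1
    omega
  have hwp : ¬ N.win b p := fun hw => hpw (N.win_unique ha h.2.1 h.2.2.2.2 hbp hw)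
  obtain ⟨e2, -, -⟩ := N.tri_of hbp hwp
  set q := N.rot b p with hq
  have hbq : N.adj b q := N.rot_adj hbp
  have hqp : q ≠ p := N.rot_ne hbp
  have hqu : q ≠ u := by
    intro h1
    exact hpw (N.rot_inj hbp h.2.1 (h1.trans h.2.2.1.symm))
  have hqw : q ≠ w := by
    intro hqw
    rw [hqw] at e2
    have h1 := N.G_eq_of (b := b) (s := {u, p, w}) (by
      intro z; rw [h.nbr3 N hbp e1 e2]; simp only [mem_insert, mem_singleton])
    have h2 : ({u, p, w} : Finset κ).card ≤ 3 := card_le_three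
    omega
  have hwq : ¬ N.win b q := fun hw => hqw (N.win_unique ha h.2.1 h.2.2.2.2 hbq hw)
  obtain ⟨e3, -, -⟩ := N.tri_of hbq hwq
  have hcard : ({u, p, q, w} : Finset κ).card = 4 := by
    rw [card_insert_of_notMem, card_insert_of_notMem, card_pair hqw]
    · simp only [mem_insert, mem_singleton, not_or]; exact ⟨hqp.symm, hpw⟩
    · simp only [mem_insert, mem_singleton, not_or]; exact ⟨hpu.symm, hqu.symm, hne⟩
  have hN := N.nbr_of_card (b := b) (s := {u, p, q, w}) (by
    intro z hz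
    simp only [mem_insert, mem_singleton] at hz
    rcases hz with rfl | rfl | rfl | rfl
    · exact hbu
    · exact hbp
    · exact hbq
    · exact h.2.1) (by rw [hcard]; omega)
  have e4 : N.rot b q = w := by
    have h1 := (hN (N.rot b q)).1 (N.rot_adj hbq)
    simp only [mem_insert, mem_singleton] at h1
    rcases h1 with h1 | h1 | h1 | h1
    · exact absurd (N.rot_inj hbq h.2.1 (h1.trans h.2.2.1.symm)) hqw
    · exact absurd (N.rot_inj hbq hbu (h1.trans hp)) hqu
    · exact absurd h1 (N.rot_ne hbq)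
    · exact h1
  rw [e4] at e3
  refine ⟨p, q, hbp, hbq, e1, e2, e3, hpu, hpw, hqu, hqw, hqp.symm, ?_⟩
  intro z
  rw [hN z]
  simp only [mem_insert, mem_singleton]

/-- corners of vertices with one chain of length at least five: second elements of the chain -/
theorem P_cases {u b w : κ} (h : N.Cor u b w) (ha : N.a b = 1) (hG : 5 ≤ N.G b) :
    ∃ p q, N.adj b p ∧ N.adj b q ∧ N.adj u p ∧ N.adj q w ∧ p ≠ u ∧ p ≠ w ∧ q ≠ u ∧ q ≠ w ∧
      p ≠ q ∧ ¬ N.adj p q := by
  classical
  have hne := h.ne_uw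
  have hbu : N.adj b u := N.symm h.1
  have hwu : ¬ N.win b u := fun hw => hne (N.win_unique ha h.2.1 h.2.2.2.2 hbu hw)
  obtain ⟨e1, -, -⟩ := N.tri_of hbu hwu
  set p := N.rot b u with hp
  have hbp : N.adj b p := N.rot_adj hbu
  have hpu : p ≠ u := N.rot_ne hbu
  have hpw : p ≠ w := by
    intro hpw
    rw [hpw] at e1
    have h1 := N.G_eq_of (b := b) (s := {u, w}) (by
      intro z; rw [h.nbr2 N e1]; simp only [mem_insert, mem_singleton])
    rw [card_pair hne] at h1
    omega
  obtain ⟨q, hbq, hq⟩ := N.exists_rot h.2.1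
  have hqw : q ≠ w := by
    intro h1; rw [h1] at hq; exact N.rot_ne h.2.1 hq
  have hwq : ¬ N.win b q := fun hw => hqw (N.win_unique ha h.2.1 h.2.2.2.2 hbq hw)
  obtain ⟨e2, -, -⟩ := N.tri_of hbq hwq
  rw [hq] at e2
  have hqu : q ≠ u := by
    intro h1
    rw [h1, ← hp] at hq
    exact hpw hq
  have hqp : p ≠ q := by
    intro h1
    rw [← h1] at e2
    have h1 := N.G_eq_of (b := b) (s := {u, p, w}) (by
      intro z; rw [h.nbr3 N hbp e1 e2]; simp only [mem_insert, mem_singleton])
    have h2 : ({u, p, w} : Finset κ).card ≤ 3 := card_le_three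
    omega
  refine ⟨p, q, hbp, hbq, e1, e2, hpu, hpw, hqu, hqw, hqp, fun hpq => ?_⟩
  have h1 := N.G_eq_of (b := b) (s := {u, p, q, w}) (by
    intro z; rw [h.nbr4 N hbp e1 hbq e2 hpq hpw]; simp only [mem_insert, mem_singleton])
  have h2 : ({u, p, q, w} : Finset κ).card ≤ 4 := card_le_four
  omega

/-- strips -/
theorem St_cases {u b w : κ} (h : N.Cor u b w) (hS : N.St b) :
    ¬ N.adj u w ∧ N.Cor w b u ∧ N.Thin b u ∧ N.Thin b w ∧ ∀ z, N.adj b z ↔ z = u ∨ z = w := by
  classical
  obtain ⟨ha, hG⟩ := hS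
  have hne := h.ne_uw
  have hbu : N.adj b u := N.symm h.1
  have hN := N.nbr_of_card (b := b) (s := {u, w}) (by
    intro z hz
    simp only [mem_insert, mem_singleton] at hz
    rcases hz with rfl | rfl
    · exact hbu
    · exact h.2.1) (by rw [card_pair hne]; omega)
  have hwu : N.win b u := by
    by_contra hwu
    have h1 := N.a_eq_of (b := b) (s := {w}) (by
      intro z
      rw [hN z]
      simp only [mem_insert, mem_singleton]
      constructor
      · rintro ⟨rfl | rfl, h2⟩
        · exact absurd h2 hwu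
        · rfl
      · rintro rfl; exact ⟨Or.inr rfl, h.2.2.2.2⟩)
    rw [card_singleton] at h1
    omega
  have hrot : N.rot b u = w := by
    have h1 := (hN (N.rot b u)).1 (N.rot_adj hbu)
    simp only [mem_insert, mem_singleton] at h1
    rcases h1 with h1 | h1
    · exact absurd h1 (N.rot_ne hbu)
    · exact h1
  have huw : ¬ N.adj u w := by
    intro huw
    rcases N.adj_rot hbu h.2.1 huw with h1 | h1
    · exact h1.2 hwu
    · exact h1.2 h.2.2.2.2
  have hc : N.Cor w b u := by
    have := N.cor_of_win hbu hwu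
    rwa [hrot] at this
  refine ⟨huw, hc, ⟨hbu, ?_⟩, ⟨h.2.1, ?_⟩, ?_⟩
  · intro z hz hzu
    have h1 := (hN z).1 (N.symm hz)
    simp only [mem_insert, mem_singleton] at h1
    rcases h1 with rfl | rfl
    · exact N.irr _ hzu
    · exact huw (N.symm hzu)
  · intro z hz hzw
    have h1 := (hN z).1 (N.symm hz)
    simp only [mem_insert, mem_singleton] at h1
    rcases h1 with rfl | rfl
    · exact huw hzw
    · exact N.irr _ hzw
  · intro z
    rw [hN z]
    simp only [mem_insert, mem_singleton]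

/-- vertices of type (2,1) -/
theorem T21_cases {u b w : κ} (h : N.Cor u b w) (hS : N.T21 b) :
    ∃ p, p ≠ u ∧ p ≠ w ∧ (∀ z, N.adj b z ↔ z = u ∨ z = p ∨ z = w) ∧ ¬ N.adj u w ∧
      ((N.Thin b u ∧ N.adj p w ∧ ¬ N.adj u p ∧ N.Cor p b u) ∨
        (N.Thin b w ∧ N.adj u p ∧ ¬ N.adj p w ∧ N.Cor w b p)) := by
  classical
  obtain ⟨ha, hG⟩ := hS
  have hne := h.ne_uw
  have hbu : N.adj b u := N.symm h.1
  set p := N.rot b u with hp
  have hbp : N.adj b p := N.rot_adj hbu
  have hpu : p ≠ u := N.rot_ne hbu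
  have huw : ¬ N.adj u w := by
    intro huw
    have h1 := N.G_eq_of (b := b) (s := {u, w}) (by
      intro z; rw [h.nbr2 N huw]; simp only [mem_insert, mem_singleton])
    rw [card_pair hne] at h1
    omega
  have hpw : p ≠ w := by
    intro hpw
    have h2 : ∀ z, N.adj b z → z = u ∨ z = w := fun z hz =>
      N.rot_ind (b := b) (y := u) (fun z => z = u ∨ z = w) hbu (Or.inl rfl) (by
        rintro z hz (rfl | rfl)
        · exact Or.inr hpw
        · exact Or.inl h.2.2.1) z hz
    have h1 := N.G_eq_of (b := b) (s := {u, w}) (by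
      intro z
      simp only [mem_insert, mem_singleton]
      refine ⟨h2 z, ?_⟩
      rintro (rfl | rfl)
      · exact hbu
      · exact h.2.1)
    rw [card_pair hne] at h1
    omega
  have hcard : ({u, p, w} : Finset κ).card = 3 := by
    rw [card_insert_of_notMem, card_pair hpw]
    simp only [mem_insert, mem_singleton, not_or]; exact ⟨hpu.symm, hne⟩
  have hN' := N.nbr_of_card (b := b) (s := {u, p, w}) (by
    intro z hz
    simp only [mem_insert, mem_singleton] at hz
    rcases hz with rfl | rfl | rfl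
    · exact hbu
    · exact hbp
    · exact h.2.1) (by rw [hcard]; omega)
  have hN : ∀ z, N.adj b z ↔ z = u ∨ z = p ∨ z = w := by
    intro z; rw [hN' z]; simp only [mem_insert, mem_singleton]
  have hrp : N.rot b p = w := by
    rcases (hN (N.rot b p)).1 (N.rot_adj hbp) with h1 | h1 | h1
    · exact absurd (N.rot_inj hbp h.2.1 (h1.trans h.2.2.1.symm)) hpw
    · exact absurd h1 (N.rot_ne hbp)
    · exact h1
  refine ⟨p, hpu, hpw, hN, huw, ?_⟩
  by_cases hwu : N.win b u
  · left
    have hwp : ¬ N.win b p := by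
      intro hwp
      have h1 := N.a_eq_of (b := b) (s := {u, p, w}) (by
        intro z
        rw [hN z]
        simp only [mem_insert, mem_singleton]
        constructor
        · exact fun h => h.1
        · rintro (rfl | rfl | rfl)
          · exact ⟨Or.inl rfl, hwu⟩
          · exact ⟨Or.inr (Or.inl rfl), hwp⟩
          · exact ⟨Or.inr (Or.inr rfl), h.2.2.2.2⟩)
      omega
    obtain ⟨e1, -, -⟩ := N.tri_of hbp hwp
    rw [hrp] at e1
    have hup : ¬ N.adj u p := by
      intro hup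
      rcases N.adj_rot hbu hbp hup with h1 | h1
      · exact h1.2 hwu
      · exact hne (h1.1.symm.trans hrp)
    refine ⟨⟨hbu, ?_⟩, e1, hup, ?_⟩
    · intro z hz hzu
      rcases (hN z).1 (N.symm hz) with rfl | rfl | rfl
      · exact N.irr _ hzu
      · exact hup (N.symm hzu)
      · exact huw (N.symm hzu)
    · exact N.cor_of_win hbu hwu
  · right
    obtain ⟨e1, -, -⟩ := N.tri_of hbu hwu
    have hwp : N.win b p := by
      by_contra hwp
      have h1 := N.a_eq_of (b := b) (s := {w}) (by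
        intro z
        rw [hN z]
        simp only [mem_singleton]
        constructor
        · rintro ⟨rfl | rfl | rfl, h2⟩
          · exact absurd h2 hwu
          · exact absurd h2 hwp
          · rfl
        · rintro rfl; exact ⟨Or.inr (Or.inr rfl), h.2.2.2.2⟩)
      rw [card_singleton] at h1
      omega
    have hpw' : ¬ N.adj p w := by
      intro hpw'
      rcases N.adj_rot hbp h.2.1 hpw' with h1 | h1
      · exact h1.2 hwp
      · exact h1.2 h.2.2.2.2
    refine ⟨⟨h.2.1, ?_⟩, e1, hpw', ?_⟩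
    · intro z hz hzw
      rcases (hN z).1 (N.symm hz) with rfl | rfl | rfl
      · exact huw hzw
      · exact hpw' hzw
      · exact N.irr _ hzw
    · have := N.cor_of_win hbp hwp
      rwa [hrp] at this

/-- a corner at a thin edge is not the only one -/
theorem thin_right_a {u b w : κ} (h : N.Cor u b w) (ht : N.Thin b w) : 2 ≤ N.a b := by
  obtain ⟨y, hby, hy⟩ := N.exists_rot h.2.1
  have hyw : y ≠ w := by
    rintro rfl; exact N.rot_ne hby hy
  have hwy : N.win b y := by
    by_contra hwy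
    obtain ⟨e1, -, -⟩ := N.tri_of hby hwy
    rw [hy] at e1
    exact ht.2 y (N.symm hby) e1
  exact N.two_le_a h.2.1 h.2.2.2.2 hby hwy hyw

/-- a corner at a thin edge is not the only one -/
theorem thin_left_a {u b w : κ} (h : N.Cor u b w) (ht : N.Thin b u) : 2 ≤ N.a b := by
  have hbu : N.adj b u := N.symm h.1
  have hwu : N.win b u := by
    by_contra hwu
    obtain ⟨e1, -, -⟩ := N.tri_of hbu hwu
    exact ht.2 _ (N.symm (N.rot_adj hbu)) (N.symm e1)
  exact N.two_le_a h.2.1 h.2.2.2.2 hbu hwu h.ne_uw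

end Nerve

end Pool.Agent.Helper26.OC
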