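import Mathlib
import Pool.Agent.Helper26.OC.Base

/-!
# Weights of corners: bounds; symmetric corners
-/

set_option autoImplicit false

open Finset

namespace Pool.Agent.Helper26.OC

namespace Nerve

variable {κ : Type} [Fintype κ] [DecidableEq κ] (N : Nerve κ)

/-! ### Marks -/

omit [Fintype κ] [DecidableEq κ] in
theorem nu_eq_zero {T : Finset κ} {b : κ} : N.nu T b = 0 ↔ ∀ y ∈ T, ¬ N.adj b y := by
  classical
  unfold nu
  rw [card_eq_zero, filter_eq_empty_iff]

omit [Fintype κ] [DecidableEq κ] in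
theorem nu_pos {T : Finset κ} {b y : κ} (hy : y ∈ T) (h : N.adj b y) : 1 ≤ N.nu T b := by
  classical
  unfold nu
  exact card_pos.2 ⟨y, mem_filter.2 ⟨hy, h⟩⟩

omit [Fintype κ] in
theorem nu_two {T : Finset κ} {b y z : κ} (hy : y ∈ T) (hz : z ∈ T) (hyz : y ≠ z)
    (h : N.adj b y) (h' : N.adj b z) : 2 ≤ N.nu T b := by
  classical
  unfold nu
  have h1 : ({y, z} : Finset κ) ⊆ T.filter (fun y => N.adj b y) := by
    intro v hv
    rw [mem_insert, mem_singleton] at hv
    rcases hv with rfl | rfl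
    · exact mem_filter.2 ⟨hy, h⟩
    · exact mem_filter.2 ⟨hz, h'⟩
  calc 2 = ({y, z} : Finset κ).card := (card_pair hyz).symm
    _ ≤ _ := card_le_card h1

omit [Fintype κ] [DecidableEq κ] in
/-- a clique has at most three elements -/
theorem Clq.card_le {T : Finset κ} (hT : N.Clq T) : T.card ≤ 3 := by
  classical
  by_contra hc
  push Not at hc
  obtain ⟨s, hs, hs4⟩ := exists_subset_card_eq (show 4 ≤ T.card by omega)
  rw [card_eq_succ] at hs4
  obtain ⟨x, s3, hx, rfl, h3⟩ := hs4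
  rw [card_eq_three] at h3
  obtain ⟨y, z, u, hyz, hyu, hzu, rfl⟩ := h3
  have m : ∀ v ∈ (insert x {y, z, u} : Finset κ), v ∈ T := fun v hv => hs hv
  have mx := m x (by simp)
  have my := m y (by simp)
  have mz := m z (by simp)
  have mu := m u (by simp)
  simp only [mem_insert, mem_singleton, not_or] at hx
  exact N.noK4 (hT x mx y my hx.1) (hT x mx z mz hx.2.1) (hT x mx u mu hx.2.2)
    (hT y my z mz hyz) (hT y my u mu hyu) (hT z mz u mu hzu)

omit [Fintype κ] in
/-- a far vertex has at most two marks -/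
theorem nu_le {T : Finset κ} (hT : N.Clq T) {b : κ} (hb : b ∉ T) : N.nu T b ≤ 2 := by
  classical
  by_contra hc
  push Not at hc
  have h1 : N.Clq (insert b (T.filter (fun y => N.adj b y))) := by
    intro x hx y hy hxy
    rw [mem_insert, mem_filter] at hx hy
    rcases hx with rfl | hx
    · rcases hy with rfl | hy
      · exact absurd rfl hxy
      · exact hy.2
    · rcases hy with rfl | hy
      · exact N.symm hx.2
      · exact hT x hx.1 y hy.1 hxy
  have h2 := h1.card_le N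
  rw [card_insert_of_notMem (fun h => hb (mem_filter.1 h).1)] at h2
  unfold nu at hc
  omega

/-- a neighbour in `T` of a far vertex with at most ... -/
theorem mark_unique {T : Finset κ} {b y z : κ} (h1 : N.nu T b ≤ 1) (hy : y ∈ T) (hz : z ∈ T)
    (h : N.adj b y) (h' : N.adj b z) : y = z := by
  by_contra hyz
  have := N.nu_two hy hz hyz h h'
  omega

/-! ### Far corners -/

section far

variable {T : Finset κ} {q : ℚ} {u b w : κ}

omit [Fintype κ] [DecidableEq κ] in
theorem Cor.a_pos' [Fintype κ] (h : N.Cor u b w) : 1 ≤ N.a b := N.a_pos h.2.1 h.2.2.2.2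

theorem wt_far (hb : b ∉ T) : N.wt q T u b w = N.wf q T u b w := by
  unfold wt; rw [if_neg hb]

theorem wt_near (hb : b ∈ T) : N.wt q T u b w = N.wn T u b w := by
  unfold wt; rw [if_pos hb]

theorem wf_nonneg (hq : 0 ≤ q) : 0 ≤ N.wf q T u b w := by
  unfold wf; split_ifs <;> first | exact hq | norm_num

theorem wn_nonneg : 0 ≤ N.wn T u b w := by
  unfold wn; split_ifs <;> norm_num

theorem wt_nonneg (hq : 0 ≤ q) : 0 ≤ N.wt q T u b w := by
  unfold wt; split_ifs
  · exact N.wn_nonneg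
  · exact N.wf_nonneg hq

/-- long corners which are not strips -/
theorem one_le_wf (ha : 1 ≤ N.a b) (hS : ¬ N.S b) (hSt : ¬ N.St b) (hq : 1 ≤ q) :
    1 ≤ N.wf q T u b w := by
  have haG := N.a_le_G b
  unfold wf
  split_ifs with h1 h2 h3 h4 h5 h6 h7 h8 h9 h10 h11 h12 <;>
    first
    | exact hq
    | (norm_num; done)
    | (exfalso; exact hS ⟨h1, h2⟩)
    | (exfalso; exact hSt ⟨by omega, by assumption⟩)

/-- the vertex has exactly one chain, of length four -/
def Q (b : κ) : Prop := N.a b = 1 ∧ N.G b = 4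

theorem threehalf_le_wf (ha : 1 ≤ N.a b) (hS : ¬ N.S b) (hSt : ¬ N.St b) (hQ : ¬ N.Q b)
    (hq : 3 / 2 ≤ q) : 3 / 2 ≤ N.wf q T u b w := by
  have haG := N.a_le_G b
  unfold wf
  split_ifs with h1 h2 h3 h4 h5 h6 h7 h8 h9 h10 h11 h12 <;>
    first
    | exact hq
    | (norm_num; done)
    | (exfalso; exact hS ⟨h1, h2⟩)
    | (exfalso; exact hQ ⟨h1, by assumption⟩)
    | (exfalso; exact hSt ⟨by omega, by assumption⟩)

theorem multi_le_wf (ha : 2 ≤ N.a b) (hSt : ¬ N.St b) (hq : 3 / 2 ≤ q) :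
    3 / 2 ≤ N.wf q T u b w :=
  N.threehalf_le_wf (by omega) (fun h => by have := h.1; omega) hSt
    (fun h => by have := h.1; omega) hq

theorem half_le_wf (ha : 1 ≤ N.a b) (hS : ¬ N.S b) (hq : 1 ≤ q) :
    1 / 2 ≤ N.wf q T u b w := by
  by_cases hSt : N.St b
  · unfold wf
    rw [if_neg (by have := hSt.1; omega), if_pos hSt.2]
    split_ifs <;> norm_num
  · exact le_trans (by norm_num) (N.one_le_wf ha hS hSt hq)

theorem wf_St_marked (hSt : N.St b) (hn : 1 ≤ N.nu T b) : N.wf q T u b w = 1 := by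
  unfold wf
  rw [if_neg (by have := hSt.1; omega), if_pos hSt.2, if_neg (by omega)]

theorem wf_S_two (hS : N.S b) (hn : N.nu T b = 2) : N.wf q T u b w = 1 := by
  unfold wf
  rw [if_pos hS.1, if_pos hS.2, if_pos hn]

/-- unmarked long corners -/
theorem wf_unmarked (ha : 1 ≤ N.a b) (hS : ¬ N.S b) (hSt : ¬ N.St b) (hn : N.nu T b = 0)
    (hq : q ≤ 2) : min q (11 / 6) ≤ N.wf q T u b w := by
  have haG := N.a_le_G b
  have hq2 : min q (11 / 6) ≤ 2 := le_trans (min_le_left _ _) hq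
  unfold wf
  split_ifs with h1 h2 h3 h4 h5 h6 h7 h8 h9 h10 h11 h12 <;>
    first
    | (exfalso; exact hS ⟨by assumption, by assumption⟩)
    | (exfalso; exact hSt ⟨by omega, by assumption⟩)
    | (exfalso; omega)
    | exact min_le_left _ _
    | exact min_le_right _ _
    | exact hq2
    | (refine le_trans hq2 ?_; norm_num; done)

/-- unmarked long corners which are not strips, (2,1), (1,1,1) -/
theorem wf_unmarked_two (ha : 1 ≤ N.a b) (hS : ¬ N.S b) (hSt : ¬ N.St b) (hn : N.nu T b = 0)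
    (hF : ¬ N.Free T b) (h3 : ¬ (N.G b = 3 ∧ N.a b = 3)) : 2 ≤ N.wf q T u b w := by
  have haG := N.a_le_G b
  unfold wf
  split_ifs with h1 h2 h3 h4 h5 h6 h7 h8 h9 h10 h11 h12 <;>
    first
    | (norm_num; done)
    | (exfalso; exact hS ⟨h1, h2⟩)
    | (exfalso; exact hSt ⟨by omega, by assumption⟩)
    | (exfalso; apply hF; assumption)
    | (exfalso; tauto)
    | omega

/-- one mark, on the window next to the corner -/
theorem wf_end (ha : 1 ≤ N.a b) (hS : ¬ N.S b) (hSt : ¬ N.St b) (hn : N.nu T b = 1)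
    (hm : u ∈ T ∨ w ∈ T) (hq : q ≤ 2) : q ≤ N.wf q T u b w := by
  have haG := N.a_le_G b
  unfold wf
  split_ifs with h1 h2 h3 h4 h5 h6 h7 h8 h9 h10 h11 h12 <;>
    first
    | exact le_rfl
    | exact hq
    | (exfalso; exact hS ⟨h1, h2⟩)
    | (exfalso; exact hSt ⟨by omega, by assumption⟩)
    | omega
    | (exfalso; tauto)

theorem wf_end_two (ha : 1 ≤ N.a b) (hS : ¬ N.S b) (hSt : ¬ N.St b) (hn : N.nu T b = 1)
    (hm : u ∈ T ∨ w ∈ T) (hF : ¬ N.Free T b) : 2 ≤ N.wf q T u b w := by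
  have haG := N.a_le_G b
  unfold wf
  split_ifs with h1 h2 h3 h4 h5 h6 h7 h8 h9 h10 h11 h12 <;>
    first
    | exact le_rfl
    | (exfalso; exact hS ⟨h1, h2⟩)
    | (exfalso; exact hSt ⟨by omega, by assumption⟩)
    | omega
    | (exfalso; tauto)

theorem wf_free (ha : N.T21 b) (hF : N.Free T b) : N.wf q T u b w = q := by
  unfold wf
  rw [if_neg (by have := ha.1; omega), if_neg (by have := ha.2; omega), if_pos hF]

end far

/-! ### Symmetric corners -/

/-- a corner, in one of the two directions -/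
def Cr (u b w : κ) : Prop := N.Cor u b w ∨ N.Cor w b u

section sym

variable {u b w : κ}

omit [Fintype κ] [DecidableEq κ] in
theorem Cr.symm (h : N.Cr u b w) : N.Cr w b u := Or.symm h

omit [Fintype κ] [DecidableEq κ] in
theorem Cor.cr (h : N.Cor u b w) : N.Cr u b w := Or.inl h

omit [Fintype κ] [DecidableEq κ] in
theorem Cr.left (h : N.Cr u b w) : N.adj b u := by
  rcases h with h | h
  · exact N.symm h.1
  · exact h.2.1

omit [Fintype κ] [DecidableEq κ] in
theorem Cr.right (h : N.Cr u b w) : N.adj b w := (Cr.symm N h).left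

omit [Fintype κ] [DecidableEq κ] in
theorem Cr.ne (h : N.Cr u b w) : u ≠ w := by
  rcases h with h | h
  · exact h.ne_uw
  · exact h.ne_uw.symm

omit [DecidableEq κ] in
theorem Cr.a_pos (h : N.Cr u b w) : 1 ≤ N.a b := by
  rcases h with h | h
  · exact N.a_pos h.2.1 h.2.2.2.2
  · exact N.a_pos h.2.1 h.2.2.2.2

omit [Fintype κ] [DecidableEq κ] in
/-- an edge of a window has at most one common neighbour -/
theorem Cr.cn_unique (h : N.Cr u b w) {p q : κ} (hb : N.adj b p) (hw : N.adj w p)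
    (hb' : N.adj b q) (hw' : N.adj w q) : p = q := by
  rcases h with h | h
  · exact h.cn_right_unique N hb (N.symm hw) hb' (N.symm hw')
  · exact h.cn_left_unique N hb hw hb' hw'

omit [Fintype κ] [DecidableEq κ] in
theorem Cr.nbr2 (h : N.Cr u b w) (huw : N.adj u w) (z : κ) : N.adj b z ↔ z = u ∨ z = w := by
  rcases h with h | h
  · exact h.nbr2 N huw z
  · rw [h.nbr2 N (N.symm huw) z]; tauto

omit [Fintype κ] [DecidableEq κ] in
theorem Cr.nbr3 (h : N.Cr u b w) {p : κ} (hp : N.adj b p) (hup : N.adj u p)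
    (hpw : N.adj w p) (z : κ) : N.adj b z ↔ z = u ∨ z = p ∨ z = w := by
  rcases h with h | h
  · exact h.nbr3 N hp hup (N.symm hpw) z
  · rw [h.nbr3 N hp hpw (N.symm hup) z]; tauto

omit [Fintype κ] [DecidableEq κ] in
theorem Cr.nbr4 (h : N.Cr u b w) {p q : κ} (hp : N.adj b p) (hup : N.adj u p)
    (hq : N.adj b q) (hqw : N.adj w q) (hpq : N.adj p q) (hpw : p ≠ w) (hqu : q ≠ u) (z : κ) :
    N.adj b z ↔ z = u ∨ z = p ∨ z = q ∨ z = w := by
  rcases h with h | h
  · exact h.nbr4 N hp hup hq (N.symm hqw) hpq hpw z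
  · rw [h.nbr4 N hq hqw hp (N.symm hup) (N.symm hpq) hqu z]; tauto

/-- short corners -/
theorem Cr.S_cases (h : N.Cr u b w) (hS : N.S b) :
    (N.adj u w ∧ ∀ z, N.adj b z ↔ z = u ∨ z = w) ∨
    (∃ p, N.adj b p ∧ N.adj u p ∧ N.adj w p ∧ ¬ N.adj u w ∧ p ≠ u ∧ p ≠ w ∧
      ∀ z, N.adj b z ↔ z = u ∨ z = p ∨ z = w) := by
  rcases h with h | h
  · rcases N.S_cases h hS with h1 | ⟨p, h1, h2, h3, h4, h5, h6, h7⟩
    · exact Or.inl h1
    · exact Or.inr ⟨p, h1, h2, N.symm h3, h4, h5, h6, h7⟩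
  · rcases N.S_cases h hS with h1 | ⟨p, h1, h2, h3, h4, h5, h6, h7⟩
    · exact Or.inl ⟨N.symm h1.1, fun z => by rw [h1.2 z]; tauto⟩
    · exact Or.inr ⟨p, h1, N.symm h3, h2, fun h => h4 (N.symm h), h6, h5,
        fun z => by rw [h7 z]; tauto⟩

theorem Cr.Q_cases (h : N.Cr u b w) (hQ : N.Q b) :
    ∃ p q, N.adj b p ∧ N.adj b q ∧ N.adj u p ∧ N.adj p q ∧ N.adj w q ∧ p ≠ u ∧ p ≠ w ∧ q ≠ u ∧
      q ≠ w ∧ p ≠ q ∧ ∀ z, N.adj b z ↔ z = u ∨ z = p ∨ z = q ∨ z = w := by
  rcases h with h | h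
  · obtain ⟨p, q, h1, h2, h3, h4, h5, h6, h7, h8, h9, h10, h11⟩ := N.Q_cases h hQ.1 hQ.2
    exact ⟨p, q, h1, h2, h3, h4, N.symm h5, h6, h7, h8, h9, h10, h11⟩
  · obtain ⟨p, q, h1, h2, h3, h4, h5, h6, h7, h8, h9, h10, h11⟩ := N.Q_cases h hQ.1 hQ.2
    exact ⟨q, p, h2, h1, N.symm h5, N.symm h4, h3, h9, h8, h7, h6, h10.symm,
      fun z => by rw [h11 z]; tauto⟩

theorem Cr.St_cases (h : N.Cr u b w) (hS : N.St b) :
    ¬ N.adj u w ∧ N.Thin b u ∧ N.Thin b w ∧ ∀ z, N.adj b z ↔ z = u ∨ z = w := by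
  rcases h with h | h
  · obtain ⟨h1, -, h3, h4, h5⟩ := N.St_cases h hS
    exact ⟨h1, h3, h4, h5⟩
  · obtain ⟨h1, -, h3, h4, h5⟩ := N.St_cases h hS
    exact ⟨fun h => h1 (N.symm h), h4, h3, fun z => by rw [h5 z]; tauto⟩

theorem Cr.T21_cases (h : N.Cr u b w) (hS : N.T21 b) :
    ∃ p, p ≠ u ∧ p ≠ w ∧ (∀ z, N.adj b z ↔ z = u ∨ z = p ∨ z = w) ∧ ¬ N.adj u w ∧
      ((N.Thin b u ∧ N.adj p w ∧ ¬ N.adj u p ∧ N.Cr p b u) ∨
        (N.Thin b w ∧ N.adj u p ∧ ¬ N.adj p w ∧ N.Cr w b p)) := by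
  rcases h with h | h
  · obtain ⟨p, h1, h2, h3, h4, h5⟩ := N.T21_cases h hS
    refine ⟨p, h1, h2, h3, h4, ?_⟩
    rcases h5 with ⟨h5, h6, h7, h8⟩ | ⟨h5, h6, h7, h8⟩
    · exact Or.inl ⟨h5, h6, h7, h8.cr⟩
    · exact Or.inr ⟨h5, h6, h7, h8.cr⟩
  · obtain ⟨p, h1, h2, h3, h4, h5⟩ := N.T21_cases h hS
    refine ⟨p, h2, h1, fun z => by rw [h3 z]; tauto, fun h => h4 (N.symm h), ?_⟩
    rcases h5 with ⟨h5, h6, h7, h8⟩ | ⟨h5, h6, h7, h8⟩
    · exact Or.inr ⟨h5, N.symm h6, fun h => h7 (N.symm h), Or.inr h8⟩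
    · exact Or.inl ⟨h5, N.symm h6, fun h => h7 (N.symm h), Or.inr h8⟩

theorem Cr.thin_a (h : N.Cr u b w) (ht : N.Thin b w) : 2 ≤ N.a b := by
  rcases h with h | h
  · exact N.thin_right_a h ht
  · exact N.thin_left_a h ht

omit [Fintype κ] [DecidableEq κ] in
theorem Thin.symm {x y : κ} (h : N.Thin x y) : N.Thin y x :=
  ⟨N.symm h.1, fun z hz hz' => h.2 z hz' hz⟩

/-- numbers of a vertex of degree two in a triangle -/
theorem Cr.S_of2 (h : N.Cr u b w) (huw : N.adj u w) : N.S b := by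
  have hG := N.G_eq_of (b := b) (s := {u, w}) (by
    intro z; rw [Cr.nbr2 N h huw]; simp only [mem_insert, mem_singleton])
  rw [card_pair (Cr.ne N h)] at hG
  have ha := Cr.a_pos N h
  have haG := N.a_le_G b
  refine ⟨?_, by omega⟩
  by_contra hne
  have hSt : N.St b := ⟨by omega, hG⟩
  exact (Cr.St_cases N h hSt).1 huw

/-- numbers of a vertex with one chain of length three -/
theorem Cr.S_of3 (h : N.Cr u b w) {p : κ} (hp : N.adj b p) (hup : N.adj u p)
    (hpw : N.adj w p) : N.S b := by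
  classical
  have hN := Cr.nbr3 N h hp hup hpw
  have hG := N.G_eq_of (b := b) (s := {u, p, w}) (by
    intro z; rw [hN]; simp only [mem_insert, mem_singleton])
  have hup' := N.ne_of_adj hup
  have hpw' := N.ne_of_adj hpw
  rw [card_insert_of_notMem, card_pair hpw'.symm] at hG
  swap
  · simp only [mem_insert, mem_singleton, not_or]; exact ⟨hup', Cr.ne N h⟩
  have ha := Cr.a_pos N h
  refine ⟨?_, by omega⟩
  -- the darts b → p and one of b → u, b → w are not windows
  have key : ∀ u w : κ, N.Cor u b w → N.adj u p → N.adj w p →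
      (∀ z, N.adj b z ↔ z = u ∨ z = p ∨ z = w) → N.a b = 1 := by
    intro u w h hup hpw hN
    have e1 := h.cn_left N hp hup
    have e2 := h.cn_right N hp (N.symm hpw)
    have := N.a_eq_of (b := b) (s := {w}) (by
      intro z
      rw [hN z, mem_singleton]
      constructor
      · rintro ⟨rfl | rfl | rfl, h2⟩
        · exact absurd h2 e1.2
        · exact absurd h2 e2.2
        · rfl
      · rintro rfl; exact ⟨Or.inr (Or.inr rfl), h.2.2.2.2⟩)
    rwa [card_singleton] at this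
  rcases h with h | h
  · exact key u w h hup hpw hN
  · exact key w u h hpw hup (fun z => by rw [hN z]; tauto)

/-- numbers of a vertex with one chain of length four -/
theorem Cr.Q_of4 (h : N.Cr u b w) {p q : κ} (hp : N.adj b p) (hup : N.adj u p)
    (hq : N.adj b q) (hqw : N.adj w q) (hpq : N.adj p q) (hpw : p ≠ w) (hqu : q ≠ u) :
    N.Q b := by
  classical
  have hN := Cr.nbr4 N h hp hup hq hqw hpq hpw hqu
  have hG := N.G_eq_of (b := b) (s := {u, p, q, w}) (by
    intro z; rw [hN]; simp only [mem_insert, mem_singleton])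
  have hup' := N.ne_of_adj hup
  have hqw' := N.ne_of_adj hqw
  have hpq' := N.ne_of_adj hpq
  rw [card_insert_of_notMem, card_insert_of_notMem, card_pair hqw'.symm] at hG
  rotate_left
  · simp only [mem_insert, mem_singleton, not_or]; exact ⟨hpq', hpw⟩
  · simp only [mem_insert, mem_singleton, not_or]; exact ⟨hup', hqu.symm, Cr.ne N h⟩
  refine ⟨?_, hG⟩
  have key : ∀ u w p q : κ, N.Cor u b w → N.adj b p → N.adj b q → N.adj u p → N.adj w q →
      N.adj p q → p ≠ w →
      (∀ z, N.adj b z ↔ z = u ∨ z = p ∨ z = q ∨ z = w) → N.a b = 1 := by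
    intro u w p q h hp hq hup hqw hpq hpw hN
    have e1 := h.cn_left N hp hup
    have e2 := h.cn_right N hq (N.symm hqw)
    have e3 : ¬ N.win b p := by
      rcases N.adj_rot hp hq hpq with h1 | h1
      · exact h1.2
      · exact absurd (h1.1.symm.trans e2.1) hpw
    have := N.a_eq_of (b := b) (s := {w}) (by
      intro z
      rw [hN z, mem_singleton]
      constructor
      · rintro ⟨rfl | rfl | rfl | rfl, h2⟩
        · exact absurd h2 e1.2
        · exact absurd h2 e3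
        · exact absurd h2 e2.2
        · rfl
      · rintro rfl; exact ⟨Or.inr (Or.inr (Or.inr rfl)), h.2.2.2.2⟩)
    rwa [card_singleton] at this
  rcases h with h | h
  · exact key u w p q h hp hq hup hqw hpq hpw hN
  · exact key w u q p h hq hp hqw hup (N.symm hpq) hqu (fun z => by rw [hN z]; tauto)

end sym

end Nerve

end Pool.Agent.Helper26.OC
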