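import Mathlib
import Pool.Agent.Helper26.OC.Wt

/-!
# Window inequalities: statements of the modules, with complete proofs in the docstrings

Notation in the docstrings: `N : Nerve κ`, `T` a nonempty clique (so `1 ≤ |T| ≤ 3`), `f` a window
(`IsWin k f`, corners `f 0, …, f (k-1)`), `x, y, z` members of `T`, `~` adjacency.  Every corner
`f (i+1)` has `N.Cor (f i) (f (i+1)) (f (i+2))`; use the symmetric version `Cr` (file `Wt.lean`).
Tools: `Cr.cn_unique` (an edge of a window has at most one common neighbour),
`Cr.nbr2/nbr3/nbr4` (a path in the link from one window neighbour to the other is the whole link),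
`Cr.S_of2/S_of3/Q_of4`, `Cr.S_cases/Q_cases/St_cases/T21_cases`, `Cr.thin_a` (a corner at a thin
edge has `a ≥ 2`), bounds of weights in `Wt.lean`.  `S` = short, a corner is LONG if it is not `S`.
A far vertex is a vertex outside `T`.
-/

set_option autoImplicit false

open Finset

namespace Pool.Agent.Helper26.OC

/-! ### Module SHIFT -/

/-- Module SHIFT.  A window may be started at any corner. -/
def StShift : Prop := ∀ {κ : Type} [Fintype κ] [DecidableEq κ] (N : Nerve κ) (k : ℕ) (f : ℕ → κ)
  (j : ℕ), N.IsWin k f → N.IsWin k (fun i => f (i + j)) ∧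
    N.lng k (fun i => f (i + j)) = N.lng k f ∧
    ∀ (q : ℚ) (T : Finset κ), N.TF q T k (fun i => f (i + j)) = N.TF q T k f

/-! ### Module ST: windows with an unmarked far strip -/

/-- Module ST.  A window with a far strip without marks has nonnegative surplus, even if all `Free`
corners only count `3/2`.

PROOF.  (1) `f` has two different corners `u = f j`, `v = f l` (`j, l < k`, `j ≠ l`), far, not
strips, with `2 ≤ a`.  Let `s₀ = f i` be the strip, `s₀ ∉ T`, `nu T s₀ = 0`.  Go from `s₀` along the
window in the positive direction as long as the corners are strips.  By induction all corners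
reached are far and unmarked: if `s = f m` is an unmarked far strip then `N(s) = {f (m-1), f (m+1)}`
(`St_cases`), so `f (m+1) ∉ T`; if `f (m+1)` is a strip it is far, and unmarked: its neighbours are
`s ∉ T` and `f (m+2)`; if `f (m+2) ∈ T` then `x = f (m+2)`, `s' = f (m+1)`, `s` contradict `NR2`
(`x ~ s' ~ s`, both far strips, `x ≠ s` since `s ∉ T`).  If all corners of the window are such
strips, then `{f i}` is closed under adjacency, so it is everything (`N.conn`), and `T = ∅`,
contradiction.  So there is a first corner `u` which is not a strip; it is far, and adjacent by the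
thin edge (`St_cases`) to the last strip, so `2 ≤ a u` (`Cr.thin_a`).  In the same way in the
negative direction: `v`.  If `u = v` then all corners except `u` are unmarked far strips; the set
of these strips is closed under adjacency outside `u`, so by `N.conn_del u` every vertex other than
`u` is one of them; `N(u)` then consists of the two window neighbours of `u` (a strip `f m` with
`f m ~ u` has `u` as one of its window neighbours), so `G u = 2`, `2 ≤ a u ≤ G u`, so `u` is a
strip, contradiction.
(2) So the sum of the weights is at least `1/2 + 3/2 + 3/2 = 7/2` (`multi_le_wf`, `half_le_wf`, all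
other weights are `≥ 0`, `wt_nonneg`).  If `k ≥ 6` this gives `D ≥ 6 - 9 + 7/2 ≥ 0`.
(3) `k = 5`.  Need `TF ≥ 4`.  Let `m` be the number of strips in the run through `s₀`.
`m = 3`: `3 · 1/2 + 2 · 3/2 = 9/2`.  `m = 2`: `2 · 1/2 + 2 · 3/2 = 4`.  `m = 1`: the window is
`u, s, v, c, d` with `u, v` far, `a ≥ 2`, not strips.
`c, d` are not both short: suppose they are.  A window of length 5 with three long corners has no
chord: `d ~ v` (`= f`-distance 2) would give `S c`, then the 4-cycle `u, s, v, d`: `u ~ v` (no,
`s` is a strip) or `s ~ d` (no).  Similarly `c ≁ u`, and `u ≁ v`.  So `c` has the neighbours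
`v, p, d` and `d` has the neighbours `c, p', u`, `p ~ v, c, d`, `p' ~ c, d, u`; `p = p'`
(`Cr.cn_unique` for the edge `c d`; `p ≠ u`, `p' ≠ v` since `u ≁ c`).  Then `u, s, v, p` is a
4-cycle: `u ~ v` or `s ~ p`, impossible (`N(s) = {u, v}`, `p ≠ u, v`).
So one of `c, d` is long.  If it is far: its weight is `≥ 1/2` (`half_le_wf`), and
`1/2 + 3/2 + 3/2 + 1/2 = 4`.  So assume that `c` (or `d`) is long and in `T` and the other one is
short or in `T`.  If both are in `T` the edge `c d` counts `1`: `7/2 + 1`.  If exactly one is in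
`T`, say `d = x ∈ T` (so `x ~ u`), `c` short, far.  If `|T| ≥ 2`: `x` has weight `≥ 1/2`: for
`|T| = 3` this is clear from `wn`; for `|T| = 2`, `T = {x, y}`, `y` is not on the window, so
`u, c ∉ T` and the value `0` does not occur in `wn`; `1/4` occurs only for a vertex of type (2,1)
with a thin mark `y`; by `T21_cases` one of the edges from `x` to its window neighbours is thin and
the third neighbour `y` of `x` is fat, a contradiction; all other values are `≥ 1/2`.  Total
`1/2 + 3/2 + 3/2 + 1/2 = 4`.  If `T = {x}`: `u` has exactly one mark `x`, which is its window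
neighbour.  `u` is not `Free`: a vertex of type (2,1) has only one thin edge at most
(`T21_cases`: exactly one of its window neighbours is thin, here `s`; `x` would have to be thin
too).  So `2 ≤` weight of `u` (`wf_end_two`) and `2 + 1/2 + 3/2 = 4`. -/
def StST : Prop := ∀ {κ : Type} [Fintype κ] [DecidableEq κ] (N : Nerve κ) (T : Finset κ) (k : ℕ)
  (f : ℕ → κ), T.Nonempty → N.Clq T → N.NR2 T → N.IsWin k f →
  (∃ i, N.St (f i) ∧ f i ∉ T ∧ N.nu T (f i) = 0) → 0 ≤ N.D (3 / 2) T k f

/-! ### Modules HEXONE, HEX, K7, K8 -/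

/-- Module HEXONE.  Windows with six corners through the only near facet.

PROOF.  `T = {x}`, `x = f 0` after a shift (`StShift`).  `x` is long since `a x ≥ 3`.  Need
`TF ≥ 3`.  Write `b i = f i`.  All far corners have weight `≥ 0`; long far corners have weight
`≥ 1` (`one_le_wf` if it is not a strip; a strip is marked by hypothesis, `wf_St_marked`).
There are at least two long far corners.  If there are three: done.  So let there be exactly two,
`u` and `v`; need `wt u + wt v ≥ 3`.  (i) If one of them, say `u`, is a strip: it is marked, so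
(as `N(u)` = its two window neighbours) it is next to `x`, say `u = b 1`; its other neighbour `b 2`
is long (`Cr.thin_a`), so `v = b 2` and `b 3, b 4, b 5` are short.  `x ≁ b 2` (else the edge `x u`
is not thin).  Claim: there is `p` with `p ~ b 2` and `p ~ x`, `p ≠ b 1`: by `S_cases` for `b 3`,
`b 4`, `b 5` and `Cr.cn_unique`: the edge `b3 b4` has exactly one common neighbour `h` and so has
`b4 b5`; if `b 4` has degree 3 then the two hubs agree; if it has degree 2 then `b 3 ~ b 5`, the hub
of `b3 b4` is `b 5` and the hub of `b4 b5` is `b 3`; then `N(b 3) ∋ b 2, b 4, b 5` so `b 5 ~ b 2`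
and `N(b 5) ∋ b 4, b 3, x` so `b 3 ~ x`, and `b 3 ~ b 2`: take `p = b 3`.  If the hub of `b3 b4`
and `b4 b5` is the same vertex `h`: `h = b 2` or `h ~ b 2` (as `b 3` is short: `N(b 3)` is
`{b 2, b 4}` with hub `b 2`, or `{b 2, h, b 4}`), and `h = x` or `h ~ x`; `h = b 2` gives
`b 2 ~ x` or `b 2 = x`, impossible; `h = x` similar; so `p = h`.  Now `x, b 1, b 2, p` is a 4-cycle:
`x ~ b 2` (no) or `b 1 ~ p` (no, `N(b 1) = {x, b 2}`).  Contradiction.
(ii) So `u, v` are not strips.  By `threehalf_le_wf` we may assume that one of them, say `u`, is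
`Q` (one chain, four neighbours) [otherwise `3/2 + 3/2`], and has weight `1`, so it has the mark
`x` and `x` is not its window neighbour (otherwise its weight is `≥ 2`, or `v` ... ; if `u` has
weight `≥ 2` then `wt v ≥ 1` suffices).  So `x ~ u`, `u ∈ {b 2, b 3, b 4}`.  By the symmetry
`b i ↦ b (6 - i)` (use `Cr.symm`, or repeat the argument) `u = b 2` or `u = b 3`.
(ii-a) `u = b 2`: `b 1` has degree 2 (`Cr.nbr2`).  `v ∈ {b 3, b 4, b 5}`.
 - `v = b 3` (so `b 4`, `b 5` short).  If `x ~ b 3` then `N(b 2) = {b 1, x, b 3}` (`nbr3`),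
   contradiction to `G = 4`.  So `v` is unmarked.  `v` is not `Free` and not of type (1,1,1):
   the edge `b2 b3` is not thin because `a (b 2) = 1` (`Cr.thin_a`), the edge `b3 b4` is not thin
   because `a (b 4) = 1`; see `T21_cases` (one of the two window edges is thin); for `a = G = 3` all
   darts at `v` are windows, so `v`'s edges are thin (`tri_of`).  So `wt v ≥ 2` (`wf_unmarked_two`).
 - `v = b 4` (so `b 3`, `b 5` short).  If `x ≁ b 4`: `v` is unmarked with fat window edges, so
   `wt v ≥ 2` as above.  If `x ~ b 4`: `b 5` has degree 2; `x, b 2, b 3, b 4` is a 4-cycle: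
   `x ~ b 3` (then `N(b 2) = {b 1, x, b 3}`, no) or `b 2 ~ b 4`: then `N(b 3) = {b 2, b 4}`,
   `N(x) = {b 5, b 4, b 2, b 1}` (`nbr4`), so `Q x` (`Q_of4`), `a x = 1`, contradiction.
 - `v = b 5` (so `b 3`, `b 4` short).  `v` has the mark `x`, its window neighbour.  If `v` is not
   `Free` then `wt v ≥ 2` (`wf_end_two`).  If it is `Free` then `v x` is thin.  The edge `b3 b4`
   has a hub `h` (common neighbour); as in (i) there is `p` with `p ~ b 2`, `p ~ b 5` or
   `b 2 ~ b 5`: [`h = b 2`: then `b 2 ~ b 4`, `N(b 4) ∋ b 2, b 3, b 5`, so `b 2 ~ b 5`; `h = b 5`: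
   `b 5 ~ b 3`, `N(b 3) ∋ b 2, b 5`, so `b 2 ~ b 5`; otherwise `p = h`].  `b 2 ~ b 5`: `b 2` is a
   common neighbour of `x` and `v`, so `v x` is not thin.  Otherwise `x, b 2, p, b 5` is a 4-cycle
   (`x ~ b 2 ~ p ~ b 5 ~ x`), so `x ~ p` (then `p` is a common neighbour of `x`, `v`) or
   `b 2 ~ b 5`.  Contradiction.
(ii-b) `u = b 3`: `x ~ b 3`.  `v ∈ {b 1, b 2}` or, by symmetry, `{b 4, b 5}`; say `v ∈ {b 4, b 5}`
   (so `b 1`, `b 2` are short).  As `b 1, b 2` are short and `x ~ b 3`: the 4-cycle
   `x, b 1, b 2, b 3` has a chord, `x ~ b 2` or `b 1 ~ b 3`.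
 - `v = b 4`, `b 5` short: if `x ~ b 4`: `x ~ b 2` gives `N(b 3) = {b 2, x, b 4}`, no.
   So `b 1 ~ b 3`, `N(x) ∋ b 1, b 3, b 4, b 5`, `b 5` has degree 2 and `N(x) = {b 5, b 4, b 3, b 1}`
   (`nbr4`), `a x = 1`, contradiction.  So `x ≁ b 4`, `v` is unmarked, its window edges are fat
   (`a (b 3) = 1`, `a (b 5) = 1`), `wt v ≥ 2`.
 - `v = b 5`, `b 4` short: `x ~ b 3`, `x ~ b 5`: the 4-cycle `x, b 3, b 4, b 5`: `b 3 ~ b 5` or
   `x ~ b 4`.  `x ~ b 4`: `N(b 5) ∋ x, b 4` adjacent, `N(b 5) = {x, b 4}`, `b 5` is short, no.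
   `b 3 ~ b 5`: `x b 3 b 5` is a triangle, `v x` is not thin, so `v` is not `Free` and
   `wt v ≥ 2`. -/
def StHexOne : Prop := ∀ {κ : Type} [Fintype κ] [DecidableEq κ] (N : Nerve κ) (x : κ)
  (f : ℕ → κ), N.IsWin 6 f → 3 ≤ N.lng 6 f → 3 ≤ N.a x → (∃ i, f i = x) →
  (∀ i, N.St (f i) → f i ≠ x → 1 ≤ N.nu {x} (f i)) → 3 ≤ N.TF (3 / 2) {x} 6 f

/-- Module HEX.  Windows with six corners for `|T| ≥ 2`, and for `T` outside the window.

PROOF.  Long far corners have weight `≥ 1` (strips are marked by hypothesis), all weights are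
`≥ 0`.  Near corners: for `|T| = 3` weight `1` if short, else `1/2`.  For `|T| = 2`: `2` if short;
if the other member `y` of `T` is not a window neighbour, a long near corner `x` has weight `≥ 1/2`
(the value `1/4` needs type (2,1) with all marks thin; by `T21_cases` a third neighbour which is
not a window neighbour is fat; strips have no third neighbour).
(0) `T` is disjoint from the window: at least three long far corners: `3`.
(1) Exactly one corner `x = f 0` of the window is in `T`, `|T| ≥ 2`; `b i = f i`.
If `x` is short there are three long far corners: `≥ 3`.  So `x` is long with weight `≥ 1/2`.  If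
there are three long far corners: `≥ 7/2`.  So exactly two: `u, v`, and `x`; need
`wt u + wt v + (rest) ≥ 5/2`.  If `u` is a strip (weight `1`, marked, so next to `x`) then as in
`StHexOne` (i) the next corner `v` is long and the three remaining corners are short, contradiction
by the same argument.  So `u, v` are not strips.  If one of them is not `Q` or has weight `≥ 3/2`:
done.  So both are `Q` with weight `1`: exactly one mark, and the mark is not a window neighbour;
in particular `u, v ∈ {b 2, b 3, b 4}`.
 - Suppose the mark of `u` is `y ≠ x` (`y ∉` window) and `u = b 2`: `x ≁ b 2` (one mark only),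
   `y ~ x`, `y ~ b 2`: the 4-cycle `x, b 1, b 2, y` gives `y ~ b 1`.  So `b 1` is short (it is not
   `u`, `v`, `x`) and has two marks: weight `1` (`wf_S_two`).  Total `≥ 7/2`.  The same for
   `u = b 4`, and for `v`.
 - Suppose the mark of `u` is `y ≠ x` and `u = b 3`; then `v = b 2` (or `b 4`, symmetric) and by
   the previous point the mark of `v` is `x`.  The 4-cycle `x, b 2, b 3, y` (`x ~ b 2 ~ b 3 ~ y ~
   x`): `x ~ b 3` (no, `u` has one mark only) or `b 2 ~ y` (no, `v` has one mark only).
 - So both have the mark `x`.  `{u, v} = {b 2, b 3}`: `N(b 2) = {b 1, x, b 3}` (`nbr3`), no.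
   `{b 3, b 4}` symmetric.  `{b 2, b 4}`: 4-cycle `x, b 2, b 3, b 4`: `x ~ b 3` gives
   `N(b 2) = {b 1, x, b 3}`, no; so `b 2 ~ b 4`.  Then `N(b 1) = {x, b 2}`, `N(b 3) = {b 2, b 4}`,
   `N(b 5) = {b 4, x}`, `N(x) = {b 5, b 4, b 2, b 1}`, `N(b 2) = {b 1, x, b 4, b 3}`,
   `N(b 4) = {b 3, b 2, x, b 5}` (`nbr2`, `nbr4`): the window is closed under adjacency, so it
   contains `T` (`N.conn`), contradiction to `|T| ≥ 2`.
(2) Exactly two corners of the window are in `T`: `x` and `y`.
(2a) `x = f 0`, `y = f 1`.  The edge counts `1`.  `|T| = 3`: near corners `≥ 1/2` each (short: `1`).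
If both are long there is a long far corner: `1 + 1/2 + 1/2 + 1 = 3`; if one is short there are
two other long corners (at least one far): `1 + 1 + 1/2 + 1`; if both are short: `1 + 1 + 1 + 1`.
`|T| = 2`: if `x` or `y` is short: `1 + 2 = 3`.  Both long: if there are two long far corners:
`1 + 2`.  So let `u` be the only long far corner; need `wt u ≥ 2`, or a contradiction.
`u ∈ {b 2, b 3, b 4, b 5}`, by symmetry (`b i ↦ b (1 - i)`) `u ∈ {b 2, b 3}`.
 `u = b 2`: `b 3, b 4, b 5` short.  `u` is not a strip (`b 3` short is joined by a fat edge,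
 `Cr.thin_a`).  If `x ~ b 2` then `N(y) = {x, b 2}`, `y` short, no.  So `u` has the only mark `y`,
 a window neighbour: `wt u ≥ 2` unless `u` is `Free` (`wf_end_two`), and then `y u` is thin.  As in
 `StHexOne` (i) there is `p` with `p ~ b 2`, `p ~ x`, or `b 2 ~ x`; the latter is impossible, and
 `x, y, b 2, p` is a 4-cycle: `x ~ b 2` (no) or `y ~ p`: `y u` is not thin.  Contradiction.
 `u = b 3`: `b 2`, `b 4`, `b 5` short.  The window edges of `u` are fat, so `u` is not a strip, not
 `Free`, not of type (1,1,1).  If `u` is unmarked: `wt u ≥ 2` (`wf_unmarked_two`).  Suppose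
 `u ~ y`.  Then `N(b 2) = {y, b 3}`.  The edge `b4 b5` has a hub, so (as before) `b 3 ~ x` or there
 is `p ~ b 3`, `p ~ x` (`p` the hub, `p ~ b 4, b 5`).  If `b 3 ~ x`: `N(y) = {x, b 3, b 2}`, `y`
 short, no.  Otherwise 4-cycle `x, y, b 3, p` (`p ≠ y`: if `y = p` is the hub then `y ~ b 5`, `x`,
 so `N(x) = {b 5, y}`, `x` short, no): `x ~ b 3` (no) or `y ~ p`: then `N(x) ∋ y, p, b 5` with
 `y ~ p ~ b 5`: `N(x) = {y, p, b 5}`, `x` short, no.
 Suppose `u ~ x`, `u ≁ y`.  `b 2` is short with neighbours `y, g, b 3` (`y ≁ b 3`):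
 4-cycle `x, y, g, b 3`: `y ~ b 3` (no) or `x ~ g` (`g ≠ x` because `b 2 ~ x` would give, with
 `nbr`..., `N(y) = {x, b 2}`, short): then `N(y) ∋ x, g, b 2`, `x ~ g ~ b 2`, `y` short, no.
(2b) `x = f 0`, `y = f j`, `j ∈ {2, 3}` (shift), not window neighbours, `x ~ y` (clique).
There is a far corner with two marks which is short: `j = 2`: `b 1` (`N(b 1) = {x, y}`).  `j = 3`:
the 4-cycle `x, b 1, b 2, y` has a chord; `x ~ b 2`: `N(b 1) = {x, b 2}`, `N(b 2) = {b 1, x, y}`, so
`b 2`; `b 1 ~ y`: `b 1`.  (If `|T| = 3` and this corner is far by assumption (2).)  Its weight is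
`1` (`wf_S_two`; for `j = 2`, `b 1` is short by `S_of2`).  Near corners `≥ 1/2` each (short: `≥ 1`),
and there is another long far corner (if both near corners are long), or ... : both long:
`1/2 + 1/2 + 1 + 1 = 3`; one short: then there are at least two other long corners, one of them far:
`1 + 1/2 + 1 + 1`; both short: `1 + 1 + 1 + ...`.
(3) `|T| = 3`, all three on the window.  For each pair of cyclically consecutive members of `T` on
the window at distance `g` (`g₁ + g₂ + g₃ = 6`): `g = 1`: the edge counts `1`; `g = 2`: the corner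
between is short with two marks, weight `1`; `g = 3`: a far corner between with two marks, weight
`1` (as in (2b)).  Near corners `≥ 1/2` each.  Distances `(2,2,2)`, `(1,2,3)` in any order:
`3/2 + 3 ≥ 3`.  `(1,1,4)`: the middle member has both neighbours in `T` and they are adjacent, so it
is short: weight `1`; total `1/2 + 1/2 + 1 + 2 = 4`. -/
def StHex : Prop := ∀ {κ : Type} [Fintype κ] [DecidableEq κ] (N : Nerve κ) (T : Finset κ)
  (f : ℕ → κ), T.Nonempty → N.Clq T → N.IsWin 6 f → 3 ≤ N.lng 6 f →
  (2 ≤ T.card ∨ ∀ i, f i ∉ T) →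
  (∀ i, N.St (f i) → f i ∉ T → 1 ≤ N.nu T (f i)) → 3 ≤ N.TF (3 / 2) T 6 f

/-- Module K7.

PROOF.  Long far corners have weight `≥ 1`, all weights are `≥ 0`; near corners as in `StHex`.
At least three corners are long.  At most one corner in `T`: two long far corners: `2`.
Exactly two corners `x, y` in `T`: if they are consecutive on the window the edge counts `1`, and
there is a long far corner, `2` [or `|T| ≥ 2`, one of them short ...: then there are at least two
long far corners or one and ...: if `x` or `y` is short its weight is `≥ 1`; anyway `≥ 2`].  If not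
consecutive: weights `≥ 1/2` each (`|T| = 2`: the mark of `x` is `y`, not a window neighbour, see
`StHex`), and a long far corner: `2`.  Three corners in `T`: `3/2`, plus: if two are consecutive on
the window: `1`; otherwise the three gaps are `≥ 2` with sum `7`, so one gap is exactly `2`: the
corner in between is short with two marks, weight `1`. -/
def StK7 : Prop := ∀ {κ : Type} [Fintype κ] [DecidableEq κ] (N : Nerve κ) (T : Finset κ)
  (f : ℕ → κ), T.Nonempty → N.Clq T → N.IsWin 7 f → 3 ≤ N.lng 7 f →
  (∀ i, N.St (f i) → f i ∉ T → 1 ≤ N.nu T (f i)) → 2 ≤ N.TF (3 / 2) T 7 f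

/-- Module K8.

PROOF.  If there is a long far corner: `1`.  Otherwise at least three long corners are in `T`, so
`|T| = 3` and each has weight `1/2`. -/
def StK8 : Prop := ∀ {κ : Type} [Fintype κ] [DecidableEq κ] (N : Nerve κ) (T : Finset κ)
  (f : ℕ → κ), T.Nonempty → N.Clq T → N.IsWin 8 f → 3 ≤ N.lng 8 f →
  (∀ i, N.St (f i) → f i ∉ T → 1 ≤ N.nu T (f i)) → 1 ≤ N.TF (3 / 2) T 8 f

/-! ### Modules LOW: windows with at most two long corners -/

/-- Structure of a window with at most two long corners: all corners have `a = 1`, every vertex is a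
corner of the window or has `a = 0`. -/
def StLowA : Prop := ∀ {κ : Type} [Fintype κ] [DecidableEq κ] (N : Nerve κ) (k : ℕ)
  (f : ℕ → κ), N.IsWin k f → N.lng k f ≤ 2 →
  (∀ i, N.a (f i) = 1) ∧ (∀ v, (∀ i, f i ≠ v) → N.a v = 0) ∧
  (k = 5 → N.lng k f ≤ 1 ∧ ∀ i, N.G (f i) ≤ 4)

/-- The inequality for windows with at most two long corners. -/
def StLowB : Prop := ∀ {κ : Type} [Fintype κ] [DecidableEq κ] (N : Nerve κ) (T : Finset κ) (k : ℕ)
  (f : ℕ → κ), 2 ≤ T.card → N.Clq T → N.IsWin k f → N.lng k f ≤ 2 → 0 ≤ N.D (3 / 2) T k f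

end Pool.Agent.Helper26.OC
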