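import Mathlib
import Pool.Agent.Helper26.OC.St
import Pool.Agent.Helper79.OC.Tab

/-!
# The local expression of a nerve, Euler's formula, and the remaining statements
-/

set_option autoImplicit false

open Finset

namespace Pool.Agent.Helper26.OC

open Pool.Agent.Helper56.OC (tf tsp tc0 tc1 tc2)

namespace Nerve

variable {κ : Type} [Fintype κ] [DecidableEq κ] (N : Nerve κ)

open Classical in
/-- the window darts at `b` (one for each corner at `b`) -/
noncomputable def wd (b : κ) : Finset κ := univ.filter (fun y => N.adj b y ∧ N.win b y)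

open Classical in
/-- the number of thin edges at `b` -/
noncomputable def t (b : κ) : ℕ := (univ.filter (fun y => N.Thin b y)).card

open Classical in
/-- common neighbours -/
noncomputable def cn (b y : κ) : ℕ := (univ.filter (fun z => N.adj b z ∧ N.adj y z)).card

open Classical in
/-- the degree of the marks in the link -/
noncomputable def dm (T : Finset κ) (b : κ) : ℚ :=
  ∑ y ∈ T.filter (fun y => N.adj b y), (N.cn b y : ℚ)

/-- the value of a facet -/
noncomputable def chiA (T : Finset κ) (b : κ) : ℚ :=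
  if N.nu T b = 0 then tc0 (N.G b) (N.a b) (N.t b)
  else if N.nu T b = 1 then
    tc1 (N.G b) (N.a b) (N.dm T b)
  else tc2 (N.G b) (N.a b)

/-- the value for near facets -/
noncomputable def chnA (T : Finset κ) (b : κ) : ℚ :=
  if N.nu T b = 0 then tf (N.G b) (N.a b) (N.t b) else N.chiA T b

/-- `-12 + 8 n - 5 m + 3 τ` -/
noncomputable def LL : ℚ := -12 + 8 * (Fintype.card κ : ℚ) - 5 / 2 * ∑ b, (N.G b : ℚ) +
  ∑ b, ((N.G b : ℚ) - (N.a b : ℚ))

/-- the local expression -/
noncomputable def BB (T : Finset κ) : ℚ :=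
  N.LL + ∑ b, (if b ∈ T then - N.chnA T b else N.chiA T b)

/-- Euler's formula, in the form in which it is used -/
def Euler : Prop :=
  (∀ g : κ → κ → κ → ℚ,
    (∀ k f, N.IsWin k f → 9 ≤ ∑ i ∈ range k, g (f i) (f (i + 1)) (f (i + 2))) →
    6 - (Fintype.card κ : ℚ) ≤ N.LL + ∑ b, ∑ w ∈ N.wd b, (g (N.rot b w) b w - 2)) ∧
  (∀ k f, N.IsWin k f → (∀ b w, N.adj b w → N.win b w → ∃ i, f i = b ∧ f (i + 1) = w) →
    6 - (Fintype.card κ : ℚ) + 2 * k - 9 ≤ N.LL)

end Nerve

/-- The block inequality for nerves. -/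
def StBlock : Prop := ∀ {κ : Type} [Fintype κ] [DecidableEq κ] (N : Nerve κ), N.Euler →
  ∀ T : Finset κ, T.Nonempty → N.Clq T → N.NR2 T → 0 ≤ N.BB T

end Pool.Agent.Helper26.OC
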