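import Pool.Agent.Helper26.OC.St

/-!
# Module HEX: windows with six corners
-/

set_option autoImplicit false
set_option linter.unusedSectionVars false

open Finset

namespace Pool.Agent.Helper26.OC

namespace HEX

open Nerve

variable {κ : Type} [Fintype κ] [DecidableEq κ] (N : Nerve κ)

open Classical in
/-- `1` for long vertices -/
noncomputable def L (v : κ) : ℚ := if N.S v then 0 else 1

theorem L_S {v : κ} (h : N.S v) : L N v = 0 := by unfold L; rw [if_pos h]

theorem L_l {v : κ} (h : ¬ N.S v) : L N v = 1 := by unfold L; rw [if_neg h]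

theorem L_nonneg (v : κ) : 0 ≤ L N v := by unfold L; split_ifs <;> norm_num

theorem L_le (v : κ) : L N v ≤ 1 := by unfold L; split_ifs <;> norm_num

/-- a hexagonal window -/
structure Hy (T : Finset κ) (a b c d e g : κ) : Prop where
  A : N.Cr g a b
  B : N.Cr a b c
  C : N.Cr b c d
  D : N.Cr c d e
  E : N.Cr d e g
  F : N.Cr e g a
  ad : a ≠ d
  be : b ≠ e
  cg : c ≠ g
  lg : 3 ≤ L N a + L N b + L N c + L N d + L N e + L N g
  sa : N.St a → a ∉ T → 1 ≤ N.nu T a
  sb : N.St b → b ∉ T → 1 ≤ N.nu T b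
  sc : N.St c → c ∉ T → 1 ≤ N.nu T c
  sd : N.St d → d ∉ T → 1 ≤ N.nu T d
  se : N.St e → e ∉ T → 1 ≤ N.nu T e
  sg : N.St g → g ∉ T → 1 ≤ N.nu T g

variable {N}
variable {T : Finset κ} {a b c d e g : κ}

theorem Hy.rot (h : Hy N T a b c d e g) : Hy N T b c d e g a :=
  ⟨h.B, h.C, h.D, h.E, h.F, h.A, h.be, h.cg, h.ad.symm, by have := h.lg; linarith, h.sb, h.sc,
    h.sd, h.se, h.sg, h.sa⟩

/-- reflection fixing `a` -/
theorem Hy.ref (h : Hy N T a b c d e g) : Hy N T a g e d c b :=
  ⟨Cr.symm N h.A, Cr.symm N h.F, Cr.symm N h.E, Cr.symm N h.D, Cr.symm N h.C, Cr.symm N h.B,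
    h.ad, h.cg.symm, h.be.symm, by have := h.lg; linarith, h.sa, h.sg, h.se, h.sd, h.sc, h.sb⟩

theorem Hy.ab (h : Hy N T a b c d e g) : N.adj a b := Cr.right N h.A
theorem Hy.bc (h : Hy N T a b c d e g) : N.adj b c := Cr.right N h.B
theorem Hy.cd (h : Hy N T a b c d e g) : N.adj c d := Cr.right N h.C
theorem Hy.de (h : Hy N T a b c d e g) : N.adj d e := Cr.right N h.D
theorem Hy.eg (h : Hy N T a b c d e g) : N.adj e g := Cr.right N h.E
theorem Hy.ga (h : Hy N T a b c d e g) : N.adj g a := Cr.right N h.F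

variable (N)

open Classical in
/-- edges inside `T` -/
noncomputable def Ed (T : Finset κ) (x y : κ) : ℚ := if x ∈ T ∧ y ∈ T then 1 else 0

omit [Fintype κ] in
theorem Ed_nonneg (T : Finset κ) (x y : κ) : 0 ≤ Ed T x y := by
  unfold Ed; split_ifs <;> norm_num

omit [Fintype κ] in
theorem Ed_one {T : Finset κ} {x y : κ} (hx : x ∈ T) (hy : y ∈ T) : Ed T x y = 1 := by
  unfold Ed; rw [if_pos ⟨hx, hy⟩]

omit [Fintype κ] in
theorem Ed_comm (T : Finset κ) (x y : κ) : Ed T x y = Ed T y x := by
  unfold Ed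
  by_cases hx : x ∈ T <;> by_cases hy : y ∈ T <;> simp [hx, hy]

theorem wt_comm (q : ℚ) (T : Finset κ) (u b w : κ) : N.wt q T u b w = N.wt q T w b u := by
  by_cases hu : u ∈ T <;> by_cases hw : w ∈ T <;> simp [Nerve.wt, Nerve.wn, Nerve.wf, hu, hw]

/-- the total of a window with six corners -/
noncomputable def Tot (T : Finset κ) (a b c d e g : κ) : ℚ :=
  N.wt (3 / 2) T g a b + N.wt (3 / 2) T a b c + N.wt (3 / 2) T b c d + N.wt (3 / 2) T c d e +
    N.wt (3 / 2) T d e g + N.wt (3 / 2) T e g a + Ed T a b + Ed T b c + Ed T c d + Ed T d e +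
    Ed T e g + Ed T g a

theorem Tot_rot (T : Finset κ) (a b c d e g : κ) : Tot N T b c d e g a = Tot N T a b c d e g := by
  unfold Tot; ring

theorem Tot_ref (T : Finset κ) (a b c d e g : κ) : Tot N T a g e d c b = Tot N T a b c d e g := by
  unfold Tot
  rw [wt_comm N _ T b a g, wt_comm N _ T a g e, wt_comm N _ T g e d, wt_comm N _ T e d c,
    wt_comm N _ T d c b, wt_comm N _ T c b a, Ed_comm T a g, Ed_comm T g e, Ed_comm T e d,
    Ed_comm T d c, Ed_comm T c b, Ed_comm T b a]
  ring

variable {N}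

/-! ### Weights -/

variable {u w : κ}

theorem far_L (h : N.Cr u b w) (hb : b ∉ T) (hs : N.St b → b ∉ T → 1 ≤ N.nu T b) :
    L N b ≤ N.wt (3 / 2) T u b w := by
  rw [N.wt_far hb]
  by_cases hS : N.S b
  · rw [L_S N hS]; exact N.wf_nonneg (by norm_num)
  · rw [L_l N hS]
    by_cases hSt : N.St b
    · rw [N.wf_St_marked hSt (hs hSt hb)]
    · exact N.one_le_wf (Cr.a_pos N h) hS hSt (by norm_num)

theorem far_type (h : N.Cr u b w) (hb : b ∉ T) (hS : ¬ N.S b)
    (hlt : N.wt (3 / 2) T u b w < 3 / 2) :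
    N.St b ∨ (N.Q b ∧ N.nu T b = 1 ∧ u ∉ T ∧ w ∉ T) := by
  by_cases hSt : N.St b
  · exact Or.inl hSt
  right
  by_cases hQ : N.Q b
  · refine ⟨hQ, ?_⟩
    rw [N.wt_far hb] at hlt
    unfold Nerve.wf at hlt
    rw [if_pos hQ.1, if_neg (by rw [hQ.2]; norm_num)] at hlt
    by_cases h0 : N.nu T b = 0
    · rw [if_pos h0, if_pos hQ.2] at hlt
      norm_num at hlt
    rw [if_neg h0] at hlt
    by_cases h1 : N.nu T b = 1
    · rw [if_pos h1] at hlt
      by_cases h2 : u ∈ T ∨ w ∈ T
      · rw [if_pos h2] at hlt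
        norm_num at hlt
      · rw [not_or] at h2
        exact ⟨h1, h2.1, h2.2⟩
    · rw [if_neg h1] at hlt
      exact absurd hlt (lt_irrefl _)
  · exfalso
    rw [N.wt_far hb] at hlt
    exact absurd hlt (not_lt.2 (N.threehalf_le_wf (Cr.a_pos N h) hS hSt hQ le_rfl))

/-- far short corners with two marks -/
theorem far_two (hb : b ∉ T) (hS : N.S b) (hn : N.nu T b = 2) : N.wt (3 / 2) T u b w = 1 := by
  rw [N.wt_far hb, N.wf_S_two hS hn]

theorem nu_two' (hT : N.Clq T) {y z : κ} (hb : b ∉ T) (hy : y ∈ T) (hz : z ∈ T) (hyz : y ≠ z)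
    (h : N.adj b y) (h' : N.adj b z) : N.nu T b = 2 :=
  le_antisymm (N.nu_le hT hb) (N.nu_two hy hz hyz h h')

theorem near3 (hc : T.card = 3) (hb : b ∈ T) : 1 - L N b / 2 ≤ N.wt (3 / 2) T u b w := by
  rw [N.wt_near hb]
  unfold Nerve.wn
  rw [if_neg (by omega), if_neg (by omega)]
  by_cases hS : N.S b
  · rw [L_S N hS, if_pos ⟨hS.1, hS.2⟩]
    norm_num
  · rw [L_l N hS, if_neg (fun h => hS ⟨h.1, h.2⟩)]
    norm_num

theorem near2' (hc : T.card = 2) (hb : b ∈ T) : 2 - 2 * L N b ≤ N.wt (3 / 2) T u b w := by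
  rw [N.wt_near hb]
  by_cases hS : N.S b
  · unfold Nerve.wn
    rw [if_neg (by omega), if_pos hc, if_pos hS.1, if_pos hS.2, L_S N hS]
    norm_num
  · rw [L_l N hS]
    have := N.wn_nonneg (T := T) (u := u) (b := b) (w := w)
    linarith

theorem near2 (hT : N.Clq T) (h : N.Cr u b w) (hc : T.card = 2) (hb : b ∈ T) (hu : u ∉ T)
    (hw : w ∉ T) : 1 - L N b / 2 ≤ N.wt (3 / 2) T u b w := by
  rw [N.wt_near hb]
  unfold Nerve.wn
  rw [if_neg (by omega), if_pos hc]
  have huw : ¬ (u ∈ T ∨ w ∈ T) := by rw [not_or]; exact ⟨hu, hw⟩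
  by_cases hS : N.S b
  · rw [L_S N hS, if_pos hS.1, if_pos hS.2]
    norm_num
  rw [L_l N hS]
  by_cases h1 : N.a b = 1
  · rw [if_pos h1]
    by_cases h2 : N.G b ≤ 3
    · exact absurd ⟨h1, h2⟩ hS
    · rw [if_neg h2, if_neg huw]
      split_ifs <;> norm_num
  · rw [if_neg h1]
    by_cases h2 : N.G b = 2
    · rw [if_pos h2]; norm_num
    rw [if_neg h2, if_neg, if_neg huw]
    · norm_num
    · rintro ⟨h3, h4, h5⟩
      obtain ⟨p, hpu, hpw, hN, -, h6⟩ := Cr.T21_cases N h ⟨h4, h3⟩
      -- the other member of `T`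
      obtain ⟨y, hy, hyb⟩ : ∃ y ∈ T, y ≠ b := by
        by_contra hcon
        push Not at hcon
        have : T ⊆ {b} := fun y hy => mem_singleton.2 (hcon y hy)
        have := card_le_card this
        rw [hc, card_singleton] at this
        omega
      have hby : N.adj b y := hT b hb y hy hyb.symm
      have hyp : y = p := by
        rcases (hN y).1 hby with h7 | h7 | h7
        · exact absurd (h7 ▸ hy) hu
        · exact h7
        · exact absurd (h7 ▸ hy) hw
      subst hyp
      have h8 := h5 y hy hby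
      rcases h6 with ⟨-, h9, -, -⟩ | ⟨-, h9, -, -⟩
      · exact h8.2 w (N.symm (Cr.right N h)) (N.symm h9)
      · exact h8.2 u (N.symm (Cr.left N h)) h9

/-! ### Hubs -/

theorem short_of {v : κ} (h : L N v < 1) : N.S v := by
  by_contra hS
  rw [L_l N hS] at h
  exact lt_irrefl _ h

/-- three short corners in a row -/
theorem hubA (h : Hy N T a b c d e g) (hd : N.S d) (he : N.S e) (hg : N.S g) :
    N.adj c a ∨ ∃ p, N.adj p c ∧ N.adj p a ∧ N.adj p e ∧ (p = d ∨ N.adj p d) := by
  have hac := Cr.ne N h.B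
  rcases Cr.S_cases N h.E he with ⟨hdg, hNe⟩ | ⟨p, k1, k2, k3, -, k5, k6, hNe⟩
  · rcases Cr.S_cases N h.F hg with ⟨hea, hNg⟩ | ⟨r, m1, m2, m3, -, m5, m6, hNg⟩
    · exfalso
      rcases (hNg d).1 (N.symm hdg) with h1 | h1
      · exact N.ne_of_adj h.de h1
      · exact h.ad h1.symm
    · have hdr : d = r := by
        rcases (hNg d).1 (N.symm hdg) with h1 | h1 | h1
        · exact absurd h1 (N.ne_of_adj h.de)
        · exact h1
        · exact absurd h1.symm h.ad
      right
      refine ⟨d, N.symm h.cd, ?_, h.de, Or.inl rfl⟩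
      rw [hdr]
      exact N.symm m3
  · have h1 : p = c ∨ N.adj p c := by
      rcases Cr.S_cases N h.D hd with ⟨hce, hNd⟩ | ⟨r, m1, m2, m3, -, m5, m6, hNd⟩
      · rcases (hNd p).1 k2 with h2 | h2
        · exact Or.inl h2
        · exact absurd h2.symm (N.ne_of_adj k1)
      · rcases (hNd p).1 k2 with h2 | h2 | h2
        · exact Or.inl h2
        · right
          rw [h2]
          exact N.symm m2
        · exact absurd h2.symm (N.ne_of_adj k1)
    have h2 : p = a ∨ N.adj p a := by
      rcases Cr.S_cases N h.F hg with ⟨hea, hNg⟩ | ⟨r, m1, m2, m3, -, m5, m6, hNg⟩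
      · rcases (hNg p).1 k3 with h2 | h2
        · exact absurd h2.symm (N.ne_of_adj k1)
        · exact Or.inl h2
      · rcases (hNg p).1 k3 with h2 | h2 | h2
        · exact absurd h2.symm (N.ne_of_adj k1)
        · right
          rw [h2]
          exact N.symm m3
        · exact Or.inl h2
    rcases h1 with h1 | h1
    · rcases h2 with h2 | h2
      · exact absurd (h2.symm.trans h1) hac
      · left
        rwa [h1] at h2
    · rcases h2 with h2 | h2
      · left
        rw [h2] at h1
        exact N.symm h1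
      · exact Or.inr ⟨p, h1, h2, N.symm k1, Or.inr (N.symm k2)⟩

/-- two short corners in a row -/
theorem hubB (h : Hy N T a b c d e g) (he : N.S e) (hg : N.S g) :
    N.adj d a ∨ ∃ p, N.adj p d ∧ N.adj p a ∧ N.adj p e ∧ N.adj p g := by
  rcases Cr.S_cases N h.E he with ⟨hdg, hNe⟩ | ⟨p, k1, k2, k3, -, k5, k6, hNe⟩
  · rcases Cr.S_cases N h.F hg with ⟨hea, hNg⟩ | ⟨r, m1, m2, m3, -, m5, m6, hNg⟩
    · exfalso
      rcases (hNg d).1 (N.symm hdg) with h1 | h1
      · exact N.ne_of_adj h.de h1
      · exact h.ad h1.symm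
    · have hdr : d = r := by
        rcases (hNg d).1 (N.symm hdg) with h1 | h1 | h1
        · exact absurd h1 (N.ne_of_adj h.de)
        · exact h1
        · exact absurd h1.symm h.ad
      left
      rw [hdr]
      exact N.symm m3
  · rcases Cr.S_cases N h.F hg with ⟨hea, hNg⟩ | ⟨r, m1, m2, m3, -, m5, m6, hNg⟩
    · rcases (hNg p).1 k3 with h2 | h2
      · exact absurd h2.symm (N.ne_of_adj k1)
      · left
        rw [← h2]
        exact k2
    · rcases (hNg p).1 k3 with h2 | h2 | h2
      · exact absurd h2.symm (N.ne_of_adj k1)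
      · right
        refine ⟨p, N.symm k2, ?_, N.symm k1, N.symm k3⟩
        rw [h2]
        exact N.symm m3
      · left
        rw [← h2]
        exact k2

/-! ### One near corner -/

theorem strip_unmarked (h : N.Cr u b w) (hSt : N.St b) (hu : u ∉ T) (hw : w ∉ T) :
    N.nu T b = 0 :=
  N.nu_eq_zero.2 (fun y hy hby => by
    rcases ((Cr.St_cases N h hSt).2.2.2 y).1 hby with h1 | h1
    · exact hu (h1 ▸ hy)
    · exact hw (h1 ▸ hy))

theorem strip_b (h : Hy N T a b c d e g) (hSt : N.St b)
    (hs : L N b + L N c + L N d + L N e + L N g < 3) : False := by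
  obtain ⟨h1, h2, h3, h4⟩ := Cr.St_cases N h.B hSt
  have hbS : ¬ N.S b := fun hS => by
    have := hSt.1
    have := hS.1
    omega
  have hcS : ¬ N.S c := fun hS => by
    have h5 := Cr.thin_a N (Cr.symm N h.C) (Thin.symm N h3)
    have := hS.1
    omega
  rw [L_l N hbS, L_l N hcS] at hs
  have n1 := L_nonneg N d
  have n2 := L_nonneg N e
  have n3 := L_nonneg N g
  have hd : N.S d := short_of (by linarith)
  have he : N.S e := short_of (by linarith)
  have hg : N.S g := short_of (by linarith)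
  rcases hubA h hd he hg with h5 | ⟨p, p1, p2, p3, -⟩
  · exact h1 (N.symm h5)
  · have hbp : b ≠ p := by
      intro hbp
      rw [← hbp] at p3
      rcases (h4 e).1 p3 with h6 | h6
      · exact Cr.ne N h.F h6
      · exact Cr.ne N h.D h6.symm
    rcases N.noC4 h.ab h.bc (N.symm p1) p2 (Cr.ne N h.B) hbp with h6 | h6
    · exact h1 h6
    · rcases (h4 p).1 h6 with h7 | h7
      · exact N.ne_of_adj p2 h7
      · exact N.ne_of_adj p1 h7

theorem mark_c (hT : N.Clq T) (h : Hy N T a b c d e g) (ha : a ∈ T) (hb : b ∉ T)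
    (hn : N.nu T c = 1) (Sb : N.S b) (xb : N.wt (3 / 2) T a b c < L N b + 1 / 2) :
    N.adj c a := by
  obtain ⟨y, hy, hcy⟩ : ∃ y ∈ T, N.adj c y := by
    by_contra hcon
    push Not at hcon
    have := N.nu_eq_zero.2 hcon
    omega
  by_cases hya : y = a
  · rwa [hya] at hcy
  exfalso
  have hca : ¬ N.adj c a := fun h1 => hya (N.mark_unique (by omega) hy ha hcy h1)
  have hby : b ≠ y := fun h1 => hb (h1 ▸ hy)
  rcases N.noC4 h.ab h.bc hcy (hT y hy a ha hya) (Cr.ne N h.B) hby with h1 | h1
  · exact hca (N.symm h1)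
  · have h2 := nu_two' hT hb ha hy (Ne.symm hya) (N.symm h.ab) h1
    rw [far_two hb Sb h2, L_S N Sb] at xb
    norm_num at xb

theorem no_cd (hT : N.Clq T) (h : Hy N T a b c d e g) (ha : a ∈ T) (hc' : c ∉ T)
    (hca : N.adj c a) (hc : ¬ N.S c) (hnc : N.nu T c = 1) (hnd : N.nu T d = 1) : False := by
  obtain ⟨y, hy, hdy⟩ : ∃ y ∈ T, N.adj d y := by
    by_contra hcon
    push Not at hcon
    have := N.nu_eq_zero.2 hcon
    omega
  have hda : ¬ N.adj d a := fun hda => hc (Cr.S_of3 N h.C hca (N.symm h.ab) hda)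
  by_cases hya : y = a
  · rw [hya] at hdy
    exact hda hdy
  have hcy : c ≠ y := fun h1 => hc' (h1 ▸ hy)
  rcases N.noC4 (N.symm hca) h.cd hdy (hT y hy a ha hya) h.ad hcy with h1 | h1
  · exact hda (N.symm h1)
  · exact hya (N.mark_unique (by omega) hy ha h1 hca)

theorem no_ce (h : Hy N T a b c d e g) (h2 : 2 ≤ T.card) (hb : b ∉ T)
    (hc' : c ∉ T) (hd : d ∉ T) (he : e ∉ T) (hg : g ∉ T)
    (hca : N.adj c a) (hea : N.adj e a) (hc : ¬ N.S c) : False := by
  have hda : ¬ N.adj d a := fun hda => hc (Cr.S_of3 N h.C hca (N.symm h.ab) hda)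
  rcases N.noC4 (N.symm hca) h.cd h.de hea h.ad (Cr.ne N h.D) with h1 | h1
  · exact hda (N.symm h1)
  have nb := Cr.nbr2 N h.B (N.symm hca)
  have nd := Cr.nbr2 N h.D h1
  have ng := Cr.nbr2 N h.F hea
  have na := Cr.nbr4 N h.A (p := e) (q := c) (N.symm hea) (N.symm h.eg) (N.symm hca) h.bc
    (N.symm h1) h.be.symm h.cg
  have nc := Cr.nbr4 N h.C (p := a) (q := e) hca (N.symm h.ab) h1 h.de (N.symm hea) h.ad
    h.be.symm
  have ne := Cr.nbr4 N h.E (p := c) (q := a) (N.symm h1) (N.symm h.cd) hea h.ga hca h.cg h.ad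
  have key := N.conn (fun z => z = a ∨ z = b ∨ z = c ∨ z = d ∨ z = e ∨ z = g) (by
    rintro x y (rfl | rfl | rfl | rfl | rfl | rfl) hxy
    · rcases (na y).1 hxy with h3 | h3 | h3 | h3 <;> subst h3 <;> simp
    · rcases (nb y).1 hxy with h3 | h3 <;> subst h3 <;> simp
    · rcases (nc y).1 hxy with h3 | h3 | h3 | h3 <;> subst h3 <;> simp
    · rcases (nd y).1 hxy with h3 | h3 <;> subst h3 <;> simp
    · rcases (ne y).1 hxy with h3 | h3 | h3 | h3 <;> subst h3 <;> simp
    · rcases (ng y).1 hxy with h3 | h3 <;> subst h3 <;> simp) a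
  have hsub : T ⊆ {a} := by
    intro y hy
    rw [mem_singleton]
    rcases key y (Or.inl rfl) with h3 | h3 | h3 | h3 | h3 | h3
    · exact h3
    · exact absurd (h3 ▸ hy) hb
    · exact absurd (h3 ▸ hy) hc'
    · exact absurd (h3 ▸ hy) hd
    · exact absurd (h3 ▸ hy) he
    · exact absurd (h3 ▸ hy) hg
  have := card_le_card hsub
  rw [card_singleton] at this
  omega

theorem near23 (hT : N.Clq T) (h : N.Cr u b w) (h2 : 2 ≤ T.card) (hb : b ∈ T) (hu : u ∉ T)
    (hw : w ∉ T) : 1 - L N b / 2 ≤ N.wt (3 / 2) T u b w := by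
  have h3 := Clq.card_le N hT
  rcases (show T.card = 2 ∨ T.card = 3 by omega) with h4 | h4
  · exact near2 hT h h4 hb hu hw
  · exact near3 h4 hb

/-- exactly one near corner -/
theorem P1 (hT : N.Clq T) (h2 : 2 ≤ T.card) (h : Hy N T a b c d e g) (ha : a ∈ T) (hb : b ∉ T)
    (hc : c ∉ T) (hd : d ∉ T) (he : e ∉ T) (hg : g ∉ T) : 3 ≤ Tot N T a b c d e g := by
  have wa := near23 hT h.A h2 ha hg hb
  have wb := far_L h.B hb h.sb
  have wc := far_L h.C hc h.sc
  have wd := far_L h.D hd h.sd
  have we := far_L h.E he h.se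
  have wg := far_L h.F hg h.sg
  have e1 := Ed_nonneg T a b
  have e2 := Ed_nonneg T b c
  have e3 := Ed_nonneg T c d
  have e4 := Ed_nonneg T d e
  have e5 := Ed_nonneg T e g
  have e6 := Ed_nonneg T g a
  have la := L_le N a
  have lg := h.lg
  by_contra hcon
  push Not at hcon
  unfold Tot at hcon
  have xb : N.wt (3 / 2) T a b c < L N b + 1 / 2 := by linarith
  have xc : N.wt (3 / 2) T b c d < L N c + 1 / 2 := by linarith
  have xd : N.wt (3 / 2) T c d e < L N d + 1 / 2 := by linarith
  have xe : N.wt (3 / 2) T d e g < L N e + 1 / 2 := by linarith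
  have xg : N.wt (3 / 2) T e g a < L N g + 1 / 2 := by linarith
  have hs : L N b + L N c + L N d + L N e + L N g < 3 := by linarith
  have Sb : N.S b := by
    by_contra hS
    rcases far_type h.B hb hS (by rw [L_l N hS] at xb; linarith) with hSt | ⟨-, -, h1, -⟩
    · exact strip_b h hSt hs
    · exact h1 ha
  have Sg : N.S g := by
    by_contra hS
    rcases far_type h.F hg hS (by rw [L_l N hS] at xg; linarith) with hSt | ⟨-, -, -, h1⟩
    · exact strip_b h.ref hSt (by linarith)
    · exact h1 ha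
  have tc : ¬ N.S c → N.nu T c = 1 := by
    intro hS
    rcases far_type h.C hc hS (by rw [L_l N hS] at xc; linarith) with hSt | ⟨-, h1, -, -⟩
    · have h3 := h.sc hSt hc
      rw [strip_unmarked h.C hSt hb hd] at h3
      omega
    · exact h1
  have td : ¬ N.S d → N.nu T d = 1 := by
    intro hS
    rcases far_type h.D hd hS (by rw [L_l N hS] at xd; linarith) with hSt | ⟨-, h1, -, -⟩
    · have h3 := h.sd hSt hd
      rw [strip_unmarked h.D hSt hc he] at h3
      omega
    · exact h1
  have te : ¬ N.S e → N.nu T e = 1 := by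
    intro hS
    rcases far_type h.E he hS (by rw [L_l N hS] at xe; linarith) with hSt | ⟨-, h1, -, -⟩
    · have h3 := h.se hSt he
      rw [strip_unmarked h.E hSt hd hg] at h3
      omega
    · exact h1
  have mc : ¬ N.S c → N.adj c a := fun hS => mark_c hT h ha hb (tc hS) Sb xb
  have me : ¬ N.S e → N.adj e a := fun hS => mark_c hT h.ref ha hg (te hS) Sg (by
    rw [wt_comm]
    exact xg)
  rw [L_S N Sb, L_S N Sg] at hs lg
  by_cases hSc : N.S c
  · by_cases hSd : N.S d
    · rw [L_S N hSc, L_S N hSd] at lg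
      have := L_le N e
      linarith
    · by_cases hSe : N.S e
      · rw [L_S N hSc, L_S N hSe] at lg
        have := L_le N d
        linarith
      · exact no_cd hT h.ref ha he (me hSe) hSe (te hSe) (td hSd)
  · by_cases hSd : N.S d
    · by_cases hSe : N.S e
      · rw [L_S N hSd, L_S N hSe] at lg
        have := L_le N c
        linarith
      · exact no_ce h h2 hb hc hd he hg (mc hSc) (me hSe) hSc
    · exact no_cd hT h ha hc (mc hSc) hSc (tc hSc) (td hSd)

/-! ### Two near corners, next to each other -/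

theorem nu_le_one {v : κ} (h2 : T.card = 2) (ha : a ∈ T) (hva : ¬ N.adj v a) :
    N.nu T v ≤ 1 := by
  classical
  have h1 : N.nu T v ≤ (T.erase a).card := by
    unfold Nerve.nu
    apply card_le_card
    intro y hy
    rw [mem_filter] at hy
    rw [mem_erase]
    refine ⟨?_, hy.1⟩
    rintro rfl
    exact hva hy.2
  rw [card_erase_of_mem ha, h2] at h1
  exact h1

theorem mem_two (h2 : T.card = 2) (ha : a ∈ T) (hb : b ∈ T) (hab : a ≠ b) {y : κ} (hy : y ∈ T) :
    y = a ∨ y = b := by
  have h1 : ({a, b} : Finset κ) ⊆ T := by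
    intro z hz
    rw [mem_insert, mem_singleton] at hz
    rcases hz with rfl | rfl
    · exact ha
    · exact hb
  have h3 : ({a, b} : Finset κ) = T := eq_of_subset_of_card_le h1 (by rw [h2, card_pair hab])
  rw [← h3, mem_insert, mem_singleton] at hy
  exact hy

/-- an edge from a long corner to a short neighbour on the window is fat -/
theorem fat (h : N.Cr b c d) (hS : N.S c) : ¬ N.Thin d c := fun ht => by
  have h1 := Cr.thin_a N h (Thin.symm N ht)
  have := hS.1
  omega

theorem two_c (h : Hy N T a b c d e g) (h2 : T.card = 2) (ha : a ∈ T) (hb : b ∈ T) (hc : c ∉ T)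
    (Lb : ¬ N.S b) (Lc : ¬ N.S c) (Sd : N.S d) (Se : N.S e) (Sg : N.S g) :
    2 ≤ N.wt (3 / 2) T b c d := by
  have hca : ¬ N.adj c a := fun h1 => Lb (Cr.S_of2 N h.B (N.symm h1))
  have hfat : ¬ N.Thin c d := fat (Cr.symm N h.D) Sd
  have hSt : ¬ N.St c := fun hSt => hfat (Cr.St_cases N h.C hSt).2.2.1
  have hn : N.nu T c = 1 := le_antisymm (nu_le_one h2 ha hca) (N.nu_pos hb (N.symm h.bc))
  rw [N.wt_far hc]
  refine N.wf_end_two (Cr.a_pos N h.C) Lc hSt hn (Or.inl hb) (fun hF => ?_)
  have hth := hF.2.2 b hb (N.symm h.bc)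
  rcases hubA h Sd Se Sg with h5 | ⟨p, p1, p2, p3, p4⟩
  · exact hca h5
  · have hbp : b ≠ p := by
      rintro rfl
      rcases p4 with p4 | p4
      · exact Cr.ne N h.C p4
      · exact hth.2 d (N.symm h.cd) (N.symm p4)
    rcases N.noC4 h.ab h.bc (N.symm p1) p2 (Cr.ne N h.B) hbp with h6 | h6
    · exact hca (N.symm h6)
    · exact hth.2 p p1 (N.symm h6)

theorem two_d (h : Hy N T a b c d e g) (h2 : T.card = 2) (ha : a ∈ T) (hb : b ∈ T)
    (hd : d ∉ T) (La : ¬ N.S a) (Lb : ¬ N.S b) (Ld : ¬ N.S d) (Sc : N.S c) (Se : N.S e)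
    (Sg : N.S g) : 2 ≤ N.wt (3 / 2) T c d e := by
  have f1 : ¬ N.Thin d c := fat h.C Sc
  have f2 : ¬ N.Thin d e := fat (Cr.symm N h.E) Se
  have hSt : ¬ N.St d := fun hSt => f1 (Cr.St_cases N h.D hSt).2.1
  have hF : ¬ N.Free T d := fun hF => by
    obtain ⟨p, -, -, -, -, h5⟩ := Cr.T21_cases N h.D hF.2.1
    rcases h5 with h5 | h5
    · exact f1 h5.1
    · exact f2 h5.1
  have h3 : ¬ (N.G d = 3 ∧ N.a d = 3) := by
    classical
    rintro ⟨h3, h4⟩
    -- all darts at `d` are windows
    have hall : ∀ y, N.adj d y → N.win d y := by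
      intro y hy
      have h5 : univ.filter (fun y => N.adj d y ∧ N.win d y) =
          univ.filter (fun y => N.adj d y) := by
        apply eq_of_subset_of_card_le
        · intro z hz
          rw [mem_filter] at hz ⊢
          exact ⟨hz.1, hz.2.1⟩
        · have e1 : (univ.filter (fun y => N.adj d y)).card = 3 := h3 ▸ (by unfold Nerve.G; congr)
          have e2 : (univ.filter (fun y => N.adj d y ∧ N.win d y)).card = 3 :=
            h4 ▸ (by unfold Nerve.a; congr)
          rw [e1, e2]
      have h6 : y ∈ univ.filter (fun y => N.adj d y ∧ N.win d y) := by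
        rw [h5, mem_filter]
        exact ⟨mem_univ _, hy⟩
      rw [mem_filter] at h6
      exact h6.2.2
    apply f1
    refine ⟨N.symm h.cd, fun z hz hzc => ?_⟩
    rcases N.tri (N.symm h.cd) (N.symm hzc) (N.symm hz) with h7 | h7
    · exact h7.2 (hall c (N.symm h.cd))
    · exact h7.2 (hall z (N.symm hz))
  by_cases hn : N.nu T d = 0
  · rw [N.wt_far hd]
    exact N.wf_unmarked_two (Cr.a_pos N h.D) Ld hSt hn hF h3
  exfalso
  by_cases hdb : N.adj d b
  · rcases hubB h Se Sg with h5 | ⟨p, p1, p2, p3, p4⟩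
    · exact Lb (Cr.S_of3 N h.B (N.symm hdb) (N.symm h5) h.cd)
    · by_cases hda : N.adj d a
      · exact Lb (Cr.S_of3 N h.B (N.symm hdb) (N.symm hda) h.cd)
      have hbp : b ≠ p := by
        rintro rfl
        exact La (Cr.S_of2 N h.A (N.symm p4))
      rcases N.noC4 h.ab (N.symm hdb) (N.symm p1) p2 h.ad hbp with h6 | h6
      · exact hda (N.symm h6)
      · exact La (Cr.S_of3 N h.A (N.symm p2) (N.symm p4) h6)
  · have hda : N.adj d a := by
      by_contra hda
      apply hn
      refine N.nu_eq_zero.2 (fun y hy => ?_)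
      rcases mem_two h2 ha hb (N.ne_of_adj h.ab) hy with rfl | rfl
      · exact hda
      · exact hdb
    rcases Cr.S_cases N h.C Sc with ⟨h5, -⟩ | ⟨q, q1, q2, q3, -, q5, q6, -⟩
    · exact hdb (N.symm h5)
    · have haq : a ≠ q := by
        rintro rfl
        exact Lb (Cr.S_of2 N h.B (N.symm q1))
      rcases N.noC4 h.ab q2 (N.symm q3) hda haq (Cr.ne N h.C) with h6 | h6
      · exact Lb (Cr.S_of3 N h.B q2 h6 q1)
      · exact hdb (N.symm h6)

/-- two near corners which are neighbours -/
theorem P2 (hT : N.Clq T) (h2 : 2 ≤ T.card) (h : Hy N T a b c d e g) (ha : a ∈ T) (hb : b ∈ T)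
    (hc : c ∉ T) (hd : d ∉ T) (he : e ∉ T) (hg : g ∉ T) : 3 ≤ Tot N T a b c d e g := by
  have wc := far_L h.C hc h.sc
  have wd := far_L h.D hd h.sd
  have we := far_L h.E he h.se
  have wg := far_L h.F hg h.sg
  have e1 := Ed_one ha hb
  have e2 := Ed_nonneg T b c
  have e3 := Ed_nonneg T c d
  have e4 := Ed_nonneg T d e
  have e5 := Ed_nonneg T e g
  have e6 := Ed_nonneg T g a
  have la := L_le N a
  have lb := L_le N b
  have lg := h.lg
  have h3 := Clq.card_le N hT
  rcases (show T.card = 2 ∨ T.card = 3 by omega) with h4 | h4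
  · have wa := near2' (N := N) (u := g) (w := b) h4 ha
    have wb := near2' (N := N) (u := a) (w := c) h4 hb
    by_contra hcon
    push Not at hcon
    unfold Tot at hcon
    have nc := L_nonneg N c
    have nd := L_nonneg N d
    have ne := L_nonneg N e
    have ng := L_nonneg N g
    have La : ¬ N.S a := fun hS => by
      rw [L_S N hS] at wa
      linarith
    have Lb : ¬ N.S b := fun hS => by
      rw [L_S N hS] at wb
      linarith
    rw [L_l N La] at wa lg
    rw [L_l N Lb] at wb lg
    by_cases Lc : N.S c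
    · rw [L_S N Lc] at lg wc
      by_cases Ld : N.S d
      · rw [L_S N Ld] at lg wd
        by_cases Le : N.S e
        · -- `g` long
          have Lg : ¬ N.S g := fun hS => by
            rw [L_S N Le, L_S N hS] at lg
            linarith
          have h5 := two_c h.rot.ref h4 hb ha hg La Lg Le Ld Lc
          rw [wt_comm] at h5
          linarith
        · have Sg : N.S g := by
            by_contra hS
            rw [L_l N Le] at we
            rw [L_l N hS] at wg
            linarith
          have h5 := two_d h.rot.ref h4 hb ha he Lb La Le Sg Ld Lc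
          rw [wt_comm] at h5
          linarith
      · rw [L_l N Ld] at wd
        have Se : N.S e := short_of (by linarith)
        have Sg : N.S g := short_of (by linarith)
        have h5 := two_d h h4 ha hb hd La Lb Ld Lc Se Sg
        rw [L_S N Se] at we
        rw [L_S N Sg] at wg
        linarith
    · rw [L_l N Lc] at wc
      have Sd : N.S d := short_of (by linarith)
      have Se : N.S e := short_of (by linarith)
      have Sg : N.S g := short_of (by linarith)
      have h5 := two_c h h4 ha hb hc Lb Lc Sd Se Sg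
      linarith
  · have wa := near3 (N := N) (u := g) (w := b) h4 ha
    have wb := near3 (N := N) (u := a) (w := c) h4 hb
    unfold Tot
    linarith

/-! ### Gaps -/

theorem gap2 (hT : N.Clq T) (h : N.Cr a b c) (ha : a ∈ T) (hb : b ∉ T) (hc : c ∈ T) :
    N.wt (3 / 2) T a b c = 1 ∧ L N b = 0 := by
  have hac := Cr.ne N h
  have hS : N.S b := Cr.S_of2 N h (hT a ha c hc hac)
  exact ⟨far_two hb hS (nu_two' hT hb ha hc hac (Cr.left N h) (Cr.right N h)), L_S N hS⟩

theorem gap3 (hT : N.Clq T) (h : Hy N T a b c d e g) (ha : a ∈ T) (hb : b ∉ T) (hc : c ∉ T)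
    (hd : d ∈ T) :
    1 + L N b + L N c ≤ N.wt (3 / 2) T a b c + N.wt (3 / 2) T b c d := by
  have wb := far_L h.B hb h.sb
  have wc := far_L h.C hc h.sc
  have hda := hT d hd a ha h.ad.symm
  rcases N.noC4 h.ab h.bc h.cd hda (Cr.ne N h.B) (Cr.ne N h.C) with h1 | h1
  · have hS : N.S c := Cr.S_of3 N h.C (N.symm h1) (N.symm h.ab) hda
    rw [far_two hc hS (nu_two' hT hc ha hd h.ad (N.symm h1) h.cd), L_S N hS]
    linarith
  · have hS : N.S b := Cr.S_of3 N h.B h1 (N.symm hda) h.cd
    rw [far_two hb hS (nu_two' hT hb ha hd h.ad (N.symm h.ab) h1), L_S N hS]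
    linarith

/-- two near corners at distance two -/
theorem P2b (hT : N.Clq T) (h2 : 2 ≤ T.card) (h : Hy N T a b c d e g) (ha : a ∈ T) (hb : b ∉ T)
    (hc : c ∈ T) (hd : d ∉ T) (he : e ∉ T) (hg : g ∉ T) : 3 ≤ Tot N T a b c d e g := by
  have wa := near23 hT h.A h2 ha hg hb
  have wb := gap2 hT h.B ha hb hc
  have wc := near23 hT h.C h2 hc hb hd
  have wd := far_L h.D hd h.sd
  have we := far_L h.E he h.se
  have wg := far_L h.F hg h.sg
  have e1 := Ed_nonneg T a b
  have e2 := Ed_nonneg T b c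
  have e3 := Ed_nonneg T c d
  have e4 := Ed_nonneg T d e
  have e5 := Ed_nonneg T e g
  have e6 := Ed_nonneg T g a
  have la := L_le N a
  have lc := L_le N c
  have lg := h.lg
  unfold Tot
  linarith [wb.1, wb.2]

/-- two near corners at distance three -/
theorem P2c (hT : N.Clq T) (h2 : 2 ≤ T.card) (h : Hy N T a b c d e g) (ha : a ∈ T) (hb : b ∉ T)
    (hc : c ∉ T) (hd : d ∈ T) (he : e ∉ T) (hg : g ∉ T) : 3 ≤ Tot N T a b c d e g := by
  have wa := near23 hT h.A h2 ha hg hb
  have wbc := gap3 hT h ha hb hc hd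
  have wd := near23 hT h.D h2 hd hc he
  have we := far_L h.E he h.se
  have wg := far_L h.F hg h.sg
  have e1 := Ed_nonneg T a b
  have e2 := Ed_nonneg T b c
  have e3 := Ed_nonneg T c d
  have e4 := Ed_nonneg T d e
  have e5 := Ed_nonneg T e g
  have e6 := Ed_nonneg T g a
  have la := L_le N a
  have ld := L_le N d
  have lg := h.lg
  unfold Tot
  linarith

/-- no near corner -/
theorem P0 (h : Hy N T a b c d e g) (ha : a ∉ T) (hb : b ∉ T)
    (hc : c ∉ T) (hd : d ∉ T) (he : e ∉ T) (hg : g ∉ T) : 3 ≤ Tot N T a b c d e g := by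
  have wa := far_L h.A ha h.sa
  have wb := far_L h.B hb h.sb
  have wc := far_L h.C hc h.sc
  have wd := far_L h.D hd h.sd
  have we := far_L h.E he h.se
  have wg := far_L h.F hg h.sg
  have e1 := Ed_nonneg T a b
  have e2 := Ed_nonneg T b c
  have e3 := Ed_nonneg T c d
  have e4 := Ed_nonneg T d e
  have e5 := Ed_nonneg T e g
  have e6 := Ed_nonneg T g a
  have lg := h.lg
  unfold Tot
  linarith

/-! ### Three near corners -/

theorem card3 {x y z : κ} (hx : x ∈ T) (hy : y ∈ T) (hz : z ∈ T) (hxy : x ≠ y) (hxz : x ≠ z)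
    (hyz : y ≠ z) : 3 ≤ T.card := by
  have h1 : ({x, y, z} : Finset κ) ⊆ T := by
    intro v hv
    simp only [mem_insert, mem_singleton] at hv
    rcases hv with rfl | rfl | rfl
    · exact hx
    · exact hy
    · exact hz
  have h2 : ({x, y, z} : Finset κ).card = 3 := by
    rw [card_insert_of_notMem, card_pair hyz]
    simp only [mem_insert, mem_singleton, not_or]
    exact ⟨hxy, hxz⟩
  have h3 := card_le_card h1
  omega

theorem wt0 (u b w : κ) : 0 ≤ N.wt (3 / 2) T u b w := N.wt_nonneg (by norm_num)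

theorem P3a (hT : N.Clq T) (h : Hy N T a b c d e g) (ha : a ∈ T) (hb : b ∈ T)
    (hc : c ∈ T) : 3 ≤ Tot N T a b c d e g := by
  have h3 := card3 ha hb hc (N.ne_of_adj h.ab) (Cr.ne N h.B) (N.ne_of_adj h.bc)
  have h4 : T.card = 3 := le_antisymm (Clq.card_le N hT) h3
  have wa := near3 (N := N) (u := g) (w := b) h4 ha
  have wb := near3 (N := N) (u := a) (w := c) h4 hb
  have wc := near3 (N := N) (u := b) (w := d) h4 hc
  have wd := wt0 (N := N) (T := T) c d e
  have we := wt0 (N := N) (T := T) d e g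
  have wg := wt0 (N := N) (T := T) e g a
  have e1 := Ed_one ha hb
  have e2 := Ed_one hb hc
  have e3 := Ed_nonneg T c d
  have e4 := Ed_nonneg T d e
  have e5 := Ed_nonneg T e g
  have e6 := Ed_nonneg T g a
  have la := L_le N a
  have lb := L_le N b
  have lc := L_le N c
  unfold Tot
  linarith

theorem P3b (hT : N.Clq T) (h : Hy N T a b c d e g) (ha : a ∈ T) (hb : b ∈ T) (hc : c ∉ T)
    (hd : d ∈ T) : 3 ≤ Tot N T a b c d e g := by
  have h3 := card3 ha hb hd (N.ne_of_adj h.ab) h.ad (Cr.ne N h.C)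
  have h4 : T.card = 3 := le_antisymm (Clq.card_le N hT) h3
  have wa := near3 (N := N) (u := g) (w := b) h4 ha
  have wb := near3 (N := N) (u := a) (w := c) h4 hb
  have wc := gap2 hT h.C hb hc hd
  have wd := near3 (N := N) (u := c) (w := e) h4 hd
  have we := wt0 (N := N) (T := T) d e g
  have wg := wt0 (N := N) (T := T) e g a
  have e1 := Ed_one ha hb
  have e2 := Ed_nonneg T b c
  have e3 := Ed_nonneg T c d
  have e4 := Ed_nonneg T d e
  have e5 := Ed_nonneg T e g
  have e6 := Ed_nonneg T g a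
  have la := L_le N a
  have lb := L_le N b
  have ld := L_le N d
  unfold Tot
  linarith [wc.1]

theorem P3c (hT : N.Clq T) (h : Hy N T a b c d e g) (ha : a ∈ T) (hb : b ∉ T) (hc : c ∈ T)
    (hd : d ∉ T) (he : e ∈ T) (hg : g ∉ T) : 3 ≤ Tot N T a b c d e g := by
  have wa := wt0 (N := N) (T := T) g a b
  have wb := gap2 hT h.B ha hb hc
  have wc := wt0 (N := N) (T := T) b c d
  have wd := gap2 hT h.D hc hd he
  have we := wt0 (N := N) (T := T) d e g
  have wg := gap2 hT h.F he hg ha
  have e1 := Ed_nonneg T a b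
  have e2 := Ed_nonneg T b c
  have e3 := Ed_nonneg T c d
  have e4 := Ed_nonneg T d e
  have e5 := Ed_nonneg T e g
  have e6 := Ed_nonneg T g a
  unfold Tot
  linarith [wb.1, wd.1, wg.1]

/-- the conclusion -/
theorem main (hT : N.Clq T) (h2 : 2 ≤ T.card ∨ (a ∉ T ∧ b ∉ T ∧ c ∉ T ∧ d ∉ T ∧ e ∉ T ∧ g ∉ T))
    (h : Hy N T a b c d e g) : 3 ≤ Tot N T a b c d e g := by
  rcases h2 with h2 | ⟨ha, hb, hc, hd, he, hg⟩
  swap
  · exact P0 h ha hb hc hd he hg
  have k1 := h.rot
  have k2 := k1.rot
  have k3 := k2.rot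
  have k4 := k3.rot
  have k5 := k4.rot
  have r1 := Tot_rot N T a b c d e g
  have r2 := Tot_rot N T b c d e g a
  have r3 := Tot_rot N T c d e g a b
  have r4 := Tot_rot N T d e g a b c
  have r5 := Tot_rot N T e g a b c d
  have s1 := Tot_ref N T a b c d e g
  by_cases ha : a ∈ T
  · by_cases hb : b ∈ T
    · by_cases hc : c ∈ T
      · exact P3a hT h ha hb hc
      by_cases hd : d ∈ T
      · exact P3b hT h ha hb hc hd
      by_cases hg : g ∈ T
      · rw [← r1, ← r2, ← r3, ← r4, ← r5]
        exact P3a hT k5 hg ha hb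
      by_cases he : e ∈ T
      · have h3 := P3b hT k1.ref hb ha hg he
        rw [Tot_ref, r1] at h3
        exact h3
      exact P2 hT h2 h ha hb hc hd he hg
    · by_cases hg : g ∈ T
      · by_cases he : e ∈ T
        · rw [← r1, ← r2, ← r3, ← r4]
          exact P3a hT k4 he hg ha
        by_cases hc : c ∈ T
        · rw [← r1, ← r2, ← r3, ← r4, ← r5]
          exact P3b hT k5 hg ha hb hc
        by_cases hd : d ∈ T
        · rw [← s1]
          exact P3b hT h.ref ha hg he hd
        · rw [← r1, ← r2, ← r3, ← r4, ← r5]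
          exact P2 hT h2 k5 hg ha hb hc hd he
      · by_cases hc : c ∈ T
        · by_cases hd : d ∈ T
          · have h3 := P3b hT k3.ref hd hc hb ha
            rw [Tot_ref, r3, r2, r1] at h3
            exact h3
          · by_cases he : e ∈ T
            · exact P3c hT h ha hb hc hd he hg
            · exact P2b hT h2 h ha hb hc hd he hg
        · by_cases hd : d ∈ T
          · by_cases he : e ∈ T
            · rw [← r1, ← r2, ← r3]
              exact P3b hT k3 hd he hg ha
            · exact P2c hT h2 h ha hb hc hd he hg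
          · by_cases he : e ∈ T
            · rw [← r1, ← r2, ← r3, ← r4]
              exact P2b hT h2 k4 he hg ha hb hc hd
            · exact P1 hT h2 h ha hb hc hd he hg
  · by_cases hb : b ∈ T
    · by_cases hc : c ∈ T
      · by_cases hd : d ∈ T
        · rw [← r1]
          exact P3a hT k1 hb hc hd
        by_cases he : e ∈ T
        · rw [← r1]
          exact P3b hT k1 hb hc hd he
        by_cases hg : g ∈ T
        · have h3 := P3b hT k2.ref hc hb ha hg
          rw [Tot_ref, r2, r1] at h3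
          exact h3
        · rw [← r1]
          exact P2 hT h2 k1 hb hc hd he hg ha
      · by_cases hd : d ∈ T
        · by_cases he : e ∈ T
          · have h3 := P3b hT k4.ref he hd hc hb
            rw [Tot_ref, r4, r3, r2, r1] at h3
            exact h3
          · by_cases hg : g ∈ T
            · rw [← r1]
              exact P3c hT k1 hb hc hd he hg ha
            · rw [← r1]
              exact P2b hT h2 k1 hb hc hd he hg ha
        · by_cases he : e ∈ T
          · by_cases hg : g ∈ T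
            · rw [← r1, ← r2, ← r3, ← r4]
              exact P3b hT k4 he hg ha hb
            · rw [← r1]
              exact P2c hT h2 k1 hb hc hd he hg ha
          · by_cases hg : g ∈ T
            · rw [← r1, ← r2, ← r3, ← r4, ← r5]
              exact P2b hT h2 k5 hg ha hb hc hd he
            · rw [← r1]
              exact P1 hT h2 k1 hb hc hd he hg ha
    · by_cases hc : c ∈ T
      · by_cases hd : d ∈ T
        · by_cases he : e ∈ T
          · rw [← r1, ← r2]
            exact P3a hT k2 hc hd he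
          by_cases hg : g ∈ T
          · rw [← r1, ← r2]
            exact P3b hT k2 hc hd he hg
          · rw [← r1, ← r2]
            exact P2 hT h2 k2 hc hd he hg ha hb
        · by_cases he : e ∈ T
          · by_cases hg : g ∈ T
            · have h3 := P3b hT k5.ref hg he hd hc
              rw [Tot_ref, r5, r4, r3, r2, r1] at h3
              exact h3
            · rw [← r1, ← r2]
              exact P2b hT h2 k2 hc hd he hg ha hb
          · by_cases hg : g ∈ T
            · rw [← r1, ← r2]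
              exact P2c hT h2 k2 hc hd he hg ha hb
            · rw [← r1, ← r2]
              exact P1 hT h2 k2 hc hd he hg ha hb
      · by_cases hd : d ∈ T
        · by_cases he : e ∈ T
          · by_cases hg : g ∈ T
            · rw [← r1, ← r2, ← r3]
              exact P3a hT k3 hd he hg
            · rw [← r1, ← r2, ← r3]
              exact P2 hT h2 k3 hd he hg ha hb hc
          · by_cases hg : g ∈ T
            · rw [← r1, ← r2, ← r3]
              exact P2b hT h2 k3 hd he hg ha hb hc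
            · rw [← r1, ← r2, ← r3]
              exact P1 hT h2 k3 hd he hg ha hb hc
        · by_cases he : e ∈ T
          · by_cases hg : g ∈ T
            · rw [← r1, ← r2, ← r3, ← r4]
              exact P2 hT h2 k4 he hg ha hb hc hd
            · rw [← r1, ← r2, ← r3, ← r4]
              exact P1 hT h2 k4 he hg ha hb hc hd
          · by_cases hg : g ∈ T
            · rw [← r1, ← r2, ← r3, ← r4, ← r5]
              exact P1 hT h2 k5 hg ha hb hc hd he
            · exact P0 h ha hb hc hd he hg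

end HEX

open Nerve HEX

theorem m_HEX (_sh : StShift) : StHex := by
  classical
  intro κ _ _ N T f _ hT hW hl h2 hs
  have hne : ∀ i j, i < 6 → j < 6 → i ≠ j → f i ≠ f j := fun i j hi hj hij h =>
    hij (hW.inj i hi j hj h)
  have p6 : f 6 = f 0 := hW.per 0
  have p7 : f 7 = f 1 := hW.per 1
  have c0 : N.Cr (f 0) (f 1) (f 2) := (hW.cor 0).cr
  have c1 : N.Cr (f 1) (f 2) (f 3) := (hW.cor 1).cr
  have c2 : N.Cr (f 2) (f 3) (f 4) := (hW.cor 2).cr
  have c3 : N.Cr (f 3) (f 4) (f 5) := (hW.cor 3).cr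
  have c4 : N.Cr (f 4) (f 5) (f 6) := (hW.cor 4).cr
  have c5 : N.Cr (f 5) (f 6) (f 7) := (hW.cor 5).cr
  rw [p6] at c4 c5
  rw [p7] at c5
  have hy : Hy N T (f 0) (f 1) (f 2) (f 3) (f 4) (f 5) := by
    refine ⟨c5, c0, c1, c2, c3, c4, hne 0 3 (by norm_num) (by norm_num) (by norm_num),
      hne 1 4 (by norm_num) (by norm_num) (by norm_num),
      hne 2 5 (by norm_num) (by norm_num) (by norm_num), ?_, hs 0, hs 1, hs 2, hs 3, hs 4, hs 5⟩
    have h3 : ((N.lng 6 f : ℕ) : ℚ) = L N (f 0) + L N (f 1) + L N (f 2) + L N (f 3) + L N (f 4) +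
        L N (f 5) := by
      unfold Nerve.lng
      rw [card_filter]
      simp only [sum_range_succ, sum_range_zero]
      push_cast
      unfold L
      simp only [ite_not]
      ring
    rw [← h3]
    exact_mod_cast hl
  have h3 := HEX.main hT (by
    rcases h2 with h2 | h2
    · exact Or.inl h2
    · exact Or.inr ⟨h2 0, h2 1, h2 2, h2 3, h2 4, h2 5⟩) hy
  refine le_of_le_of_eq h3 ?_
  unfold Nerve.TF Tot Ed
  simp only [sum_range_succ, sum_range_zero, zero_add]
  norm_num
  rw [p6, p7]
  ring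

end Pool.Agent.Helper26.OC
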