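import Pool.Agent.Helper26.OC.M_HEX

/-!
# Module HEXONE: windows with six corners through the only near facet
-/

set_option autoImplicit false
set_option linter.unusedSectionVars false

open Finset

namespace Pool.Agent.Helper26.OC

namespace HEXONE

open Nerve HEX

variable {κ : Type} [Fintype κ] [DecidableEq κ] {N : Nerve κ}
variable {T : Finset κ} {a b c d e g u w : κ}

theorem fat1 (h : N.Cr b c d) (hc : N.a c = 1) : ¬ N.Thin d c := fun ht => by
  have h1 := Cr.thin_a N h (Thin.symm N ht)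
  omega

/-- an unmarked long corner with fat window edges -/
theorem fat_two (h : N.Cr u b w) (f1 : ¬ N.Thin b u) (f2 : ¬ N.Thin b w) (hb : b ∉ T)
    (hS : ¬ N.S b) (hn : N.nu T b = 0) : 2 ≤ N.wt (3 / 2) T u b w := by
  have hSt : ¬ N.St b := fun hSt => f1 (Cr.St_cases N h hSt).2.1
  have hF : ¬ N.Free T b := fun hF => by
    obtain ⟨p, -, -, -, -, h5⟩ := Cr.T21_cases N h hF.2.1
    rcases h5 with h5 | h5
    · exact f1 h5.1
    · exact f2 h5.1
  have h3 : ¬ (N.G b = 3 ∧ N.a b = 3) := by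
    classical
    rintro ⟨h3, h4⟩
    -- all darts at `b` are windows
    have hall : ∀ y, N.adj b y → N.win b y := by
      intro y hy
      have h5 : univ.filter (fun y => N.adj b y ∧ N.win b y) =
          univ.filter (fun y => N.adj b y) := by
        apply eq_of_subset_of_card_le
        · intro z hz
          rw [mem_filter] at hz ⊢
          exact ⟨hz.1, hz.2.1⟩
        · have e1 : (univ.filter (fun y => N.adj b y)).card = 3 := h3 ▸ (by unfold Nerve.G; congr)
          have e2 : (univ.filter (fun y => N.adj b y ∧ N.win b y)).card = 3 :=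
            h4 ▸ (by unfold Nerve.a; congr)
          rw [e1, e2]
      have h6 : y ∈ univ.filter (fun y => N.adj b y ∧ N.win b y) := by
        rw [h5, mem_filter]
        exact ⟨mem_univ _, hy⟩
      rw [mem_filter] at h6
      exact h6.2.2
    have hbu : N.adj b u := Cr.left N h
    apply f1
    refine ⟨hbu, fun z hz hzu => ?_⟩
    rcases N.tri hbu (N.symm hzu) (N.symm hz) with h7 | h7
    · exact h7.2 (hall u hbu)
    · exact h7.2 (hall z (N.symm hz))
  rw [N.wt_far hb]
  exact N.wf_unmarked_two (Cr.a_pos N h) hS hSt hn hF h3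

theorem nu_one {v : κ} (h : N.adj v a) : N.nu {a} v = 1 := by
  classical
  apply le_antisymm
  · unfold Nerve.nu
    exact le_trans (card_filter_le _ _) (by rw [card_singleton])
  · exact N.nu_pos (mem_singleton_self a) h

theorem nu_zero {v : κ} (h : ¬ N.adj v a) : N.nu {a} v = 0 :=
  N.nu_eq_zero.2 (fun y hy => by
    rw [mem_singleton] at hy
    rw [hy]
    exact h)

theorem adj_of_nu {v : κ} (h : N.nu {a} v = 1) : N.adj v a := by
  by_contra hv
  rw [nu_zero hv] at h
  omega

theorem not_S_of_Q {v : κ} (h : N.Q v) : ¬ N.S v := fun hS => by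
  have h1 := h.2
  have h2 := hS.2
  omega

/-- the last corner `g` is long, not `Free`, next to `a` -/
theorem end_two (h : Hy N {a} a b c d e g) (hg : g ∉ ({a} : Finset κ)) (Lg : ¬ N.S g)
    (hSt : ¬ N.St g) (hth : ¬ N.Thin g a) : 2 ≤ N.wt (3 / 2) {a} e g a := by
  rw [N.wt_far hg]
  refine N.wf_end_two (Cr.a_pos N h.F) Lg hSt (nu_one h.ga) (Or.inr (mem_singleton_self a))
    (fun hF => hth (hF.2.2 a (mem_singleton_self a) h.ga))

/-- `c` is `Q` with the mark `a` -/
theorem Kc (h : Hy N {a} a b c d e g) (ha3 : 3 ≤ N.a a) (hd : d ∉ ({a} : Finset κ))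
    (he : e ∉ ({a} : Finset κ)) (hg : g ∉ ({a} : Finset κ)) (hStg : ¬ N.St g)
    (hQ : N.Q c) (hn : N.nu {a} c = 1)
    (wd : N.wt (3 / 2) {a} c d e < 2) (we : N.wt (3 / 2) {a} d e g < 2)
    (wg : N.wt (3 / 2) {a} e g a < 2)
    (hs1 : L N b + L N c + L N d + L N e + L N g < 3)
    (hs2 : 2 ≤ L N b + L N c + L N d + L N e + L N g) : False := by
  have hca := adj_of_nu hn
  have Sb : N.S b := Cr.S_of2 N h.B (N.symm hca)
  have nSc := not_S_of_Q hQ
  have hda : ¬ N.adj d a := fun hda => nSc (Cr.S_of3 N h.C hca (N.symm h.ab) hda)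
  have nd := L_nonneg N d
  have ne := L_nonneg N e
  have ng := L_nonneg N g
  rw [L_S N Sb, L_l N nSc] at hs1 hs2
  by_cases Sd : N.S d
  · by_cases Se : N.S e
    · rw [L_S N Sd, L_S N Se] at hs2
      have Lg : ¬ N.S g := fun hS => by
        rw [L_S N hS] at hs2
        norm_num at hs2
      refine absurd (end_two h hg Lg hStg (fun hth => ?_)) (not_le.2 wg)
      have k5 := h.rot.rot.rot.rot.rot
      rcases hubB k5 Sd Se with h1 | ⟨p, p1, p2, p3, -⟩
      · exact hth.2 c h1 hca
      · have hap : a ≠ p := by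
          rintro rfl
          exact hda (N.symm p3)
        rcases N.noC4 (N.symm hca) (N.symm p1) p2 h.ga hap h.cg with h2 | h2
        · exact hth.2 p p2 (N.symm h2)
        · exact hth.2 c h2 hca
    · rw [L_l N Se, L_S N Sd] at hs1
      have Sg : N.S g := short_of (by linarith)
      by_cases hea : N.adj e a
      · rcases N.noC4 (N.symm hca) h.cd h.de hea h.ad (Cr.ne N h.D) with h1 | h1
        · exact hda (N.symm h1)
        · have hQa := Cr.Q_of4 N h.A (p := e) (q := c) (N.symm hea) (N.symm h.eg) (N.symm hca)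
            h.bc (N.symm h1) h.be.symm h.cg
          have := hQa.1
          omega
      · exact absurd (fat_two h.E (fat h.D Sd) (fat (Cr.symm N h.F) Sg) he Se (nu_zero hea))
          (not_le.2 we)
  · rw [L_l N Sd] at hs1
    have Se : N.S e := short_of (by linarith)
    exact absurd (fat_two h.D (fat1 h.C hQ.1) (fat (Cr.symm N h.E) Se) hd Sd (nu_zero hda))
      (not_le.2 wd)

/-- `d` is `Q` with the mark `a` -/
theorem Kd (h : Hy N {a} a b c d e g) (ha3 : 3 ≤ N.a a)
    (he : e ∉ ({a} : Finset κ)) (hg : g ∉ ({a} : Finset κ)) (hStg : ¬ N.St g)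
    (hQ : N.Q d) (hn : N.nu {a} d = 1)
    (we : N.wt (3 / 2) {a} d e g < 2) (wg : N.wt (3 / 2) {a} e g a < 2)
    (hs1 : L N e + L N g < 2) (hs2 : 1 ≤ L N e + L N g) : False := by
  have hda := adj_of_nu hn
  have nSd := not_S_of_Q hQ
  have key := N.noC4 h.ab h.bc h.cd hda (Cr.ne N h.B) (Cr.ne N h.C)
  by_cases Se : N.S e
  · rw [L_S N Se] at hs2
    have Lg : ¬ N.S g := fun hS => by
      rw [L_S N hS] at hs2
      norm_num at hs2
    refine absurd (end_two h hg Lg hStg (fun hth => ?_)) (not_le.2 wg)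
    rcases N.noC4 (N.symm hda) h.de h.eg h.ga (Cr.ne N h.F).symm (Cr.ne N h.E) with h1 | h1
    · exact Lg (Cr.S_of2 N h.F (N.symm h1))
    · exact hth.2 d h1 hda
  · rw [L_l N Se] at hs1
    have Sg : N.S g := short_of (by linarith)
    by_cases hea : N.adj e a
    · rcases key with h1 | h1
      · exact nSd (Cr.S_of3 N h.D hda (N.symm h1) hea)
      · have hQa := Cr.Q_of4 N h.A (p := e) (q := d) (N.symm hea) (N.symm h.eg) (N.symm hda)
          h1 (N.symm h.de) h.be.symm (Cr.ne N h.E)
        have := hQa.1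
        omega
    · exact absurd (fat_two h.E (fat1 h.D hQ.1) (fat (Cr.symm N h.F) Sg) he Se (nu_zero hea))
        (not_le.2 we)

/-- long far corners which are neither strips nor `Q` with one mark off the window -/
theorem thl (h : N.Cr u b w) (hb : b ∉ T) (hSt : ¬ N.St b)
    (hno : ¬ (N.Q b ∧ N.nu T b = 1 ∧ u ∉ T ∧ w ∉ T)) :
    3 / 2 * L N b ≤ N.wt (3 / 2) T u b w := by
  by_cases hS : N.S b
  · rw [L_S N hS, mul_zero]
    exact N.wt_nonneg (by norm_num)
  · rw [L_l N hS, mul_one]
    by_contra hlt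
    rcases far_type h hb hS (not_le.1 hlt) with h1 | h1
    · exact hSt h1
    · exact hno h1

/-- the conclusion -/
theorem main (h : Hy N {a} a b c d e g) (ha3 : 3 ≤ N.a a) : 3 ≤ Tot N {a} a b c d e g := by
  have hb : b ∉ ({a} : Finset κ) := by
    rw [mem_singleton]; exact (N.ne_of_adj h.ab).symm
  have hc : c ∉ ({a} : Finset κ) := by
    rw [mem_singleton]; exact (Cr.ne N h.B).symm
  have hd : d ∉ ({a} : Finset κ) := by
    rw [mem_singleton]; exact h.ad.symm
  have he : e ∉ ({a} : Finset κ) := by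
    rw [mem_singleton]; exact Cr.ne N h.F
  have hg : g ∉ ({a} : Finset κ) := by
    rw [mem_singleton]; exact N.ne_of_adj h.ga
  have wa : 0 ≤ N.wt (3 / 2) {a} g a b := N.wt_nonneg (by norm_num)
  have wb := far_L h.B hb h.sb
  have wc := far_L h.C hc h.sc
  have wd := far_L h.D hd h.sd
  have we := far_L h.E he h.se
  have wg := far_L h.F hg h.sg
  have e1 := Ed_nonneg {a} a b
  have e2 := Ed_nonneg {a} b c
  have e3 := Ed_nonneg {a} c d
  have e4 := Ed_nonneg {a} d e
  have e5 := Ed_nonneg {a} e g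
  have e6 := Ed_nonneg {a} g a
  have nSa : ¬ N.S a := fun hS => by
    have := hS.1
    omega
  have lg := h.lg
  rw [L_l N nSa] at lg
  by_contra hcon
  push Not at hcon
  unfold Tot at hcon
  have hs : L N b + L N c + L N d + L N e + L N g < 3 := by linarith
  have hs2 : 2 ≤ L N b + L N c + L N d + L N e + L N g := by linarith
  have nb := L_nonneg N b
  have nc := L_nonneg N c
  have nd := L_nonneg N d
  have ne := L_nonneg N e
  have ng := L_nonneg N g
  have tb : ¬ N.St b := fun hSt => strip_b h hSt hs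
  have tg : ¬ N.St g := fun hSt => strip_b h.ref hSt (by linarith)
  have tc : ¬ N.St c := fun hSt => by
    have h3 := h.sc hSt hc
    rw [strip_unmarked h.C hSt hb hd] at h3
    omega
  have td : ¬ N.St d := fun hSt => by
    have h3 := h.sd hSt hd
    rw [strip_unmarked h.D hSt hc he] at h3
    omega
  have te : ¬ N.St e := fun hSt => by
    have h3 := h.se hSt he
    rw [strip_unmarked h.E hSt hd hg] at h3
    omega
  by_cases qc : N.Q c ∧ N.nu {a} c = 1
  · have l1 := L_l N (not_S_of_Q qc.1)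
    exact Kc h ha3 hd he hg tg qc.1 qc.2 (by linarith) (by linarith) (by linarith) hs hs2
  by_cases qe : N.Q e ∧ N.nu {a} e = 1
  · have l1 := L_l N (not_S_of_Q qe.1)
    refine Kc h.ref ha3 hd hc hb tb qe.1 qe.2 ?_ ?_ ?_ (by linarith) (by linarith)
    · rw [wt_comm]; linarith
    · rw [wt_comm]; linarith
    · rw [wt_comm]; linarith
  by_cases qd : N.Q d ∧ N.nu {a} d = 1
  · have l1 := L_l N (not_S_of_Q qd.1)
    by_cases hbc : N.S b ∧ N.S c
    · have l2 := L_S N hbc.1
      have l3 := L_S N hbc.2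
      exact Kd h ha3 he hg tg qd.1 qd.2 (by linarith) (by linarith) (by linarith) (by linarith)
    · have l4 : 1 ≤ L N b + L N c := by
        rw [not_and_or] at hbc
        rcases hbc with h1 | h1
        · rw [L_l N h1]; linarith
        · rw [L_l N h1]; linarith
      have l5 : N.S e := short_of (by linarith)
      have l6 : N.S g := short_of (by linarith)
      have l7 := L_S N l5
      have l8 := L_S N l6
      refine Kd h.ref ha3 hc hb tb qd.1 qd.2 ?_ ?_ (by linarith) (by linarith)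
      · rw [wt_comm]; linarith
      · rw [wt_comm]; linarith
  have ub := thl h.B hb tb (fun hh => hh.2.2.1 (mem_singleton_self a))
  have uc := thl h.C hc tc (fun hh => qc ⟨hh.1, hh.2.1⟩)
  have ud := thl h.D hd td (fun hh => qd ⟨hh.1, hh.2.1⟩)
  have ue := thl h.E he te (fun hh => qe ⟨hh.1, hh.2.1⟩)
  have ug := thl h.F hg tg (fun hh => hh.2.2.2 (mem_singleton_self a))
  linarith

theorem fin6 {f : ℕ → κ} (p6 : f 6 = f 0) (p7 : f 7 = f 1)
    (h : 3 ≤ Tot N T (f 0) (f 1) (f 2) (f 3) (f 4) (f 5)) : 3 ≤ N.TF (3 / 2) T 6 f := by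
  classical
  refine le_of_le_of_eq h ?_
  unfold Nerve.TF Tot Ed
  simp only [sum_range_succ, sum_range_zero, zero_add]
  norm_num
  rw [p6, p7]
  ring

end HEXONE

open Nerve HEX

theorem m_HEXONE (sh : StShift) : StHexOne := by
  classical
  intro κ _ _ N x f' hW' hl' hx ⟨i0, hi0⟩ hs'
  obtain ⟨hW, hl0, hTF⟩ := sh N 6 f' i0 hW'
  have hl : 3 ≤ N.lng 6 (fun i => f' (i + i0)) := by rw [hl0]; exact hl'
  rw [← hTF (3 / 2) {x}]
  have hf0 : (fun i => f' (i + i0)) 0 = x := by
    show f' (0 + i0) = x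
    rw [Nat.zero_add]; exact hi0
  have hs : ∀ i, N.St ((fun i => f' (i + i0)) i) → (fun i => f' (i + i0)) i ≠ x →
      1 ≤ N.nu {x} ((fun i => f' (i + i0)) i) := fun i => hs' (i + i0)
  generalize (fun i => f' (i + i0)) = f at hW hl hf0 hs ⊢
  subst hf0
  have hne : ∀ i j, i < 6 → j < 6 → i ≠ j → f i ≠ f j := fun i j hi hj hij h =>
    hij (hW.inj i hi j hj h)
  have p6 : f 6 = f 0 := hW.per 0
  have p7 : f 7 = f 1 := hW.per 1
  have c0 : N.Cr (f 0) (f 1) (f 2) := (hW.cor 0).cr
  have c1 : N.Cr (f 1) (f 2) (f 3) := (hW.cor 1).cr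
  have c2 : N.Cr (f 2) (f 3) (f 4) := (hW.cor 2).cr
  have c3 : N.Cr (f 3) (f 4) (f 5) := (hW.cor 3).cr
  have c4 : N.Cr (f 4) (f 5) (f 6) := (hW.cor 4).cr
  have c5 : N.Cr (f 5) (f 6) (f 7) := (hW.cor 5).cr
  rw [p6] at c4 c5
  rw [p7] at c5
  have hs1 : ∀ i, N.St (f i) → f i ∉ ({f 0} : Finset κ) → 1 ≤ N.nu {f 0} (f i) :=
    fun i h1 h2 => hs i h1 (fun h3 => h2 (by rw [h3]; exact mem_singleton_self _))
  have hy : Hy N {f 0} (f 0) (f 1) (f 2) (f 3) (f 4) (f 5) := by
    refine ⟨c5, c0, c1, c2, c3, c4, hne 0 3 (by norm_num) (by norm_num) (by norm_num),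
      hne 1 4 (by norm_num) (by norm_num) (by norm_num),
      hne 2 5 (by norm_num) (by norm_num) (by norm_num), ?_, hs1 0, hs1 1, hs1 2, hs1 3, hs1 4,
      hs1 5⟩
    have h3 : ((N.lng 6 f : ℕ) : ℚ) = L N (f 0) + L N (f 1) + L N (f 2) + L N (f 3) + L N (f 4) +
        L N (f 5) := by
      unfold Nerve.lng
      rw [card_filter]
      simp only [sum_range_succ, sum_range_zero]
      push_cast
      unfold L
      simp only [ite_not]
      ring
    rw [← h3]
    exact_mod_cast hl
  exact HEXONE.fin6 p6 p7 (HEXONE.main hy hx)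

end Pool.Agent.Helper26.OC
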