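import Mathlib
import Pool.Agent.Helper26.OC.St

/-!
# Module K7: windows with seven and with eight corners
-/

set_option autoImplicit false

open Finset

namespace Pool.Agent.Helper26.OC

namespace K7

open Nerve

/-- three indices in the cycle of length seven -/
theorem seven0 : ∀ a b c d e g h : Bool,
    (a.toNat + b.toNat + c.toNat + d.toNat + e.toNat + g.toNat + h.toNat = 3) →
    ((a && b) || (b && c) || (c && d) || (d && e) || (e && g) || (g && h) || (h && a)) = true ∨
    ((a && !b && c) || (b && !c && d) || (c && !d && e) || (d && !e && g) || (e && !g && h) ||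
      (g && !h && a) || (h && !a && b)) = true := by
  decide

theorem seven (P : ℕ → Prop) (hP : ∀ i, P (i + 7) ↔ P i)
    (h3 : (by classical exact ((range 7).filter (fun i => P (i + 1))).card) = 3) :
    (∃ i < 7, P (i + 1) ∧ P (i + 2)) ∨ (∃ i < 7, P (i + 1) ∧ ¬ P (i + 2) ∧ P (i + 3)) := by
  classical
  have h3' : ((range 7).filter (fun i => P (i + 1))).card = 3 := by convert h3
  have key := seven0 (decide (P 1)) (decide (P 2)) (decide (P 3)) (decide (P 4)) (decide (P 5))
    (decide (P 6)) (decide (P 7)) (by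
      rw [card_filter] at h3'
      simp only [sum_range_succ, sum_range_zero, zero_add] at h3'
      refine Eq.trans ?_ h3'
      have hb : ∀ (p : Prop) [Decidable p], (decide p).toNat = if p then 1 else 0 := by
        intro p _; by_cases hp : p <;> simp [hp]
      simp only [hb])
  have h8 : P 8 ↔ P 1 := hP 1
  have h9 : P 9 ↔ P 2 := hP 2
  simp only [Bool.or_eq_true, Bool.and_eq_true, Bool.not_eq_true', decide_eq_true_eq,
    decide_eq_false_iff_not] at key
  rcases key with ((((((h | h) | h) | h) | h) | h) | h) | ((((((h | h) | h) | h) | h) | h) | h)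
  · exact Or.inl ⟨0, by norm_num, h⟩
  · exact Or.inl ⟨1, by norm_num, h⟩
  · exact Or.inl ⟨2, by norm_num, h⟩
  · exact Or.inl ⟨3, by norm_num, h⟩
  · exact Or.inl ⟨4, by norm_num, h⟩
  · exact Or.inl ⟨5, by norm_num, h⟩
  · exact Or.inl ⟨6, by norm_num, h.1, h8.2 h.2⟩
  · exact Or.inr ⟨0, by norm_num, h.1.1, h.1.2, h.2⟩
  · exact Or.inr ⟨1, by norm_num, h.1.1, h.1.2, h.2⟩
  · exact Or.inr ⟨2, by norm_num, h.1.1, h.1.2, h.2⟩
  · exact Or.inr ⟨3, by norm_num, h.1.1, h.1.2, h.2⟩
  · exact Or.inr ⟨4, by norm_num, h.1.1, h.1.2, h.2⟩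
  · exact Or.inr ⟨5, by norm_num, h.1.1, h.1.2, h8.2 h.2⟩
  · exact Or.inr ⟨6, by norm_num, h.1.1, fun h' => h.1.2 (h8.1 h'), h9.2 h.2⟩

variable {κ : Type} [Fintype κ] [DecidableEq κ] (N : Nerve κ)

/-- long far corners -/
theorem far_long {T : Finset κ} {k : ℕ} {f : ℕ → κ} (hW : N.IsWin k f)
    (hst : ∀ i, N.St (f i) → f i ∉ T → 1 ≤ N.nu T (f i)) (i : ℕ) (hT : f (i + 1) ∉ T)
    (hS : ¬ N.S (f (i + 1))) :
    1 ≤ N.wt (3 / 2) T (f i) (f (i + 1)) (f (i + 2)) := by
  rw [N.wt_far hT]
  by_cases hSt : N.St (f (i + 1))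
  · rw [N.wf_St_marked hSt (hst _ hSt hT)]
  · exact N.one_le_wf (Cr.a_pos N (hW.cor i).cr) hS hSt (by norm_num)

/-- near corners, three near facets -/
theorem near_three {T : Finset κ} (h3 : T.card = 3) {u b w : κ} (hb : b ∈ T) :
    1 / 2 ≤ N.wt (3 / 2) T u b w := by
  rw [N.wt_near hb]
  unfold wn
  rw [if_neg (by omega), if_neg (by omega)]
  split_ifs <;> norm_num

/-- near corners, two near facets, the other one is not next to the corner -/
theorem near_two {T : Finset κ} (hC : N.Clq T) (h2 : T.card = 2) {u b w : κ} (h : N.Cor u b w)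
    (hb : b ∈ T) (hu : u ∉ T) (hw : w ∉ T) :
    1 / 2 ≤ N.wt (3 / 2) T u b w := by
  rw [N.wt_near hb]
  have huw : ¬ (u ∈ T ∨ w ∈ T) := by tauto
  have hthin : ¬ (N.G b = 3 ∧ N.a b = 2 ∧ (∀ y ∈ T, N.adj b y → N.Thin b y)) := by
    rintro ⟨hG, ha, hy⟩
    obtain ⟨y, hyT, hyb⟩ := exists_mem_ne (s := T) (by omega) b
    have hby : N.adj b y := hC b hb y hyT hyb.symm
    have ht := hy y hyT hby
    obtain ⟨p, hpu, hpw, hN, huw', h5⟩ := Cr.T21_cases N h.cr ⟨ha, hG⟩
    rcases (hN y).1 hby with rfl | rfl | rfl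
    · exact hu hyT
    · rcases h5 with ⟨-, hpw', -, -⟩ | ⟨-, hup', -, -⟩
      · exact ht.2 w (N.symm h.2.1) (N.symm hpw')
      · exact ht.2 u h.1 hup'
    · exact hw hyT
  unfold wn
  rw [if_neg (by omega), if_pos h2]
  split_ifs <;> norm_num

/-- the short corner between two near facets -/
theorem between {T : Finset κ} (hC : N.Clq T) {u b w : κ} (h : N.Cor u b w)
    (hb : b ∉ T) (hu : u ∈ T) (hw : w ∈ T) : 1 ≤ N.wt (3 / 2) T u b w := by
  have huw : u ≠ w := Cr.ne N h.cr
  have hadj : N.adj u w := hC u hu w hw huw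
  have hS := Cr.S_of2 N h.cr hadj
  have hn : N.nu T b = 2 :=
    le_antisymm (N.nu_le hC hb) (N.nu_two hu hw huw (N.symm h.1) h.2.1)
  rw [N.wt_far hb, N.wf_S_two hS hn]

end K7

open K7 Nerve

open Classical in
theorem m_K7 (sh : StShift) : StK7 := by
  intro κ _ _ N T f hTn hC hW hl hst
  -- the corners
  set w : ℕ → ℚ := fun i => N.wt (3 / 2) T (f i) (f (i + 1)) (f (i + 2)) with hw
  set e : ℕ → ℚ := fun i => if f i ∈ T ∧ f (i + 1) ∈ T then 1 else 0 with he
  have hTF : N.TF (3 / 2) T 7 f = ∑ i ∈ range 7, w i + ∑ i ∈ range 7, e i := by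
    unfold TF
    rw [sum_add_distrib]
  have hw0 : ∀ i, 0 ≤ w i := fun i => N.wt_nonneg (by norm_num)
  have he0 : ∀ i, 0 ≤ e i := by intro i; simp only [he]; split_ifs <;> norm_num
  have hsh := sh N 7 f 1 hW
  set A := (range 7).filter (fun i => ¬ N.S (f (i + 1))) with hA
  have hAc : 3 ≤ A.card := by
    have h1 := hsh.2.1
    have h2 : A.card = N.lng 7 (fun i => f (i + 1)) := rfl
    omega
  set B := (range 7).filter (fun i => f (i + 1) ∈ T) with hB
  have hBc : B.card ≤ T.card := by
    refine card_le_card_of_injOn (fun i => f (i + 1)) ?_ ?_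
    · intro i hi
      have := (mem_filter.1 (Finset.mem_coe.1 hi)).2
      exact this
    · intro i hi j hj hij
      exact hsh.1.inj i (mem_range.1 (mem_filter.1 (Finset.mem_coe.1 hi)).1) j
        (mem_range.1 (mem_filter.1 (Finset.mem_coe.1 hj)).1) hij
  have hT3 : T.card ≤ 3 := hC.card_le N
  have hAB : A.card ≤ (A \ B).card + B.card := by
    have := card_le_card_sdiff_add_card (s := A) (t := B)
    omega
  -- the long far corners
  have hfar : ∀ i ∈ A \ B, 1 ≤ w i := by
    intro i hi
    rw [mem_sdiff, hA, hB, mem_filter, mem_filter] at hi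
    exact far_long N hW hst i (fun h => hi.2 ⟨hi.1.1, h⟩) hi.1.2
  have hsum1 : ((A \ B).card : ℚ) ≤ ∑ i ∈ A \ B, w i := by
    have := sum_le_sum hfar
    simpa using this
  have hsub1 : A \ B ⊆ range 7 := fun i hi => (mem_filter.1 (mem_sdiff.1 hi).1).1
  have hsub2 : B ⊆ range 7 := fun i hi => (mem_filter.1 hi).1
  have hdis : Disjoint (A \ B) B := sdiff_disjoint
  have hsumAB : ∑ i ∈ A \ B, w i + ∑ i ∈ B, w i ≤ ∑ i ∈ range 7, w i := by
    rw [← sum_union hdis]
    exact sum_le_sum_of_subset_of_nonneg (union_subset hsub1 hsub2) (fun i _ _ => hw0 i)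
  have hesum0 : 0 ≤ ∑ i ∈ range 7, e i := sum_nonneg (fun i _ => he0 i)
  have hBsum0 : 0 ≤ ∑ i ∈ B, w i := sum_nonneg (fun i _ => hw0 i)
  rw [hTF]
  -- an edge of the window between two near facets
  have hedge : (∃ i < 7, f (i + 1) ∈ T ∧ f (i + 2) ∈ T) → 1 ≤ ∑ i ∈ range 7, e i := by
    rintro ⟨i, hi, h1, h2⟩
    by_cases h6 : i + 1 < 7
    · calc (1 : ℚ) = e (i + 1) := by simp only [he]; rw [if_pos ⟨h1, h2⟩]
        _ ≤ _ := single_le_sum (fun j _ => he0 j) (mem_range.2 h6)
    · have hi6 : i = 6 := by omega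
      subst hi6
      have p0 : f 7 = f 0 := hW.per 0
      have p1 : f 8 = f 1 := hW.per 1
      calc (1 : ℚ) = e 0 := by
            simp only [he]
            rw [if_pos ⟨by rw [← p0]; exact h1, by rw [zero_add, ← p1]; exact h2⟩]
        _ ≤ _ := single_le_sum (fun j _ => he0 j) (mem_range.2 (by norm_num))
  -- near corners if no edge lies between near facets
  by_cases hcons : ∃ i < 7, f (i + 1) ∈ T ∧ f (i + 2) ∈ T
  · have h1 := hedge hcons
    by_cases hB2 : B.card ≤ 2
    · have : (1 : ℚ) ≤ ((A \ B).card : ℚ) := by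
        have : 1 ≤ (A \ B).card := by omega
        exact_mod_cast this
      linarith
    · have hB3 : B.card = 3 := by omega
      have hTc : T.card = 3 := by omega
      have hBw : ∀ i ∈ B, (1 / 2 : ℚ) ≤ w i := fun i hi => near_three N hTc (mem_filter.1 hi).2
      have h2 := sum_le_sum hBw
      rw [sum_const, hB3, nsmul_eq_mul] at h2
      have : (0 : ℚ) ≤ ∑ i ∈ A \ B, w i := sum_nonneg (fun i _ => hw0 i)
      norm_num at h2
      linarith
  · by_cases hB1 : B.card ≤ 1
    · have : (2 : ℚ) ≤ ((A \ B).card : ℚ) := by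
        have : 2 ≤ (A \ B).card := by omega
        exact_mod_cast this
      linarith
    · have hBw : ∀ i ∈ B, (1 / 2 : ℚ) ≤ w i := by
        intro i hi
        have hi' := mem_filter.1 hi
        rcases (show T.card = 2 ∨ T.card = 3 by omega) with h2 | h3
        · refine near_two N hC h2 (hW.cor i) hi'.2 ?_ ?_
          · intro hu
            apply hcons
            -- the edge from `f i` to `f (i+1)`
            by_cases h0 : i = 0
            · subst h0
              have p0 : f 7 = f 0 := hW.per 0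
              have p1 : f 8 = f 1 := hW.per 1
              exact ⟨6, by norm_num, by rw [p0]; exact hu, by rw [p1]; exact hi'.2⟩
            · refine ⟨i - 1, by have := mem_range.1 hi'.1; omega, ?_, ?_⟩
              · rw [show i - 1 + 1 = i by omega]; exact hu
              · rw [show i - 1 + 2 = i + 1 by omega]; exact hi'.2
          · intro hw'
            exact hcons ⟨i, mem_range.1 hi'.1, hi'.2, hw'⟩
        · exact near_three N h3 hi'.2
      have h2 := sum_le_sum hBw
      rw [sum_const, nsmul_eq_mul] at h2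
      by_cases hB2 : B.card = 2
      · have : (1 : ℚ) ≤ ((A \ B).card : ℚ) := by
          have : 1 ≤ (A \ B).card := by omega
          exact_mod_cast this
        rw [hB2] at h2
        norm_num at h2
        linarith
      · have hB3 : B.card = 3 := by omega
        rw [hB3] at h2
        norm_num at h2
        rcases seven (fun i => f i ∈ T) (fun i => by
            show f (i + 7) ∈ T ↔ f i ∈ T
            rw [hW.per]) (by rw [← hB3, hB]; congr) with h | ⟨i, hi, h1, hnot, h3⟩
        · exact absurd h hcons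
        · -- the corner `f (i+2)`
          have hbt := between N hC (hW.cor (i + 1)) hnot h1 h3
          have hone : ∃ j ∈ range 7, j ∉ B ∧ 1 ≤ w j := by
            by_cases h6 : i + 1 < 7
            · refine ⟨i + 1, mem_range.2 h6, ?_, hbt⟩
              intro hj
              exact hnot (mem_filter.1 hj).2
            · have hi6 : i = 6 := by omega
              subst hi6
              have p0 : f 7 = f 0 := hW.per 0
              have p1 : f 8 = f 1 := hW.per 1
              have p2 : f 9 = f 2 := hW.per 2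
              refine ⟨0, mem_range.2 (by norm_num), ?_, ?_⟩
              · intro hj
                apply hnot
                show f 8 ∈ T
                rw [p1]
                exact (mem_filter.1 hj).2
              · have hbt' : 1 ≤ N.wt (3 / 2) T (f 7) (f 8) (f 9) := hbt
                rw [p0, p1, p2] at hbt'
                exact hbt'
          obtain ⟨j, hj, hjB, hjw⟩ := hone
          have hdis2 : Disjoint ({j} : Finset ℕ) B := by
            rw [disjoint_singleton_left]; exact hjB
          have hs : w j + ∑ i ∈ B, w i ≤ ∑ i ∈ range 7, w i := by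
            rw [← sum_singleton w j, ← sum_union hdis2]
            exact sum_le_sum_of_subset_of_nonneg
              (union_subset (singleton_subset_iff.2 hj) hsub2) (fun i _ _ => hw0 i)
          linarith

open Classical in
theorem m_K8 (sh : StShift) : StK8 := by
  intro κ _ _ N T f hTn hC hW hl hst
  set w : ℕ → ℚ := fun i => N.wt (3 / 2) T (f i) (f (i + 1)) (f (i + 2)) with hw
  set e : ℕ → ℚ := fun i => if f i ∈ T ∧ f (i + 1) ∈ T then 1 else 0 with he
  have hTF : N.TF (3 / 2) T 8 f = ∑ i ∈ range 8, w i + ∑ i ∈ range 8, e i := by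
    unfold TF
    rw [sum_add_distrib]
  have hw0 : ∀ i, 0 ≤ w i := fun i => N.wt_nonneg (by norm_num)
  have he0 : ∀ i, 0 ≤ e i := by intro i; simp only [he]; split_ifs <;> norm_num
  have hesum0 : 0 ≤ ∑ i ∈ range 8, e i := sum_nonneg (fun i _ => he0 i)
  have hsh := sh N 8 f 1 hW
  set A := (range 8).filter (fun i => ¬ N.S (f (i + 1))) with hA
  have hAc : 3 ≤ A.card := by
    have h1 := hsh.2.1
    have h2 : A.card = N.lng 8 (fun i => f (i + 1)) := rfl
    omega
  rw [hTF]
  by_cases h : ∃ i ∈ A, f (i + 1) ∉ T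
  · obtain ⟨i, hi, hiT⟩ := h
    have hi' := mem_filter.1 hi
    have h1 := far_long N hW hst i hiT hi'.2
    have h2 : w i ≤ ∑ i ∈ range 8, w i := single_le_sum (fun j _ => hw0 j) hi'.1
    linarith
  · push Not at h
    have hT3 : T.card ≤ 3 := hC.card_le N
    have hAT : A.card ≤ T.card := by
      refine card_le_card_of_injOn (fun i => f (i + 1)) ?_ ?_
      · intro i hi
        exact h i (Finset.mem_coe.1 hi)
      · intro i hi j hj hij
        exact hsh.1.inj i (mem_range.1 (mem_filter.1 (Finset.mem_coe.1 hi)).1) j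
          (mem_range.1 (mem_filter.1 (Finset.mem_coe.1 hj)).1) hij
    have hTc : T.card = 3 := by omega
    have hAw : ∀ i ∈ A, (1 / 2 : ℚ) ≤ w i := fun i hi => near_three N hTc (h i hi)
    have h2 := sum_le_sum hAw
    rw [sum_const, nsmul_eq_mul] at h2
    have hA3 : (3 : ℚ) ≤ (A.card : ℚ) := by exact_mod_cast hAc
    have h3 : ∑ i ∈ A, w i ≤ ∑ i ∈ range 8, w i :=
      sum_le_sum_of_subset_of_nonneg (fun i hi => (mem_filter.1 hi).1) (fun i _ _ => hw0 i)
    linarith

end Pool.Agent.Helper26.OC
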