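import Pool.Agent.Helper26.OC.St

/-!
# Module SHIFT: a window may be started at any corner
-/

set_option autoImplicit false

open Finset

namespace Pool.Agent.Helper26.OC

namespace SHIFT

theorem sum_shift {M : Type} [AddCancelCommMonoid M] (g : ℕ → M) (k : ℕ)
    (hg : ∀ i, g (i + k) = g i) (j : ℕ) :
    ∑ i ∈ range k, g (i + j) = ∑ i ∈ range k, g i := by
  induction j with
  | zero => rfl
  | succ j ih =>
    rw [← ih]
    have h1 : ∑ i ∈ range (k + 1), g (i + j) = ∑ i ∈ range k, g (i + j) + g (k + j) :=
      sum_range_succ (fun i => g (i + j)) k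
    have h2 : ∑ i ∈ range (k + 1), g (i + j) = ∑ i ∈ range k, g (i + 1 + j) + g (0 + j) :=
      sum_range_succ' (fun i => g (i + j)) k
    have h3 : g (k + j) = g (0 + j) := by
      rw [Nat.add_comm k j, hg j, Nat.zero_add]
    rw [h1, h3] at h2
    have h4 := add_right_cancel h2
    rw [h4]
    refine sum_congr rfl fun i _ => ?_
    rw [show i + (j + 1) = i + 1 + j by ring]

end SHIFT

theorem m_SHIFT : StShift := by
  intro κ _ _ N k f j hf
  have hper : Function.Periodic f k := hf.per
  have hper' : ∀ i, f (i + k) = f i := hf.per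
  refine ⟨⟨hf.five, fun i => ?_, fun i => ?_, fun i hi l hl h => ?_⟩, ?_, fun q T => ?_⟩
  · have h := hf.cor (i + j)
    rw [show i + j + 1 = i + 1 + j by ring, show i + j + 2 = i + 2 + j by ring] at h
    exact h
  · show f (i + k + j) = f (i + j)
    rw [show i + k + j = i + j + k by ring]
    exact hf.per _
  · have hk : 0 < k := lt_of_lt_of_le (by norm_num) hf.five
    have h' : f (i + j) = f (l + j) := h
    rw [← hper.map_mod_nat (i + j), ← hper.map_mod_nat (l + j)] at h'
    have h1 := hf.inj _ (Nat.mod_lt _ hk) _ (Nat.mod_lt _ hk) h'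
    have h2 : i + j ≡ l + j [MOD k] := h1
    exact Nat.ModEq.eq_of_lt_of_lt (Nat.ModEq.add_right_cancel' j h2) hi hl
  · classical
    unfold Nerve.lng
    rw [card_filter, card_filter]
    exact SHIFT.sum_shift (fun i => if ¬ N.S (f i) then 1 else 0) k
      (fun i => by simp only [hper' i]) j
  · classical
    unfold Nerve.TF
    have h := SHIFT.sum_shift (fun i => N.wt q T (f i) (f (i + 1)) (f (i + 2)) +
      (if f i ∈ T ∧ f (i + 1) ∈ T then (1 : ℚ) else 0)) k (fun i => by
        have e1 : f (i + k + 1) = f (i + 1) := by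
          rw [show i + k + 1 = i + 1 + k by ring]
          exact hf.per _
        have e2 : f (i + k + 2) = f (i + 2) := by
          rw [show i + k + 2 = i + 2 + k by ring]
          exact hf.per _
        simp only [hper' i, e1, e2]) j
    refine Eq.trans (sum_congr rfl fun i _ => ?_) h
    have a1 : f (i + 1 + j) = f (i + j + 1) := by rw [show i + 1 + j = i + j + 1 by ring]
    have a2 : f (i + 2 + j) = f (i + j + 2) := by rw [show i + 2 + j = i + j + 2 by ring]
    have b1 : N.wt q T (f (i + j)) (f (i + 1 + j)) (f (i + 2 + j)) =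
        N.wt q T (f (i + j)) (f (i + j + 1)) (f (i + j + 2)) := by rw [a1, a2]
    have b2 : (f (i + j) ∈ T ∧ f (i + 1 + j) ∈ T) ↔ (f (i + j) ∈ T ∧ f (i + j + 1) ∈ T) := by
      rw [a1]
    exact congrArg₂ (· + ·) b1 (if_congr b2 rfl rfl)

end Pool.Agent.Helper26.OC
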