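import Pool.Agent.Helper26.OC.St

/-!
# Module ST (helper8): windows with an unmarked far strip have nonnegative surplus
-/

set_option autoImplicit false

open Finset

namespace Pool.Agent.Helper26.OC

namespace ST

/-! ### Shifts -/

theorem sum_shift (g : ℕ → ℚ) (k : ℕ) (hg : ∀ i, g (i + k) = g i) (j : ℕ) :
    ∑ i ∈ range k, g (i + j) = ∑ i ∈ range k, g i := by
  induction j with
  | zero => rfl
  | succ j ih =>
    rw [← ih]
    have h1 := Finset.sum_range_succ' (fun i => g (i + j)) k
    have h2 := Finset.sum_range_succ (fun i => g (i + j)) k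
    have h3 : g (k + j) = g (0 + j) := by
      rw [Nat.zero_add, Nat.add_comm k j, hg]
    have h4 : ∑ i ∈ range k, g (i + (j + 1)) = ∑ i ∈ range k, g (i + 1 + j) := by
      apply Finset.sum_congr rfl
      intro i _
      congr 1
      omega
    rw [h4]
    rw [h2] at h1
    linarith

variable {κ : Type} [Fintype κ] [DecidableEq κ] (N : Nerve κ)

omit [Fintype κ] [DecidableEq κ] in
theorem win_shift {k : ℕ} {f : ℕ → κ} (h : N.IsWin k f) (j : ℕ) :
    N.IsWin k (fun i => f (i + j)) := by
  have hmod : ∀ i, f (i % k) = f i := by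
    intro i
    have h1 : ∀ n m, f (m + k * n) = f m := by
      intro n
      induction n with
      | zero => intro m; rfl
      | succ n ih =>
        intro m
        rw [Nat.mul_succ, ← Nat.add_assoc, h.per, ih]
    have h2 := h1 (i / k) (i % k)
    rw [Nat.mod_add_div] at h2
    exact h2.symm
  have hk := h.five
  refine ⟨h.five, ?_, ?_, ?_⟩
  · intro i
    have h1 := h.cor (i + j)
    have e1 : i + j + 1 = i + 1 + j := by omega
    have e2 : i + j + 2 = i + 2 + j := by omega
    rw [e1, e2] at h1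
    exact h1
  · intro i
    change f (i + k + j) = f (i + j)
    have e1 : i + k + j = i + j + k := by omega
    rw [e1, h.per]
  · intro a ha b hb hab
    change f (a + j) = f (b + j) at hab
    rw [← hmod (a + j), ← hmod (b + j)] at hab
    have h1 := h.inj _ (Nat.mod_lt _ (by omega)) _ (Nat.mod_lt _ (by omega)) hab
    have h2 : a ≡ b [MOD k] := Nat.ModEq.add_right_cancel' j h1
    have h3 : a % k = b % k := h2
    rwa [Nat.mod_eq_of_lt ha, Nat.mod_eq_of_lt hb] at h3

theorem TF_shift {k : ℕ} {f : ℕ → κ} (h : N.IsWin k f) (q : ℚ) (T : Finset κ) (j : ℕ) :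
    N.TF q T k (fun i => f (i + j)) = N.TF q T k f := by
  unfold Nerve.TF
  rw [← sum_shift (fun i => N.wt q T (f i) (f (i + 1)) (f (i + 2)) +
    (if f i ∈ T ∧ f (i + 1) ∈ T then 1 else 0)) k ?_ j]
  · apply Finset.sum_congr rfl
    intro i _
    have e1 : i + j + 1 = i + 1 + j := by omega
    have e2 : i + j + 2 = i + 2 + j := by omega
    simp only [e1, e2]
  · intro i
    have e1 : i + k + 1 = i + 1 + k := by omega
    have e2 : i + k + 2 = i + 2 + k := by omega
    simp only [e1, e2, h.per]

theorem D_shift {k : ℕ} {f : ℕ → κ} (h : N.IsWin k f) (q : ℚ) (T : Finset κ) (j : ℕ) :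
    N.D q T k (fun i => f (i + j)) = N.D q T k f := by
  unfold Nerve.D
  rw [TF_shift N h]

/-! ### Unmarked far strips -/

/-- unmarked far strips -/
def U (T : Finset κ) (s : κ) : Prop := N.St s ∧ s ∉ T ∧ N.nu T s = 0

/-- the neighbour of an unmarked far strip on the window -/
theorem step {T : Finset κ} (hR : N.NR2 T) {x s y z : κ} (h1 : N.Cr x s y) (hs : U N T s)
    (h2 : N.Cr s y z) : y ∉ T ∧ (N.St y → U N T y) ∧ 2 ≤ N.a y := by
  obtain ⟨hSt, hsT, hnu⟩ := hs
  have hnu' := (N.nu_eq_zero).1 hnu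
  have hyT : y ∉ T := fun hy => hnu' y hy (Nerve.Cr.right N h1)
  obtain ⟨-, -, ht, -⟩ := Nerve.Cr.St_cases N h1 hSt
  refine ⟨hyT, ?_, Nerve.Cr.thin_a N (Nerve.Cr.symm N h2) (Nerve.Thin.symm N ht)⟩
  intro hy
  refine ⟨hy, hyT, (N.nu_eq_zero).2 ?_⟩
  intro t ht1 ht2
  obtain ⟨-, -, -, hN⟩ := Nerve.Cr.St_cases N h2 hy
  rcases (hN t).1 ht2 with e | e
  · rw [e] at ht1
    exact hsT ht1
  · rw [e] at ht1
    exact hR z ht1 y s hyT hsT (N.symm (Nerve.Cr.right N h2)) (Nerve.Cr.left N h2)
      (Nerve.Cr.ne N h2).symm hy hSt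

/-- not all corners except one are unmarked far strips -/
theorem not_all {T : Finset κ} (hT : T.Nonempty) {k : ℕ} {f : ℕ → κ} (h : N.IsWin k f) {u : κ}
    (hu : u ∉ T) (hall : ∀ n, f n = u ∨ U N T (f n)) : False := by
  obtain ⟨t, ht⟩ := hT
  have hk := h.five
  obtain ⟨n0, hn0⟩ : ∃ n, f n ≠ u := by
    by_contra hc
    push Not at hc
    have h1 := h.inj 0 (by omega) 1 (by omega) ((hc 0).trans (hc 1).symm)
    omega
  have hU0 : U N T (f n0) := (hall n0).resolve_left hn0
  have key := N.conn_del u (fun v => ∃ n, f n = v ∧ U N T v) (by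
    rintro a b _ hb ⟨n, rfl, hn⟩ hab
    have hc : N.Cr (f (n + (k - 1))) (f n) (f (n + 1)) := by
      have h1 := (h.cor (n + (k - 1))).cr
      have e1 : n + (k - 1) + 1 = n + k := by omega
      have e2 : n + (k - 1) + 2 = n + 1 + k := by omega
      rw [e1, e2, h.per, h.per] at h1
      exact h1
    obtain ⟨-, -, -, hN⟩ := Nerve.Cr.St_cases N hc hn.1
    rcases (hN b).1 hab with e | e
    · refine ⟨n + (k - 1), e.symm, ?_⟩
      rw [e]
      exact (hall _).resolve_left (by rw [← e]; exact hb)
    · refine ⟨n + 1, e.symm, ?_⟩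
      rw [e]
      exact (hall _).resolve_left (by rw [← e]; exact hb)) (f n0) t hn0
    (fun e => hu (e ▸ ht)) ⟨n0, rfl, hU0⟩
  obtain ⟨n, -, hn⟩ := key
  exact hn.2.1 ht

/-- the run of strips -/
theorem run {T : Finset κ} (hT : T.Nonempty) (hR : N.NR2 T) {k : ℕ} {f : ℕ → κ}
    (h : N.IsWin k f) (h0 : U N T (f 0)) : ∃ j m : ℕ, 1 ≤ m ∧ m + 1 < k ∧
      (∀ n, 1 ≤ n → n ≤ m → U N T (f (n + j))) ∧ ¬ U N T (f j) ∧ ¬ U N T (f (m + 1 + j)) := by
  classical
  have hk := h.five
  have hcr : ∀ n, N.Cr (f n) (f (n + 1)) (f (n + 2)) := fun n => (h.cor n).cr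
  -- some corner is not an unmarked far strip
  have hex : ∃ n, ¬ U N T (f n) := by
    by_contra hc
    push Not at hc
    exact not_all N hT h h0.2.1 (fun n => Or.inr (hc n))
  set p := Nat.find hex with hp
  have hp1 : ¬ U N T (f p) := Nat.find_spec hex
  have hp2 : ∀ n, n < p → U N T (f n) := by
    intro n hn
    by_contra hc
    exact absurd (Nat.find_min' hex hc) (by omega)
  have hp0 : 1 ≤ p := by
    by_contra hc
    have : p = 0 := by omega
    rw [this] at hp1
    exact hp1 h0
  have hpk : p < k := by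
    by_contra hc
    push Not at hc
    -- then `p - k` is smaller
    have e : p = p - k + k := by omega
    rw [e, h.per] at hp1
    exact hp1 (hp2 _ (by omega))
  set q := Nat.findGreatest (fun n => ¬ U N T (f n)) (k - 1) with hq
  have hq1 : ¬ U N T (f q) :=
    Nat.findGreatest_spec (P := fun n => ¬ U N T (f n)) (show p ≤ k - 1 by omega) hp1
  have hqk : q ≤ k - 1 := Nat.findGreatest_le _
  have hpq : p ≤ q := Nat.le_findGreatest (by omega) hp1
  have hq2 : ∀ n, q < n → n < k → U N T (f n) := by
    intro n h1 h2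
    by_contra hc
    exact Nat.findGreatest_is_greatest (P := fun n => ¬ U N T (f n)) h1 (by omega) hc
  have hpT : f p ∉ T := by
    obtain ⟨p', hp'⟩ : ∃ p', p = p' + 1 := ⟨p - 1, by omega⟩
    have hU : U N T (f p') := hp2 _ (by omega)
    have hc : N.Cr (f (p' + (k - 1))) (f p') (f (p' + 1)) := by
      have h1 := hcr (p' + (k - 1))
      have e1 : p' + (k - 1) + 1 = p' + k := by omega
      have e2 : p' + (k - 1) + 2 = p' + 1 + k := by omega
      rw [e1, e2, h.per, h.per] at h1
      exact h1
    rw [hp']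
    exact (step N hR hc hU (hcr p')).1
  have hne : p ≠ q := by
    intro e
    apply not_all N hT h hpT
    intro n
    have hmod : f (n % k) = f n := by
      have h1 : ∀ n m, f (m + k * n) = f m := by
        intro n
        induction n with
        | zero => intro m; rfl
        | succ n ih =>
          intro m
          rw [Nat.mul_succ, ← Nat.add_assoc, h.per, ih]
      have h2 := h1 (n / k) (n % k)
      rw [Nat.mod_add_div] at h2
      exact h2.symm
    rw [← hmod]
    have hlt : n % k < k := Nat.mod_lt _ (by omega)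
    rcases Nat.lt_trichotomy (n % k) p with h1 | h1 | h1
    · exact Or.inr (hp2 _ h1)
    · exact Or.inl (by rw [h1])
    · exact Or.inr (hq2 _ (by omega) hlt)
  refine ⟨q, k + p - q - 1, by omega, by omega, ?_, hq1, ?_⟩
  · intro n hn1 hn2
    by_cases hlt : n + q < k
    · exact hq2 _ (by omega) hlt
    · have e : n + q = n + q - k + k := by omega
      rw [e, h.per]
      exact hp2 _ (by omega)
  · have e : k + p - q - 1 + 1 + q = p + k := by omega
    rw [e, h.per]
    exact hp1

end ST

open Pool.Agent.Helper26.OC.ST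

theorem m_ST : StST := by
  intro κ _ _ N T k f hT hC hR h ⟨i, hi1, hi2, hi3⟩
  -- start at the strip
  have hD0 := D_shift N h (3 / 2) T i
  have h' := win_shift N h i
  rw [← hD0]
  clear hD0
  have h0 : U N T ((fun n => f (n + i)) 0) := by
    change U N T (f (0 + i))
    rw [Nat.zero_add]
    exact ⟨hi1, hi2, hi3⟩
  clear hi1 hi2 hi3
  generalize (fun n => f (n + i)) = g at h' h0 ⊢
  clear h
  obtain ⟨j, m, hm1, hm2, hU, hv, hu⟩ := run N hT hR h' h0
  rw [← D_shift N h' (3 / 2) T j]
  have hb := win_shift N h' j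
  have hU' : ∀ n, 1 ≤ n → n ≤ m → U N T ((fun n => g (n + j)) n) := hU
  have hv' : ¬ U N T ((fun n => g (n + j)) 0) := by
    change ¬ U N T (g (0 + j))
    rwa [Nat.zero_add]
  have hu' : ¬ U N T ((fun n => g (n + j)) (m + 1)) := hu
  clear hU hv hu h0
  generalize (fun n => g (n + j)) = b at hb hU' hv' hu' ⊢
  clear h' g j
  have hk := hb.five
  have hcr : ∀ n, N.Cr (b n) (b (n + 1)) (b (n + 2)) := fun n => (hb.cor n).cr
  have hk0 : b k = b 0 := by
    have := hb.per 0
    rwa [Nat.zero_add] at this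
  have hk1 : b (k + 1) = b 1 := by
    have := hb.per 1
    rwa [Nat.add_comm 1 k] at this
  have hcr0 : N.Cr (b (k - 1)) (b 0) (b 1) := by
    have h1 := hcr (k - 1)
    have e1 : k - 1 + 1 = k := by omega
    have e2 : k - 1 + 2 = k + 1 := by omega
    rw [e1, e2, hk0, hk1] at h1
    exact h1
  have hU1 := hU' 1 le_rfl hm1
  -- the corner `b 0`
  obtain ⟨u1, u2, u3⟩ := step N hR (Nerve.Cr.symm N (hcr 0)) hU1 (Nerve.Cr.symm N hcr0)
  have u4 : ¬ N.St (b 0) := fun h => hv' (u2 h)
  -- the corner `b (m + 1)`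
  obtain ⟨m', rfl⟩ : ∃ m', m = m' + 1 := ⟨m - 1, by omega⟩
  obtain ⟨v1, v2, v3⟩ := step N hR (hcr m') (hU' (m' + 1) (by omega) le_rfl) (hcr (m' + 1))
  have v4 : ¬ N.St (b (m' + 1 + 1)) := fun h => hu' (v2 h)
  -- weights
  have hq : (0 : ℚ) ≤ 3 / 2 := by norm_num
  have hq1 : (1 : ℚ) ≤ 3 / 2 := by norm_num
  have w0 : ∀ n, 0 ≤ N.wt (3 / 2) T (b n) (b (n + 1)) (b (n + 2)) := fun n => N.wt_nonneg hq
  have wU : ∀ n, U N T (b (n + 1)) → 1 / 2 ≤ N.wt (3 / 2) T (b n) (b (n + 1)) (b (n + 2)) := by
    intro n hn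
    rw [N.wt_far hn.2.1]
    refine N.half_le_wf (Nerve.Cr.a_pos N (hcr n)) ?_ hq1
    intro hS
    have h1 := hS.1
    have h2 := hn.1.1
    omega
  have wv : 3 / 2 ≤ N.wt (3 / 2) T (b (m' + 1)) (b (m' + 1 + 1)) (b (m' + 1 + 2)) := by
    rw [N.wt_far v1]
    exact N.multi_le_wf v3 v4 le_rfl
  have wu : 3 / 2 ≤ N.wt (3 / 2) T (b (k - 1)) (b (k - 1 + 1)) (b (k - 1 + 2)) := by
    have e1 : k - 1 + 1 = k := by omega
    rw [e1, hk0, N.wt_far u1]
    exact N.multi_le_wf u3 u4 le_rfl
  unfold Nerve.D Nerve.TF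
  -- long windows
  by_cases hk6 : 6 ≤ k
  · have hg : ∀ n, N.wt (3 / 2) T (b n) (b (n + 1)) (b (n + 2)) ≤
        N.wt (3 / 2) T (b n) (b (n + 1)) (b (n + 2)) +
          (if b n ∈ T ∧ b (n + 1) ∈ T then 1 else 0) := by
      intro n
      split_ifs <;> linarith
    have hs1 : ∑ n ∈ ({0, m' + 1, k - 1} : Finset ℕ),
        N.wt (3 / 2) T (b n) (b (n + 1)) (b (n + 2)) ≤
        ∑ n ∈ range k, N.wt (3 / 2) T (b n) (b (n + 1)) (b (n + 2)) := by
      apply Finset.sum_le_sum_of_subset_of_nonneg
      · intro n hn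
        simp only [mem_insert, mem_singleton] at hn
        rw [mem_range]
        omega
      · intro n _ _
        exact w0 n
    have hs2 := Finset.sum_le_sum (s := range k) (fun n _ => hg n)
    rw [Finset.sum_insert, Finset.sum_insert, Finset.sum_singleton] at hs1
    · have h1 := wU 0 hU1
      have hk' : (6 : ℚ) ≤ k := by exact_mod_cast hk6
      linarith
    · rw [mem_singleton]
      omega
    · simp only [mem_insert, mem_singleton]
      omega
  -- windows of length five
  have hk5 : k = 5 := by omega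
  subst hk5
  have hg : ∀ n, (0 : ℚ) ≤ (if b n ∈ T ∧ b (n + 1) ∈ T then 1 else 0) := by
    intro n
    split_ifs <;> norm_num
  simp only [Finset.sum_range_succ, Finset.sum_range_zero]
  have w1 := wU 0 hU1
  have g0 := hg 0
  have g1 := hg 1
  have g2 := hg 2
  have g3 := hg 3
  have g4 := hg 4
  have y1 := w0 1
  have y2 := w0 2
  have y3 := w0 3
  simp only [Nat.reduceAdd, Nat.reduceSub, zero_add] at *
  have hm : m' = 0 ∨ m' = 1 ∨ m' = 2 := by omega
  rcases hm with hm | hm | hm
  · -- one strip
    subst hm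
    simp only [Nat.reduceAdd, zero_add] at *
    -- the corners
    have c1 : N.Cr (b 0) (b 1) (b 2) := hcr 0
    have c2 : N.Cr (b 1) (b 2) (b 3) := hcr 1
    have c3 : N.Cr (b 2) (b 3) (b 4) := hcr 2
    have c4 : N.Cr (b 3) (b 4) (b 0) := by
      have := hcr 3
      simp only [Nat.reduceAdd] at this
      rwa [hk0] at this
    have c0 : N.Cr (b 4) (b 0) (b 1) := hcr0
    have hne : ∀ a c, a < 5 → c < 5 → a ≠ c → b a ≠ b c := fun a c ha hc hac e =>
      hac (hb.inj a ha c hc e)
    obtain ⟨s1, -, -, s2⟩ := Nerve.Cr.St_cases N c1 hU1.1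
    -- `b 3`, `b 4` are not both short
    have hnS : ¬ (N.S (b 3) ∧ N.S (b 4)) := by
      rintro ⟨hS3, hS4⟩
      have n24 : ¬ N.adj (b 2) (b 4) := by
        intro h24
        rcases N.noC4 (Nerve.Cr.left N c1 |> N.symm) (Nerve.Cr.right N c1) h24
          (Nerve.Cr.left N c0 |> N.symm) (hne 0 2 (by omega) (by omega) (by omega))
          (hne 1 4 (by omega) (by omega) (by omega)) with e | e
        · exact s1 e
        · rcases (s2 _).1 e with e | e
          · exact hne 4 0 (by omega) (by omega) (by omega) e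
          · exact hne 4 2 (by omega) (by omega) (by omega) e
      have n30 : ¬ N.adj (b 3) (b 0) := by
        intro h30
        rcases N.noC4 (Nerve.Cr.left N c1 |> N.symm) (Nerve.Cr.right N c1)
          (Nerve.Cr.right N c2) h30 (hne 0 2 (by omega) (by omega) (by omega))
          (hne 1 3 (by omega) (by omega) (by omega)) with e | e
        · exact s1 e
        · rcases (s2 _).1 e with e | e
          · exact hne 3 0 (by omega) (by omega) (by omega) e
          · exact hne 3 2 (by omega) (by omega) (by omega) e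
      rcases Nerve.Cr.S_cases N c3 hS3 with ⟨e, -⟩ | ⟨p, p1, p2, p3, -, -, -, -⟩
      · exact n24 e
      rcases Nerve.Cr.S_cases N c4 hS4 with ⟨e, -⟩ | ⟨p', q1, q2, q3, -, -, -, -⟩
      · exact n30 e
      have hpp : p = p' := Nerve.Cr.cn_unique N c3 p1 p3 q2 q1
      subst hpp
      have hsp : b 1 ≠ p := by
        rintro rfl
        rcases (s2 _).1 (N.symm p1) with e | e
        · exact hne 3 0 (by omega) (by omega) (by omega) e
        · exact hne 3 2 (by omega) (by omega) (by omega) e
      rcases N.noC4 (Nerve.Cr.left N c1 |> N.symm) (Nerve.Cr.right N c1) p2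
        (N.symm q3) (hne 0 2 (by omega) (by omega) (by omega)) hsp with e | e
      · exact s1 e
      · rcases (s2 _).1 e with e | e
        · rw [e] at p1
          exact n30 p1
        · rw [e] at p3
          exact n24 (N.symm p3)
    -- weights of near corners for `|T| ≥ 2`
    have near : ∀ x u w : κ, N.Cr u x w → x ∈ T → u ∉ T → w ∉ T → ¬ N.S x → 2 ≤ T.card →
        1 / 2 ≤ N.wt (3 / 2) T u x w := by
      intro x u w hc hx hu hw hS h2
      have hc3 := Nerve.Clq.card_le N hC
      rw [N.wt_near hx]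
      have ha := Nerve.Cr.a_pos N hc
      unfold Nerve.wn
      rw [if_neg (by omega)]
      split_ifs with t1 t2 t3 t4 t5 t6 t7 t8 t9 <;> first
        | (norm_num; done)
        | (exfalso; rcases t4 with e | e <;> contradiction; done)
        | (exfalso; rcases t8 with e | e <;> contradiction; done)
        | skip
      -- the value `1/4`
      exfalso
      have ht : N.T21 x := ⟨by tauto, by tauto⟩
      obtain ⟨y, hyT, hyx⟩ : ∃ y ∈ T, y ≠ x := by
        by_contra hc'
        push Not at hc'
        have : T ⊆ {x} := fun y hy => mem_singleton.2 (hc' y hy)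
        have := card_le_card this
        rw [card_singleton] at this
        omega
      have hxy : N.adj x y := hC x hx y hyT hyx.symm
      have hth : N.Thin x y := by tauto
      obtain ⟨p, hpu, hpw, hN, -, hor⟩ := Nerve.Cr.T21_cases N hc ht
      have hyp : y = p := by
        rcases (hN y).1 hxy with e | e | e
        · exact absurd (e ▸ hyT) hu
        · exact e
        · exact absurd (e ▸ hyT) hw
      subst hyp
      rcases hor with ⟨-, e, -, -⟩ | ⟨-, e, -, -⟩
      · exact hth.2 w (N.symm (Nerve.Cr.right N hc)) (N.symm e)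
      · exact hth.2 u (N.symm (Nerve.Cr.left N hc)) e
    -- the end of the run next to the only near facet
    have endw : ∀ x u s v : κ, N.Cr x u s → N.Cr u s v → x ∈ T → T.card = 1 → u ∉ T →
        2 ≤ N.a u → ¬ N.St u → N.St s →
        2 ≤ N.wf (3 / 2) T x u s ∧ 2 ≤ N.wf (3 / 2) T s u x := by
      intro x u s v hc hc' hx h1 hu ha hSt hs
      have hn : N.nu T u = 1 := by
        have h2 := N.nu_pos hx (Nerve.Cr.left N hc)
        have h3 : N.nu T u ≤ T.card := by
          classical
          unfold Nerve.nu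
          exact card_filter_le _ _
        omega
      have hF : ¬ N.Free T u := by
        rintro ⟨-, ht, hF⟩
        have hth := hF x hx (Nerve.Cr.left N hc)
        obtain ⟨p, hpx, hps, hN, -, hor⟩ := Nerve.Cr.T21_cases N hc ht
        obtain ⟨r1, -, -, r2⟩ := Nerve.Cr.St_cases N hc' hs
        have hup : N.adj u p := (hN p).2 (Or.inr (Or.inl rfl))
        rcases hor with ⟨-, e, -, -⟩ | ⟨-, e, -, -⟩
        · rcases (r2 p).1 (N.symm e) with e' | e'
          · rw [e'] at hup
            exact N.irr _ hup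
          · rw [e'] at hup
            exact r1 hup
        · exact hth.2 p (N.symm hup) (N.symm e)
      have hS : ¬ N.S u := by
        intro hS
        have := hS.1
        omega
      exact ⟨N.wf_end_two (by omega) hS hSt hn (Or.inl hx) hF,
        N.wf_end_two (by omega) hS hSt hn (Or.inr hx) hF⟩
    have far : ∀ x u w : κ, N.Cr u x w → x ∉ T → ¬ N.S x → 1 / 2 ≤ N.wt (3 / 2) T u x w := by
      intro x u w hc hx hS
      rw [N.wt_far hx]
      exact N.half_le_wf (Nerve.Cr.a_pos N hc) hS hq1
    rw [hk0] at wu y3 g4 ⊢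
    have hk6' : b 6 = b 1 := hk1
    rw [hk6'] at wu ⊢
    have hT1 : 1 ≤ T.card := card_pos.2 hT
    by_cases h3 : b 3 ∈ T
    · by_cases h4 : b 4 ∈ T
      · have g3' : (if b 3 ∈ T ∧ b 4 ∈ T then (1 : ℚ) else 0) = 1 := if_pos ⟨h3, h4⟩
        rw [g3']
        push_cast
        linarith
      · by_cases hS4 : N.S (b 4)
        · have hS3 : ¬ N.S (b 3) := fun h => hnS ⟨h, hS4⟩
          by_cases h2 : 2 ≤ T.card
          · have := near (b 3) (b 2) (b 4) c3 h3 v1 h4 hS3 h2
            push_cast
            linarith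
          · have := (endw (b 3) (b 2) (b 1) (b 0) (Nerve.Cr.symm N c2) (Nerve.Cr.symm N c1) h3
              (by omega) v1 v3 v4 hU1.1).2
            rw [← N.wt_far (q := 3 / 2) v1] at this
            push_cast
            linarith
        · have := far (b 4) (b 3) (b 0) c4 h4 hS4
          push_cast
          linarith
    · by_cases hS3 : N.S (b 3)
      · have hS4 : ¬ N.S (b 4) := fun h => hnS ⟨hS3, h⟩
        by_cases h4 : b 4 ∈ T
        · by_cases h2 : 2 ≤ T.card
          · have := near (b 4) (b 3) (b 0) c4 h4 h3 u1 hS4 h2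
            push_cast
            linarith
          · have := (endw (b 4) (b 0) (b 1) (b 2) c0 c1 h4 (by omega) u1 u3 u4 hU1.1).1
            rw [← N.wt_far (q := 3 / 2) u1] at this
            push_cast
            linarith
        · have := far (b 4) (b 3) (b 0) c4 h4 hS4
          push_cast
          linarith
      · have := far (b 3) (b 2) (b 4) c3 h3 hS3
        push_cast
        linarith
  · -- two strips
    subst hm
    have w2 := wU 1 (hU' 2 (by omega) (by omega))
    simp only [Nat.reduceAdd] at *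
    push_cast
    linarith
  · -- three strips
    subst hm
    have w2 := wU 1 (hU' 2 (by omega) (by omega))
    have w3 := wU 2 (hU' 3 (by omega) (by omega))
    simp only [Nat.reduceAdd] at *
    push_cast
    linarith

end Pool.Agent.Helper26.OC
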