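import Mathlib
import Pool.Agent.Helper26.OC.St

/-!
# Windows with five corners: structure
-/

set_option autoImplicit false

open Finset

namespace Pool.Agent.Helper26.OC

namespace Nerve

variable {κ : Type} [Fintype κ] [DecidableEq κ] (N : Nerve κ)

/-- five consecutive corners closing up -/
structure Pent (b0 b1 b2 b3 b4 : κ) : Prop where
  c0 : N.Cr b4 b0 b1
  c1 : N.Cr b0 b1 b2
  c2 : N.Cr b1 b2 b3
  c3 : N.Cr b2 b3 b4
  c4 : N.Cr b3 b4 b0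

/-- a pentagon without chords and without adjacent short corners -/
structure PL (b0 b1 b2 b3 b4 : κ) : Prop where
  p : N.Pent b0 b1 b2 b3 b4
  n02 : ¬ N.adj b0 b2
  n13 : ¬ N.adj b1 b3
  n24 : ¬ N.adj b2 b4
  n30 : ¬ N.adj b3 b0
  n41 : ¬ N.adj b4 b1
  s01 : ¬ (N.S b0 ∧ N.S b1)
  s12 : ¬ (N.S b1 ∧ N.S b2)
  s23 : ¬ (N.S b2 ∧ N.S b3)
  s34 : ¬ (N.S b3 ∧ N.S b4)
  s40 : ¬ (N.S b4 ∧ N.S b0)

section

variable {b0 b1 b2 b3 b4 : κ}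

omit [Fintype κ] [DecidableEq κ] in
theorem Pent.rot (h : N.Pent b0 b1 b2 b3 b4) : N.Pent b1 b2 b3 b4 b0 :=
  ⟨h.c1, h.c2, h.c3, h.c4, h.c0⟩

omit [Fintype κ] [DecidableEq κ] in
theorem Pent.refl (h : N.Pent b0 b1 b2 b3 b4) : N.Pent b0 b4 b3 b2 b1 :=
  ⟨Cr.symm N h.c0, Cr.symm N h.c4, Cr.symm N h.c3, Cr.symm N h.c2, Cr.symm N h.c1⟩

omit [DecidableEq κ] in
theorem PL.rot (h : N.PL b0 b1 b2 b3 b4) : N.PL b1 b2 b3 b4 b0 :=
  ⟨h.p.rot N, h.n13, h.n24, h.n30, h.n41, h.n02,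
    h.s12, h.s23, h.s34, h.s40, h.s01⟩

omit [DecidableEq κ] in
theorem PL.refl (h : N.PL b0 b1 b2 b3 b4) : N.PL b0 b4 b3 b2 b1 :=
  ⟨h.p.refl N, fun h' => h.n30 (N.symm h'), fun h' => h.n24 (N.symm h'),
    fun h' => h.n13 (N.symm h'), fun h' => h.n02 (N.symm h'), fun h' => h.n41 (N.symm h'),
    fun h' => h.s40 ⟨h'.2, h'.1⟩, fun h' => h.s34 ⟨h'.2, h'.1⟩, fun h' => h.s23 ⟨h'.2, h'.1⟩,
    fun h' => h.s12 ⟨h'.2, h'.1⟩, fun h' => h.s01 ⟨h'.2, h'.1⟩⟩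

/-- a chord of a pentagon -/
theorem Pent.chord (h : N.Pent b0 b1 b2 b3 b4) (hc : N.adj b0 b2) :
    N.S b1 ∧ N.S b3 ∧ N.S b4 ∧ (N.S b0 ∨ N.S b2) := by
  have a01 : N.adj b0 b1 := Cr.right N h.c0
  have a12 : N.adj b1 b2 := Cr.right N h.c1
  have a23 : N.adj b2 b3 := Cr.right N h.c2
  have a34 : N.adj b3 b4 := Cr.right N h.c3
  have a40 : N.adj b4 b0 := Cr.right N h.c4
  refine ⟨Cr.S_of2 N h.c1 hc, ?_⟩
  rcases N.noC4 hc a23 a34 a40 (Cr.ne N h.c4).symm (Cr.ne N h.c3) with h1 | h1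
  · refine ⟨?_, Cr.S_of2 N h.c4 (N.symm h1), Or.inr ?_⟩
    · exact Cr.S_of3 N h.c3 (N.symm h1) (N.symm hc) a40
    · exact Cr.S_of3 N h.c2 (N.symm hc) (N.symm a01) (N.symm h1)
  · refine ⟨Cr.S_of2 N h.c3 h1, ?_, Or.inl ?_⟩
    · exact Cr.S_of3 N h.c4 (N.symm h1) (N.symm a23) hc
    · exact Cr.S_of3 N h.c0 hc (N.symm h1) a12

/-- adjacent short corners of a pentagon without chords -/
theorem Pent.adjS (h : N.Pent b0 b1 b2 b3 b4) (n02 : ¬ N.adj b0 b2)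
    (n13 : ¬ N.adj b1 b3) (n24 : ¬ N.adj b2 b4) (n30 : ¬ N.adj b3 b0) (n41 : ¬ N.adj b4 b1)
    (h1 : N.S b1) (h2 : N.S b2) : N.S b0 ∧ N.S b3 ∧ N.S b4 := by
  have a01 : N.adj b0 b1 := Cr.right N h.c0
  have a12 : N.adj b1 b2 := Cr.right N h.c1
  have a23 : N.adj b2 b3 := Cr.right N h.c2
  have a34 : N.adj b3 b4 := Cr.right N h.c3
  have a40 : N.adj b4 b0 := Cr.right N h.c4
  rcases Cr.S_cases N h.c1 h1 with h3 | ⟨p, e1, e2, e3, -, e5, e6, -⟩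
  · exact absurd h3.1 n02
  rcases Cr.S_cases N h.c2 h2 with h3 | ⟨p', f1, f2, f3, -, f5, f6, -⟩
  · exact absurd h3.1 n13
  have hpp : p = p' := Cr.cn_unique N h.c1 e1 e3 f2 f1
  subst hpp
  have hp4 : p ≠ b4 := by
    rintro rfl; exact n41 (N.symm e1)
  rcases N.noC4 e2 (N.symm f3) a34 a40 (Cr.ne N h.c4).symm hp4 with h4 | h4
  · exact absurd (N.symm h4) n30
  · exact ⟨Cr.S_of3 N h.c0 e2 (N.symm h4) e1, Cr.S_of3 N h.c3 f3 e3 (N.symm h4),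
      Cr.S_of3 N h.c4 (N.symm h4) f3 e2⟩

/-- three long corners -/
theorem Pent.toPL (h : N.Pent b0 b1 b2 b3 b4) (h0 : ¬ (
    (N.S b0 ∧ N.S b1 ∧ N.S b2) ∨ (N.S b0 ∧ N.S b1 ∧ N.S b3) ∨ (N.S b0 ∧ N.S b1 ∧ N.S b4) ∨
    (N.S b0 ∧ N.S b2 ∧ N.S b3) ∨ (N.S b0 ∧ N.S b2 ∧ N.S b4) ∨ (N.S b0 ∧ N.S b3 ∧ N.S b4) ∨
    (N.S b1 ∧ N.S b2 ∧ N.S b3) ∨ (N.S b1 ∧ N.S b2 ∧ N.S b4) ∨ (N.S b1 ∧ N.S b3 ∧ N.S b4) ∨
    (N.S b2 ∧ N.S b3 ∧ N.S b4))) : N.PL b0 b1 b2 b3 b4 := by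
  have n02 : ¬ N.adj b0 b2 := by
    intro hc; have := Pent.chord N h hc; tauto
  have n13 : ¬ N.adj b1 b3 := by
    intro hc; have := Pent.chord N (Pent.rot N h) hc; tauto
  have n24 : ¬ N.adj b2 b4 := by
    intro hc; have := Pent.chord N (Pent.rot N (Pent.rot N h)) hc; tauto
  have n30 : ¬ N.adj b3 b0 := by
    intro hc; have := Pent.chord N (Pent.rot N (Pent.rot N (Pent.rot N h))) hc; tauto
  have n41 : ¬ N.adj b4 b1 := by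
    intro hc
    have := Pent.chord N (Pent.rot N (Pent.rot N (Pent.rot N (Pent.rot N h)))) hc; tauto
  have n20 : ¬ N.adj b2 b0 := fun h => n02 (N.symm h)
  have n31 : ¬ N.adj b3 b1 := fun h => n13 (N.symm h)
  have n42 : ¬ N.adj b4 b2 := fun h => n24 (N.symm h)
  have n03 : ¬ N.adj b0 b3 := fun h => n30 (N.symm h)
  have n14 : ¬ N.adj b1 b4 := fun h => n41 (N.symm h)
  refine ⟨h, n02, n13, n24, n30, n41, ?_, ?_, ?_, ?_, ?_⟩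
  · rintro ⟨h1, h2⟩
    have := Pent.adjS N (Pent.rot N (Pent.rot N (Pent.rot N (Pent.rot N h)))) n41 n02 n13 n24
      n30 h1 h2
    tauto
  · rintro ⟨h1, h2⟩
    have := Pent.adjS N h n02 n13 n24 n30 n41 h1 h2
    tauto
  · rintro ⟨h1, h2⟩
    have := Pent.adjS N (Pent.rot N h) n13 n24 n30 n41 n02 h1 h2
    tauto
  · rintro ⟨h1, h2⟩
    have := Pent.adjS N (Pent.rot N (Pent.rot N h)) n24 n30 n41 n02 n13 h1 h2
    tauto
  · rintro ⟨h1, h2⟩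
    have := Pent.adjS N (Pent.rot N (Pent.rot N (Pent.rot N h))) n30 n41 n02 n13 n24 h1 h2
    tauto

/-! ### Facts about long pentagons -/

omit [DecidableEq κ] in
theorem PL.adj01 (h : N.PL b0 b1 b2 b3 b4) : N.adj b0 b1 := Cr.right N h.p.c0

omit [DecidableEq κ] in
/-- a common neighbour of `b0` and `b2` off the window is the hub of `b1` -/
theorem PL.hub (h : N.PL b0 b1 b2 b3 b4) {y : κ} (hy : y ≠ b1) (h0 : N.adj b0 y)
    (h2 : N.adj b2 y) : N.adj b1 y := by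
  have a01 : N.adj b0 b1 := Cr.right N h.p.c0
  have a12 : N.adj b1 b2 := Cr.right N h.p.c1
  rcases N.noC4 a01 a12 h2 (N.symm h0) (Cr.ne N h.p.c1) hy.symm with h3 | h3
  · exact absurd h3 h.n02
  · exact h3

/-- the hub of a short corner -/
theorem PL.short (h : N.PL b0 b1 b2 b3 b4) (h1 : N.S b1) :
    ∃ p, N.adj b1 p ∧ N.adj b0 p ∧ N.adj b2 p ∧ p ≠ b0 ∧ p ≠ b2 ∧ p ≠ b3 ∧ p ≠ b4 ∧
      ∀ z, N.adj b1 z ↔ z = b0 ∨ z = p ∨ z = b2 := by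
  rcases Cr.S_cases N h.p.c1 h1 with h3 | ⟨p, e1, e2, e3, -, e5, e6, e7⟩
  · exact absurd h3.1 h.n02
  · refine ⟨p, e1, e2, e3, e5, e6, ?_, ?_, e7⟩
    · rintro rfl; exact h.n13 e1
    · rintro rfl; exact h.n41 (N.symm e1)

/-- the hubs of `b1` and `b3` are not adjacent -/
theorem PL.hubs (h : N.PL b0 b1 b2 b3 b4) (h1 : N.S b1) (h3 : N.S b3) {p p' : κ}
    (e1 : N.adj b1 p) (e0 : N.adj b0 p) (e2 : N.adj b2 p) (f3 : N.adj b3 p') (f2 : N.adj b2 p')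
    (f4 : N.adj b4 p') : p ≠ p' ∧ ¬ N.adj p p' := by
  have a40 : N.adj b4 b0 := Cr.right N h.p.c4
  obtain ⟨p1, g1, g2, g3, g4, g5, g6, g7, g8⟩ := h.short N h1
  obtain ⟨p3, k1, k2, k3, k4, k5, k6, k7, k8⟩ := PL.short N (PL.rot N (PL.rot N h)) h3
  have hp : p = p1 := Cr.cn_unique N h.p.c1 e1 e2 g1 g3
  have hp' : p' = p3 := Cr.cn_unique N h.p.c3 f3 f4 k1 k3
  subst hp hp'
  -- p' is not adjacent to b0
  have x0 : ¬ N.adj b0 p' := by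
    intro hx
    have hh := h.hub N (y := p') (by rintro rfl; exact h.n13 (N.symm f3)) hx f2
    rcases (g8 p').1 hh with rfl | rfl | rfl
    · exact N.irr _ hx
    · -- p = p' is adjacent to everything
      have := Cr.S_of3 N h.p.c0 e0 f4 e1
      exact h.s01 ⟨this, h1⟩
    · exact N.irr _ f2
  have x4 : ¬ N.adj b4 p := by
    intro hx
    have hh := PL.hub N (PL.rot N (PL.rot N h)) (y := p) (by rintro rfl; exact h.n13 e1) e2 hx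
    rcases (k8 p).1 hh with rfl | rfl | rfl
    · exact N.irr _ e2
    · exact x0 e0
    · exact N.irr _ hx
  have hne : p ≠ p' := by
    rintro rfl; exact x0 e0
  refine ⟨hne, fun hpp => ?_⟩
  rcases N.noC4 e0 hpp (N.symm f4) a40 (by rintro rfl; exact h.n30 f3)
      (by rintro rfl; exact h.n41 (N.symm e1)) with h5 | h5
  · exact x0 h5
  · exact x4 (N.symm h5)

/-- the middle corner between two short corners is not `Q` -/
theorem PL.mid (h : N.PL b0 b1 b2 b3 b4) (h1 : N.S b1) (h3 : N.S b3) : ¬ N.Q b2 := by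
  intro hQ
  obtain ⟨p, q, e1, e2, e3, e4, e5, e6, e7, e8, e9, e10, -⟩ := Cr.Q_cases N h.p.c2 hQ
  obtain ⟨p1, g1, g2, g3, g4, g5, g6, g7, g8⟩ := h.short N h1
  obtain ⟨p3, k1, k2, k3, k4, k5, k6, k7, k8⟩ := PL.short N (PL.rot N (PL.rot N h)) h3
  have hp : p = p1 := Cr.cn_unique N h.p.c1 e3 e1 g1 g3
  have hq : q = p3 := Cr.cn_unique N (Cr.symm N h.p.c3) e5 e2 k1 k2
  subst hp hq
  exact (h.hubs N h1 h3 e3 g2 e1 k1 k2 k3).2 e4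

/-- the two adjacent long corners are not both `Q` -/
theorem PL.pair (h : N.PL b0 b1 b2 b3 b4) (h1 : N.S b1) (h3 : N.S b3) :
    ¬ (N.Q b0 ∧ N.Q b4) := by
  rintro ⟨hQ0, hQ4⟩
  obtain ⟨q, p, e1, e2, e3, e4, e5, e6, e7, e8, e9, e10, -⟩ := Cr.Q_cases N h.p.c0 hQ0
  obtain ⟨p', q', f1, f2, f3, f4, f5, f6, f7, f8, f9, f10, -⟩ := Cr.Q_cases N h.p.c4 hQ4
  -- b0 : b4, q, p, b1;  b4 : b3, p', q', b0
  have hqq : q = q' := Cr.cn_unique N (Cr.symm N h.p.c0) e1 e3 f5 f2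
  subst hqq
  obtain ⟨p1, g1, g2, g3, g4, g5, g6, g7, g8⟩ := h.short N h1
  obtain ⟨p3, k1, k2, k3, k4, k5, k6, k7, k8⟩ := PL.short N (PL.rot N (PL.rot N h)) h3
  have hp : p = p1 := Cr.cn_unique N (Cr.symm N h.p.c1) e5 e2 g1 g2
  have hp' : p' = p3 := Cr.cn_unique N h.p.c3 f3 f1 k1 k3
  subst hp hp'
  obtain ⟨hne, hna⟩ := h.hubs N h1 h3 g1 g2 g3 k1 k2 k3
  have hq2 : q ≠ b2 := by rintro rfl; exact h.n02 e1
  rcases N.noC4 g3 (N.symm e4) (N.symm f4) (N.symm k2) hq2.symm hne with h5 | h5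
  · have hh := h.hub N (y := q) e7 e1 h5
    rcases (g8 q).1 hh with rfl | rfl | rfl
    · exact N.irr _ e1
    · exact e10 rfl
    · exact hq2 rfl
  · exact hna h5

end

end Nerve

end Pool.Agent.Helper26.OC
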