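import Mathlib
import Pool.Agent.Helper26.OC.Pent

/-!
# Windows with five corners: weights, windows off `T`
-/

set_option autoImplicit false

open Finset

namespace Pool.Agent.Helper26.OC

namespace Nerve

variable {κ : Type} [Fintype κ] [DecidableEq κ] (N : Nerve κ)

theorem wt_comm (q : ℚ) (T : Finset κ) (u b w : κ) : N.wt q T u b w = N.wt q T w b u := by
  unfold wt wn wf
  simp only [or_comm]

open Classical in
/-- an edge inside `T` -/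
noncomputable def ed (T : Finset κ) (x y : κ) : ℚ := if x ∈ T ∧ y ∈ T then 1 else 0

omit [Fintype κ] in
theorem ed_nonneg (T : Finset κ) (x y : κ) : 0 ≤ ed T x y := by
  unfold ed; split_ifs <;> norm_num

omit [Fintype κ] in
theorem ed_one {T : Finset κ} {x y : κ} (hx : x ∈ T) (hy : y ∈ T) : ed T x y = 1 := by
  unfold ed; rw [if_pos ⟨hx, hy⟩]

omit [Fintype κ] in
theorem ed_comm (T : Finset κ) (x y : κ) : ed T x y = ed T y x := by
  unfold ed; simp only [and_comm]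

/-- the sum of the weights of a pentagon -/
noncomputable def W5 (q : ℚ) (T : Finset κ) (b0 b1 b2 b3 b4 : κ) : ℚ :=
  N.wt q T b4 b0 b1 + N.wt q T b0 b1 b2 + N.wt q T b1 b2 b3 + N.wt q T b2 b3 b4 +
    N.wt q T b3 b4 b0 + ed T b0 b1 + ed T b1 b2 + ed T b2 b3 + ed T b3 b4 + ed T b4 b0

theorem W5_rot (q : ℚ) (T : Finset κ) (b0 b1 b2 b3 b4 : κ) :
    N.W5 q T b1 b2 b3 b4 b0 = N.W5 q T b0 b1 b2 b3 b4 := by
  unfold W5; ring

theorem W5_refl (q : ℚ) (T : Finset κ) (b0 b1 b2 b3 b4 : κ) :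
    N.W5 q T b0 b4 b3 b2 b1 = N.W5 q T b0 b1 b2 b3 b4 := by
  unfold W5
  rw [N.wt_comm q T b1 b0 b4, N.wt_comm q T b0 b4 b3, N.wt_comm q T b4 b3 b2,
    N.wt_comm q T b3 b2 b1, N.wt_comm q T b2 b1 b0, ed_comm T b0 b4, ed_comm T b4 b3,
    ed_comm T b3 b2, ed_comm T b2 b1, ed_comm T b1 b0]
  ring

/-- far strips are marked -/
def MS (T : Finset κ) (b : κ) : Prop := N.St b → b ∉ T → 1 ≤ N.nu T b

/-- long far corners have weight at least one -/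
theorem one_le_far {T : Finset κ} {q : ℚ} {u b w : κ} (hb : b ∉ T) (ha : 1 ≤ N.a b)
    (hS : ¬ N.S b) (hm : N.MS T b) (hq : 1 ≤ q) : 1 ≤ N.wt q T u b w := by
  rw [N.wt_far hb]
  by_cases hSt : N.St b
  · rw [N.wf_St_marked hSt (hm hSt hb)]
  · exact N.one_le_wf ha hS hSt hq

section

variable {b0 b1 b2 b3 b4 : κ} {T : Finset κ} {q : ℚ}

/-- pentagons off `T`, two short corners -/
theorem PL.far_aux (h : N.PL b0 b1 b2 b3 b4) (hq : 3 / 2 ≤ q) (h0 : b0 ∉ T) (h2 : b2 ∉ T)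
    (h4 : b4 ∉ T) (t0 : ¬ N.St b0) (t2 : ¬ N.St b2) (t4 : ¬ N.St b4)
    (s1 : N.S b1) (s3 : N.S b3) : 4 ≤ N.W5 q T b0 b1 b2 b3 b4 := by
  have hq1 : 1 ≤ q := by linarith
  have s0 : ¬ N.S b0 := fun h' => h.s01 ⟨h', s1⟩
  have s2 : ¬ N.S b2 := fun h' => h.s12 ⟨s1, h'⟩
  have s4 : ¬ N.S b4 := fun h' => h.s34 ⟨s3, h'⟩
  have a0 := Cr.a_pos N h.p.c0
  have a2 := Cr.a_pos N h.p.c2
  have a4 := Cr.a_pos N h.p.c4
  have w1 := N.wt_nonneg (T := T) (u := b0) (b := b1) (w := b2) (q := q) (by linarith)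
  have w3 := N.wt_nonneg (T := T) (u := b2) (b := b3) (w := b4) (q := q) (by linarith)
  have w2 := N.threehalf_le_wf (T := T) (u := b1) (w := b3) a2 s2 t2 (h.mid N s1 s3) hq
  rw [← N.wt_far h2] at w2
  have w0 := N.one_le_wf (T := T) (u := b4) (w := b1) a0 s0 t0 hq1
  have w4 := N.one_le_wf (T := T) (u := b3) (w := b0) a4 s4 t4 hq1
  rw [← N.wt_far h0] at w0
  rw [← N.wt_far h4] at w4
  have e0 := ed_nonneg T b0 b1
  have e1 := ed_nonneg T b1 b2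
  have e2 := ed_nonneg T b2 b3
  have e3 := ed_nonneg T b3 b4
  have e4 := ed_nonneg T b4 b0
  unfold W5
  by_cases hQ0 : N.Q b0
  · have hQ4 : ¬ N.Q b4 := fun h' => h.pair N s1 s3 ⟨hQ0, h'⟩
    have w4' := N.threehalf_le_wf (T := T) (u := b3) (w := b0) a4 s4 t4 hQ4 hq
    rw [← N.wt_far h4] at w4'
    linarith
  · have w0' := N.threehalf_le_wf (T := T) (u := b4) (w := b1) a0 s0 t0 hQ0 hq
    rw [← N.wt_far h0] at w0'
    linarith

omit [Fintype κ] in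
/-- an unmarked vertex off `T` all of whose neighbours are off `T` -/
theorem nu_zero_of {b : κ} (h : ∀ z, N.adj b z → z ∉ T) : N.nu T b = 0 :=
  N.nu_eq_zero.2 fun y hy hby => h y hby hy

/-- a strip on a window off `T` is unmarked -/
theorem not_St_of_MS {u b w : κ} (hc : N.Cr u b w) (hu : u ∉ T) (hb : b ∉ T) (hw : w ∉ T)
    (hm : N.MS T b) : ¬ N.St b := by
  intro hS
  have h1 := hm hS hb
  have h2 := (Cr.St_cases N hc hS).2.2.2
  have h3 : N.nu T b = 0 := N.nu_eq_zero.2 fun y hy hby => by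
    rcases (h2 y).1 hby with rfl | rfl
    · exact hu hy
    · exact hw hy
  omega

/-- **Pentagons off `T`.** -/
theorem PL.far (h : N.PL b0 b1 b2 b3 b4) (hq : 3 / 2 ≤ q) (h0 : b0 ∉ T) (h1 : b1 ∉ T)
    (h2 : b2 ∉ T) (h3 : b3 ∉ T) (h4 : b4 ∉ T) (m0 : N.MS T b0) (m1 : N.MS T b1)
    (m2 : N.MS T b2) (m3 : N.MS T b3) (m4 : N.MS T b4) : 4 ≤ N.W5 q T b0 b1 b2 b3 b4 := by
  have t0 := N.not_St_of_MS h.p.c0 h4 h0 h1 m0
  have t1 := N.not_St_of_MS h.p.c1 h0 h1 h2 m1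
  have t2 := N.not_St_of_MS h.p.c2 h1 h2 h3 m2
  have t3 := N.not_St_of_MS h.p.c3 h2 h3 h4 m3
  have t4 := N.not_St_of_MS h.p.c4 h3 h4 h0 m4
  by_cases s13 : N.S b1 ∧ N.S b3
  · exact h.far_aux N hq h0 h2 h4 t0 t2 t4 s13.1 s13.2
  by_cases s24 : N.S b2 ∧ N.S b4
  · rw [← N.W5_rot]
    exact PL.far_aux N (h.rot N) hq h1 h3 h0 t1 t3 t0 s24.1 s24.2
  by_cases s30 : N.S b3 ∧ N.S b0
  · rw [← N.W5_rot, ← N.W5_rot]
    exact PL.far_aux N (PL.rot N (h.rot N)) hq h2 h4 h1 t2 t4 t1 s30.1 s30.2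
  by_cases s41 : N.S b4 ∧ N.S b1
  · rw [← N.W5_rot, ← N.W5_rot, ← N.W5_rot]
    exact PL.far_aux N (PL.rot N (PL.rot N (h.rot N))) hq h3 h0 h2 t3 t0 t2 s41.1 s41.2
  by_cases s02 : N.S b0 ∧ N.S b2
  · rw [← N.W5_rot, ← N.W5_rot, ← N.W5_rot, ← N.W5_rot]
    exact PL.far_aux N (PL.rot N (PL.rot N (PL.rot N (h.rot N)))) hq h4 h1 h3 t4 t1 t3
      s02.1 s02.2
  -- at most one short corner
  have hq1 : 1 ≤ q := by linarith
  have hq0 : 0 ≤ q := by linarith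
  have n0 := N.wt_nonneg (T := T) (u := b4) (b := b0) (w := b1) hq0
  have n1 := N.wt_nonneg (T := T) (u := b0) (b := b1) (w := b2) hq0
  have n2 := N.wt_nonneg (T := T) (u := b1) (b := b2) (w := b3) hq0
  have n3 := N.wt_nonneg (T := T) (u := b2) (b := b3) (w := b4) hq0
  have n4 := N.wt_nonneg (T := T) (u := b3) (b := b4) (w := b0) hq0
  have l0 : ¬ N.S b0 → 1 ≤ N.wt q T b4 b0 b1 := fun hs =>
    N.one_le_far h0 (Cr.a_pos N h.p.c0) hs m0 hq1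
  have l1 : ¬ N.S b1 → 1 ≤ N.wt q T b0 b1 b2 := fun hs =>
    N.one_le_far h1 (Cr.a_pos N h.p.c1) hs m1 hq1
  have l2 : ¬ N.S b2 → 1 ≤ N.wt q T b1 b2 b3 := fun hs =>
    N.one_le_far h2 (Cr.a_pos N h.p.c2) hs m2 hq1
  have l3 : ¬ N.S b3 → 1 ≤ N.wt q T b2 b3 b4 := fun hs =>
    N.one_le_far h3 (Cr.a_pos N h.p.c3) hs m3 hq1
  have l4 : ¬ N.S b4 → 1 ≤ N.wt q T b3 b4 b0 := fun hs =>
    N.one_le_far h4 (Cr.a_pos N h.p.c4) hs m4 hq1
  have e0 := ed_nonneg T b0 b1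
  have e1 := ed_nonneg T b1 b2
  have e2 := ed_nonneg T b2 b3
  have e3 := ed_nonneg T b3 b4
  have e4 := ed_nonneg T b4 b0
  have s01 := h.s01
  have s12 := h.s12
  have s23 := h.s23
  have s34 := h.s34
  have s40 := h.s40
  unfold W5
  by_cases s0 : N.S b0
  · have r1 := l1 (fun h' => s01 ⟨s0, h'⟩)
    have r2 := l2 (fun h' => s02 ⟨s0, h'⟩)
    have r3 := l3 (fun h' => s30 ⟨h', s0⟩)
    have r4 := l4 (fun h' => s40 ⟨h', s0⟩)
    linarith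
  have r0 := l0 s0
  by_cases s1 : N.S b1
  · have r2 := l2 (fun h' => s12 ⟨s1, h'⟩)
    have r3 := l3 (fun h' => s13 ⟨s1, h'⟩)
    have r4 := l4 (fun h' => s41 ⟨h', s1⟩)
    linarith
  have r1 := l1 s1
  by_cases s2 : N.S b2
  · have r3 := l3 (fun h' => s23 ⟨s2, h'⟩)
    have r4 := l4 (fun h' => s24 ⟨s2, h'⟩)
    linarith
  have r2 := l2 s2
  by_cases s3 : N.S b3
  · have r4 := l4 (fun h' => s34 ⟨s3, h'⟩)
    linarith
  have r3 := l3 s3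
  linarith

end

end Nerve

end Pool.Agent.Helper26.OC
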