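import Mathlib
import Pool.Agent.Helper26.OC.PW

/-!
# Windows with five corners through the only near facet
-/

set_option autoImplicit false

open Finset

namespace Pool.Agent.Helper26.OC

namespace Nerve

variable {κ : Type} [Fintype κ] [DecidableEq κ] (N : Nerve κ)

/-! ### Orientations -/

/-- `R` is `Cor`, or `Cor` reversed -/
structure Or (R : κ → κ → κ → Prop) : Prop where
  cr : ∀ {u b w : κ}, R u b w → N.Cr u b w
  prev : ∀ {u u' b w : κ}, R u b w → R u' b w → u = u'
  next : ∀ {u b w w' : κ}, R u b w → R u b w' → w = w'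
  one : ∀ {u b w u' w' : κ}, N.a b = 1 → R u b w → R u' b w' → u = u' ∧ w = w'
  t21 : ∀ {u b w : κ}, R u b w → N.T21 b →
    ∃ p, p ≠ u ∧ p ≠ w ∧ (∀ z, N.adj b z ↔ z = u ∨ z = p ∨ z = w) ∧ ¬ N.adj u w ∧
      ((N.Thin b u ∧ N.adj p w ∧ ¬ N.adj u p ∧ R p b u) ∨
        (N.Thin b w ∧ N.adj u p ∧ ¬ N.adj p w ∧ R w b p))
  st : ∀ {u b w : κ}, R u b w → N.St b → R w b u
  two : ∀ {u b w u' w' u'' w'' : κ}, N.a b = 2 → R u b w → R u' b w' → R u'' b w'' → w ≠ w' →
    w'' = w ∨ w'' = w'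

theorem win_two {b w w' w'' : κ} (ha : N.a b = 2) (h : N.adj b w ∧ N.win b w)
    (h' : N.adj b w' ∧ N.win b w') (h'' : N.adj b w'' ∧ N.win b w'') (hne : w ≠ w') :
    w'' = w ∨ w'' = w' := by
  classical
  by_contra hcon
  push Not at hcon
  have h1 : ({w'', w, w'} : Finset κ) ⊆ univ.filter (fun y => N.adj b y ∧ N.win b y) := by
    intro z hz
    rw [mem_filter]
    rw [mem_insert, mem_insert, mem_singleton] at hz
    rcases hz with rfl | rfl | rfl
    · exact ⟨mem_univ _, h''⟩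
    · exact ⟨mem_univ _, h⟩
    · exact ⟨mem_univ _, h'⟩
  have h2 := card_le_card h1
  rw [card_insert_of_notMem, card_pair hne] at h2
  · unfold a at ha
    omega
  · rw [mem_insert, mem_singleton, not_or]
    exact hcon

theorem or_cor : N.Or N.Cor where
  cr := fun h => Or.inl h
  prev := fun h h' => h.prev_unique N h'
  next := fun h h' => h.next_unique N h'
  one := fun ha h h' => by
    have e : _ := N.win_unique ha h.2.1 h.2.2.2.2 h'.2.1 h'.2.2.2.2
    subst e
    exact ⟨h.prev_unique N h', rfl⟩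
  t21 := fun h hS => N.T21_cases h hS
  st := fun h hS => (N.St_cases h hS).2.1
  two := fun ha h h' h'' hne => N.win_two ha ⟨h.2.1, h.2.2.2.2⟩ ⟨h'.2.1, h'.2.2.2.2⟩
    ⟨h''.2.1, h''.2.2.2.2⟩ hne

theorem or_rev : N.Or (fun u b w => N.Cor w b u) where
  cr := fun h => Or.inr h
  prev := fun h h' => h.next_unique N h'
  next := fun h h' => h.prev_unique N h'
  one := fun ha h h' => by
    have e : _ := N.win_unique ha h.2.1 h.2.2.2.2 h'.2.1 h'.2.2.2.2
    subst e
    exact ⟨rfl, h.prev_unique N h'⟩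
  t21 := fun h hS => by
    obtain ⟨p, h1, h2, h3, h4, h5⟩ := N.T21_cases h hS
    refine ⟨p, h2, h1, fun z => by rw [h3 z]; tauto, fun h => h4 (N.symm h), ?_⟩
    rcases h5 with ⟨h5, h6, h7, h8⟩ | ⟨h5, h6, h7, h8⟩
    · exact Or.inr ⟨h5, N.symm h6, fun h => h7 (N.symm h), h8⟩
    · exact Or.inl ⟨h5, N.symm h6, fun h => h7 (N.symm h), h8⟩
  st := fun h hS => (N.St_cases h hS).2.1
  two := fun {u b w u' w' u'' w''} ha h h' h'' hne => by
    have hu : u ≠ u' := by
      rintro rfl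
      exact hne (h.prev_unique N h')
    rcases N.win_two ha ⟨h.2.1, h.2.2.2.2⟩ ⟨h'.2.1, h'.2.2.2.2⟩ ⟨h''.2.1, h''.2.2.2.2⟩ hu with
      rfl | rfl
    · exact Or.inl (h''.prev_unique N h)
    · exact Or.inr (h''.prev_unique N h')

/-- two corners at `x` which are joined on both sides -/
theorem two_corners {x u w u' w' : κ} (h : N.Cr u x w) (h' : N.Cr u' x w') (h1 : N.adj w u')
    (h2 : N.adj u w') (h3 : u ≠ u') (h4 : w ≠ w') :
    (∀ z, N.adj x z ↔ z = u ∨ z = w ∨ z = u' ∨ z = w') ∧ N.a x ≤ 2 := by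
  classical
  -- it is enough to treat one orientation
  have key : ∀ u w u' w' : κ, N.Cor u x w → N.Cr u' x w' → N.adj w u' → N.adj u w' → u ≠ u' →
      w ≠ w' → (∀ z, N.adj x z ↔ z = u ∨ z = w ∨ z = u' ∨ z = w') ∧ N.a x ≤ 2 := by
    intro u w u' w' h h' h1 h2 h3 h4
    have xu : N.adj x u := N.symm h.1
    have xw : N.adj x w := h.2.1
    have xu' : N.adj x u' := Cr.left N h'
    have xw' : N.adj x w' := Cr.right N h'
    have r1 : N.rot x w = u := h.2.2.1
    have r2 : N.rot x u' = w ∧ ¬ N.win x u' := by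
      rcases N.adj_rot xw xu' h1 with h5 | h5
      · exact absurd (r1.symm.trans h5.1) h3
      · exact h5
    have r3 : N.rot x u = w' ∧ ¬ N.win x u := by
      rcases N.adj_rot xu xw' h2 with h5 | h5
      · exact h5
      · exact absurd (N.rot_inj xw xw' (r1.trans h5.1.symm)) h4
    have r4 : N.rot x w' = u' := by
      rcases h' with h' | h'
      · exact h'.2.2.1
      · exact absurd (r2.1.symm.trans h'.2.2.1) h4
    have hN : ∀ z, N.adj x z ↔ z = u ∨ z = w ∨ z = u' ∨ z = w' := by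
      intro z
      constructor
      · intro hz
        refine N.rot_ind (b := x) (y := u) (fun z => z = u ∨ z = w ∨ z = u' ∨ z = w') xu
          (Or.inl rfl) ?_ z hz
        rintro z - (rfl | rfl | rfl | rfl)
        · exact Or.inr (Or.inr (Or.inr r3.1))
        · exact Or.inl r1
        · exact Or.inr (Or.inl r2.1)
        · exact Or.inr (Or.inr (Or.inl r4))
      · rintro (rfl | rfl | rfl | rfl)
        · exact xu
        · exact xw
        · exact xu'
        · exact xw'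
    refine ⟨hN, ?_⟩
    unfold a
    calc (univ.filter (fun y => N.adj x y ∧ N.win x y)).card ≤ ({w, w'} : Finset κ).card := by
          apply card_le_card
          intro z hz
          rw [mem_filter] at hz
          rw [mem_insert, mem_singleton]
          rcases (hN z).1 hz.2.1 with rfl | rfl | rfl | rfl
          · exact absurd hz.2.2 r3.2
          · exact Or.inl rfl
          · exact absurd hz.2.2 r2.2
          · exact Or.inr rfl
      _ ≤ 2 := card_le_two
  rcases h with h | h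
  · exact key u w u' w' h h' h1 h2 h3 h4
  · obtain ⟨e1, e2⟩ := key w u w' u' h (Cr.symm N h') h2 h1 h4 h3
    exact ⟨fun z => by rw [e1 z]; tauto, e2⟩

/-- two consecutive corners at `x` -/
theorem three_corners {x u w u' : κ} (h : N.Cr u x w) (h' : N.Cr w x u') (h1 : N.adj u u') :
    (∀ z, N.adj x z ↔ z = u ∨ z = w ∨ z = u') ∧ N.a x ≤ 2 ∧ N.G x = 3 := by
  classical
  have key : ∀ u w u' : κ, N.Cor u x w → N.Cr w x u' → N.adj u u' →
      (∀ z, N.adj x z ↔ z = u ∨ z = w ∨ z = u') ∧ N.a x ≤ 2 := by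
    intro u w u' h h' h1
    have xu : N.adj x u := N.symm h.1
    have xw : N.adj x w := h.2.1
    have xu' : N.adj x u' := Cr.right N h'
    have r1 : N.rot x w = u := h.2.2.1
    have r2 : N.rot x u' = w := by
      rcases h' with h' | h'
      · exact h'.2.2.1
      · exact absurd (r1.symm.trans h'.2.2.1) (N.ne_of_adj h1)
    have r3 : N.rot x u = u' ∧ ¬ N.win x u := by
      rcases N.adj_rot xu xu' h1 with h5 | h5
      · exact h5
      · exact absurd (r2.symm.trans h5.1) (h.ne_uw).symm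
    have hN : ∀ z, N.adj x z ↔ z = u ∨ z = w ∨ z = u' := by
      intro z
      constructor
      · intro hz
        refine N.rot_ind (b := x) (y := u) (fun z => z = u ∨ z = w ∨ z = u') xu
          (Or.inl rfl) ?_ z hz
        rintro z - (rfl | rfl | rfl)
        · exact Or.inr (Or.inr r3.1)
        · exact Or.inl r1
        · exact Or.inr (Or.inl r2)
      · rintro (rfl | rfl | rfl)
        · exact xu
        · exact xw
        · exact xu'
    refine ⟨hN, ?_⟩
    unfold a
    calc (univ.filter (fun y => N.adj x y ∧ N.win x y)).card ≤ ({w, u'} : Finset κ).card := by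
          apply card_le_card
          intro z hz
          rw [mem_filter] at hz
          rw [mem_insert, mem_singleton]
          rcases (hN z).1 hz.2.1 with rfl | rfl | rfl
          · exact absurd hz.2.2 r3.2
          · exact Or.inl rfl
          · exact Or.inr rfl
      _ ≤ 2 := card_le_two
  have hall : (∀ z, N.adj x z ↔ z = u ∨ z = w ∨ z = u') ∧ N.a x ≤ 2 := by
    rcases h with h0 | h0
    · exact key u w u' h0 h' h1
    · rcases h' with h2 | h2
      · -- rot x u = w, rot x u' = w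
        exact absurd (N.rot_inj h0.2.1 h2.2.1 (h0.2.2.1.trans h2.2.2.1.symm)) (N.ne_of_adj h1)
      · obtain ⟨e1, e2⟩ := key u' w u h2 (Or.inl h0) (N.symm h1)
        exact ⟨fun z => by rw [e1 z]; tauto, e2⟩
  refine ⟨hall.1, hall.2, ?_⟩
  have hG := N.G_eq_of (b := x) (s := {u, w, u'}) (by
    intro z; rw [hall.1 z]; simp only [mem_insert, mem_singleton])
  rw [hG, card_insert_of_notMem, card_pair (Cr.ne N h')]
  simp only [mem_insert, mem_singleton, not_or]
  exact ⟨Cr.ne N h, N.ne_of_adj h1⟩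

/-- all edges at a vertex with `a = G` are thin -/
theorem thin_of_aG {b y : κ} (h : N.a b = N.G b) (hy : N.adj b y) : N.Thin b y := by
  classical
  have hall : ∀ z, N.adj b z → N.win b z := by
    intro z hz
    have h1 : univ.filter (fun y => N.adj b y ∧ N.win b y) = univ.filter (fun y => N.adj b y) := by
      apply eq_of_subset_of_card_le
      · intro z hz
        rw [mem_filter] at hz ⊢
        exact ⟨hz.1, hz.2.1⟩
      · unfold a G at h
        rw [h]
    have h2 : z ∈ univ.filter (fun y => N.adj b y ∧ N.win b y) := by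
      rw [h1, mem_filter]; exact ⟨mem_univ _, hz⟩
    rw [mem_filter] at h2
    exact h2.2.2
  refine ⟨hy, fun z hz hzy => ?_⟩
  rcases N.adj_rot (N.symm hz) hy hzy with h1 | h1
  · exact h1.2 (hall _ (N.symm hz))
  · exact h1.2 (hall _ hy)

/-- an edge from a vertex with one corner is fat -/
theorem Cr.not_thin {u b w : κ} (h : N.Cr u b w) (ha : N.a b = 1) : ¬ N.Thin b w := by
  intro ht
  have := Cr.thin_a N h ht
  omega

section one

variable {x b1 b2 b3 b4 : κ} {q : ℚ}

/-- marks for `T = {x}` -/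
theorem nu_single (x b : κ) : (N.adj b x → N.nu {x} b = 1) ∧ (¬ N.adj b x → N.nu {x} b = 0) := by
  classical
  constructor
  · intro h
    unfold nu
    rw [filter_singleton, if_pos h, card_singleton]
  · intro h
    rw [nu_eq_zero]
    intro y hy
    rw [mem_singleton] at hy
    subst hy
    exact h

/-- a neighbour of `x` on the window -/
theorem one_end (hc : N.Cr x b1 b2) (hS : ¬ N.S b1) (hq1 : 1 ≤ q) (hq : q ≤ 2) :
    1 ≤ N.wt q {x} x b1 b2 ∧ (¬ N.St b1 → q ≤ N.wt q {x} x b1 b2) ∧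
      (¬ N.St b1 → ¬ N.Free {x} b1 → 2 ≤ N.wt q {x} x b1 b2) := by
  have hb : b1 ∉ ({x} : Finset κ) := by
    rw [mem_singleton]; exact N.ne_of_adj (Cr.left N hc)
  have hn : N.nu {x} b1 = 1 := (N.nu_single x b1).1 (Cr.left N hc)
  have ha := Cr.a_pos N hc
  have hm : x ∈ ({x} : Finset κ) ∨ b2 ∈ ({x} : Finset κ) := Or.inl (mem_singleton_self x)
  rw [N.wt_far hb]
  refine ⟨?_, fun hSt => N.wf_end ha hS hSt hn hm hq, fun hSt hF =>
    N.wf_end_two ha hS hSt hn hm hF⟩
  by_cases hSt : N.St b1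
  · rw [N.wf_St_marked hSt (by omega)]
  · exact N.one_le_wf ha hS hSt hq1

/-- an unmarked corner -/
theorem one_far {u b w : κ} (hc : N.Cr u b w) (hx : b ≠ x) (hax : ¬ N.adj b x) (hS : ¬ N.S b)
    (hm : N.MS {x} b) (hq : q ≤ 2) :
    min q (11 / 6) ≤ N.wt q {x} u b w ∧
      (¬ N.Free {x} b → ¬ (N.G b = 3 ∧ N.a b = 3) → 2 ≤ N.wt q {x} u b w) ∧ ¬ N.St b := by
  have hb : b ∉ ({x} : Finset κ) := by rw [mem_singleton]; exact hx
  have hn : N.nu {x} b = 0 := (N.nu_single x b).2 hax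
  have ha := Cr.a_pos N hc
  have hSt : ¬ N.St b := by
    intro h
    have := hm h hb
    omega
  rw [N.wt_far hb]
  exact ⟨N.wf_unmarked ha hS hSt hn hq, fun h1 h2 => N.wf_unmarked_two ha hS hSt hn h1 h2, hSt⟩

/-- if a window neighbour is short the vertex is not of type (1,1,1) -/
theorem not_111 {u b w v : κ} (hc : N.Cr u b w) (hv : N.Cr v w b) (hw : N.S w) :
    ¬ (N.G b = 3 ∧ N.a b = 3) := by
  rintro ⟨h1, h2⟩
  have h3 := N.thin_of_aG (h2.trans h1.symm) (Cr.right N hc)
  exact Cr.not_thin N hv hw.1 (h3.symm N)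

/-- if both window neighbours are short the vertex is not `Free` -/
theorem not_free {T : Finset κ} {u b w v v' : κ} (hc : N.Cr u b w) (hv : N.Cr v w b) (hw : N.S w)
    (hv' : N.Cr v' u b) (hu : N.S u) : ¬ N.Free T b := by
  intro hF
  obtain ⟨p, -, -, -, -, h5⟩ := Cr.T21_cases N hc hF.2.1
  rcases h5 with ⟨h5, -⟩ | ⟨h5, -⟩
  · exact Cr.not_thin N hv' hu.1 (h5.symm N)
  · exact Cr.not_thin N hv hw.1 (h5.symm N)

/-- a strip has no short window neighbour -/
theorem not_St_of_S {u b w v : κ} (hc : N.Cr u b w) (hv : N.Cr v w b) (hw : N.S w) :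
    ¬ N.St b := by
  intro hS
  exact Cr.not_thin N hv hw.1 ((Cr.St_cases N hc hS).2.2.1.symm N)

/-- the basic estimate for pentagons through the only near facet -/
theorem PL.one (h : N.PL x b1 b2 b3 b4) (hx : ¬ N.S x) (m2 : N.MS {x} b2) (m3 : N.MS {x} b3)
    (hq1 : 3 / 2 ≤ q) (hq : q ≤ 2) :
    (q = 3 / 2 → 5 / 2 + N.wt q {x} b4 x b1 ≤ N.W5 q {x} x b1 b2 b3 b4) ∧
    (q = 2 → 4 ≤ N.W5 q {x} x b1 b2 b3 b4) ∧
    (q = 7 / 4 → N.W5 q {x} x b1 b2 b3 b4 < 4 →
      (N.S b1 ∧ N.S b4 ∧ ¬ N.S b2 ∧ ¬ N.S b3 ∧ N.Thin b2 b3) ∨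
      (N.S b2 ∧ N.S b4 ∧ ¬ N.S b1 ∧ ¬ N.S b3 ∧ N.Free {x} b1 ∧ ¬ N.Free {x} b3) ∨
      (N.S b1 ∧ N.S b3 ∧ ¬ N.S b4 ∧ ¬ N.S b2 ∧ N.Free {x} b4 ∧ ¬ N.Free {x} b2)) := by
  have hq0 : 0 ≤ q := by linarith
  have hq1' : 1 ≤ q := by linarith
  have x2 : ¬ N.adj b2 x := fun h' => h.n02 (N.symm h')
  have x3 : ¬ N.adj b3 x := h.n30
  have nx2 : b2 ≠ x := (Cr.ne N h.p.c1).symm
  have nx3 : b3 ≠ x := (Cr.ne N h.p.c4)
  have n0 := N.wt_nonneg (T := {x}) (u := b4) (b := x) (w := b1) hq0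
  have n1 := N.wt_nonneg (T := {x}) (u := x) (b := b1) (w := b2) hq0
  have n2 := N.wt_nonneg (T := {x}) (u := b1) (b := b2) (w := b3) hq0
  have n3 := N.wt_nonneg (T := {x}) (u := b2) (b := b3) (w := b4) hq0
  have n4 := N.wt_nonneg (T := {x}) (u := b3) (b := b4) (w := x) hq0
  have e0 := ed_nonneg {x} x b1
  have e1 := ed_nonneg {x} b1 b2
  have e2 := ed_nonneg {x} b2 b3
  have e3 := ed_nonneg {x} b3 b4
  have e4 := ed_nonneg {x} b4 x
  have l1 := fun hs : ¬ N.S b1 => N.one_end h.p.c1 hs hq1' hq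
  have l4 := fun hs : ¬ N.S b4 => N.one_end (Cr.symm N h.p.c4) hs hq1' hq
  rw [N.wt_comm q {x} x b4 b3] at l4
  have l2 := fun hs : ¬ N.S b2 => N.one_far (q := q) h.p.c2 nx2 x2 hs m2 hq
  have l3 := fun hs : ¬ N.S b3 => N.one_far (q := q) h.p.c3 nx3 x3 hs m3 hq
  have hmin1 : 3 / 2 ≤ min q (11 / 6) := le_min hq1 (by norm_num)
  have s12 := h.s12
  have s23 := h.s23
  have s34 := h.s34
  -- strips next to short corners
  have st1 : N.S b2 → ¬ N.St b1 := fun hs => N.not_St_of_S h.p.c1 (Cr.symm N h.p.c2) hs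
  have st4 : N.S b3 → ¬ N.St b4 := fun hs =>
    N.not_St_of_S (Cr.symm N h.p.c4) h.p.c3 hs
  -- (1,1,1)
  have t2 : N.S b1 → ¬ (N.G b2 = 3 ∧ N.a b2 = 3) := fun hs =>
    N.not_111 (Cr.symm N h.p.c2) h.p.c1 hs
  have t3 : N.S b4 → ¬ (N.G b3 = 3 ∧ N.a b3 = 3) := fun hs =>
    N.not_111 h.p.c3 (Cr.symm N h.p.c4) hs
  have t2' : N.S b3 → ¬ (N.G b2 = 3 ∧ N.a b2 = 3) := fun hs =>
    N.not_111 h.p.c2 (Cr.symm N h.p.c3) hs
  have t3' : N.S b2 → ¬ (N.G b3 = 3 ∧ N.a b3 = 3) := fun hs =>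
    N.not_111 (Cr.symm N h.p.c3) h.p.c2 hs
  -- not free
  have f3 : N.S b2 → N.S b4 → ¬ N.Free {x} b3 := fun hs hs' =>
    N.not_free h.p.c3 (Cr.symm N h.p.c4) hs' h.p.c2 hs
  have f2 : N.S b1 → N.S b3 → ¬ N.Free {x} b2 := fun hs hs' =>
    N.not_free h.p.c2 (Cr.symm N h.p.c3) hs' h.p.c1 hs
  have hfree : ∀ b, N.Free {x} b → ∀ u w, N.wt q {x} u b w = q := by
    intro b hb u w
    rw [N.wt_far hb.1]
    exact N.wf_free hb.2.1 hb
  unfold W5
  by_cases s1 : N.S b1
  · have s2 : ¬ N.S b2 := fun h' => s12 ⟨s1, h'⟩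
    obtain ⟨g2, g2', g2''⟩ := l2 s2
    by_cases s4 : N.S b4
    · -- P1
      have s3 : ¬ N.S b3 := fun h' => s34 ⟨h', s4⟩
      obtain ⟨g3, g3', g3''⟩ := l3 s3
      refine ⟨fun _ => by linarith, fun hq2 => ?_, fun hq2 hlt => Or.inl ⟨s1, s4, s2, s3, ?_⟩⟩
      · have k2 : 2 ≤ N.wt q {x} b1 b2 b3 := by
          by_cases hF : N.Free {x} b2
          · rw [hfree b2 hF]; linarith
          · exact g2' hF (t2 s1)
        have k3 : 2 ≤ N.wt q {x} b2 b3 b4 := by
          by_cases hF : N.Free {x} b3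
          · rw [hfree b3 hF]; linarith
          · exact g3' hF (t3 s4)
        linarith
      · -- one of them is free
        by_contra hth
        have F2 : ¬ N.Free {x} b2 := by
          intro hF
          obtain ⟨p, -, -, -, -, h5⟩ := Cr.T21_cases N h.p.c2 hF.2.1
          rcases h5 with ⟨h5, -⟩ | ⟨h5, -⟩
          · exact Cr.not_thin N h.p.c1 s1.1 (h5.symm N)
          · exact hth h5
        have F3 : ¬ N.Free {x} b3 := by
          intro hF
          obtain ⟨p, -, -, -, -, h5⟩ := Cr.T21_cases N h.p.c3 hF.2.1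
          rcases h5 with ⟨h5, -⟩ | ⟨h5, -⟩
          · exact hth (h5.symm N)
          · exact Cr.not_thin N (Cr.symm N h.p.c4) s4.1 (h5.symm N)
        have k2 := g2' F2 (t2 s1)
        have k3 := g3' F3 (t3 s4)
        linarith
    · obtain ⟨g4, g4', g4''⟩ := l4 s4
      by_cases s3 : N.S b3
      · -- mirror of P2
        have k4 := g4' (st4 s3)
        have k2 := g2' (f2 s1 s3) (t2 s1)
        refine ⟨fun _ => by linarith, fun hq2 => by linarith, fun hq2 hlt =>
          Or.inr (Or.inr ⟨s1, s3, s4, s2, ?_, f2 s1 s3⟩)⟩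
        by_contra hF
        have := g4'' (st4 s3) hF
        linarith
      · obtain ⟨g3, g3', g3''⟩ := l3 s3
        refine ⟨fun _ => by linarith, fun hq2 => ?_, fun hq2 hlt => ?_⟩
        · have h1 : (11 : ℚ) / 6 ≤ min q (11 / 6) := le_min (by linarith) le_rfl
          linarith
        · exfalso
          have h1 : (7 : ℚ) / 4 ≤ min q (11 / 6) := le_min (by linarith) (by norm_num)
          linarith
  · obtain ⟨g1, g1', g1''⟩ := l1 s1
    by_cases s2 : N.S b2
    · have s3 : ¬ N.S b3 := fun h' => s23 ⟨s2, h'⟩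
      obtain ⟨g3, g3', g3''⟩ := l3 s3
      have k1 := g1' (st1 s2)
      by_cases s4 : N.S b4
      · -- P2
        have k3 := g3' (f3 s2 s4) (t3 s4)
        refine ⟨fun _ => by linarith, fun hq2 => by linarith, fun hq2 hlt =>
          Or.inr (Or.inl ⟨s2, s4, s1, s3, ?_, f3 s2 s4⟩)⟩
        by_contra hF
        have := g1'' (st1 s2) hF
        linarith
      · obtain ⟨g4, g4', g4''⟩ := l4 s4
        refine ⟨fun _ => by linarith, fun hq2 => ?_, fun hq2 hlt => ?_⟩
        · have h1 : (11 : ℚ) / 6 ≤ min q (11 / 6) := le_min (by linarith) le_rfl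
          linarith
        · exfalso
          have h1 : (7 : ℚ) / 4 ≤ min q (11 / 6) := le_min (by linarith) (by norm_num)
          linarith
    · obtain ⟨g2, g2', g2''⟩ := l2 s2
      by_cases s3 : N.S b3
      · have s4 : ¬ N.S b4 := fun h' => s34 ⟨s3, h'⟩
        obtain ⟨g4, g4', g4''⟩ := l4 s4
        have k4 := g4' (st4 s3)
        refine ⟨fun _ => by linarith, fun hq2 => ?_, fun hq2 hlt => ?_⟩
        · have h1 : (11 : ℚ) / 6 ≤ min q (11 / 6) := le_min (by linarith) le_rfl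
          linarith
        · exfalso
          have h1 : (7 : ℚ) / 4 ≤ min q (11 / 6) := le_min (by linarith) (by norm_num)
          linarith
      · obtain ⟨g3, g3', g3''⟩ := l3 s3
        refine ⟨fun _ => by linarith, fun hq2 => ?_, fun hq2 hlt => ?_⟩
        · have h1 : (11 : ℚ) / 6 ≤ min q (11 / 6) := le_min (by linarith) le_rfl
          linarith
        · exfalso
          have h1 : (7 : ℚ) / 4 ≤ min q (11 / 6) := le_min (by linarith) (by norm_num)
          linarith

end one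

end Nerve

end Pool.Agent.Helper26.OC
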