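import Mathlib
import Pool.Agent.Helper26.OC.PO

/-!
# Windows across a (2,1)-corner of a bad pentagon, one near facet
-/

set_option autoImplicit false

open Finset

namespace Pool.Agent.Helper26.OC

namespace Nerve

variable {κ : Type} [Fintype κ] [DecidableEq κ] (N : Nerve κ)

section cross

variable {R : κ → κ → κ → Prop} {x b1 b2 b3 b4 p c d : κ}

/-- P1: the pentagon across the thin edge `b2 b3` does not contain `x` if `x` has at least three
corners -/
theorem cross1 (hR : N.Or R) (h : N.PL x b1 b2 b3 b4) (r1 : R x b1 b2) (r4 : R b3 b4 x)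
    (s1 : N.S b1) (s4 : N.S b4) (ha : 3 ≤ N.a x)
    (g2 : R b3 b2 p) (g3 : R b2 p d) (g4 : R p d c) (g5 : R d c b3) :
    p ≠ x ∧ d ≠ x ∧ c ≠ x := by
  have a2p : N.adj b2 p := Cr.right N (hR.cr g2)
  have apd : N.adj p d := Cr.right N (hR.cr g3)
  have adc : N.adj d c := Cr.right N (hR.cr g4)
  have ac3 : N.adj c b3 := Cr.right N (hR.cr g5)
  have a01 : N.adj x b1 := Cr.right N h.p.c0
  have a12 : N.adj b1 b2 := Cr.right N h.p.c1
  have a34 : N.adj b3 b4 := Cr.right N h.p.c3
  have a40 : N.adj b4 x := Cr.right N h.p.c4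
  have hpx : p ≠ x := by
    rintro rfl; exact h.n02 (N.symm a2p)
  have hcx : c ≠ x := by
    rintro rfl; exact h.n30 (N.symm ac3)
  refine ⟨hpx, ?_, hcx⟩
  rintro rfl
  -- p ≠ b1
  have hp1 : p ≠ b1 := by
    rintro rfl
    have := (hR.one s1.1 g3 r1).1
    exact (Cr.ne N h.p.c1) this.symm
  have hc4 : c ≠ b4 := by
    rintro rfl
    have := (hR.one s4.1 g5 r4).1
    exact (Cr.ne N h.p.c4) this.symm
  have b1p : N.adj b1 p := by
    rcases N.noC4 a01 a12 a2p apd (Cr.ne N h.p.c1) hp1.symm with h5 | h5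
    · exact absurd h5 h.n02
    · exact h5
  have b4c : N.adj b4 c := by
    rcases N.noC4 (N.symm a40) (N.symm a34) (N.symm ac3) (N.symm adc) (Cr.ne N h.p.c4).symm
      hc4.symm with h5 | h5
    · exact absurd (N.symm h5) h.n30
    · exact h5
  have := (N.two_corners h.p.c0 (hR.cr g4) b1p b4c (by
    rintro rfl; exact h.n41 (N.symm b1p)) (by rintro rfl; exact h.n41 b4c)).2
  omega

/-- P2: the pentagon across the thin edge `x b1` -/
theorem cross2 (hR : N.Or R) (h : N.PL x b1 b2 b3 b4) (r4 : R b3 b4 x)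
    (s2 : N.S b2) (s4 : N.S b4) (hF : N.Free {x} b1) (ha : 3 ≤ N.a x)
    (hN : ∀ z, N.adj b1 z ↔ z = x ∨ z = p ∨ z = b2) (hx1 : N.Thin b1 x) (hp2 : N.adj p b2)
    (g1 : R p b1 x) (g2 : R b1 x d) (g3 : R x d c) (g4 : R d c p)
    (h' : N.PL p b1 x d c) (mp : N.MS {x} p) (md : N.MS {x} d) (mc : N.MS {x} c) :
    4 ≤ N.W5 (3 / 2) {x} p b1 x d c := by
  have hq0 : (0 : ℚ) ≤ 3 / 2 := by norm_num
  have hq1 : (1 : ℚ) ≤ 3 / 2 := by norm_num
  have hq2 : (3 / 2 : ℚ) ≤ 2 := by norm_num
  have axd : N.adj x d := Cr.right N (hR.cr g2)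
  have adc : N.adj d c := Cr.right N (hR.cr g3)
  have acp : N.adj c p := Cr.right N (hR.cr g4)
  have a1p : N.adj b1 p := Cr.left N (hR.cr g1)
  have a01 : N.adj x b1 := Cr.right N h.p.c0
  have a12 : N.adj b1 b2 := Cr.right N h.p.c1
  have a23 : N.adj b2 b3 := Cr.right N h.p.c2
  have a34 : N.adj b3 b4 := Cr.right N h.p.c3
  have a40 : N.adj b4 x := Cr.right N h.p.c4
  -- p, c are not adjacent to x
  have npx : ¬ N.adj p x := fun h5 => hx1.2 p (N.symm a1p) h5
  have ncx : ¬ N.adj c x := fun h5 => h'.n24 (N.symm h5)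
  have hpx : p ≠ x := by rintro rfl; exact Cr.ne N (hR.cr g1) rfl
  have hcx : c ≠ x := fun h5 => Cr.ne N (hR.cr g3) h5.symm
  have hw1 : N.wt (3 / 2) {x} p b1 x = 3 / 2 := by
    rw [N.wt_far hF.1]; exact N.wf_free hF.2.1 hF
  have n0 := N.wt_nonneg (T := {x}) (u := c) (b := p) (w := b1) hq0
  have n2 := N.wt_nonneg (T := {x}) (u := b1) (b := x) (w := d) hq0
  have n3 := N.wt_nonneg (T := {x}) (u := x) (b := d) (w := c) hq0
  have n4 := N.wt_nonneg (T := {x}) (u := d) (b := c) (w := p) hq0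
  have e0 := ed_nonneg {x} p b1
  have e1 := ed_nonneg {x} b1 x
  have e2 := ed_nonneg {x} x d
  have e3 := ed_nonneg {x} d c
  have e4 := ed_nonneg {x} c p
  have hmin : (3 / 2 : ℚ) ≤ min (3 / 2) (11 / 6) := le_min le_rfl (by norm_num)
  have lp := fun hs : ¬ N.S p => N.one_far (q := 3 / 2) h'.p.c0 hpx npx hs mp hq2
  have lc := fun hs : ¬ N.S c => N.one_far (q := 3 / 2) h'.p.c4 hcx ncx hs mc hq2
  have ld := fun hs : ¬ N.S d => N.one_end (q := 3 / 2) (hR.cr g3) hs hq1 hq2
  unfold W5
  rw [hw1]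
  by_cases sp : N.S p
  · have sc : ¬ N.S c := fun h5 => h'.s40 ⟨h5, sp⟩
    have kc := (lc sc).1
    by_cases sd : N.S d
    · -- the exceptional case
      by_cases hc1 : N.a c = 1
      · -- c is of type five
        have hc : N.wt (3 / 2) {x} d c p = 3 := by
          have hcx' : c ∉ ({x} : Finset κ) := by rw [mem_singleton]; exact hcx
          have hQ : ¬ N.Q c := PL.mid N (PL.rot N (PL.rot N h')) sd sp
          have hG4 : N.G c ≠ 4 := fun h5 => hQ ⟨hc1, h5⟩
          have hG3 : ¬ N.G c ≤ 3 := fun h5 => sc ⟨hc1, h5⟩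
          rw [N.wt_far hcx']
          unfold wf
          rw [if_pos hc1, if_neg hG3, if_pos ((N.nu_single x c).2 ncx), if_neg hG4]
        linarith
      · exfalso
        -- N(p) = {b1, b2, c}
        have hpN := Cr.S_cases N h'.p.c0 sp
        have b2c : N.adj b2 c := by
          rcases hpN with ⟨h5, h6⟩ | ⟨z, h5, h6, h7, h8, h9, h10, h11⟩
          · exact absurd (N.symm h5) (fun h12 => h'.n41 (N.symm h12))
          · have : z = b2 := Cr.cn_unique N h'.p.c0 h5 h7 hp2 a12
            rw [← this]; exact N.symm h6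
        obtain ⟨z, k1, k2, k3, k4, k5, k6, k7, k8⟩ := PL.short N (PL.rot N h) s2
        have hz : z = p := Cr.cn_unique N (Cr.symm N h.p.c2) k1 k2 (N.symm hp2) a1p
        have hc3 : c = b3 := by
          rcases (k8 c).1 b2c with h5 | h5 | h5
          · exfalso
            rw [h5] at adc
            exact h'.n13 (N.symm adc)
          · rw [hz] at h5
            exact absurd h5 (N.ne_of_adj acp)
          · exact h5
        subst hc3
        have hd4 : d ≠ b4 := by
          rintro rfl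
          have := (hR.one s4.1 g3 r4).1
          exact (Cr.ne N h.p.c4) this.symm
        have d4 : N.adj b4 d := by
          rcases N.noC4 a34 a40 axd adc hcx hd4.symm with h5 | h5
          · exact absurd h5 h.n30
          · exact h5
        have := (N.three_corners h.p.c0 (hR.cr g2) d4).2.1
        omega
    · have kd := (ld sd).1
      linarith
  · have kp := (lp sp).1
    by_cases sc : N.S c
    · have sd : ¬ N.S d := fun h5 => h'.s34 ⟨h5, sc⟩
      have kd := (ld sd).1
      linarith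
    · have kc := (lc sc).1
      linarith

end cross

end Nerve

end Pool.Agent.Helper26.OC
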