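import Mathlib
import Pool.Agent.Helper26.OC.PO

/-!
# Windows with five corners, two or three near facets
-/

set_option autoImplicit false

open Finset

namespace Pool.Agent.Helper26.OC

namespace Nerve

variable {κ : Type} [Fintype κ] [DecidableEq κ] (N : Nerve κ)

variable {T : Finset κ} {q : ℚ}

/-- two marks -/
theorem wf_two_marks {u b w : κ} (ha : 1 ≤ N.a b) (hS : ¬ N.S b) (hSt : ¬ N.St b)
    (hn : N.nu T b = 2) (hq : 3 / 2 ≤ q) : 3 / 2 ≤ N.wf q T u b w := by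
  have haG := N.a_le_G b
  unfold wf
  split_ifs with h1 h2 h3 h4 h5 h6 h7 h8 h9 h10 h11 h12 <;>
    first
    | exact hq
    | (exfalso; exact hS ⟨by assumption, by assumption⟩)
    | (exfalso; exact hSt ⟨by omega, by assumption⟩)
    | (exfalso; omega)
    | (norm_num; done)

/-- near corners which are short -/
theorem wt_near_S {u b w : κ} (hb : b ∈ T) (hS : N.S b) (h2 : 2 ≤ T.card) :
    1 ≤ N.wt q T u b w ∧ (T.card = 2 → 2 ≤ N.wt q T u b w) := by
  rw [N.wt_near hb]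
  unfold wn
  rw [if_neg (by omega)]
  by_cases h3 : T.card = 2
  · rw [if_pos h3, if_pos hS.1, if_pos hS.2]
    exact ⟨by norm_num, fun _ => le_rfl⟩
  · rw [if_neg h3, if_pos ⟨hS.1, hS.2⟩]
    exact ⟨le_rfl, fun h => absurd h h3⟩

/-- near corners for `|T| = 3` -/
theorem wt_near_three {u b w : κ} (hb : b ∈ T) (h3 : 3 ≤ T.card) : 1 / 2 ≤ N.wt q T u b w := by
  rw [N.wt_near hb]
  unfold wn
  rw [if_neg (by omega), if_neg (by omega)]
  split_ifs <;> norm_num

/-- near corners whose window neighbours are far -/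
theorem wt_near_half {u b w : κ} (hc : N.Cr u b w) (hb : b ∈ T) (hT : N.Clq T)
    (h2 : 2 ≤ T.card) (hu : u ∉ T) (hw : w ∉ T) : 1 / 2 ≤ N.wt q T u b w := by
  by_cases h3 : T.card = 2
  swap
  · exact N.wt_near_three hb (by omega)
  rw [N.wt_near hb]
  unfold wn
  rw [if_neg (by omega), if_pos h3]
  have hm : ¬ (u ∈ T ∨ w ∈ T) := by tauto
  by_cases h1 : N.a b = 1
  · rw [if_pos h1, if_neg hm]
    split_ifs <;> norm_num
  · rw [if_neg h1, if_neg hm]
    by_cases h4 : N.G b = 2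
    · rw [if_pos h4]; norm_num
    · rw [if_neg h4]
      rw [if_neg]
      rintro ⟨h5, h6, h7⟩
      -- the other member of T
      obtain ⟨y, hy, hyb⟩ : ∃ y ∈ T, y ≠ b := by
        by_contra hcon
        push Not at hcon
        have : T ⊆ {b} := fun z hz => mem_singleton.2 (hcon z hz)
        have := card_le_card this
        rw [card_singleton] at this
        omega
      have hby : N.adj b y := hT b hb y hy hyb.symm
      obtain ⟨p, e1, e2, e3, e4, e5⟩ := Cr.T21_cases N hc ⟨h6, h5⟩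
      have hyp : y = p := by
        rcases (e3 y).1 hby with rfl | h8 | rfl
        · exact absurd hy hu
        · exact h8
        · exact absurd hy hw
      subst hyp
      have h8 := h7 y hy hby
      rcases e5 with ⟨-, e6, -⟩ | ⟨-, e6, -⟩
      · exact h8.2 w (N.symm (Cr.right N hc)) (N.symm e6)
      · exact h8.2 u (N.symm (Cr.left N hc)) e6

/-- unmarked long corners -/
theorem unm {u b w : κ} (hc : N.Cr u b w) (hb : b ∉ T) (hS : ¬ N.S b) (hn : N.nu T b = 0)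
    (hm : N.MS T b) (hq : q ≤ 2) : min q (11 / 6) ≤ N.wt q T u b w ∧
      (¬ N.Free T b → ¬ (N.G b = 3 ∧ N.a b = 3) → 2 ≤ N.wt q T u b w) ∧ ¬ N.St b := by
  have ha := Cr.a_pos N hc
  have hSt : ¬ N.St b := by
    intro h
    have := hm h hb
    omega
  rw [N.wt_far hb]
  exact ⟨N.wf_unmarked ha hS hSt hn hq, fun h1 h2 => N.wf_unmarked_two ha hS hSt hn h1 h2, hSt⟩

/-- one mark, a window neighbour -/
theorem endm {u b w : κ} (hc : N.Cr u b w) (hb : b ∉ T) (hS : ¬ N.S b) (hn : N.nu T b = 1)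
    (hm : u ∈ T ∨ w ∈ T) (hq1 : 1 ≤ q) (hq : q ≤ 2) :
    1 ≤ N.wt q T u b w ∧ (¬ N.St b → q ≤ N.wt q T u b w) ∧
      (¬ N.St b → ¬ N.Free T b → 2 ≤ N.wt q T u b w) := by
  have ha := Cr.a_pos N hc
  rw [N.wt_far hb]
  refine ⟨?_, fun hSt => N.wf_end ha hS hSt hn hm hq, fun hSt hF =>
    N.wf_end_two ha hS hSt hn hm hF⟩
  by_cases hSt : N.St b
  · rw [N.wf_St_marked hSt (by omega)]
  · exact N.one_le_wf ha hS hSt hq1

section

variable {b0 b1 b2 b3 b4 : κ}

/-- members of `T` on a pentagon without chords -/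
theorem PL.notin (h : N.PL b0 b1 b2 b3 b4) (hT : N.Clq T) (h0 : b0 ∈ T) : b2 ∉ T ∧ b3 ∉ T :=
  ⟨fun h2 => h.n02 (hT _ h0 _ h2 (Cr.ne N h.p.c1)),
    fun h3 => h.n30 (hT _ h3 _ h0 (Cr.ne N h.p.c4))⟩

/-- one of the two sides of a pentagon through exactly one near facet -/
theorem PL.side (h : N.PL b0 b1 b2 b3 b4) (hT : N.Clq T) (h0 : b0 ∈ T) (h1 : b1 ∉ T)
    (h2 : b2 ∉ T) (m1 : N.MS T b1) (m2 : N.MS T b2) (hq : q = 7 / 4) :
    7 / 4 ≤ N.wt q T b0 b1 b2 + N.wt q T b1 b2 b3 ∨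
    (N.S b2 ∧ 3 / 2 ≤ N.wt q T b0 b1 b2 + N.wt q T b1 b2 b3) := by
  have hq1 : (1 : ℚ) ≤ q := by rw [hq]; norm_num
  have hq0 : (0 : ℚ) ≤ q := by rw [hq]; norm_num
  have hq2 : q ≤ 2 := by rw [hq]; norm_num
  have n1 := N.wt_nonneg (T := T) (u := b0) (b := b1) (w := b2) hq0
  have n2 := N.wt_nonneg (T := T) (u := b1) (b := b2) (w := b3) hq0
  have a10 : N.adj b1 b0 := Cr.left N h.p.c1
  have hn1 := N.nu_le hT h1
  have hn1' := N.nu_pos h0 a10
  have hmin : (7 / 4 : ℚ) ≤ min q (11 / 6) := by rw [hq]; exact le_min le_rfl (by norm_num)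
  by_cases hy : ∃ y ∈ T, N.adj b2 y
  · -- the hub of b1 is in T
    obtain ⟨y, hyT, hy2⟩ := hy
    left
    have hy0 : y ≠ b0 := by rintro rfl; exact h.n02 (N.symm hy2)
    have hy1 : y ≠ b1 := by rintro rfl; exact h1 hyT
    have a0y : N.adj b0 y := hT _ h0 _ hyT hy0.symm
    have a1y : N.adj b1 y := h.hub N hy1 a0y hy2
    have s1 : N.S b1 := Cr.S_of3 N h.p.c1 a1y a0y hy2
    have s2 : ¬ N.S b2 := fun h' => h.s12 ⟨s1, h'⟩
    have hn : N.nu T b1 = 2 := le_antisymm hn1 (N.nu_two h0 hyT hy0.symm a10 a1y)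
    have w1 : N.wt q T b0 b1 b2 = 1 := by rw [N.wt_far h1]; exact N.wf_S_two s1 hn
    have w2 := N.one_le_far (u := b1) (w := b3) h2 (Cr.a_pos N h.p.c2) s2 m2 hq1
    linarith
  · have hn2 : N.nu T b2 = 0 := N.nu_eq_zero.2 fun y hyT hy2 => hy ⟨y, hyT, hy2⟩
    by_cases s2 : N.S b2
    · have s1 : ¬ N.S b1 := fun h' => h.s12 ⟨h', s2⟩
      have st1 : ¬ N.St b1 := N.not_St_of_S h.p.c1 (Cr.symm N h.p.c2) s2
      by_cases hn : N.nu T b1 = 1
      · left
        have := (N.endm h.p.c1 h1 s1 hn (Or.inl h0) hq1 hq2).2.1 st1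
        linarith
      · right
        have hn' : N.nu T b1 = 2 := by omega
        have := N.wf_two_marks (u := b0) (w := b2) (Cr.a_pos N h.p.c1) s1 st1 hn'
          (q := q) (by rw [hq]; norm_num)
        rw [← N.wt_far h1] at this
        exact ⟨s2, by linarith⟩
    · left
      have := (N.unm h.p.c2 h2 s2 hn2 m2 hq2).1
      linarith

/-- the side next to a short middle corner -/
theorem PL.side' (h : N.PL b0 b1 b2 b3 b4) (hT : N.Clq T) (h0 : b0 ∈ T) (h1 : b1 ∉ T)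
    (h2 : b2 ∉ T) (m1 : N.MS T b1) (m2 : N.MS T b2) (s3 : N.S b3) (hq : q = 7 / 4) :
    2 ≤ N.wt q T b0 b1 b2 + N.wt q T b1 b2 b3 := by
  have hq1 : (1 : ℚ) ≤ q := by rw [hq]; norm_num
  have hq0 : (0 : ℚ) ≤ q := by rw [hq]; norm_num
  have hq2 : q ≤ 2 := by rw [hq]; norm_num
  have n1 := N.wt_nonneg (T := T) (u := b0) (b := b1) (w := b2) hq0
  have n2 := N.wt_nonneg (T := T) (u := b1) (b := b2) (w := b3) hq0
  have a10 : N.adj b1 b0 := Cr.left N h.p.c1
  have hn1 := N.nu_le hT h1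
  have s2 : ¬ N.S b2 := fun h' => h.s23 ⟨h', s3⟩
  by_cases hy : ∃ y ∈ T, N.adj b2 y
  · obtain ⟨y, hyT, hy2⟩ := hy
    have hy0 : y ≠ b0 := by rintro rfl; exact h.n02 (N.symm hy2)
    have hy1 : y ≠ b1 := by rintro rfl; exact h1 hyT
    have a0y : N.adj b0 y := hT _ h0 _ hyT hy0.symm
    have a1y : N.adj b1 y := h.hub N hy1 a0y hy2
    have s1 : N.S b1 := Cr.S_of3 N h.p.c1 a1y a0y hy2
    have hn : N.nu T b1 = 2 := le_antisymm hn1 (N.nu_two h0 hyT hy0.symm a10 a1y)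
    have w1 : N.wt q T b0 b1 b2 = 1 := by rw [N.wt_far h1]; exact N.wf_S_two s1 hn
    have w2 := N.one_le_far (u := b1) (w := b3) h2 (Cr.a_pos N h.p.c2) s2 m2 hq1
    linarith
  · have hn2 : N.nu T b2 = 0 := N.nu_eq_zero.2 fun y hyT hy2 => hy ⟨y, hyT, hy2⟩
    obtain ⟨g1, g2, g3⟩ := N.unm h.p.c2 h2 s2 hn2 m2 hq2
    by_cases s1 : N.S b1
    · have := g2 (N.not_free h.p.c2 (Cr.symm N h.p.c3) s3 h.p.c1 s1)
        (N.not_111 h.p.c2 (Cr.symm N h.p.c3) s3)
      linarith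
    · have w1 := N.one_le_far (u := b0) (w := b2) h1 (Cr.a_pos N h.p.c1) s1 m1 hq1
      have hmin : (7 / 4 : ℚ) ≤ min q (11 / 6) := by rw [hq]; exact le_min le_rfl (by norm_num)
      linarith

/-- **Pentagons through exactly one near facet, `|T| ≥ 2`.** -/
theorem PL.one_two (h : N.PL b0 b1 b2 b3 b4) (hT : N.Clq T) (hc : 2 ≤ T.card) (h0 : b0 ∈ T)
    (h1 : b1 ∉ T) (h4 : b4 ∉ T) (m1 : N.MS T b1) (m2 : N.MS T b2) (m3 : N.MS T b3)
    (m4 : N.MS T b4) (hq : q = 7 / 4) : 4 ≤ N.W5 q T b0 b1 b2 b3 b4 := by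
  obtain ⟨h2, h3⟩ := h.notin N hT h0
  have hq0 : (0 : ℚ) ≤ q := by rw [hq]; norm_num
  have n0 := N.wt_nonneg (T := T) (u := b4) (b := b0) (w := b1) hq0
  have n2 := N.wt_nonneg (T := T) (u := b1) (b := b2) (w := b3) hq0
  have n3 := N.wt_nonneg (T := T) (u := b2) (b := b3) (w := b4) hq0
  have e0 := ed_nonneg T b0 b1
  have e1 := ed_nonneg T b1 b2
  have e2 := ed_nonneg T b2 b3
  have e3 := ed_nonneg T b3 b4
  have e4 := ed_nonneg T b4 b0
  unfold W5
  by_cases s0 : N.S b0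
  · -- the other members of T are the hub
    obtain ⟨y, hy, hyb⟩ : ∃ y ∈ T, y ≠ b0 := by
      by_contra hcon
      push Not at hcon
      have : T ⊆ {b0} := fun z hz => mem_singleton.2 (hcon z hz)
      have := card_le_card this
      rw [card_singleton] at this
      omega
    have a0y : N.adj b0 y := hT _ h0 _ hy hyb.symm
    have hp : N.adj b1 y ∧ N.adj b4 y := by
      rcases Cr.S_cases N h.p.c0 s0 with h5 | ⟨p, e1, e2, e3, -, e5, e6, e7⟩
      · exact absurd h5.1 h.n41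
      · rcases (e7 y).1 a0y with rfl | h8 | rfl
        · exact absurd hy h4
        · rw [h8]; exact ⟨e3, e2⟩
        · exact absurd hy h1
    have s1 : ¬ N.S b1 := fun h' => h.s01 ⟨s0, h'⟩
    have s4 : ¬ N.S b4 := fun h' => h.s40 ⟨h', s0⟩
    have w0 := (N.wt_near_S (q := q) (u := b4) (w := b1) h0 s0 hc).1
    have nu1 : N.nu T b1 = 2 := le_antisymm (N.nu_le hT h1)
      (N.nu_two h0 hy hyb.symm (Cr.left N h.p.c1) hp.1)
    have nu4 : N.nu T b4 = 2 := le_antisymm (N.nu_le hT h4)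
      (N.nu_two h0 hy hyb.symm (Cr.right N h.p.c4) hp.2)
    have st1 : ¬ N.St b1 := N.not_St_of_S (Cr.symm N h.p.c1) h.p.c0 s0
    have st4 : ¬ N.St b4 := N.not_St_of_S h.p.c4 (Cr.symm N h.p.c0) s0
    have w1 := N.wf_two_marks (u := b0) (w := b2) (Cr.a_pos N h.p.c1) s1 st1 nu1
      (q := q) (by rw [hq]; norm_num)
    have w4 := N.wf_two_marks (u := b3) (w := b0) (Cr.a_pos N h.p.c4) s4 st4 nu4
      (q := q) (by rw [hq]; norm_num)
    rw [← N.wt_far h1] at w1
    rw [← N.wt_far h4] at w4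
    linarith
  · have w0 := N.wt_near_half (q := q) h.p.c0 h0 hT hc h4 h1
    have A := h.side N hT h0 h1 h2 m1 m2 hq
    have B := PL.side N (h.refl N) hT h0 h4 h3 m4 m3 hq
    rw [N.wt_comm q T b0 b4 b3, N.wt_comm q T b4 b3 b2] at B
    rcases A with A | ⟨s2, A⟩
    · rcases B with B | ⟨s3, B⟩
      · linarith
      · have A' := h.side' N hT h0 h1 h2 m1 m2 s3 hq
        linarith
    · have B' := PL.side' N (h.refl N) hT h0 h4 h3 m4 m3 s2 hq
      rw [N.wt_comm q T b0 b4 b3, N.wt_comm q T b4 b3 b2] at B'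
      linarith

/-- **Pentagons through two near facets, `|T| = 3`.** -/
theorem PL.two_three (h : N.PL b0 b1 b2 b3 b4) (hT : N.Clq T) (hc : T.card = 3) (h0 : b0 ∈ T)
    (h1 : b1 ∈ T) (m2 : N.MS T b2) (m3 : N.MS T b3)
    (m4 : N.MS T b4) (hq1 : 3 / 2 ≤ q) (hq2 : q ≤ 2) : 4 ≤ N.W5 q T b0 b1 b2 b3 b4 := by
  obtain ⟨h2, h3⟩ := h.notin N hT h0
  obtain ⟨-, h4⟩ := PL.notin N (h.rot N) hT h1
  have hq0 : (0 : ℚ) ≤ q := by linarith
  have hq1' : (1 : ℚ) ≤ q := by linarith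
  have n2 := N.wt_nonneg (T := T) (u := b1) (b := b2) (w := b3) hq0
  have n3 := N.wt_nonneg (T := T) (u := b2) (b := b3) (w := b4) hq0
  have n4 := N.wt_nonneg (T := T) (u := b3) (b := b4) (w := b0) hq0
  have e0 : ed T b0 b1 = 1 := ed_one h0 h1
  have e1 := ed_nonneg T b1 b2
  have e2 := ed_nonneg T b2 b3
  have e3 := ed_nonneg T b3 b4
  have e4 := ed_nonneg T b4 b0
  have w0 := N.wt_near_three (q := q) (u := b4) (w := b1) h0 (by omega)
  have w1 := N.wt_near_three (q := q) (u := b0) (w := b2) h1 (by omega)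
  have a01 : N.adj b0 b1 := Cr.right N h.p.c0
  -- the third member
  obtain ⟨z, hz, hz0, hz1⟩ : ∃ z ∈ T, z ≠ b0 ∧ z ≠ b1 := by
    by_contra hcon
    push Not at hcon
    have : T ⊆ {b0, b1} := fun z hz => by
      rw [mem_insert, mem_singleton]
      by_cases hz0 : z = b0
      · exact Or.inl hz0
      · exact Or.inr (hcon z hz hz0)
    have := card_le_card this
    have := card_le_two (a := b0) (b := b1)
    omega
  have a0z : N.adj b0 z := hT _ h0 _ hz hz0.symm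
  have a1z : N.adj b1 z := hT _ h1 _ hz hz1.symm
  have hz2 : z ≠ b2 := by rintro rfl; exact h2 hz
  have hz4 : z ≠ b4 := by rintro rfl; exact h4 hz
  unfold W5
  by_cases s0 : N.S b0
  · have s4 : ¬ N.S b4 := fun h' => h.s40 ⟨h', s0⟩
    have w0' := (N.wt_near_S (q := q) (u := b4) (w := b1) h0 s0 (by omega)).1
    have a4z : N.adj b4 z := by
      rcases Cr.S_cases N h.p.c0 s0 with h5 | ⟨p, e1, e2, e3, -, e5, e6, e7⟩
      · exact absurd h5.1 h.n41
      · rcases (e7 z).1 a0z with h8 | h8 | h8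
        · exact absurd h8 hz4
        · rw [h8]; exact e2
        · exact absurd h8 hz1
    have nu4 : N.nu T b4 = 2 := le_antisymm (N.nu_le hT h4)
      (N.nu_two h0 hz hz0.symm (Cr.right N h.p.c4) a4z)
    have st4 : ¬ N.St b4 := N.not_St_of_S h.p.c4 (Cr.symm N h.p.c0) s0
    have w4 := N.wf_two_marks (u := b3) (w := b0) (Cr.a_pos N h.p.c4) s4 st4 nu4 hq1
    rw [← N.wt_far h4] at w4
    linarith
  by_cases s1 : N.S b1
  · have s2 : ¬ N.S b2 := fun h' => h.s12 ⟨s1, h'⟩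
    have w1' := (N.wt_near_S (q := q) (u := b0) (w := b2) h1 s1 (by omega)).1
    have a2z : N.adj b2 z := by
      rcases Cr.S_cases N h.p.c1 s1 with h5 | ⟨p, e1, e2, e3, -, e5, e6, e7⟩
      · exact absurd h5.1 h.n02
      · rcases (e7 z).1 a1z with h8 | h8 | h8
        · exact absurd h8 hz0
        · rw [h8]; exact e3
        · exact absurd h8 hz2
    have nu2 : N.nu T b2 = 2 := le_antisymm (N.nu_le hT h2)
      (N.nu_two h1 hz hz1.symm (Cr.left N h.p.c2) a2z)
    have st2 : ¬ N.St b2 := N.not_St_of_S (Cr.symm N h.p.c2) h.p.c1 s1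
    have w2 := N.wf_two_marks (u := b1) (w := b3) (Cr.a_pos N h.p.c2) s2 st2 nu2 hq1
    rw [← N.wt_far h2] at w2
    linarith
  have l2 : ¬ N.S b2 → 1 ≤ N.wt q T b1 b2 b3 := fun hs =>
    N.one_le_far h2 (Cr.a_pos N h.p.c2) hs m2 hq1'
  have l3 : ¬ N.S b3 → 1 ≤ N.wt q T b2 b3 b4 := fun hs =>
    N.one_le_far h3 (Cr.a_pos N h.p.c3) hs m3 hq1'
  have l4 : ¬ N.S b4 → 1 ≤ N.wt q T b3 b4 b0 := fun hs =>
    N.one_le_far h4 (Cr.a_pos N h.p.c4) hs m4 hq1'
  by_cases s2 : N.S b2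
  · have s3 : ¬ N.S b3 := fun h' => h.s23 ⟨s2, h'⟩
    have r3 := l3 s3
    by_cases s4 : N.S b4
    · by_cases hy : ∃ y ∈ T, N.adj b3 y
      · obtain ⟨y, hyT, hy3⟩ := hy
        have hy1 : y ≠ b1 := by rintro rfl; exact h.n13 (N.symm hy3)
        have hy0 : y ≠ b0 := by rintro rfl; exact h.n30 hy3
        have hy2 : y ≠ b2 := by rintro rfl; exact h2 hyT
        have hy4 : y ≠ b4 := by rintro rfl; exact h4 hyT
        have b2y : N.adj b2 y := PL.hub N (h.rot N) hy2 (hT _ h1 _ hyT hy1.symm) hy3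
        have b4y : N.adj b4 y := PL.hub N (h.refl N) hy4 (hT _ h0 _ hyT hy0.symm) hy3
        have nu2 : N.nu T b2 = 2 := le_antisymm (N.nu_le hT h2)
          (N.nu_two h1 hyT hy1.symm (Cr.left N h.p.c2) b2y)
        have nu4 : N.nu T b4 = 2 := le_antisymm (N.nu_le hT h4)
          (N.nu_two h0 hyT hy0.symm (Cr.right N h.p.c4) b4y)
        have w2 : N.wt q T b1 b2 b3 = 1 := by rw [N.wt_far h2]; exact N.wf_S_two s2 nu2
        have w4 : N.wt q T b3 b4 b0 = 1 := by rw [N.wt_far h4]; exact N.wf_S_two s4 nu4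
        linarith
      · have hn3 : N.nu T b3 = 0 := N.nu_eq_zero.2 fun y hyT hy3 => hy ⟨y, hyT, hy3⟩
        have := (N.unm h.p.c3 h3 s3 hn3 m3 hq2).2.1
          (N.not_free h.p.c3 (Cr.symm N h.p.c4) s4 h.p.c2 s2)
          (N.not_111 h.p.c3 (Cr.symm N h.p.c4) s4)
        linarith
    · have r4 := l4 s4
      linarith
  · have r2 := l2 s2
    by_cases s3 : N.S b3
    · have r4 := l4 (fun h' => h.s34 ⟨s3, h'⟩)
      linarith
    · have r3 := l3 s3
      linarith

/-- **Pentagons through both near facets, `|T| = 2`.** -/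
theorem PL.two_two (h : N.PL b0 b1 b2 b3 b4) (hT : N.Clq T) (hc : T.card = 2) (h0 : b0 ∈ T)
    (h1 : b1 ∈ T) (m2 : N.MS T b2) (m3 : N.MS T b3)
    (m4 : N.MS T b4) (hq1 : 3 / 2 ≤ q) (hq2 : q ≤ 2) :
    (¬ N.S b0 ∧ ¬ N.S b1 ∧ N.S b2 ∧ ¬ N.S b3 ∧ N.S b4 ∧ N.nu T b3 = 0 ∧ 2 ≤ N.a b3 ∧
      3 + N.wt q T b4 b0 b1 + N.wt q T b0 b1 b2 ≤ N.W5 q T b0 b1 b2 b3 b4) ∨
    ((q = 2 → 4 ≤ N.W5 q T b0 b1 b2 b3 b4) ∧
     (q = 7 / 4 → N.W5 q T b0 b1 b2 b3 b4 < 4 → (¬ N.S b0 ∧ ¬ N.S b1 ∧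
      ((N.St b2 ∧ N.Free T b3 ∧ N.S b4) ∨ (N.St b4 ∧ N.Free T b3 ∧ N.S b2)) ∧
      11 / 4 + 1 + N.wt q T b4 b0 b1 + N.wt q T b0 b1 b2 ≤ N.W5 q T b0 b1 b2 b3 b4))) := by
  classical
  obtain ⟨h2, h3⟩ := h.notin N hT h0
  obtain ⟨-, h4⟩ := PL.notin N (h.rot N) hT h1
  have hq0 : (0 : ℚ) ≤ q := by linarith
  have hq1' : (1 : ℚ) ≤ q := by linarith
  have n0 := N.wt_nonneg (T := T) (u := b4) (b := b0) (w := b1) hq0
  have n1 := N.wt_nonneg (T := T) (u := b0) (b := b1) (w := b2) hq0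
  have n2 := N.wt_nonneg (T := T) (u := b1) (b := b2) (w := b3) hq0
  have n3 := N.wt_nonneg (T := T) (u := b2) (b := b3) (w := b4) hq0
  have n4 := N.wt_nonneg (T := T) (u := b3) (b := b4) (w := b0) hq0
  have e0 : ed T b0 b1 = 1 := ed_one h0 h1
  have e1 := ed_nonneg T b1 b2
  have e2 := ed_nonneg T b2 b3
  have e3 := ed_nonneg T b3 b4
  have e4 := ed_nonneg T b4 b0
  have hne : b0 ≠ b1 := N.ne_of_adj (Cr.right N h.p.c0)
  have hT2 : T = {b0, b1} := by
    symm
    apply eq_of_subset_of_card_le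
    · intro z hz
      rw [mem_insert, mem_singleton] at hz
      rcases hz with rfl | rfl
      · exact h0
      · exact h1
    · rw [card_pair hne, hc]
  have hmem : ∀ z, z ∈ T ↔ z = b0 ∨ z = b1 := by
    intro z; rw [hT2, mem_insert, mem_singleton]
  -- marks
  have nu2 : N.nu T b2 = 1 := by
    apply le_antisymm
    · by_contra hcon
      push Not at hcon
      have : N.nu T b2 ≤ ({b1} : Finset κ).card := by
        unfold nu
        apply card_le_card
        intro z hz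
        rw [mem_filter, hmem] at hz
        rw [mem_singleton]
        rcases hz.1 with rfl | rfl
        · exact absurd (N.symm hz.2) h.n02
        · rfl
      rw [card_singleton] at this
      omega
    · exact N.nu_pos h1 (Cr.left N h.p.c2)
  have nu4 : N.nu T b4 = 1 := by
    apply le_antisymm
    · by_contra hcon
      push Not at hcon
      have : N.nu T b4 ≤ ({b0} : Finset κ).card := by
        unfold nu
        apply card_le_card
        intro z hz
        rw [mem_filter, hmem] at hz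
        rw [mem_singleton]
        rcases hz.1 with rfl | rfl
        · rfl
        · exact absurd hz.2 h.n41
      rw [card_singleton] at this
      omega
    · exact N.nu_pos h0 (Cr.right N h.p.c4)
  have nu3 : N.nu T b3 = 0 := N.nu_eq_zero.2 fun y hyT hy3 => by
    rcases (hmem y).1 hyT with rfl | rfl
    · exact h.n30 hy3
    · exact h.n13 (N.symm hy3)
  have l2 := fun hs : ¬ N.S b2 => N.endm (q := q) h.p.c2 h2 hs nu2 (Or.inl h1) hq1' hq2
  have l4 := fun hs : ¬ N.S b4 => N.endm (q := q) h.p.c4 h4 hs nu4 (Or.inr h0) hq1' hq2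
  have l3 := fun hs : ¬ N.S b3 => N.unm (q := q) h.p.c3 h3 hs nu3 m3 hq2
  have hmin : 3 / 2 ≤ min q (11 / 6) := le_min hq1 (by norm_num)
  by_cases s0 : N.S b0
  · have w0' := (N.wt_near_S (q := q) (u := b4) (w := b1) h0 s0 (by omega)).2 hc
    have r4 := (l4 (fun h' => h.s40 ⟨h', s0⟩)).1
    right
    unfold W5
    exact ⟨fun _ => by linarith, fun _ hlt => by exfalso; linarith⟩
  by_cases s1 : N.S b1
  · have w1' := (N.wt_near_S (q := q) (u := b0) (w := b2) h1 s1 (by omega)).2 hc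
    have r2 := (l2 (fun h' => h.s12 ⟨s1, h'⟩)).1
    right
    unfold W5
    exact ⟨fun _ => by linarith, fun _ hlt => by exfalso; linarith⟩
  by_cases s2 : N.S b2
  · have s3 : ¬ N.S b3 := fun h' => h.s23 ⟨s2, h'⟩
    obtain ⟨g3, g3', g3''⟩ := l3 s3
    by_cases s4 : N.S b4
    · have F3 := N.not_free (T := T) h.p.c3 (Cr.symm N h.p.c4) s4 h.p.c2 s2
      have T3 := N.not_111 h.p.c3 (Cr.symm N h.p.c4) s4
      have k3 := g3' F3 T3
      by_cases ha : N.a b3 = 1
      · right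
        have hQ : ¬ N.Q b3 := PL.mid N (PL.rot N h) s2 s4
        have hG4 : N.G b3 ≠ 4 := fun h5 => hQ ⟨ha, h5⟩
        have hG3 : ¬ N.G b3 ≤ 3 := fun h5 => s3 ⟨ha, h5⟩
        have w3 : N.wt q T b2 b3 b4 = 3 := by
          rw [N.wt_far h3]
          unfold wf
          rw [if_pos ha, if_neg hG3, if_pos nu3, if_neg hG4]
        unfold W5
        exact ⟨fun _ => by linarith, fun _ hlt => by exfalso; linarith⟩
      · left
        have ha1 := Cr.a_pos N h.p.c3
        refine ⟨s0, s1, s2, s3, s4, nu3, by omega, ?_⟩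
        unfold W5
        linarith
    · right
      obtain ⟨g4, g4', g4''⟩ := l4 s4
      by_cases st4 : N.St b4
      · by_cases hF : N.Free T b3
        · have w3 : N.wt q T b2 b3 b4 = q := by
            rw [N.wt_far h3]; exact N.wf_free hF.2.1 hF
          unfold W5
          refine ⟨fun hq' => by linarith, fun hq' hlt => ⟨s0, s1, Or.inr ⟨st4, hF, s2⟩, ?_⟩⟩
          linarith
        · have T3 := N.not_111 (Cr.symm N h.p.c3) h.p.c2 s2
          have k3 := g3' hF T3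
          unfold W5
          exact ⟨fun _ => by linarith, fun _ hlt => by exfalso; linarith⟩
      · have k4 := g4' st4
        unfold W5
        refine ⟨fun hq' => ?_, fun hq' hlt => ?_⟩
        · linarith
        · exfalso; linarith
  · obtain ⟨g2, g2', g2''⟩ := l2 s2
    right
    by_cases s3 : N.S b3
    · have s4 : ¬ N.S b4 := fun h' => h.s34 ⟨s3, h'⟩
      obtain ⟨g4, g4', g4''⟩ := l4 s4
      have st2 : ¬ N.St b2 := N.not_St_of_S h.p.c2 (Cr.symm N h.p.c3) s3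
      have st4 : ¬ N.St b4 := N.not_St_of_S (Cr.symm N h.p.c4) h.p.c3 s3
      have k2 := g2' st2
      have k4 := g4' st4
      unfold W5
      exact ⟨fun _ => by linarith, fun _ hlt => by exfalso; linarith⟩
    · obtain ⟨g3, g3', g3''⟩ := l3 s3
      by_cases s4 : N.S b4
      · by_cases st2 : N.St b2
        · by_cases hF : N.Free T b3
          · have w3 : N.wt q T b2 b3 b4 = q := by
              rw [N.wt_far h3]; exact N.wf_free hF.2.1 hF
            unfold W5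
            refine ⟨fun hq' => by linarith, fun hq' hlt => ⟨s0, s1, Or.inl ⟨st2, hF, s4⟩, ?_⟩⟩
            linarith
          · have T3 := N.not_111 h.p.c3 (Cr.symm N h.p.c4) s4
            have k3 := g3' hF T3
            unfold W5
            exact ⟨fun _ => by linarith, fun _ hlt => by exfalso; linarith⟩
        · have k2 := g2' st2
          unfold W5
          refine ⟨fun hq' => ?_, fun hq' hlt => ?_⟩
          · linarith
          · exfalso; linarith
      · obtain ⟨g4, g4', g4''⟩ := l4 s4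
        unfold W5
        refine ⟨fun hq' => ?_, fun hq' hlt => ?_⟩
        · linarith
        · exfalso; linarith

end

end Nerve

end Pool.Agent.Helper26.OC
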