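import Mathlib
import Pool.Agent.Helper26.OC.PN
import Pool.Agent.Helper26.OC.PT

/-!
# Windows across a (2,1)-corner of a bad pentagon
-/

set_option autoImplicit false

open Finset

namespace Pool.Agent.Helper26.OC

namespace Nerve

/-- the five corners of a pentagon, in the orientation `R` -/
structure W5c {κ : Type} (R : κ → κ → κ → Prop) (b0 b1 b2 b3 b4 : κ) : Prop where
  c0 : R b4 b0 b1
  c1 : R b0 b1 b2
  c2 : R b1 b2 b3
  c3 : R b2 b3 b4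
  c4 : R b3 b4 b0

section

variable {κ : Type} {R : κ → κ → κ → Prop} {b0 b1 b2 b3 b4 : κ}

theorem W5c.rot (h : W5c R b0 b1 b2 b3 b4) : W5c R b1 b2 b3 b4 b0 :=
  ⟨h.c1, h.c2, h.c3, h.c4, h.c0⟩

theorem W5c.flip (h : W5c R b0 b1 b2 b3 b4) : W5c (fun u b w => R w b u) b0 b4 b3 b2 b1 :=
  ⟨h.c0, h.c4, h.c3, h.c2, h.c1⟩

end

variable {κ : Type} [Fintype κ] [DecidableEq κ] (N : Nerve κ)

variable {R : κ → κ → κ → Prop}

omit [DecidableEq κ] in
theorem W5c.pent (hR : N.Or R) {b0 b1 b2 b3 b4 : κ} (h : W5c R b0 b1 b2 b3 b4) :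
    N.Pent b0 b1 b2 b3 b4 :=
  ⟨hR.cr h.c0, hR.cr h.c1, hR.cr h.c2, hR.cr h.c3, hR.cr h.c4⟩

theorem NNa (hR : N.Or R) {x b1 b2 b3 b4 c0 c2 c3 c4 : κ} (hF : W5c R x b1 b2 b3 b4)
    (h : N.PL x b1 b2 b3 b4) (s1 : N.S b1) (s4 : N.S b4) (ha : 3 ≤ N.a x) (hT : N.T21 b2)
    (hG : W5c R c0 b2 c2 c3 c4) (hne : c2 ≠ b3) : c0 ≠ x ∧ c2 ≠ x ∧ c3 ≠ x ∧ c4 ≠ x := by
  obtain ⟨p, hp1, hp3, hN, hn, h5⟩ := hR.t21 hF.c2 hT
  rcases h5 with ⟨h5, -⟩ | ⟨h5, h6, h7, h8⟩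
  · exact absurd (h5.symm N) (Cr.not_thin N h.p.c1 s1.1)
  · have hcp : c2 = p := by
      rcases hR.two hT.1 hF.c2 h8 hG.c1 hp3.symm with h9 | h9
      · exact absurd h9 hne
      · exact h9
    subst hcp
    have hc0 : c0 = b3 := hR.prev hG.c1 h8
    subst hc0
    obtain ⟨e1, e2, e3⟩ := N.cross1 hR h hF.c1 hF.c4 s1 s4 ha h8 hG.c2 hG.c3 hG.c4
    exact ⟨fun h9 => Cr.ne N h.p.c4 h9, e1, e2, e3⟩

theorem NNb (hR : N.Or R) {x b1 b2 b3 b4 c0 c2 c3 c4 : κ} (hF : W5c R x b1 b2 b3 b4)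
    (h : N.PL x b1 b2 b3 b4) (s2 : N.S b2) (s4 : N.S b4) (hf : N.Free {x} b1) (ha : 3 ≤ N.a x)
    (hG : W5c R c0 b1 c2 c3 c4) (hne : c2 ≠ b2) (h' : N.PL c0 b1 c2 c3 c4)
    (m0 : N.MS {x} c0) (m3 : N.MS {x} c3) (m4 : N.MS {x} c4) :
    4 ≤ N.W5 (3 / 2) {x} c0 b1 c2 c3 c4 := by
  obtain ⟨p, hp1, hp3, hN, hn, h5⟩ := hR.t21 hF.c1 hf.2.1
  rcases h5 with ⟨h5, h6, h7, h8⟩ | ⟨h5, -⟩
  · have hcp : c2 = x := by
      rcases hR.two hf.2.1.1 hF.c1 h8 hG.c1 (Cr.ne N h.p.c1).symm with h9 | h9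
      · exact absurd h9 hne
      · exact h9
    subst hcp
    have hc0 : c0 = p := hR.prev hG.c1 h8
    subst hc0
    exact N.cross2 hR h hF.c4 s2 s4 hf ha hN h5 h6 hG.c1 hG.c2 hG.c3 hG.c4 h' m0 m3 m4
  · exact absurd (h5.symm N) (Cr.not_thin N (Cr.symm N h.p.c2) s2.1)

/-- near weight `1/4` -/
theorem wt_quarter {T : Finset κ} {q : ℚ} {u b w : κ} (hc : T.card = 2) (hb : b ∈ T)
    (ha : N.a b = 2) (hG : N.G b = 3) (ht : ∀ y ∈ T, N.adj b y → N.Thin b y) :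
    N.wt q T u b w = 1 / 4 := by
  rw [N.wt_near hb]
  unfold wn
  rw [if_neg (by omega), if_pos hc, if_neg (by omega), if_neg (by omega), if_pos ⟨hG, ha, ht⟩]

omit [Fintype κ] in
theorem mem_pair {T : Finset κ} {b0 b1 : κ} (hc : T.card = 2) (h0 : b0 ∈ T) (h1 : b1 ∈ T)
    (hne : b0 ≠ b1) (z : κ) : z ∈ T ↔ z = b0 ∨ z = b1 := by
  have hT2 : T = {b0, b1} := by
    symm
    apply eq_of_subset_of_card_le
    · intro z hz
      rw [mem_insert, mem_singleton] at hz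
      rcases hz with rfl | rfl
      · exact h0
      · exact h1
    · rw [card_pair hne, hc]
  rw [hT2, mem_insert, mem_singleton]

theorem NNz (hR : N.Or R) {T : Finset κ} {b0 b1 b2 b3 b4 c0 c2 c3 c4 : κ}
    (hF : W5c R b0 b1 b2 b3 b4)
    (h : N.PL b0 b1 b2 b3 b4) (hT : N.Clq T) (hc : T.card = 2) (h0 : b0 ∈ T) (h1 : b1 ∈ T)
    (s0 : ¬ N.S b0) (st2 : N.St b2) (hf : N.Free T b3) (s4 : N.S b4)
    (hlt : N.wt (7 / 4) T b4 b0 b1 + N.wt (7 / 4) T b0 b1 b2 < 1 / 4)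
    (hG : W5c R c0 b3 c2 c3 c4) (hne : c2 ≠ b4) (h' : N.PL c0 b3 c2 c3 c4)
    (m0 : N.MS T c0) (m4 : N.MS T c4) : 4 ≤ N.W5 (3 / 2) T c0 b3 c2 c3 c4 := by
  have hq0 : (0 : ℚ) ≤ 3 / 2 := by norm_num
  have hq1 : (1 : ℚ) ≤ 3 / 2 := by norm_num
  obtain ⟨p, hp2, hp4, hN, hn, h5⟩ := hR.t21 hF.c3 hf.2.1
  rcases h5 with ⟨h5, h6, h7, h8⟩ | ⟨h5, -⟩
  swap
  · exact absurd (h5.symm N) (Cr.not_thin N (Cr.symm N h.p.c4) s4.1)
  have hcp : c2 = b2 := by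
    rcases hR.two hf.2.1.1 hF.c3 h8 hG.c1 (Cr.ne N h.p.c3).symm with h9 | h9
    · exact absurd h9 hne
    · exact h9
  subst hcp
  have hc0 : c0 = p := hR.prev hG.c1 h8
  subst hc0
  have hc3 : c3 = b1 := hR.next hG.c2 (hR.st hF.c2 st2)
  subst hc3
  obtain ⟨h2, h3⟩ := h.notin N hT h0
  obtain ⟨hc0T, -⟩ := PL.notin N (PL.rot N (PL.rot N (PL.rot N h'))) hT h1
  have w1 : N.wt (3 / 2) T c0 b3 c2 = 3 / 2 := by
    rw [N.wt_far hf.1]; exact N.wf_free hf.2.1 hf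
  have w2 : N.wt (3 / 2) T b3 c2 c3 = 1 := by
    rw [N.wt_far h2]
    exact N.wf_St_marked st2 (N.nu_pos h1 (Cr.left N h.p.c2))
  have n0 := N.wt_nonneg (T := T) (u := c4) (b := c0) (w := b3) hq0
  have n3 := N.wt_nonneg (T := T) (u := c2) (b := c3) (w := c4) hq0
  have n4 := N.wt_nonneg (T := T) (u := c3) (b := c4) (w := c0) hq0
  have e0 := ed_nonneg T c0 b3
  have e1 := ed_nonneg T b3 c2
  have e2 := ed_nonneg T c2 c3
  have e3 := ed_nonneg T c3 c4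
  have e4 := ed_nonneg T c4 c0
  have hne01 : b0 ≠ c3 := Nerve.ne_of_adj N (Cr.right N h.p.c0)
  have hmem := mem_pair hc h0 h1 hne01
  by_cases hd : c4 ∈ T
  · have hc4 : c4 = b0 := by
      rcases (hmem c4).1 hd with h9 | h9
      · exact h9
      · exact absurd h9.symm (Nerve.ne_of_adj N (Cr.right N h'.p.c3))
    subst hc4
    have ee : ed T c3 c4 = 1 := ed_one h1 h0
    by_cases sp : N.S c0
    · exfalso
      obtain ⟨z, z1, z2, z3, z4, z5, z6, z7, z8⟩ :=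
        PL.short N (PL.rot N (PL.rot N (PL.rot N (PL.rot N h')))) sp
      have hz : z = b4 := by
        rcases (hN z).1 z3 with h9 | h9 | h9
        · exact absurd h9 z6
        · rw [h9] at z1; exact absurd z1 (N.irr _)
        · exact h9
      subst hz
      obtain ⟨k1, k2, k3⟩ := N.three_corners h.p.c0 h'.p.c4 (N.symm z1)
      have ha := Cr.a_pos N h.p.c0
      have ha2 : N.a c4 = 2 := by
        by_contra hcon
        have ha1 : N.a c4 = 1 := by omega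
        exact s0 ⟨ha1, by omega⟩
      have hthin : N.Thin c4 c3 := by
        refine ⟨Cr.right N h.p.c0, fun y hy hyc => ?_⟩
        rcases (k1 y).1 (N.symm hy) with rfl | rfl | rfl
        · exact h.n41 hyc
        · exact N.irr _ hyc
        · exact h'.n30 (N.symm hyc)
      have hw := N.wt_quarter (q := 7 / 4) (u := z) (w := c3) hc h0 ha2 k3 (by
        intro y hy hby
        rcases (hmem y).1 hy with rfl | rfl
        · exact absurd hby (N.irr _)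
        · exact hthin)
      have n5 := N.wt_nonneg (T := T) (u := c4) (b := c3) (w := c2) (q := 7 / 4) (by norm_num)
      linarith
    · have r0 := N.one_le_far (u := c4) (w := b3) hc0T (Cr.a_pos N h'.p.c0) sp m0 hq1
      unfold W5
      linarith
  · have r3 := N.wt_near_half (q := 3 / 2) h'.p.c3 h1 hT (by omega) h2 hd
    by_cases sp : N.S c0
    · have s4' : ¬ N.S c4 := fun h9 => h'.s40 ⟨h9, sp⟩
      have r4 := N.one_le_far (u := c3) (w := c0) hd (Cr.a_pos N h'.p.c4) s4' m4 hq1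
      unfold W5
      linarith
    · have r0 := N.one_le_far (u := c4) (w := b3) hc0T (Cr.a_pos N h'.p.c0) sp m0 hq1
      unfold W5
      linarith

/-- the near corners of two bonus windows with the same middle corner -/
theorem bonus_near (hR : N.Or R) {T : Finset κ} {q : ℚ} {b0 b1 b2 b3 b4 c2 c4 : κ}
    (hF : W5c R b0 b1 b2 b3 b4) (h : N.PL b0 b1 b2 b3 b4) (hG : W5c R b1 b0 c2 b3 c4)
    (h' : N.PL b1 b0 c2 b3 c4) (hc : T.card = 2) (h0 : b0 ∈ T) (h1 : b1 ∈ T) (s0 : ¬ N.S b0)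
    (s4 : N.S b4) : N.wt q T b4 b0 b1 = 1 / 4 := by
  have a40 : N.adj b4 b0 := Cr.right N h.p.c4
  have a34 : N.adj b3 b4 := Cr.right N h.p.c3
  have a02 : N.adj b0 c2 := Cr.right N h'.p.c1
  have a23 : N.adj c2 b3 := Cr.right N h'.p.c2
  have hne : b4 ≠ c2 := by
    rintro rfl
    have h9 := (hR.one s4.1 hF.c4 hG.c2).1
    exact Cr.ne N h.p.c4 h9
  have h42 : N.adj b4 c2 := by
    rcases N.noC4 (N.symm a40) (N.symm a34) (N.symm a23) (N.symm a02) (Cr.ne N h.p.c4).symm hne with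
      h9 | h9
    · exact absurd (N.symm h9) h.n30
    · exact h9
  obtain ⟨k1, k2, k3⟩ := N.three_corners h.p.c0 h'.p.c1 h42
  have ha := Cr.a_pos N h.p.c0
  have ha2 : N.a b0 = 2 := by
    by_contra hcon
    have ha1 : N.a b0 = 1 := by omega
    exact s0 ⟨ha1, by omega⟩
  have hne01 : b0 ≠ b1 := Nerve.ne_of_adj N (Cr.right N h.p.c0)
  have hmem := mem_pair hc h0 h1 hne01
  have hthin : N.Thin b0 b1 := by
    refine ⟨Cr.right N h.p.c0, fun y hy hyc => ?_⟩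
    rcases (k1 y).1 (N.symm hy) with rfl | rfl | rfl
    · exact h.n41 hyc
    · exact N.irr _ hyc
    · exact h'.n02 (N.symm hyc)
  exact N.wt_quarter hc h0 ha2 k3 (by
    intro y hy hby
    rcases (hmem y).1 hy with rfl | rfl
    · exact absurd hby (N.irr _)
    · exact hthin)

end Nerve

end Pool.Agent.Helper26.OC
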