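import Mathlib
import Pool.Agent.Helper26.OC.St2
import Pool.Agent.Helper26.OC.PT

/-!
# The final weights and the inequalities at the vertices (statements)
-/

set_option autoImplicit false

open Finset

namespace Pool.Agent.Helper26.OC

open Pool.Agent.Helper56.OC (tf tsp tc0 tc1 tc2)

namespace Nerve

variable {κ : Type} [Fintype κ] [DecidableEq κ] (N : Nerve κ)

/-- the corner `u, b, w` lies on a pentagon with negative surplus -/
def Bad (T : Finset κ) (u b w : κ) : Prop :=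
  ∃ f : ℕ → κ, N.IsWin 5 f ∧ f 0 = u ∧ f 1 = b ∧ f 2 = w ∧ N.D (7 / 4) T 5 f < 0

/-- the corner `u, b, w` is opposite to the edge `T` of a bonus pentagon -/
def Bon (T : Finset κ) (u b w : κ) : Prop :=
  T.card = 2 ∧ ∃ f : ℕ → κ, N.IsWin 5 f ∧ f 0 ∈ T ∧ f 1 ∈ T ∧ f 2 = u ∧ f 3 = b ∧ f 4 = w ∧
    ¬ N.S (f 0) ∧ ¬ N.S (f 1) ∧ N.S u ∧ N.S w ∧ ¬ N.S b ∧ N.nu T b = 0 ∧ 2 ≤ N.a b

open Classical in
/-- the bonus -/
noncomputable def beta (T : Finset κ) (u b w : κ) : ℚ :=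
  if N.Bon T u b w then
    (if ∃ u' w', N.Cor u' b w' ∧ w' ≠ w ∧ N.Bon T u' b w' then 1 / 2 else 1)
  else 0

open Classical in
/-- the final weight of a corner -/
noncomputable def om (T : Finset κ) (u b w : κ) : ℚ :=
  if b ∈ T then
    (if T.card = 1 ∧ N.a b = 1 then 2 else if T.card = 1 ∧ N.a b = 2 then 3 / 2 else N.wn T u b w)
  else if N.Free T b then
    7 / 4 + (if N.Bad T u b w then 1 / 4 else 0) -
      (if ∃ u' w', N.Cor u' b w' ∧ w' ≠ w ∧ N.Bad T u' b w' then 1 / 4 else 0)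
  else N.wf (7 / 4) T u b w + N.beta T u b w

end Nerve

/-- Module CNT: counting corners.  `card κ ≥ 5`.

PROOF.  Let `ρ = N.rot b` on `N(b)`, a bijection of `N(b)` (`rot_adj`, `rot_inj`, `exists_rot`).
For `y ~ b` let `y⁻` be the neighbour with `ρ y⁻ = y`.  (i) A common neighbour `z` of `b` and `y`:
by `adj_rot` `ρ y = z` and `b → y` is not a window dart, or `ρ z = y` (so `z = y⁻`) and `b → y⁻` is
not a window dart; conversely by `tri_of` if `b → y` is not a window dart then `ρ y` is a common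
neighbour, if `b → y⁻` is not a window dart then `y⁻` is one.  If both are not window darts then
`ρ y ≠ y⁻`: otherwise `N(b) = {y, z}` with `z = ρ y = y⁻`, and `tri_of` for `b → y` gives
`rot y z = b`, `rot z b = y`; `tri_of` for `b → z` gives `rot z y = b`, `rot y b = z`; so
`N(y) = {z, b}`, `N(z) = {b, y}` (`rot_ind`) and `{b, y, z}` is closed under adjacency, so it is
everything (`N.conn`), contradicting `card κ ≥ 5`.  Hence
`cn b y = [b → y not win] + [b → y⁻ not win]`.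
(ii) The corners at `b` which contain `y`: `w ∈ wd b` with `w = y` or `ρ w = y` (`w = y⁻`); these
are different; so their number is `[b → y win] + [b → y⁻ win] = 2 - cn b y`.
(iii) `y` is thin iff `cn b y = 0` iff `y, y⁻ ∈ wd b`.  So `t ≤ a`.  The set
`wd b ∪ ρ(wd b) ⊆ N(b)` has `2 a - t` elements (`ρ(wd b) ∩ wd b` = thin neighbours).  If `t = a ≥ 1`
then `wd b` is closed under `y ↦ y⁻`, so (finite, injective) it is `ρ`-invariant and equal to `N(b)`
by `rot_ind`.  `t = 0` if `a = 1` and `G ≥ 2`: from (iii), `y = w` the only window dart and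
`y⁻ = w` is impossible (`rot_ne`).  (All vertices have degree `≥ 2` by `rot_ne`, if they have a
neighbour.) -/
def StCnt : Prop := ∀ {κ : Type} [Fintype κ] [DecidableEq κ] (N : Nerve κ), 5 ≤ Fintype.card κ →
  (∀ b y, N.adj b y →
    (((N.wd b).filter (fun w => w = y ∨ N.rot b w = y)).card : ℚ) = 2 - N.cn b y) ∧
  (∀ b y, N.adj b y → (N.Thin b y ↔ N.cn b y = 0)) ∧
  (∀ b, N.t b ≤ N.a b) ∧ (∀ b, 2 * N.a b ≤ N.G b + N.t b) ∧
  (∀ b, 1 ≤ N.a b → N.t b = N.a b → N.G b = N.a b) ∧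
  (∀ b, N.a b = 1 → N.t b = 0)

/-- Module VF: the inequality at far vertices.

PROOF.  Write `G, a, t`, `nu = nu T b` (`≤ 2` by `nu_le`); `|wd b| = a`.  Always `a ≤ G`, and by
`StCnt` `t ≤ a`, `2 a ≤ G + t`, `t = a → G = a` (`a ≥ 1`), `a = 1 → t = 0`; `G ≥ 2` if `a ≥ 1`.
`G ≠ 0` because `card κ ≥ 5` and `N.conn` [a vertex without neighbours is alone].
(0) `a = 0`: the sum is empty; `chiA = 1` for `nu ≤ 1`, `0` for `nu = 2`.
(1) `b` is `Free`: `a = 2, G = 3`, the marks are thin and `T` is a clique, so `nu ≤ 1`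
(two adjacent marks are not thin).  The two corners at `b`: `wd b = {w₁, w₂}`.  The sum of the two
weights `om` is `7/2`: by definition the term `+ 1/4` of one corner is the term `- 1/4` of the other
one (`Cor (rot b w) b w` for `w ∈ wd b` by `cor_of_win`; if `Cor u' b w'` with `w' ≠ w₁` then
`w' ∈ wd b`, so `w' = w₂`, `u' = rot b w₂`).  So the left side is `1 + 7/2 - 2 = 5/2`.
`nu = 0`: `t = 1` (`2 a ≤ G + t`, `t ≤ a`, `t ≠ a`), `tc0 3 2 1 = min (5/2) 4 - 0 = 5/2`.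
`nu = 1`: the mark `y` is thin, `cn b y = 0`, `dm = 0`, `tc1 3 2 0 = 5/2`.
(2) `b` is not `Free`.  `om = wf (7/4) + beta`.
(2a) `nu = 2`: `beta = 0` (`Bon` requires `nu = 0`).  `a = 1`: `G ≤ 3`: weight `1`, sum
`0 + 0 ≤ 0`; `G ≥ 4`: `3/2 - 1 = 1/2`.  `a ≥ 2`: `wf ≤ 3/2` for each corner (`G = 2`: `1`;
otherwise `3/2` since not `Free` and `nu ≠ 0, 1`), sum `≤ a / 2 = tc2`.
(2b) `nu = 1`, the mark is `y`, `dm = cn b y =: d`; `beta = 0`.  `a = 1`, the only corner is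
`(rot b w, b, w)`: `G ≤ 3`: `1 + (0 - 1) = 0 = tc1` (`G ≥ 2`).  `G ≥ 4`: by `StCnt` the number of
corners containing `y` is `2 - d ∈ {0, 1}`; if it is `1` then `y ∈ {rot b w, w}`, so `wf = 2` (the
condition `u ∈ T ∨ w ∈ T` holds iff the mark is `u` or `w`, because `u, w` are neighbours of `b` and
`y` is the only mark, `mark_unique`), `tc1 = 2` (`d = 1`); otherwise `d = 2`, `wf = 1` (`G = 4`) or
`3/2`, `tc1 = 1` or `3/2`.  `a ≥ 2`: `G = 2`: `wf = 1`, `1 + 0 = 1 = tc1`.  Otherwise, not `Free`: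
`wf = 2` if the corner contains `y`, else `3/2` [note `G = 3, a = 3, nu = 0` does not occur]: the
sum of `wf - 1` is `a / 2 + (2 - d) / 2`; and `tc1 = 1 + a / 2 + (2 - d) / 2` since
`G = 3 ∧ a = 2 ∧ d = 0` would mean that `y` is thin and `b` is `Free`.
(2c) `nu = 0`, `a = 1`: `beta = 0` (`2 ≤ a` in `Bon`), `t = 0`.  `G = 2`: `1 - 1 = 0`,
`tc0 2 1 0 = 0`; `G = 3`: `0`, `tc0 3 1 0 = 1 - 1 = 0`; `G = 4`: `1 + 1 = 2 = tc0`; `G ≥ 5`:
`1 + 2 = 3 = min (G - 2) 3`.
(2d) `nu = 0`, `a ≥ 2`.  `G = 2` (strip): `a = 2`, `t = 2`: `1 + 2 (1/2 - 1) = 0`,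
`tc0 2 2 2 = min 1 4 - 1 = 0`, and `beta = 0`: `Bon T u b w` gives a window neighbour `w` with
`S w` (`not_St_of_S`).  `G = 3, a = 3`: `t = 3` (`2 a ≤ G + t`), `1 + 3 · 5/6 = 7/2 =
tc0 3 3 3`, `beta = 0` by `not_111`.  Otherwise (`G = 3, a = 2` is `Free`, so `G ≥ 4`): `wf = 2`.
Without bonus the left side is `1 + a ≤ tc0 G a t = min (-4 + G + 2a - t/2) (a+2)`:
`G + a - t/2 ≥ 5` from `2a ≤ G + t`, `t ≤ a`, and (`t = a → G = a`).
With bonus: the sum of `beta` over the corners of `b` is at most `1`: every corner `(u, b, w)` with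
`Bon` lies on a window `f` with `f 0, f 1` the two members `x, y` of `T`, so it contains the dart
`x → y` or the dart `y → x`; two windows (pentagons) with a common dart agree up to a shift (they
are determined by the dart: `Cor.next_unique`), and a window passes `b` once (`IsWin.inj`), so
there are at most two corners at `b` with `Bon`; if there is one then `beta = 1`, if there are two
then `beta = 1/2` each.  So the left side is at most `2 + a`, and we need
`-4 + G + 2a - t/2 ≥ a + 2`, i.e. `G + a - t/2 ≥ 6`.  At the corner `(u, b, w)` with `Bon` both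
`u` and `w` are short so `b u`, `b w` are fat (`Cr.not_thin`).  If `a = 2` then `t = 0`: a thin
neighbour `y` lies on `2 - cn = 2` corners, i.e. on both, in particular `y ∈ {u, w}`, a
contradiction; so `G ≥ 4` and `4 + 2 ≥ 6`.  If `a ≥ 3`: `t ≠ a` (otherwise `G = a` and all edges are
thin, `thin_of_aG`), so `t ≤ a - 1`, `G ≥ 2a - t` and
`G + a - t/2 ≥ 3a - 3t/2 ≥ 3 (a + 1) / 2 ≥ 6`. -/
def StVF : Prop := ∀ {κ : Type} [Fintype κ] [DecidableEq κ] (N : Nerve κ) (T : Finset κ),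
  5 ≤ Fintype.card κ → N.Clq T → ∀ b ∉ T,
  (if N.nu T b ≤ 1 then (1 : ℚ) else 0) + ∑ w ∈ N.wd b, (N.om T (N.rot b w) b w - 1) ≤
    N.chiA T b

/-- Module VN: the inequality at near vertices.

PROOF.  Notation as in `StVF`; `b ∈ T`.
`|T| = 1`: `nu = 0`, `chnA = tf G a t`.  `a = 0`: `G ≠ 0` (`card κ ≥ 5`, `N.conn`), `tf = 1`.
`a = 1`: `tf ≤ 3`, the sum is `2 - 1`.  `a = 2`: `tf ≤ 4`, the sum is `2 (1/2) = 1`.
`a ≥ 3`: `tf ≤ a + 2`, `om = wn`, which is `1/6` if `G = a = 3` (then the sum is `- 5/2`) and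
otherwise `0` (`a ≤ G`, so `G ≥ 3`; then the sum is `- a`).  In all cases `sum - 5 ≤ - tf`.
`|T| = 2`: `nu = 1` (the other member `y`), `chnA = tc1 G a d`, `d = cn b y`; `om = wn`.  To show:
`tc1 ≤ 1 + ∑ (1 - wn)`.  `a = 0`: `1`.  `a = 1`: `G ≤ 3`: `0 ≤ 1 + (1 - 2)`; `G ≥ 4`: the corner
contains `y` iff `d = 1` (`StCnt`): `2 ≤ 1 + 1`; otherwise `G = 4`: `1 ≤ 1 + 0`, `G ≥ 5`:
`3/2 ≤ 1 + 1/2`.  `a ≥ 2`: `G = 2`: `1 ≤ 1`.  `G = 3, a = 2`, `y` thin (`d = 0`):
`5/2 ≤ 1 + 2 · 3/4`.  Otherwise `1 - wn = 1` if the corner contains `y`, else `1/2`: the sum is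
`a / 2 + (2 - d) / 2`.  [`u ∈ T ∨ w ∈ T` iff the corner contains `y`, because `u, w ≠ b` and
`T = {b, y}`.]
`|T| = 3`: `nu = 2`, `chnA = tc2 G a`, to show `tc2 ≤ ∑ (1 - wn)`: `a = 0`: `0`; `a = 1, G ≤ 3`:
`0 ≤ 0`; `a = 1, G ≥ 4`: `1/2 ≤ 1/2`; `a ≥ 2`: `a / 2 ≤ a / 2`. -/
def StVN : Prop := ∀ {κ : Type} [Fintype κ] [DecidableEq κ] (N : Nerve κ) (T : Finset κ),
  5 ≤ Fintype.card κ → N.Clq T → ∀ b ∈ T,
  ∑ w ∈ N.wd b, (N.om T (N.rot b w) b w - 1) -
    (if T.card = 1 then 5 else if T.card = 2 then 1 else 0) ≤ - N.chnA T b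

/-- Module BASE: the constant term.

PROOF.  `E` = number of window darts inside `T`.  `|T| = 1`: `nu ≤ 1` everywhere and no dart is
inside `T`: `6 - 1 - 5 = 0`.  `|T| = 2`, `T = {x, y}`: the far vertices with `nu ≥ 2` are the common
neighbours of `x` and `y`, their number is `cn x y`; `E = [x → y win] + [y → x win]`, and
`[y → x win] = [x → y⁻ win]` where `rot x y⁻ = y` (`win_next`: `y → x`, `x → y⁻`); by the proof of
`StCnt` (i) `cn x y + E = 2`.  (Or use `StCnt` directly: the corners at `x` which contain `y` are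
`w = y` and `w = y⁻`.)  Sum: `6 - cn - 2 · 2 - E = 0`.  `|T| = 3`, `T = {x, y, z}`: far vertices
with `nu ≥ 2` are adjacent to exactly two members (`nu_le`); for each of the three edges `e` of `T`
the far ones adjacent to both ends are `cn e - 1` (the third member of `T` is a common neighbour).
So their number is `∑_e (cn e - 1)` and `E = ∑_e (2 - cn e)`: sum `6 - ∑ (cn e - 1) - 3 - ∑ (2 - cn
e) = 6 - 3 - 3 = 0`. -/
def StBase : Prop := ∀ {κ : Type} [Fintype κ] [DecidableEq κ] (N : Nerve κ) (T : Finset κ),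
  5 ≤ Fintype.card κ → T.Nonempty → N.Clq T →
  6 - (∑ b ∈ univ.filter (fun b => b ∉ T), (if N.nu T b ≤ 1 then (0 : ℚ) else 1)) -
    (T.card : ℚ) * (1 + (if T.card = 1 then 5 else if T.card = 2 then 1 else 0)) -
    ∑ b, ∑ w ∈ N.wd b, Nerve.ed T b w = 0

/-- The block inequality for nerves (with at least five vertices). -/
def StBlock5 : Prop := ∀ {κ : Type} [Fintype κ] [DecidableEq κ] (N : Nerve κ), N.Euler →
  5 ≤ Fintype.card κ → ∀ T : Finset κ, T.Nonempty → N.Clq T → N.NR2 T → 0 ≤ N.BB T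

end Pool.Agent.Helper26.OC
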