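import Mathlib
import Pool.Agent.Helper26.OC.St3
import Pool.Agent.Helper26.OC.PZ
import Pool.Agent.Helper26.OC.M_SHIFT
import Pool.Agent.Helper26.OC.M_ST
import Pool.Agent.Helper26.OC.M_HEX
import Pool.Agent.Helper26.OC.M_HEXONE
import Pool.Agent.Helper26.OC.M_K7

/-!
# Assembly of the window inequalities, part A: sums over windows
-/

set_option autoImplicit false

open Finset

namespace Pool.Agent.Helper26.OC

namespace Nerve

variable {κ : Type} [Fintype κ] [DecidableEq κ] (N : Nerve κ)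

open Classical in
/-- the sum of the final weights of the corners, plus the number of edges inside `T` -/
noncomputable def OS (T : Finset κ) (k : ℕ) (f : ℕ → κ) : ℚ :=
  (k : ℚ) - 9 + ∑ i ∈ range k, (N.om T (f i) (f (i + 1)) (f (i + 2)) +
    (if f i ∈ T ∧ f (i + 1) ∈ T then 1 else 0))

variable {N} {T : Finset κ} {k : ℕ} {f : ℕ → κ}

theorem IsWin.per1 (hf : N.IsWin k f) (i : ℕ) : f (i + k + 1) = f (i + 1) := by
  rw [show i + k + 1 = i + 1 + k by ring]; exact hf.per _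

theorem IsWin.per2 (hf : N.IsWin k f) (i : ℕ) : f (i + k + 2) = f (i + 2) := by
  rw [show i + k + 2 = i + 2 + k by ring]; exact hf.per _

theorem IsWin.shift (hf : N.IsWin k f) (j : ℕ) : N.IsWin k (fun i => f (i + j)) :=
  (m_SHIFT N k f j hf).1

theorem IsWin.lng_shift (hf : N.IsWin k f) (j : ℕ) : N.lng k (fun i => f (i + j)) = N.lng k f :=
  (m_SHIFT N k f j hf).2.1

theorem IsWin.D_shift (hf : N.IsWin k f) (q : ℚ) (T : Finset κ) (j : ℕ) :
    N.D q T k (fun i => f (i + j)) = N.D q T k f := by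
  unfold D
  rw [(m_SHIFT N k f j hf).2.2 q T]

theorem IsWin.OS_shift (hf : N.IsWin k f) (T : Finset κ) (j : ℕ) :
    N.OS T k (fun i => f (i + j)) = N.OS T k f := by
  classical
  unfold OS
  have h := SHIFT.sum_shift (fun i => N.om T (f i) (f (i + 1)) (f (i + 2)) +
    (if f i ∈ T ∧ f (i + 1) ∈ T then (1 : ℚ) else 0)) k (fun i => by
      simp only [hf.per i, hf.per1 i, hf.per2 i]) j
  refine congrArg (fun z => (k : ℚ) - 9 + z) (Eq.trans (sum_congr rfl fun i _ => ?_) h)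
  have a1 : f (i + 1 + j) = f (i + j + 1) := by rw [show i + 1 + j = i + j + 1 by ring]
  have a2 : f (i + 2 + j) = f (i + j + 2) := by rw [show i + 2 + j = i + j + 2 by ring]
  have b1 : N.om T (f (i + j)) (f (i + 1 + j)) (f (i + 2 + j)) =
      N.om T (f (i + j)) (f (i + j + 1)) (f (i + j + 2)) := by rw [a1, a2]
  have b2 : (f (i + j) ∈ T ∧ f (i + 1 + j) ∈ T) ↔ (f (i + j) ∈ T ∧ f (i + j + 1) ∈ T) := by
    rw [a1]
  exact congrArg₂ (· + ·) b1 (if_congr b2 rfl rfl)

theorem IsWin.per_mul (hf : N.IsWin k f) (i j : ℕ) : f (i + k * j) = f i := by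
  induction j with
  | zero => rfl
  | succ j ih => rw [show i + k * (j + 1) = i + k * j + k by ring, hf.per, ih]

theorem IsWin.mod (hf : N.IsWin k f) (i : ℕ) : ∃ j < k, ∀ m, f (i + m) = f (j + m) := by
  have hk : 0 < k := lt_of_lt_of_le (by norm_num) hf.five
  refine ⟨i % k, Nat.mod_lt _ hk, fun m => ?_⟩
  have h1 : i + m = i % k + m + k * (i / k) := by
    have := Nat.mod_add_div i k
    omega
  rw [h1, hf.per_mul]

variable (N)

/-! ### Dependence of weights on `q` -/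

theorem wf_q {b u w : κ} (h : ¬ N.Free T b) (q q' : ℚ) : N.wf q T u b w = N.wf q' T u b w := by
  unfold wf
  simp only [if_neg h]

theorem wt_mono {b u w : κ} {q q' : ℚ} (h : q ≤ q') : N.wt q T u b w ≤ N.wt q' T u b w := by
  unfold wt
  split_ifs
  · exact le_rfl
  · by_cases hF : N.Free T b
    · rw [N.wf_free hF.2.1 hF, N.wf_free hF.2.1 hF]; exact h
    · rw [N.wf_q hF q q']

theorem D_mono {q q' : ℚ} (h : q ≤ q') : N.D q T k f ≤ N.D q' T k f := by
  unfold D TF
  have : ∀ i ∈ range k, (N.wt q T (f i) (f (i + 1)) (f (i + 2)) +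
    (if f i ∈ T ∧ f (i + 1) ∈ T then (1 : ℚ) else 0)) ≤ N.wt q' T (f i) (f (i + 1)) (f (i + 2)) +
    (if f i ∈ T ∧ f (i + 1) ∈ T then 1 else 0) := fun i _ =>
      add_le_add (N.wt_mono h) le_rfl
  have := sum_le_sum this
  linarith

theorem beta_nonneg {u b w : κ} : 0 ≤ N.beta T u b w := by
  unfold beta
  split_ifs <;> norm_num

/-- comparison of the final weights with the weights `wt q` -/
theorem om_ge {q : ℚ} {u b w : κ} (h : N.Free T b → q ≤ N.om T u b w) :
    N.wt q T u b w ≤ N.om T u b w := by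
  by_cases hb : b ∈ T
  · rw [N.wt_near hb]
    unfold om
    rw [if_pos hb]
    split_ifs with h1 h2
    · unfold wn
      rw [if_pos h1.1]
      split_ifs <;> norm_num
    · unfold wn
      rw [if_pos h2.1, if_neg (by omega)]
      split_ifs <;> norm_num
    · exact le_rfl
  · rw [N.wt_far hb]
    by_cases hF : N.Free T b
    · rw [N.wf_free hF.2.1 hF]; exact h hF
    · unfold om
      rw [if_neg hb, if_neg hF, N.wf_q hF q (7 / 4)]
      have := N.beta_nonneg (T := T) (u := u) (b := b) (w := w)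
      linarith

theorem om_free_ge {u b w : κ} (hF : N.Free T b) : 3 / 2 ≤ N.om T u b w := by
  unfold om
  rw [if_neg hF.1, if_pos hF]
  split_ifs <;> norm_num

theorem om_free_ge' {u b w : κ} (hF : N.Free T b)
    (h : ¬ ∃ u' w', N.Cor u' b w' ∧ w' ≠ w ∧ N.Bad T u' b w') : 7 / 4 ≤ N.om T u b w := by
  unfold om
  rw [if_neg hF.1, if_pos hF, if_neg h]
  split_ifs <;> norm_num

theorem om_free_two {u b w : κ} (hF : N.Free T b) (hb : N.Bad T u b w)
    (h : ¬ ∃ u' w', N.Cor u' b w' ∧ w' ≠ w ∧ N.Bad T u' b w') : 2 ≤ N.om T u b w := by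
  unfold om
  rw [if_neg hF.1, if_pos hF, if_neg h, if_pos hb]
  norm_num

theorem OS_ge {q : ℚ} (h : ∀ i < k, N.wt q T (f i) (f (i + 1)) (f (i + 2)) ≤
    N.om T (f i) (f (i + 1)) (f (i + 2))) : N.D q T k f ≤ N.OS T k f := by
  unfold D TF OS
  have := sum_le_sum (s := range k) (f := fun i => (N.wt q T (f i) (f (i + 1)) (f (i + 2)) +
    (if f i ∈ T ∧ f (i + 1) ∈ T then (1 : ℚ) else 0)))
    (g := fun i => N.om T (f i) (f (i + 1)) (f (i + 2)) +
    (if f i ∈ T ∧ f (i + 1) ∈ T then 1 else 0)) fun i hi =>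
      add_le_add (h i (mem_range.1 hi)) le_rfl
  linarith

theorem OS_ge_D : N.D (3 / 2) T k f ≤ N.OS T k f :=
  N.OS_ge fun _ _ => N.om_ge fun hF => N.om_free_ge hF

/-! ### Pentagons -/

variable {N}

theorem IsWin.w5c (hf : N.IsWin 5 f) : W5c N.Cor (f 0) (f 1) (f 2) (f 3) (f 4) := by
  have h0 := hf.cor 0
  have h1 := hf.cor 1
  have h2 := hf.cor 2
  have h3 := hf.cor 3
  have h4 := hf.cor 4
  have p0 : f 5 = f 0 := hf.per 0
  have p1 : f 6 = f 1 := hf.per 1
  norm_num at h0 h1 h2 h3 h4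
  rw [p0] at h3 h4
  rw [p1] at h4
  exact ⟨h4, h0, h1, h2, h3⟩

theorem IsWin.D5 (hf : N.IsWin 5 f) (q : ℚ) (T : Finset κ) :
    N.D q T 5 f = -4 + N.W5 q T (f 0) (f 1) (f 2) (f 3) (f 4) := by
  have p0 : f 5 = f 0 := hf.per 0
  have p1 : f 6 = f 1 := hf.per 1
  unfold D TF W5 ed
  simp only [sum_range_succ, sum_range_zero]
  norm_num [p0, p1]
  ring

theorem IsWin.OS5 (hf : N.IsWin 5 f) (T : Finset κ) :
    N.OS T 5 f = -4 + (N.om T (f 4) (f 0) (f 1) + N.om T (f 0) (f 1) (f 2) +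
      N.om T (f 1) (f 2) (f 3) + N.om T (f 2) (f 3) (f 4) +
      N.om T (f 3) (f 4) (f 0) + ed T (f 0) (f 1) + ed T (f 1) (f 2) + ed T (f 2) (f 3) +
      ed T (f 3) (f 4) + ed T (f 4) (f 0)) := by
  have p0 : f 5 = f 0 := hf.per 0
  have p1 : f 6 = f 1 := hf.per 1
  unfold OS ed
  simp only [sum_range_succ, sum_range_zero]
  norm_num [p0, p1]
  ring

theorem IsWin.lng5 (hf : N.IsWin 5 f) (hl : 3 ≤ N.lng 5 f) :
    N.PL (f 0) (f 1) (f 2) (f 3) (f 4) := by
  classical
  have hp : N.Pent (f 0) (f 1) (f 2) (f 3) (f 4) := (hf.w5c).pent N N.or_cor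
  refine hp.toPL N ?_
  unfold lng at hl
  rw [card_filter] at hl
  simp only [sum_range_succ, sum_range_zero] at hl
  have e : ∀ i, N.S (f i) → (if ¬ N.S (f i) then 1 else 0) = 0 := fun i h => if_neg (not_not.2 h)
  have e1 : ∀ i, (if ¬ N.S (f i) then 1 else 0) ≤ 1 := fun i => by split_ifs <;> omega
  have := e1 0
  have := e1 1
  have := e1 2
  have := e1 3
  have := e1 4
  rintro (⟨h1, h2, h3⟩ | ⟨h1, h2, h3⟩ | ⟨h1, h2, h3⟩ | ⟨h1, h2, h3⟩ | ⟨h1, h2, h3⟩ |
    ⟨h1, h2, h3⟩ | ⟨h1, h2, h3⟩ | ⟨h1, h2, h3⟩ | ⟨h1, h2, h3⟩ | ⟨h1, h2, h3⟩) <;>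
  · have r1 := e _ h1
    have r2 := e _ h2
    have r3 := e _ h3
    omega

/-- a window with five corners, at least three of them long, whose far strips are marked -/
structure P5 (N : Nerve κ) (T : Finset κ) (f : ℕ → κ) : Prop where
  win : N.IsWin 5 f
  l : 3 ≤ N.lng 5 f
  ms : ∀ i, N.MS T (f i)

theorem P5.shift (h : N.P5 T f) (j : ℕ) : N.P5 T (fun i => f (i + j)) :=
  ⟨h.win.shift j, by rw [h.win.lng_shift j]; exact h.l, fun i => h.ms (i + j)⟩

theorem P5.pl (h : N.P5 T f) : N.PL (f 0) (f 1) (f 2) (f 3) (f 4) := h.win.lng5 h.l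

variable (N)

theorem ms_of {f : ℕ → κ} (h : ¬ ∃ i, N.St (f i) ∧ f i ∉ T ∧ N.nu T (f i) = 0) (i : ℕ) :
    N.MS T (f i) := by
  intro h1 h2
  by_contra h3
  exact h ⟨i, h1, h2, by omega⟩

theorem W5_TF {q : ℚ} (hf : N.IsWin 5 f) (h : 4 ≤ N.W5 q T (f 0) (f 1) (f 2) (f 3) (f 4)) :
    0 ≤ N.D q T 5 f := by
  rw [hf.D5]; linarith

/-- **Windows with six or more corners, and windows with an unmarked far strip.** -/
theorem D32 (hne : T.Nonempty) (hT : N.Clq T) (hNR : N.NR2 T) (hf : N.IsWin k f)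
    (hlow : N.lng k f ≤ 2 → 0 ≤ N.D (3 / 2) T k f)
    (hx : 2 ≤ T.card ∨ (∀ i, f i ∉ T) ∨ (∀ x ∈ T, 3 ≤ N.a x)) :
    0 ≤ N.D (3 / 2) T k f ∨ (k = 5 ∧ 3 ≤ N.lng k f ∧ ∀ i, N.MS T (f i)) := by
  by_cases hus : ∃ i, N.St (f i) ∧ f i ∉ T ∧ N.nu T (f i) = 0
  · exact Or.inl (m_ST N T k f hne hT hNR hf hus)
  have hms := N.ms_of hus
  have hms' : ∀ i, N.St (f i) → f i ∉ T → 1 ≤ N.nu T (f i) := fun i => hms i
  by_cases hl : N.lng k f ≤ 2
  · exact Or.inl (hlow hl)
  have hl3 : 3 ≤ N.lng k f := by omega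
  have h5 := hf.five
  rcases Nat.lt_or_ge k 9 with h9 | h9
  · interval_cases k
    · exact Or.inr ⟨rfl, hl3, hms⟩
    · left
      have h6 : 3 ≤ N.TF (3 / 2) T 6 f := by
        by_cases hx' : 2 ≤ T.card ∨ ∀ i, f i ∉ T
        · exact m_HEX m_SHIFT N T f hne hT hf hl3 hx' hms'
        · push Not at hx'
          have hc : T.card = 1 := by
            have := hne.card_pos
            omega
          obtain ⟨x, rfl⟩ := card_eq_one.1 hc
          obtain ⟨i, hi⟩ := hx'.2
          have hi' : f i = x := mem_singleton.1 hi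
          have ha : 3 ≤ N.a x := by
            rcases hx with h | h | h
            · omega
            · exact absurd hi (h i)
            · exact h x (mem_singleton_self x)
          refine m_HEXONE m_SHIFT N x f hf hl3 ha ⟨i, hi'⟩ ?_
          intro j hj hjx
          exact hms' j hj (by rw [mem_singleton]; exact hjx)
      unfold D
      push_cast
      linarith
    · left
      have h7 := m_K7 m_SHIFT N T f hne hT hf hl3 hms'
      unfold D
      push_cast
      linarith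
    · left
      have h8 := m_K8 m_SHIFT N T f hne hT hf hl3 hms'
      unfold D
      push_cast
      linarith
  · left
    unfold D
    have h0 : 0 ≤ N.TF (3 / 2) T k f := by
      unfold TF
      refine sum_nonneg fun i _ => ?_
      have := N.wt_nonneg (T := T) (u := f i) (b := f (i + 1)) (w := f (i + 2))
        (q := 3 / 2) (by norm_num)
      split_ifs
      · linarith
      · linarith
    have : (9 : ℚ) ≤ k := by exact_mod_cast h9
    linarith

end Nerve

end Pool.Agent.Helper26.OC
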