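import Mathlib
import Pool.Agent.Helper26.OC.AsA

/-!
# Assembly, part B: windows across the free corners of bad pentagons
-/

set_option autoImplicit false

open Finset

namespace Pool.Agent.Helper26.OC

namespace Nerve

variable {κ : Type} [Fintype κ] [DecidableEq κ] (N : Nerve κ) {T : Finset κ}
  {R : κ → κ → κ → Prop}

/-! ### One near facet -/

theorem NN1_1 (hR : N.Or R) {x b1 b2 b3 b4 c0 c2 c3 c4 : κ} (hF : W5c R x b1 b2 b3 b4)
    (h : N.PL x b1 b2 b3 b4) (m2 : N.MS {x} b2) (m3 : N.MS {x} b3) (ha : 3 ≤ N.a x)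
    (hlt : N.W5 (7 / 4) {x} x b1 b2 b3 b4 < 4) (hf : N.Free {x} b1)
    (hG : W5c R c0 b1 c2 c3 c4) (hne : c2 ≠ b2) (h' : N.PL c0 b1 c2 c3 c4)
    (k0 : N.MS {x} c0) (k3 : N.MS {x} c3) (k4 : N.MS {x} c4) :
    4 ≤ N.W5 (3 / 2) {x} c0 b1 c2 c3 c4 := by
  have hx : ¬ N.S x := fun hS => by have := hS.1; omega
  have hS1 : ¬ N.S b1 := fun hS => by have := hS.1; have := hf.2.1.1; omega
  rcases (h.one N hx m2 m3 (q := 7 / 4) (by norm_num) (by norm_num)).2.2 rfl hlt with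
    ⟨s1, -⟩ | ⟨s2, s4, -, -, hf1, -⟩ | ⟨s1, -⟩
  · exact absurd s1 hS1
  · exact N.NNb hR hF h s2 s4 hf1 ha hG hne h' k0 k3 k4
  · exact absurd s1 hS1

theorem NN1_2 (hR : N.Or R) {x b1 b2 b3 b4 c0 c2 c3 c4 : κ} (hF : W5c R x b1 b2 b3 b4)
    (h : N.PL x b1 b2 b3 b4) (m2 : N.MS {x} b2) (m3 : N.MS {x} b3) (ha : 3 ≤ N.a x)
    (hlt : N.W5 (7 / 4) {x} x b1 b2 b3 b4 < 4) (hf : N.Free {x} b2)
    (hG : W5c R c0 b2 c2 c3 c4) (hne : c2 ≠ b3) (h' : N.PL c0 b2 c2 c3 c4)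
    (k0 : N.MS {x} c0) (k2 : N.MS {x} c2) (k3 : N.MS {x} c3) (k4 : N.MS {x} c4) :
    4 ≤ N.W5 (3 / 2) {x} c0 b2 c2 c3 c4 := by
  have hx : ¬ N.S x := fun hS => by have := hS.1; omega
  have hS2 : ¬ N.S b2 := fun hS => by have := hS.1; have := hf.2.1.1; omega
  rcases (h.one N hx m2 m3 (q := 7 / 4) (by norm_num) (by norm_num)).2.2 rfl hlt with
    ⟨s1, s4, -⟩ | ⟨s2, -⟩ | ⟨-, -, -, -, -, hnf⟩
  · obtain ⟨e0, e2, e3, e4⟩ := N.NNa hR hF h s1 s4 ha hf.2.1 hG hne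
    refine h'.far N le_rfl ?_ hf.1 ?_ ?_ ?_ k0 m2 k2 k3 k4 <;> rwa [mem_singleton]
  · exact absurd s2 hS2
  · exact absurd hf hnf

/-! ### Two near facets -/

theorem NN2_3 (hR : N.Or R) (hT : N.Clq T) (hc : T.card = 2) {b0 b1 b2 b3 b4 c0 c2 c3 c4 : κ}
    (h0 : b0 ∈ T) (h1 : b1 ∈ T) (hF : W5c R b0 b1 b2 b3 b4) (hF' : W5c (fun u b w => R w b u) b0 b4 b3 b2 b1)
    (hR' : N.Or (fun u b w => R w b u))
    (h : N.PL b0 b1 b2 b3 b4) (m2 : N.MS T b2) (m3 : N.MS T b3) (m4 : N.MS T b4)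
    (hlt : N.W5 (7 / 4) T b0 b1 b2 b3 b4 < 4) (hf : N.Free T b3)
    (hG : W5c R c0 b3 c2 c3 c4) (hG' : W5c (fun u b w => R w b u) c2 b3 c0 c4 c3)
    (hne : c2 ≠ b4) (h' : N.PL c0 b3 c2 c3 c4) (h'' : N.PL c2 b3 c0 c4 c3)
    (k0 : N.MS T c0) (k2 : N.MS T c2) (k3 : N.MS T c3) (k4 : N.MS T c4) :
    4 ≤ N.W5 (3 / 2) T c0 b3 c2 c3 c4 := by
  rcases h.two_two N hT hc h0 h1 m2 m3 m4 (q := 7 / 4) (by norm_num) (by norm_num) with
    ⟨-, -, s2, -, s4, -⟩ | ⟨-, h7⟩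
  · exact absurd hf (N.not_free h.p.c3 (Cr.symm N h.p.c4) s4 h.p.c2 s2)
  · obtain ⟨s0, s1, hZ, hW⟩ := h7 rfl hlt
    rcases hZ with ⟨st2, hf3, s4⟩ | ⟨st4, hf3, s2⟩
    · exact N.NNz hR hF h hT hc h0 h1 s0 st2 hf3 s4 (by linarith) hG hne h' k0 k4
    · have hFr : W5c (fun u b w => R w b u) b1 b0 b4 b3 b2 := hF'.rot.rot.rot.rot
      have hr : N.PL b1 b0 b4 b3 b2 :=
        PL.rot N (PL.rot N (PL.rot N (PL.rot N (h.refl N))))
      have hne' : c0 ≠ b2 := by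
        rintro rfl
        exact hne (hR.next hG.c1 hF.c3)
      have := N.NNz hR' hFr hr hT hc h1 h0 s1 st4 hf3 s2 (by
        rw [N.wt_comm (7 / 4) T b2 b1 b0, N.wt_comm (7 / 4) T b1 b0 b4]
        linarith) hG' hne' h'' k2 k3
      -- W5 of the reflected window
      have e : N.W5 (3 / 2) T c2 b3 c0 c4 c3 = N.W5 (3 / 2) T c0 b3 c2 c3 c4 := by
        rw [← N.W5_refl (3 / 2) T c0 b3 c2 c3 c4, N.W5_rot, N.W5_rot, N.W5_rot]
      rw [← e]; exact this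

theorem NN2_no (hT : N.Clq T) (hc : T.card = 2) {b0 b1 b2 b3 b4 b : κ}
    (h0 : b0 ∈ T) (h1 : b1 ∈ T)
    (h : N.PL b0 b1 b2 b3 b4) (m2 : N.MS T b2) (m3 : N.MS T b3) (m4 : N.MS T b4)
    (hlt : N.W5 (7 / 4) T b0 b1 b2 b3 b4 < 4) (hb : b = b2 ∨ b = b4) (hf : N.Free T b) : False := by
  have hS : ¬ N.S b := fun hS => by have := hS.1; have := hf.2.1.1; omega
  have hSt : ¬ N.St b := fun hS => by have := hS.2; have := hf.2.1.2; omega
  rcases h.two_two N hT hc h0 h1 m2 m3 m4 (q := 7 / 4) (by norm_num) (by norm_num) with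
    ⟨-, -, s2, -, s4, -⟩ | ⟨-, h7⟩
  · rcases hb with rfl | rfl
    · exact hS s2
    · exact hS s4
  · obtain ⟨s0, s1, hZ, hW⟩ := h7 rfl hlt
    rcases hZ with ⟨st2, hf3, s4⟩ | ⟨st4, hf3, s2⟩
    · rcases hb with rfl | rfl
      · exact hSt st2
      · exact hS s4
    · rcases hb with rfl | rfl
      · exact hS s2
      · exact hSt st4

/-! ### Classification of bad pentagons -/

variable {k : ℕ} {f g : ℕ → κ}

variable {N}

theorem P5.w5_shift (h : N.P5 T f) (q : ℚ) (j : ℕ) :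
    N.W5 q T (f j) (f (1 + j)) (f (2 + j)) (f (3 + j)) (f (4 + j)) =
      N.W5 q T (f 0) (f 1) (f 2) (f 3) (f 4) := by
  have h1 := (h.shift j).win.D5 q T
  have h2 := h.win.D5 q T
  rw [h.win.D_shift q T j, h2] at h1
  simp only [Nat.zero_add] at h1
  linarith

theorem P5.cls (hT : N.Clq T) (hne : T.Nonempty) (h : N.P5 T f)
    (hlt : N.D (7 / 4) T 5 f < 0) :
    ∃ i, (T.card = 1 ∧ f i ∈ T) ∨ (T.card = 2 ∧ f i ∈ T ∧ f (1 + i) ∈ T) := by
  have hW : N.W5 (7 / 4) T (f 0) (f 1) (f 2) (f 3) (f 4) < 4 := by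
    rw [h.win.D5] at hlt; linarith
  by_cases hno : ∀ i, f i ∉ T
  · exfalso
    have := h.pl.far N (q := 7 / 4) (by norm_num) (hno 0) (hno 1) (hno 2) (hno 3) (hno 4)
      (h.ms 0) (h.ms 1) (h.ms 2) (h.ms 3) (h.ms 4)
    linarith
  push Not at hno
  obtain ⟨i, hi⟩ := hno
  have hc3 := Clq.card_le N hT
  have hc1 := hne.card_pos
  by_cases hc : T.card = 1
  · exact ⟨i, Or.inl ⟨hc, hi⟩⟩
  have key : ∀ j, f j ∈ T → f (1 + j) ∈ T → T.card = 2 := by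
    intro j hj hj1
    by_contra hc2
    have hs := (h.shift j)
    have hpl := hs.pl
    simp only [Nat.zero_add] at hpl
    have := hpl.two_three N hT (by omega) hj hj1 (h.ms _) (h.ms _) (h.ms _)
      (q := 7 / 4) (by norm_num) (by norm_num)
    rw [h.w5_shift] at this
    linarith
  by_cases h1 : f (1 + i) ∈ T
  · exact ⟨i, Or.inr ⟨key i hi h1, hi, h1⟩⟩
  by_cases h4 : f (4 + i) ∈ T
  · have h5 : f (1 + (4 + i)) = f i := by
      rw [show 1 + (4 + i) = i + 5 by ring]; exact h.win.per i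
    exact ⟨4 + i, Or.inr ⟨key (4 + i) h4 (by rw [h5]; exact hi), h4, by rw [h5]; exact hi⟩⟩
  exfalso
  have hpl := (h.shift i).pl
  simp only [Nat.zero_add] at hpl
  have := hpl.one_two N hT (by omega) hi h1 h4 (h.ms _) (h.ms _) (h.ms _) (h.ms _)
    (q := 7 / 4) rfl
  rw [h.w5_shift] at this
  linarith

/-- the basic statement for two pentagons -/
theorem P5.nn (hT : N.Clq T) (hne : T.Nonempty) (hx : 2 ≤ T.card ∨ (∀ x ∈ T, 3 ≤ N.a x))
    (h : N.P5 T f) (hlt : N.D (7 / 4) T 5 f < 0) (hg : N.P5 T g) (m : ℕ)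
    (hgf : g 1 = f (m + 1)) (hfree : N.Free T (f (m + 1))) (hne2 : g 2 ≠ f (m + 2)) :
    4 ≤ N.W5 (3 / 2) T (g 0) (g 1) (g 2) (g 3) (g 4) := by
  obtain ⟨i, hi⟩ := h.cls hT hne hlt
  -- shift f
  have hs := h.shift i
  have hDs := h.win.D_shift (7 / 4) T i
  obtain ⟨f', hf'⟩ : ∃ f' : ℕ → κ, f' = fun j => f (j + i) := ⟨_, rfl⟩
  rw [← hf'] at hs hDs
  have hW : N.W5 (7 / 4) T (f' 0) (f' 1) (f' 2) (f' 3) (f' 4) < 4 := by
    rw [← hDs, hs.win.D5] at hlt; linarith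
  obtain ⟨m', hm', hmm⟩ : ∃ m' < 5, ∀ j, f' (m' + j) = f (m + j) := by
    obtain ⟨m', h1, h2⟩ := hs.win.mod (m + 4 * i)
    refine ⟨m', h1, fun j => ?_⟩
    rw [← h2 j, hf']
    show f (m + 4 * i + j + i) = f (m + j)
    rw [show m + 4 * i + j + i = m + j + 5 * i by ring]
    exact h.win.per_mul _ _
  rw [← hmm 1] at hgf hfree
  rw [← hmm 2] at hne2
  have hpl := hs.pl
  have hw := hs.win.w5c
  have hpg := hg.pl
  have hwg := hg.win.w5c
  have f0 : f' 5 = f' 0 := hs.win.per 0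
  have f1 : f' 6 = f' 1 := hs.win.per 1
  -- the reflected windows
  have hflip : W5c (fun u b w => N.Cor w b u) (f' 0) (f' 4) (f' 3) (f' 2) (f' 1) := hw.flip
  have hgflip : W5c (fun u b w => N.Cor w b u) (g 2) (g 1) (g 0) (g 4) (g 3) :=
    hwg.flip.rot.rot.rot
  have hplr := hpl.refl N
  have hpgr : N.PL (g 2) (g 1) (g 0) (g 4) (g 3) :=
    PL.rot N (PL.rot N (PL.rot N (hpg.refl N)))
  have eg : N.W5 (3 / 2) T (g 2) (g 1) (g 0) (g 4) (g 3) =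
      N.W5 (3 / 2) T (g 0) (g 1) (g 2) (g 3) (g 4) := by
    rw [← N.W5_refl (3 / 2) T (g 0) (g 1) (g 2) (g 3) (g 4), N.W5_rot, N.W5_rot, N.W5_rot]
  have hWr : N.W5 (7 / 4) T (f' 0) (f' 4) (f' 3) (f' 2) (f' 1) < 4 := by
    rw [N.W5_refl]; exact hW
  have hfi : f' 0 = f i := by rw [hf']; simp only [Nat.zero_add]
  have hfi1 : f' 1 = f (1 + i) := by rw [hf']
  rcases hi with ⟨hc, hiT⟩ | ⟨hc, hiT, hiT1⟩
  · -- one near facet
    rw [← hfi] at hiT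
    obtain ⟨x, hx'⟩ := card_eq_one.1 hc
    have hxf : x = f' 0 := by rw [hx', mem_singleton] at hiT; exact hiT.symm
    subst hxf
    have ha : 3 ≤ N.a (f' 0) := by
      rcases hx with h1 | h1
      · omega
      · exact h1 _ hiT
    have ms' := hs.ms
    have msg := hg.ms
    rw [hx'] at hlt hfree hW hWr ms' msg eg ⊢
    interval_cases m'
    · -- b = f' 1
      norm_num at hgf hne2 hfree
      rw [hgf] at hwg hpg ⊢
      exact N.NN1_1 N.or_cor hw hpl (ms' 2) (ms' 3) ha hW hfree hwg hne2 hpg (msg 0) (msg 3)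
        (msg 4)
    · norm_num at hgf hne2 hfree
      rw [hgf] at hwg hpg ⊢
      exact N.NN1_2 N.or_cor hw hpl (ms' 2) (ms' 3) ha hW hfree hwg hne2 hpg (msg 0) (msg 2)
        (msg 3) (msg 4)
    · -- b = f' 3
      norm_num at hgf hne2 hfree
      have hne' : g 0 ≠ f' 2 := by
        intro h9
        have h10 := hwg.c1
        rw [hgf, h9] at h10
        exact hne2 (h10.next_unique N hw.c3)
      rw [hgf] at hgflip hpgr eg ⊢
      rw [← eg]
      exact N.NN1_2 N.or_rev hflip hplr (ms' 3) (ms' 2) ha hWr hfree hgflip hne' hpgr (msg 2)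
        (msg 0) (msg 4) (msg 3)
    · -- b = f' 4
      norm_num at hgf hne2 hfree
      rw [f0] at hne2
      have hne' : g 0 ≠ f' 3 := by
        intro h9
        have h10 := hwg.c1
        rw [hgf, h9] at h10
        exact hne2 (h10.next_unique N hw.c4)
      rw [hgf] at hgflip hpgr eg ⊢
      rw [← eg]
      exact N.NN1_1 N.or_rev hflip hplr (ms' 3) (ms' 2) ha hWr hfree hgflip hne' hpgr (msg 2)
        (msg 4) (msg 3)
    · exfalso
      norm_num at hfree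
      rw [f0] at hfree
      exact hfree.1 (mem_singleton_self _)
  · -- two near facets
    rw [← hfi] at hiT
    rw [← hfi1] at hiT1
    interval_cases m'
    · exfalso
      norm_num at hfree
      exact hfree.1 hiT1
    · exfalso
      norm_num at hfree
      exact N.NN2_no hT hc hiT hiT1 hpl (hs.ms 2) (hs.ms 3) (hs.ms 4) hW (Or.inl rfl) hfree
    · norm_num at hgf hne2 hfree
      rw [hgf] at hwg hpg hgflip hpgr ⊢
      exact N.NN2_3 N.or_cor hT hc hiT hiT1 hw hflip N.or_rev hpl (hs.ms 2) (hs.ms 3) (hs.ms 4) hW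
        hfree hwg hgflip hne2 hpg hpgr (hg.ms 0) (hg.ms 2) (hg.ms 3) (hg.ms 4)
    · exfalso
      norm_num at hfree
      exact N.NN2_no hT hc hiT hiT1 hpl (hs.ms 2) (hs.ms 3) (hs.ms 4) hW (Or.inr rfl) hfree
    · exfalso
      norm_num at hfree
      rw [f0] at hfree
      exact hfree.1 hiT

end Nerve

end Pool.Agent.Helper26.OC
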