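import Mathlib
import Pool.Agent.Helper26.OC.AsB

/-!
# Assembly, part C: every window has a nonnegative surplus
-/

set_option autoImplicit false

open Finset

namespace Pool.Agent.Helper26.OC

namespace Nerve

variable {κ : Type} [Fintype κ] [DecidableEq κ] {N : Nerve κ} {T : Finset κ}
  {k : ℕ} {f g : ℕ → κ}

/-- a bad window has five corners, three of them long, and its far strips are marked -/
theorem bad_P5 (hne : T.Nonempty) (hT : N.Clq T) (hNR : N.NR2 T) (hf : N.IsWin k f)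
    (hlow : N.lng k f ≤ 2 → 0 ≤ N.D (3 / 2) T k f)
    (hx : 2 ≤ T.card ∨ (∀ i, f i ∉ T) ∨ (∀ x ∈ T, 3 ≤ N.a x)) (hlt : N.D (7 / 4) T k f < 0) :
    k = 5 ∧ 3 ≤ N.lng k f ∧ ∀ i, N.MS T (f i) := by
  rcases N.D32 hne hT hNR hf hlow hx with h | h
  · have := N.D_mono (T := T) (k := k) (f := f) (q := 3 / 2) (q' := 7 / 4) (by norm_num)
    linarith
  · exact h

/-- the window across a free corner of a bad window has nonnegative surplus -/
theorem nn_all (hne : T.Nonempty) (hT : N.Clq T) (hNR : N.NR2 T)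
    (hlow : ∀ k f, N.IsWin k f → N.lng k f ≤ 2 → 0 ≤ N.D (3 / 2) T k f)
    (hx : 2 ≤ T.card ∨ (∀ x ∈ T, 3 ≤ N.a x)) (hf : N.IsWin k f) (i : ℕ)
    (hfree : N.Free T (f (i + 1)))
    (h : ∃ u' w', N.Cor u' (f (i + 1)) w' ∧ w' ≠ f (i + 2) ∧ N.Bad T u' (f (i + 1)) w') :
    0 ≤ N.D (3 / 2) T k f := by
  obtain ⟨u', w', -, hw, b, hb, b0, b1, b2, hlt⟩ := h
  have hx' : 2 ≤ T.card ∨ (∀ i, f i ∉ T) ∨ (∀ x ∈ T, 3 ≤ N.a x) := by tauto
  have hx'' : 2 ≤ T.card ∨ (∀ i, b i ∉ T) ∨ (∀ x ∈ T, 3 ≤ N.a x) := by tauto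
  rcases N.D32 hne hT hNR hf (hlow k f hf) hx' with h | ⟨rfl, hl, hms⟩
  · exact h
  obtain ⟨-, hlb, hmb⟩ := bad_P5 hne hT hNR hb (hlow 5 b hb) hx'' hlt
  have hP : N.P5 T b := ⟨hb, hlb, hmb⟩
  have hQ : N.P5 T (fun j => f (j + i)) := P5.shift ⟨hf, hl, hms⟩ i
  have e1 : f (1 + i) = b (0 + 1) := by
    rw [Nat.zero_add, b1, Nat.add_comm 1 i]
  have h9 := hP.nn hT hne hx hlt hQ 0 e1 (by
    rw [Nat.zero_add, b1]; exact hfree) (by
    show f (2 + i) ≠ b (0 + 2)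
    rw [Nat.zero_add, b2, Nat.add_comm 2 i]; exact hw.symm)
  rw [← hf.D_shift (3 / 2) T i]
  exact N.W5_TF hQ.win h9

/-- final weights of a bonus corner -/
theorem om_bon {q : ℚ} {u b w : κ} (hb : b ∉ T) (hF : ¬ N.Free T b) (hB : N.Bon T u b w) :
    N.wt q T u b w + 1 ≤ N.om T u b w ∨
      (N.wt q T u b w + 1 / 2 ≤ N.om T u b w ∧
        ∃ u' w', N.Cor u' b w' ∧ w' ≠ w ∧ N.Bon T u' b w') := by
  rw [N.wt_far hb]
  unfold om beta
  rw [if_neg hb, if_neg hF, N.wf_q hF q (7 / 4), if_pos hB]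
  by_cases h : ∃ u' w', N.Cor u' b w' ∧ w' ≠ w ∧ N.Bon T u' b w'
  · rw [if_pos h]
    exact Or.inr ⟨le_rfl, h⟩
  · rw [if_neg h]
    exact Or.inl le_rfl

/-- **Windows, main case.** -/
theorem W1b (hne : T.Nonempty) (hT : N.Clq T) (hNR : N.NR2 T)
    (hlow : ∀ k f, N.IsWin k f → N.lng k f ≤ 2 → 0 ≤ N.D (3 / 2) T k f)
    (hx : 2 ≤ T.card ∨ (∀ x ∈ T, 3 ≤ N.a x)) (hf : N.IsWin k f) : 0 ≤ N.OS T k f := by
  by_cases hA : ∃ i, N.Free T (f (i + 1)) ∧ ∃ u' w', N.Cor u' (f (i + 1)) w' ∧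
      w' ≠ f (i + 2) ∧ N.Bad T u' (f (i + 1)) w'
  · obtain ⟨i, h1, h2⟩ := hA
    exact (nn_all hne hT hNR hlow hx hf i h1 h2).trans N.OS_ge_D
  have hA' : ∀ i, N.Free T (f (i + 1)) → ¬ ∃ u' w', N.Cor u' (f (i + 1)) w' ∧
      w' ≠ f (i + 2) ∧ N.Bad T u' (f (i + 1)) w' := fun i h1 h2 => hA ⟨i, h1, h2⟩
  by_cases hD : 0 ≤ N.D (7 / 4) T k f
  · exact hD.trans (N.OS_ge fun i _ => N.om_ge fun hF => N.om_free_ge' hF (hA' i hF))
  push Not at hD
  obtain ⟨rfl, hl, hms⟩ := bad_P5 hne hT hNR hf (hlow k f hf) (by tauto) hD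
  have hP : N.P5 T f := ⟨hf, hl, hms⟩
  -- all free corners have final weight two
  have h2 : ∀ i, N.wt 2 T (f i) (f (i + 1)) (f (i + 2)) ≤ N.om T (f i) (f (i + 1)) (f (i + 2)) := by
    intro i
    refine N.om_ge fun hF => N.om_free_two hF ?_ (hA' i hF)
    refine ⟨fun j => f (j + i), hf.shift i, ?_, ?_, ?_, ?_⟩
    · show f (0 + i) = f i
      rw [Nat.zero_add]
    · show f (1 + i) = f (i + 1)
      rw [Nat.add_comm]
    · show f (2 + i) = f (i + 2)
      rw [Nat.add_comm]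
    · rw [hf.D_shift]; exact hD
  have hD2 : 0 ≤ N.D 2 T 5 f → 0 ≤ N.OS T 5 f := fun h => h.trans (N.OS_ge fun i _ => h2 i)
  obtain ⟨i, hi⟩ := hP.cls hT hne hD
  have hs := hP.shift i
  have hpl := hs.pl
  have hw := hs.win.w5c
  simp only [Nat.zero_add] at hpl hw
  rcases hi with ⟨hc, hiT⟩ | ⟨hc, hiT, hiT1⟩
  · -- one near facet
    obtain ⟨x, hx'⟩ := card_eq_one.1 hc
    have hxf : f i = x := by rw [hx', mem_singleton] at hiT; exact hiT
    have ha : 3 ≤ N.a x := by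
      rcases hx with h1 | h1
      · omega
      · exact h1 _ (by rw [hx']; exact mem_singleton_self x)
    have hS : ¬ N.S x := fun hS => by have := hS.1; omega
    apply hD2
    rw [hx'] at hms ⊢
    rw [hxf] at hpl
    have h9 := (hpl.one N hS (hms _) (hms _) (q := 2) (by norm_num) le_rfl).2.1 rfl
    rw [← hf.D_shift 2 {x} i, (hf.shift i).D5]
    show 0 ≤ -4 + N.W5 2 {x} (f (0 + i)) (f (1 + i)) (f (2 + i)) (f (3 + i)) (f (4 + i))
    rw [Nat.zero_add, hxf]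
    linarith
  · -- two near facets
    rcases hpl.two_two N hT hc hiT hiT1 (hms _) (hms _) (hms _) (q := 2) (by norm_num) le_rfl with
      hbon | ⟨h9, -⟩
    swap
    · apply hD2
      rw [← hf.D_shift 2 T i, (hf.shift i).D5]
      show 0 ≤ -4 + N.W5 2 T (f (0 + i)) (f (1 + i)) (f (2 + i)) (f (3 + i)) (f (4 + i))
      rw [Nat.zero_add]
      have := h9 rfl
      linarith
    -- the bonus case
    obtain ⟨s0, s1, s2, s3, s4, n3, a3, hW⟩ := hbon
    rw [← hf.OS_shift T i]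
    have h2' := fun j => h2 (j + i)
    obtain ⟨f', hf'⟩ : ∃ f' : ℕ → κ, f' = fun j => f (j + i) := ⟨_, rfl⟩
    have hfi : ∀ j, f' j = f (j + i) := fun j => by rw [hf']
    have hwin : N.IsWin 5 f' := by rw [hf']; exact hf.shift i
    rw [← hf']
    have g0 : f i = f' 0 := by rw [hfi, Nat.zero_add]
    rw [g0] at s0 hiT hW hpl hw
    rw [← hfi 1] at s1 hiT1 hW hpl hw
    rw [← hfi 2] at s2 hW hpl hw
    rw [← hfi 3] at s3 n3 a3 hW hpl hw
    rw [← hfi 4] at s4 hW hpl hw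
    have h3T : f' 3 ∉ T := (hpl.notin N hT hiT).2
    have hF3 : ¬ N.Free T (f' 3) :=
      N.not_free hpl.p.c3 (Cr.symm N hpl.p.c4) s4 hpl.p.c2 s2
    have hB : N.Bon T (f' 2) (f' 3) (f' 4) :=
      ⟨hc, f', hwin, hiT, hiT1, rfl, rfl, rfl, s0, s1, s2, s4, s3, n3, a3⟩
    have w0 : N.wt 2 T (f' 4) (f' 0) (f' 1) ≤ N.om T (f' 4) (f' 0) (f' 1) := by
      have := h2' 4
      rw [show 4 + i + 1 = 5 + i by ring, show 4 + i + 2 = 6 + i by ring, ← hfi 4, ← hfi 5,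
        ← hfi 6, hwin.per 0, hwin.per 1] at this
      exact this
    have w1 : N.wt 2 T (f' 0) (f' 1) (f' 2) ≤ N.om T (f' 0) (f' 1) (f' 2) := by
      have := h2' 0
      rw [show 0 + i + 1 = 1 + i by ring, show 0 + i + 2 = 2 + i by ring, ← hfi 0, ← hfi 1,
        ← hfi 2] at this
      exact this
    have w2 : N.wt 2 T (f' 1) (f' 2) (f' 3) ≤ N.om T (f' 1) (f' 2) (f' 3) := by
      have := h2' 1
      rw [show 1 + i + 1 = 2 + i by ring, show 1 + i + 2 = 3 + i by ring, ← hfi 1, ← hfi 2,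
        ← hfi 3] at this
      exact this
    have w4 : N.wt 2 T (f' 3) (f' 4) (f' 0) ≤ N.om T (f' 3) (f' 4) (f' 0) := by
      have := h2' 3
      rw [show 3 + i + 1 = 4 + i by ring, show 3 + i + 2 = 5 + i by ring, ← hfi 3, ← hfi 4,
        ← hfi 5, hwin.per 0] at this
      exact this
    rw [hwin.OS5]
    unfold W5 at hW
    have p0 := N.wt_nonneg (T := T) (u := f' 4) (b := f' 0) (w := f' 1) (q := 2) (by norm_num)
    have p1 := N.wt_nonneg (T := T) (u := f' 0) (b := f' 1) (w := f' 2) (q := 2) (by norm_num)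
    rcases om_bon (q := 2) h3T hF3 hB with w3 | ⟨w3, u', w', hc', hne', hB'⟩
    · linarith
    · obtain ⟨-, g, hg, g0T, g1T, rfl, g3, rfl, t0, t1, t2, t4, t3, -, -⟩ := hB'
      -- the window `g` passes the edge inside `T` in the other direction
      have hgw := hg.w5c
      have hne01 : f' 0 ≠ f' 1 := N.ne_of_adj (Cr.right N hpl.p.c0)
      have hmem := mem_pair hc hiT hiT1 hne01
      have hgne : g 0 ≠ g 1 := (hgw.c1.ne_ub N)
      have hg0 : g 0 = f' 1 ∧ g 1 = f' 0 := by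
        rcases (hmem _).1 g0T with h5 | h5
        · rcases (hmem _).1 g1T with h6 | h6
          · exact absurd (h5.trans h6.symm) hgne
          · exfalso
            have e1 := hgw.c1
            rw [h5, h6] at e1
            have e2 : g 2 = f' 2 := e1.next_unique N hw.c1
            have e3 := hgw.c3
            rw [e2, g3] at e3
            exact hne' (e3.next_unique N hw.c3)
        · rcases (hmem _).1 g1T with h6 | h6
          · exact ⟨h5, h6⟩
          · exact absurd (h5.trans h6.symm) hgne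
      have hgpl : N.PL (g 0) (g 1) (g 2) (g 3) (g 4) := by
        refine (hgw.pent N N.or_cor).toPL N ?_
        rw [g3]
        tauto
      rw [hg0.1, hg0.2, g3] at hgw hgpl
      have q0 := N.bonus_near (q := 2) N.or_cor hw hpl hgw hgpl hc hiT hiT1 s0 s4
      have hw' : W5c (fun u b w => N.Cor w b u) (f' 1) (f' 0) (f' 4) (f' 3) (f' 2) :=
        hw.flip.rot.rot.rot.rot
      have hpl' : N.PL (f' 1) (f' 0) (f' 4) (f' 3) (f' 2) :=
        PL.rot N (PL.rot N (PL.rot N (PL.rot N (hpl.refl N))))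
      have hgw' : W5c (fun u b w => N.Cor w b u) (f' 0) (f' 1) (g 4) (f' 3) (g 2) :=
        hgw.flip.rot.rot.rot.rot
      have hgpl' : N.PL (f' 0) (f' 1) (g 4) (f' 3) (g 2) :=
        PL.rot N (PL.rot N (PL.rot N (PL.rot N (hgpl.refl N))))
      have q1 := N.bonus_near (q := 2) N.or_rev hw' hpl' hgw' hgpl' hc hiT1 hiT s1 s2
      rw [N.wt_comm] at q1
      linarith

end Nerve

end Pool.Agent.Helper26.OC
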