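import Mathlib
import Pool.Agent.Helper26.OC.St3

/-!
# Module BASE: the constant term
-/

set_option autoImplicit false

open Finset

namespace Pool.Agent.Helper26.OC

namespace BASE

open Nerve (ed)

variable {κ : Type} [Fintype κ] [DecidableEq κ] (N : Nerve κ)

open Classical in
/-- the indicator of a proposition -/
noncomputable def ind (P : Prop) : ℚ := if P then 1 else 0

theorem ind_true {P : Prop} (h : P) : ind P = 1 := if_pos h

theorem ind_false {P : Prop} (h : ¬ P) : ind P = 0 := if_neg h

omit [DecidableEq κ] in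
theorem cn_eq (x y : κ) : (N.cn x y : ℚ) = ∑ b, ind (N.adj x b ∧ N.adj y b) := by
  classical
  unfold Nerve.cn ind
  rw [Finset.card_filter, Nat.cast_sum]
  refine Finset.sum_congr rfl fun b _ => ?_
  split_ifs <;> simp

/-- the two darts of an edge -/
theorem pair_win (cnt : StCnt) (h5 : 5 ≤ Fintype.card κ) {x y : κ} (h : N.adj x y) :
    ind (N.win x y) + ind (N.win y x) = 2 - (N.cn x y : ℚ) := by
  classical
  obtain ⟨w, hw, hr⟩ := N.exists_rot h
  have hyx : N.win y x ↔ N.win x w := N.win_next (N.symm h) hw hr
  have hwy : y ≠ w := by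
    rintro rfl
    exact N.rot_ne h hr
  rw [← (cnt N h5).1 x y h]
  have hset : (N.wd x).filter (fun v => v = y ∨ N.rot x v = y) =
      ({y, w} : Finset κ).filter (fun v => N.win x v) := by
    ext v
    unfold Nerve.wd
    simp only [mem_filter, mem_univ, true_and, mem_insert, mem_singleton]
    constructor
    · rintro ⟨⟨h1, h2⟩, h3 | h3⟩
      · exact ⟨Or.inl h3, h2⟩
      · exact ⟨Or.inr (N.rot_inj h1 hw (h3.trans hr.symm)), h2⟩
    · rintro ⟨h1 | h1, h2⟩
      · subst h1
        exact ⟨⟨h, h2⟩, Or.inl rfl⟩
      · subst h1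
        exact ⟨⟨hw, h2⟩, Or.inr hr⟩
  rw [hset, Finset.card_filter, Finset.sum_pair hwy]
  unfold ind
  by_cases h1 : N.win x y <;> by_cases h2 : N.win y x
  · rw [if_pos h1, if_pos h2, if_pos h1, if_pos (hyx.1 h2)]; norm_num
  · rw [if_pos h1, if_neg h2, if_pos h1, if_neg (fun h => h2 (hyx.2 h))]; norm_num
  · rw [if_neg h1, if_pos h2, if_neg h1, if_pos (hyx.1 h2)]; norm_num
  · rw [if_neg h1, if_neg h2, if_neg h1, if_neg (fun h => h2 (hyx.2 h))]; norm_num

/-- the window darts inside `T` -/
theorem sum_ed (T : Finset κ) :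
    ∑ b, ∑ w ∈ N.wd b, ed T b w = ∑ b ∈ T, ∑ w ∈ T, ind (N.adj b w ∧ N.win b w) := by
  classical
  have h1 : ∀ b, ∑ w ∈ N.wd b, ed T b w =
      if b ∈ T then ∑ w ∈ T, ind (N.adj b w ∧ N.win b w) else 0 := by
    intro b
    by_cases hb : b ∈ T
    · rw [if_pos hb]
      unfold Nerve.wd
      rw [Finset.sum_filter]
      have h2 : ∀ w, (if N.adj b w ∧ N.win b w then ed T b w else 0) =
          if w ∈ T then ind (N.adj b w ∧ N.win b w) else 0 := by
        intro w
        unfold Nerve.ed ind
        by_cases h : N.adj b w ∧ N.win b w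
        · by_cases hw : w ∈ T
          · rw [if_pos h, if_pos ⟨hb, hw⟩, if_pos hw, if_pos h]
          · rw [if_pos h, if_neg (fun h => hw h.2), if_neg hw]
        · rw [if_neg h, if_neg h]
          split_ifs <;> rfl
      rw [Finset.sum_congr rfl fun w _ => h2 w, Finset.sum_ite_mem, Finset.univ_inter]
    · rw [if_neg hb]
      refine Finset.sum_eq_zero fun w _ => ?_
      unfold Nerve.ed
      rw [if_neg (fun h => hb h.1)]
  rw [Finset.sum_congr rfl fun b _ => h1 b, Finset.sum_ite_mem, Finset.univ_inter]

theorem sum_far (T : Finset κ) (f : κ → ℚ) :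
    ∑ b ∈ univ.filter (fun b => b ∉ T), f b = ∑ b, f b - ∑ b ∈ T, f b := by
  have h : univ.filter (fun b => b ∉ T) = univ \ T := by
    ext b
    simp
  rw [h, Finset.sum_sdiff_eq_sub (Finset.subset_univ T)]

omit [Fintype κ] [DecidableEq κ] in
theorem dart_diag (x : κ) : ind (N.adj x x ∧ N.win x x) = 0 :=
  ind_false fun h => N.irr x h.1

omit [Fintype κ] [DecidableEq κ] in
theorem dart_off {x y : κ} (h : N.adj x y) : ind (N.adj x y ∧ N.win x y) = ind (N.win x y) := by
  by_cases hw : N.win x y
  · rw [ind_true hw, ind_true ⟨h, hw⟩]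
  · rw [ind_false hw, ind_false fun h => hw h.2]

omit [Fintype κ] [DecidableEq κ] in
theorem nu_le_one {T : Finset κ} {b : κ}
    (h : ∀ y ∈ T, ∀ z ∈ T, N.adj b y → N.adj b z → y = z) : N.nu T b ≤ 1 := by
  classical
  unfold Nerve.nu
  rw [Finset.card_le_one]
  intro y hy z hz
  rw [mem_filter] at hy hz
  exact h y hy.1 z hz.1 hy.2 hz.2

omit [Fintype κ] in
/-- a far vertex and an edge -/
theorem far_two {x y b : κ} (hxy : x ≠ y) :
    (if N.nu {x, y} b ≤ 1 then (0 : ℚ) else 1) = ind (N.adj x b ∧ N.adj y b) := by
  by_cases h : N.adj x b ∧ N.adj y b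
  · have h2 := N.nu_two (T := {x, y}) (b := b) (y := x) (z := y) (by simp) (by simp) hxy
      (N.symm h.1) (N.symm h.2)
    rw [if_neg (by omega), ind_true h]
  · have h1 : N.nu {x, y} b ≤ 1 := by
      refine nu_le_one N ?_
      intro u hu v hv h1 h2
      simp only [mem_insert, mem_singleton] at hu hv
      rcases hu with rfl | rfl <;> rcases hv with rfl | rfl
      · rfl
      · exact absurd ⟨N.symm h1, N.symm h2⟩ h
      · exact absurd ⟨N.symm h2, N.symm h1⟩ h
      · rfl
    rw [if_pos h1, ind_false h]

omit [Fintype κ] in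
/-- a far vertex and a triangle -/
theorem far_three {x y z b : κ} (hxy : N.adj x y) (hxz : N.adj x z) (hyz : N.adj y z) :
    (if N.nu {x, y, z} b ≤ 1 then (0 : ℚ) else 1) = ind (N.adj x b ∧ N.adj y b) +
      ind (N.adj x b ∧ N.adj z b) + ind (N.adj y b ∧ N.adj z b) := by
  have mx : x ∈ ({x, y, z} : Finset κ) := by simp
  have my : y ∈ ({x, y, z} : Finset κ) := by simp
  have mz : z ∈ ({x, y, z} : Finset κ) := by simp
  have k4 : ¬ (N.adj x b ∧ N.adj y b ∧ N.adj z b) := fun h =>
    N.noK4 hxy hxz h.1 hyz h.2.1 h.2.2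
  by_cases h1 : N.adj x b
  · by_cases h2 : N.adj y b
    · have h3 : ¬ N.adj z b := fun h => k4 ⟨h1, h2, h⟩
      have := N.nu_two mx my (N.ne_of_adj hxy) (N.symm h1) (N.symm h2)
      rw [if_neg (by omega), ind_true ⟨h1, h2⟩, ind_false fun h => h3 h.2,
        ind_false fun h => h3 h.2]
      norm_num
    · by_cases h3 : N.adj z b
      · have := N.nu_two mx mz (N.ne_of_adj hxz) (N.symm h1) (N.symm h3)
        rw [if_neg (by omega), ind_false fun h => h2 h.2, ind_true ⟨h1, h3⟩,
          ind_false fun h => h2 h.1]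
        norm_num
      · have : N.nu {x, y, z} b ≤ 1 := by
          refine nu_le_one N ?_
          intro u hu v hv a1 a2
          simp only [mem_insert, mem_singleton] at hu hv
          rcases hu with rfl | rfl | rfl
          · rcases hv with rfl | rfl | rfl
            · rfl
            · exact absurd (N.symm a2) h2
            · exact absurd (N.symm a2) h3
          · exact absurd (N.symm a1) h2
          · exact absurd (N.symm a1) h3
        rw [if_pos this, ind_false fun h => h2 h.2, ind_false fun h => h3 h.2,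
          ind_false fun h => h2 h.1]
        norm_num
  · by_cases h2 : N.adj y b
    · by_cases h3 : N.adj z b
      · have := N.nu_two my mz (N.ne_of_adj hyz) (N.symm h2) (N.symm h3)
        rw [if_neg (by omega), ind_false fun h => h1 h.1, ind_false fun h => h1 h.1,
          ind_true ⟨h2, h3⟩]
        norm_num
      · have : N.nu {x, y, z} b ≤ 1 := by
          refine nu_le_one N ?_
          intro u hu v hv a1 a2
          simp only [mem_insert, mem_singleton] at hu hv
          rcases hu with rfl | rfl | rfl
          · exact absurd (N.symm a1) h1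
          · rcases hv with rfl | rfl | rfl
            · exact absurd (N.symm a2) h1
            · rfl
            · exact absurd (N.symm a2) h3
          · exact absurd (N.symm a1) h3
        rw [if_pos this, ind_false fun h => h1 h.1, ind_false fun h => h1 h.1,
          ind_false fun h => h3 h.2]
        norm_num
    · have : N.nu {x, y, z} b ≤ 1 := by
        refine nu_le_one N ?_
        intro u hu v hv a1 a2
        simp only [mem_insert, mem_singleton] at hu hv
        rcases hu with rfl | rfl | rfl
        · exact absurd (N.symm a1) h1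
        · exact absurd (N.symm a1) h2
        · rcases hv with rfl | rfl | rfl
          · exact absurd (N.symm a2) h1
          · exact absurd (N.symm a2) h2
          · rfl
      rw [if_pos this, ind_false fun h => h1 h.1, ind_false fun h => h1 h.1,
        ind_false fun h => h2 h.1]
      norm_num

end BASE

open BASE in
theorem m_BASE (cnt : StCnt) : StBase := by
  intro κ _ _ N T h5 hne hT
  rw [sum_ed N T, sum_far]
  have hpos : 1 ≤ T.card := Finset.card_pos.2 hne
  have hle := Nerve.Clq.card_le N hT
  have h123 : T.card = 1 ∨ T.card = 2 ∨ T.card = 3 := by omega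
  rcases h123 with hc | hc | hc
  · obtain ⟨x, rfl⟩ := Finset.card_eq_one.1 hc
    have h1 : ∀ b, (if N.nu {x} b ≤ 1 then (0 : ℚ) else 1) = 0 := by
      intro b
      refine if_pos (nu_le_one N ?_)
      intro u hu v hv _ _
      rw [mem_singleton] at hu hv
      rw [hu, hv]
    simp only [h1, Finset.sum_const_zero, Finset.sum_singleton, dart_diag, Finset.card_singleton]
    norm_num
  · obtain ⟨x, y, hxy, rfl⟩ := Finset.card_eq_two.1 hc
    have axy : N.adj x y := hT x (by simp) y (by simp) hxy
    have ayx := N.symm axy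
    rw [hc, Finset.sum_congr rfl fun b _ => far_two N hxy,
      Finset.sum_congr (s₂ := ({x, y} : Finset κ)) rfl fun b _ => far_two N hxy, ← cn_eq]
    simp only [Finset.sum_pair hxy]
    rw [ind_false fun h => N.irr x h.1, ind_false fun h => N.irr y h.2, dart_diag, dart_diag,
      dart_off N axy, dart_off N ayx]
    have := pair_win N cnt h5 axy
    norm_num
    linarith
  · obtain ⟨x, y, z, hxy, hxz, hyz, rfl⟩ := Finset.card_eq_three.1 hc
    have axy : N.adj x y := hT x (by simp) y (by simp) hxy
    have axz : N.adj x z := hT x (by simp) z (by simp) hxz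
    have ayz : N.adj y z := hT y (by simp) z (by simp) hyz
    have s3 : ∀ f : κ → ℚ, ∑ b ∈ ({x, y, z} : Finset κ), f b = f x + (f y + f z) := by
      intro f
      rw [Finset.sum_insert (by simp [hxy, hxz]), Finset.sum_pair hyz]
    rw [hc, Finset.sum_congr rfl fun b _ => far_three N axy axz ayz,
      Finset.sum_congr (s₂ := ({x, y, z} : Finset κ)) rfl fun b _ => far_three N axy axz ayz,
      Finset.sum_add_distrib, Finset.sum_add_distrib, ← cn_eq, ← cn_eq, ← cn_eq]
    simp only [s3]
    rw [ind_false (P := N.adj x x ∧ N.adj y x) fun h => N.irr x h.1,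
      ind_false (P := N.adj x x ∧ N.adj z x) fun h => N.irr x h.1,
      ind_true (P := N.adj y x ∧ N.adj z x) ⟨N.symm axy, N.symm axz⟩,
      ind_false (P := N.adj x y ∧ N.adj y y) fun h => N.irr y h.2,
      ind_true (P := N.adj x y ∧ N.adj z y) ⟨axy, N.symm ayz⟩,
      ind_false (P := N.adj y y ∧ N.adj z y) fun h => N.irr y h.1,
      ind_true (P := N.adj x z ∧ N.adj y z) ⟨axz, ayz⟩,
      ind_false (P := N.adj x z ∧ N.adj z z) fun h => N.irr z h.2,
      ind_false (P := N.adj y z ∧ N.adj z z) fun h => N.irr z h.2,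
      dart_diag, dart_diag, dart_diag, dart_off N axy, dart_off N axz, dart_off N ayz,
      dart_off N (N.symm axy), dart_off N (N.symm axz), dart_off N (N.symm ayz)]
    have e1 := pair_win N cnt h5 axy
    have e2 := pair_win N cnt h5 axz
    have e3 := pair_win N cnt h5 ayz
    norm_num
    linarith

end Pool.Agent.Helper26.OC
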