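import Mathlib
import Pool.Agent.Helper26.OC.St3

/-!
# Module CNT: counting corners, thin edges and degrees at a vertex of a nerve
-/

set_option autoImplicit false

open Finset

namespace Pool.Agent.Helper26.OC

namespace CNT

open Nerve

variable {κ : Type} [Fintype κ] [DecidableEq κ] (N : Nerve κ)

theorem cn_eq_of {b y : κ} {s : Finset κ} (h : ∀ z, (N.adj b z ∧ N.adj y z) ↔ z ∈ s) :
    N.cn b y = s.card := by
  classical
  unfold cn
  congr 1
  ext z
  rw [mem_filter, h]
  simp

theorem mem_wd {b z : κ} : z ∈ N.wd b ↔ N.adj b z ∧ N.win b z := by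
  classical
  unfold wd
  rw [mem_filter]
  simp

omit [Fintype κ] [DecidableEq κ] in
/-- a common neighbour -/
theorem common {b y z c : κ} (hy : N.adj b y) (hz : N.adj b z) (hrz : N.rot b z = y)
    (hc : N.adj b c) (hyc : N.adj y c) :
    (c = N.rot b y ∧ ¬ N.win b y) ∨ (c = z ∧ ¬ N.win b z) := by
  rcases N.adj_rot hy hc hyc with h | h
  · exact Or.inl ⟨h.1.symm, h.2⟩
  · have : c = z := N.rot_inj hc hz (h.1.trans hrz.symm)
    rw [this] at h
    exact Or.inr ⟨this, h.2⟩

/-- both sides of an edge are triangles: they are different -/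
theorem two_tri (h5 : 5 ≤ Fintype.card κ) {b y z : κ} (hy : N.adj b y) (hz : N.adj b z)
    (hrz : N.rot b z = y) (hwy : ¬ N.win b y) (hwz : ¬ N.win b z) : N.rot b y ≠ z := by
  intro hr
  have hb : ∀ c, N.adj b c → c = y ∨ c = z := by
    refine N.rot_ind (P := fun c => c = y ∨ c = z) hy (Or.inl rfl) ?_
    rintro c - (rfl | rfl)
    · exact Or.inr hr
    · exact Or.inl hrz
  obtain ⟨a1, a2, a3⟩ := N.tri_of hy hwy
  obtain ⟨b1, b2, b3⟩ := N.tri_of hz hwz
  rw [hr] at a1 a2 a3
  rw [hrz] at b1 b2 b3
  have hyn : ∀ c, N.adj y c → c = b ∨ c = z := by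
    refine N.rot_ind (P := fun c => c = b ∨ c = z) (N.symm hy) (Or.inl rfl) ?_
    rintro c - (rfl | rfl)
    · exact Or.inr b3
    · exact Or.inl a2
  have hzn : ∀ c, N.adj z c → c = b ∨ c = y := by
    refine N.rot_ind (P := fun c => c = b ∨ c = y) (N.symm hz) (Or.inl rfl) ?_
    rintro c - (rfl | rfl)
    · exact Or.inr a3
    · exact Or.inl b2
  have hall : ∀ c, c = b ∨ c = y ∨ c = z := by
    intro c
    refine N.conn (fun c => c = b ∨ c = y ∨ c = z) ?_ b c (Or.inl rfl)
    rintro a d (rfl | rfl | rfl) had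
    · rcases hb d had with h | h
      · exact Or.inr (Or.inl h)
      · exact Or.inr (Or.inr h)
    · rcases hyn d had with h | h
      · exact Or.inl h
      · exact Or.inr (Or.inr h)
    · rcases hzn d had with h | h
      · exact Or.inl h
      · exact Or.inr (Or.inl h)
  have hle : Fintype.card κ ≤ ({b, y, z} : Finset κ).card := by
    rw [← card_univ]
    apply card_le_card
    intro c _
    simp only [mem_insert, mem_singleton]
    exact hall c
  have := card_le_three (a := b) (b := y) (c := z)
  omega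

open Classical in
theorem cnt1 (h5 : 5 ≤ Fintype.card κ) {b y : κ} (hy : N.adj b y) :
    ((N.wd b).filter (fun w => w = y ∨ N.rot b w = y)).card + N.cn b y = 2 := by
  obtain ⟨z, hz, hrz⟩ := N.exists_rot hy
  have hzy : z ≠ y := by
    intro h
    rw [← h] at hrz
    exact N.rot_ne hz hrz
  have hfil : ∀ w, w ∈ (N.wd b).filter (fun w => w = y ∨ N.rot b w = y) ↔
      (w = y ∧ N.win b y) ∨ (w = z ∧ N.win b z) := by
    intro w
    rw [mem_filter, mem_wd]
    constructor
    · rintro ⟨⟨h1, h2⟩, rfl | h3⟩
      · exact Or.inl ⟨rfl, h2⟩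
      · have : w = z := N.rot_inj h1 hz (h3.trans hrz.symm)
        rw [this] at h2
        exact Or.inr ⟨this, h2⟩
    · rintro (⟨rfl, h⟩ | ⟨rfl, h⟩)
      · exact ⟨⟨hy, h⟩, Or.inl rfl⟩
      · exact ⟨⟨hz, h⟩, Or.inr hrz⟩
  by_cases h1 : N.win b y <;> by_cases h2 : N.win b z
  · have e1 : N.cn b y = (∅ : Finset κ).card := by
      apply cn_eq_of
      intro c
      constructor
      · rintro ⟨hc, hyc⟩
        rcases common N hy hz hrz hc hyc with h | h
        · exact absurd h1 h.2
        · exact absurd h2 h.2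
      · intro h
        exact absurd h (notMem_empty c)
    have e2 : (N.wd b).filter (fun w => w = y ∨ N.rot b w = y) = {y, z} := by
      ext w
      rw [hfil, mem_insert, mem_singleton]
      tauto
    rw [e1, e2, card_pair hzy.symm, card_empty]
  · have e1 : N.cn b y = ({z} : Finset κ).card := by
      apply cn_eq_of
      intro c
      rw [mem_singleton]
      constructor
      · rintro ⟨hc, hyc⟩
        rcases common N hy hz hrz hc hyc with h | h
        · exact absurd h1 h.2
        · exact h.1
      · rintro rfl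
        have := (N.tri_of hz h2).1
        rw [hrz] at this
        exact ⟨hz, N.symm this⟩
    have e2 : (N.wd b).filter (fun w => w = y ∨ N.rot b w = y) = {y} := by
      ext w
      rw [hfil, mem_singleton]
      tauto
    rw [e1, e2, card_singleton, card_singleton]
  · have e1 : N.cn b y = ({N.rot b y} : Finset κ).card := by
      apply cn_eq_of
      intro c
      rw [mem_singleton]
      constructor
      · rintro ⟨hc, hyc⟩
        rcases common N hy hz hrz hc hyc with h | h
        · exact h.1
        · exact absurd h2 h.2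
      · rintro rfl
        exact ⟨N.rot_adj hy, (N.tri_of hy h1).1⟩
    have e2 : (N.wd b).filter (fun w => w = y ∨ N.rot b w = y) = {z} := by
      ext w
      rw [hfil, mem_singleton]
      tauto
    rw [e1, e2, card_singleton, card_singleton]
  · have hne := two_tri N h5 hy hz hrz h1 h2
    have e1 : N.cn b y = ({N.rot b y, z} : Finset κ).card := by
      apply cn_eq_of
      intro c
      rw [mem_insert, mem_singleton]
      constructor
      · rintro ⟨hc, hyc⟩
        rcases common N hy hz hrz hc hyc with h | h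
        · exact Or.inl h.1
        · exact Or.inr h.1
      · rintro (rfl | rfl)
        · exact ⟨N.rot_adj hy, (N.tri_of hy h1).1⟩
        · have := (N.tri_of hz h2).1
          rw [hrz] at this
          exact ⟨hz, N.symm this⟩
    have e2 : (N.wd b).filter (fun w => w = y ∨ N.rot b w = y) = ∅ := by
      ext w
      rw [hfil]
      simp only [notMem_empty, iff_false]
      tauto
    rw [e1, e2, card_pair hne, card_empty]

theorem thin_iff {b y : κ} (hy : N.adj b y) : N.Thin b y ↔ N.cn b y = 0 := by
  classical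
  unfold cn Thin
  rw [card_eq_zero, filter_eq_empty_iff]
  constructor
  · rintro ⟨-, h⟩ z - ⟨h1, h2⟩
    exact h z (N.symm h1) (N.symm h2)
  · intro h
    exact ⟨hy, fun z h1 h2 => h (mem_univ z) ⟨N.symm h1, N.symm h2⟩⟩

omit [Fintype κ] [DecidableEq κ] in
theorem thin_win {b y : κ} (h : N.Thin b y) : N.win b y := by
  by_contra hw
  exact h.2 _ (N.symm (N.rot_adj h.1)) (N.symm (N.tri_of h.1 hw).1)

omit [Fintype κ] [DecidableEq κ] in
theorem thin_win' {b y z : κ} (h : N.Thin b y) (hz : N.adj b z) (hrz : N.rot b z = y) :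
    N.win b z := by
  by_contra hw
  have := (N.tri_of hz hw).1
  rw [hrz] at this
  exact h.2 _ (N.symm hz) this

omit [Fintype κ] [DecidableEq κ] in
theorem thin_of_win {b y z : κ} (hy : N.adj b y) (hw : N.win b y) (hz : N.adj b z)
    (hrz : N.rot b z = y) (hwz : N.win b z) : N.Thin b y := by
  refine ⟨hy, fun c hc hcy => ?_⟩
  rcases common N hy hz hrz (N.symm hc) (N.symm hcy) with h | h
  · exact h.2 hw
  · exact h.2 hwz

end CNT

open CNT in
theorem m_CNT : StCnt := by
  classical
  intro κ _ _ N h5
  -- the finsets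
  have ht : ∀ b, N.t b = ((N.wd b).filter (fun y => N.Thin b y)).card := by
    intro b
    unfold Nerve.t
    congr 1
    ext y
    rw [mem_filter, mem_filter, mem_wd]
    constructor
    · rintro ⟨-, h⟩
      exact ⟨⟨h.1, thin_win N h⟩, h⟩
    · rintro ⟨-, h⟩
      exact ⟨mem_univ _, h⟩
  have ha : ∀ b, N.a b = (N.wd b).card := by
    intro b
    unfold Nerve.a Nerve.wd
    rfl
  have hinj : ∀ b, Set.InjOn (N.rot b) (N.wd b : Set κ) := by
    intro b x hx y hy hxy
    exact N.rot_inj ((mem_wd N).1 (mem_coe.1 hx)).1 ((mem_wd N).1 (mem_coe.1 hy)).1 hxy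
  have hcard : ∀ b, ((N.wd b).image (N.rot b)).card = N.a b := by
    intro b
    rw [ha, card_image_of_injOn (hinj b)]
  -- the intersection of `wd` and its image is the set of thin neighbours
  have hint : ∀ b, (N.wd b) ∩ (N.wd b).image (N.rot b) = (N.wd b).filter (fun y => N.Thin b y) := by
    intro b
    ext y
    rw [mem_inter, mem_image, mem_filter]
    constructor
    · rintro ⟨h1, z, hz, hrz⟩
      have h1' := (mem_wd N).1 h1
      have hz' := (mem_wd N).1 hz
      exact ⟨h1, thin_of_win N h1'.1 h1'.2 hz'.1 hrz hz'.2⟩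
    · rintro ⟨h1, h2⟩
      obtain ⟨z, hz, hrz⟩ := N.exists_rot h2.1
      exact ⟨h1, z, (mem_wd N).2 ⟨hz, thin_win' N h2 hz hrz⟩, hrz⟩
  have h3 : ∀ b, N.t b ≤ N.a b := by
    intro b
    rw [ht, ha]
    exact card_le_card (filter_subset _ _)
  have h5' : ∀ b, 1 ≤ N.a b → N.t b = N.a b → N.G b = N.a b := by
    intro b hb hta
    have e1 : (N.wd b) ∩ (N.wd b).image (N.rot b) = (N.wd b).image (N.rot b) := by
      apply eq_of_subset_of_card_le inter_subset_right
      rw [hcard, hint, ← ht, hta]
    have hcl : ∀ y ∈ N.wd b, N.rot b y ∈ N.wd b := by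
      intro y hy
      have : N.rot b y ∈ (N.wd b) ∩ (N.wd b).image (N.rot b) := by
        rw [e1]
        exact mem_image_of_mem _ hy
      exact (mem_inter.1 this).1
    rw [ha] at hb
    obtain ⟨y, hy⟩ := card_pos.1 hb
    have hall : ∀ z, N.adj b z → z ∈ N.wd b :=
      N.rot_ind (P := fun z => z ∈ N.wd b) ((mem_wd N).1 hy).1 hy (fun z _ hz => hcl z hz)
    rw [ha]
    exact N.G_eq_of (fun z => ⟨hall z, fun h => ((mem_wd N).1 h).1⟩)
  refine ⟨?_, fun b y hy => thin_iff N hy, h3, ?_, h5', ?_⟩
  · intro b y hy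
    have := cnt1 N h5 hy
    have h' : (((N.wd b).filter (fun w => w = y ∨ N.rot b w = y)).card : ℚ) + (N.cn b y : ℚ) = 2 := by
      exact_mod_cast this
    linarith
  · intro b
    have h1 : (N.wd b ∪ (N.wd b).image (N.rot b)).card ≤ N.G b := by
      unfold Nerve.G
      apply card_le_card
      intro z hz
      rw [mem_filter]
      refine ⟨mem_univ _, ?_⟩
      rcases mem_union.1 hz with h | h
      · exact ((mem_wd N).1 h).1
      · obtain ⟨y, hy, rfl⟩ := mem_image.1 h
        exact N.rot_adj ((mem_wd N).1 hy).1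
    have h2 := card_union_add_card_inter (N.wd b) ((N.wd b).image (N.rot b))
    rw [hcard, hint, ← ht, ← ha] at h2
    omega
  · intro b hb
    have h1 := h3 b
    by_contra h0
    have h2 : N.t b = N.a b := by omega
    have h3' := h5' b (by omega) h2
    have hb' := hb
    rw [ha, card_eq_one] at hb'
    obtain ⟨w, hw⟩ := hb'
    have hw' : w ∈ N.wd b := by rw [hw]; exact mem_singleton_self w
    have hw'' := (mem_wd N).1 hw'
    have := N.two_le_G (N.cor_of_win hw''.1 hw''.2)
    omega

end Pool.Agent.Helper26.OC
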