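import Pool.Agent.Helper26.OC.M_LOWc

/-!
# Windows with at most two long corners: module LOWB
-/

set_option autoImplicit false
set_option linter.unusedSectionVars false

open Finset

namespace Pool.Agent.Helper26.OC

namespace Nerve

namespace Low

variable {κ : Type} [Fintype κ] [DecidableEq κ] (N : Nerve κ)

/-! ### Weights of corners with `a = 1` -/

section weights

variable {T : Finset κ} {r : ℚ} {u b w : κ}

theorem w_far (hb : b ∉ T) (ha : N.a b = 1) (hS : ¬ N.S b) (hr : 1 ≤ r) : 1 ≤ N.wt r T u b w := by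
  rw [N.wt_far hb]
  exact N.one_le_wf (by omega) hS (fun h => by have := h.1; omega) hr

theorem w_far2 (hT : N.Clq T) (hb : b ∉ T) (ha : N.a b = 1) {y z : κ} (hy : y ∈ T) (hz : z ∈ T)
    (hyz : y ≠ z) (h1 : N.adj b y) (h2 : N.adj b z) : 1 ≤ N.wt r T u b w := by
  rw [N.wt_far hb]
  have e1 := N.nu_two hy hz hyz h1 h2
  have e2 := N.nu_le hT hb
  have e3 : N.nu T b = 2 := by omega
  unfold wf
  rw [if_pos ha, if_pos e3, if_neg (show ¬ N.nu T b = 0 by omega),
    if_neg (show ¬ N.nu T b = 1 by omega)]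
  split_ifs <;> norm_num

theorem w_far32 (hb : b ∉ T) (ha : N.a b = 1) (hS : ¬ N.S b) {y z : κ} (hy : y ∈ T) (hz : z ∈ T)
    (hyz : y ≠ z) (h1 : N.adj b y) (h2 : N.adj b z) : 3 / 2 ≤ N.wt r T u b w := by
  rw [N.wt_far hb]
  have e1 := N.nu_two hy hz hyz h1 h2
  unfold wf
  rw [if_pos ha, if_neg (show ¬ N.G b ≤ 3 from fun h => hS ⟨ha, h⟩),
    if_neg (show ¬ N.nu T b = 0 by omega), if_neg (show ¬ N.nu T b = 1 by omega)]

theorem w_nearS (hb : b ∈ T) (hc : T.card = 2) (hS : N.S b) : N.wt r T u b w = 2 := by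
  rw [N.wt_near hb]
  unfold wn
  rw [if_neg (by omega), if_pos hc, if_pos hS.1, if_pos hS.2]

theorem w_near3 (hb : b ∈ T) (hc : 3 ≤ T.card) : 1 / 2 ≤ N.wt r T u b w := by
  rw [N.wt_near hb]
  unfold wn
  rw [if_neg (by omega), if_neg (by omega)]
  split_ifs <;> norm_num

theorem w_near3S (hb : b ∈ T) (hc : 3 ≤ T.card) (hS : N.S b) : N.wt r T u b w = 1 := by
  rw [N.wt_near hb]
  unfold wn
  rw [if_neg (by omega), if_neg (by omega), if_pos ⟨hS.1, hS.2⟩]

theorem w_near (hb : b ∈ T) (hc : 2 ≤ T.card) (ha : N.a b = 1) (hu : u ∉ T) (hw : w ∉ T) :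
    1 / 2 ≤ N.wt r T u b w := by
  by_cases h2 : T.card = 2
  · rw [N.wt_near hb]
    have hno : ¬ (u ∈ T ∨ w ∈ T) := by
      rintro (h | h)
      · exact hu h
      · exact hw h
    unfold wn
    rw [if_neg (by omega), if_pos h2, if_pos ha, if_neg hno]
    split_ifs <;> norm_num
  · exact w_near3 N hb (by omega)

theorem w_nearQ (hb : b ∈ T) (hc : T.card = 2) (hQ : N.Q b) (hu : u ∉ T) (hw : w ∉ T) :
    1 ≤ N.wt r T u b w := by
  rw [N.wt_near hb]
  have hno : ¬ (u ∈ T ∨ w ∈ T) := by
    rintro (h | h)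
    · exact hu h
    · exact hw h
  have h3 : ¬ N.G b ≤ 3 := by have := hQ.2; omega
  unfold wn
  rw [if_neg (by omega), if_pos hc, if_pos hQ.1, if_neg h3, if_neg hno, if_pos hQ.2]

end weights

variable {k : ℕ} {f : ℕ → κ} {T : Finset κ} {r : ℚ}

/-- the first terms -/
theorem TF_three (hk : 5 ≤ k) (hr : 0 ≤ r) :
    N.wt r T (f 0) (f 1) (f 2) +
    (N.wt r T (f 1) (f 2) (f 3) + (if f 1 ∈ T ∧ f 2 ∈ T then 1 else 0)) +
    (N.wt r T (f 2) (f 3) (f 4) + (if f 2 ∈ T ∧ f 3 ∈ T then 1 else 0)) ≤ N.TF r T k f := by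
  classical
  have nn : ∀ i, 0 ≤ N.wt r T (f i) (f (i + 1)) (f (i + 2)) +
      (if f i ∈ T ∧ f (i + 1) ∈ T then (1 : ℚ) else 0) := by
    intro i
    have := N.wt_nonneg (T := T) (u := f i) (b := f (i + 1)) (w := f (i + 2)) hr
    split_ifs <;> linarith
  have h1 : ∑ i ∈ range 3, (N.wt r T (f i) (f (i + 1)) (f (i + 2)) +
      (if f i ∈ T ∧ f (i + 1) ∈ T then (1 : ℚ) else 0)) ≤ N.TF r T k f := by
    unfold TF
    exact sum_le_sum_of_subset_of_nonneg (range_subset_range.2 (by omega)) (fun i _ _ => nn i)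
  rw [sum_range_succ, sum_range_succ, sum_range_succ, sum_range_zero, zero_add] at h1
  have h2 : (0 : ℚ) ≤ (if f 0 ∈ T ∧ f (0 + 1) ∈ T then (1 : ℚ) else 0) := by
    split_ifs <;> norm_num
  norm_num at h1 h2 ⊢
  linarith

/-- four chosen terms -/
theorem TF_four {m r1 r2 : ℕ} (h1 : r1 < m) (h2 : m < r2) (h3 : r2 + 1 < k) (hr : 0 ≤ r)
    {w1 w2 wv wu : ℚ} (e1 : w1 ≤ N.wt r T (f r1) (f (r1 + 1)) (f (r1 + 2)))
    (ev : wv ≤ N.wt r T (f m) (f (m + 1)) (f (m + 2)))
    (e2 : w2 ≤ N.wt r T (f r2) (f (r2 + 1)) (f (r2 + 2)))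
    (eu : wu ≤ N.wt r T (f (k - 1)) (f (k - 1 + 1)) (f (k - 1 + 2))) :
    w1 + wv + w2 + wu ≤ N.TF r T k f := by
  classical
  have nn : ∀ i, 0 ≤ N.wt r T (f i) (f (i + 1)) (f (i + 2)) +
      (if f i ∈ T ∧ f (i + 1) ∈ T then (1 : ℚ) else 0) := by
    intro i
    have := N.wt_nonneg (T := T) (u := f i) (b := f (i + 1)) (w := f (i + 2)) hr
    split_ifs <;> linarith
  have le1 : ∀ i, N.wt r T (f i) (f (i + 1)) (f (i + 2)) ≤
      N.wt r T (f i) (f (i + 1)) (f (i + 2)) +
      (if f i ∈ T ∧ f (i + 1) ∈ T then (1 : ℚ) else 0) := by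
    intro i
    split_ifs <;> linarith
  have hs : ∑ i ∈ ({r1, m, r2, k - 1} : Finset ℕ), (N.wt r T (f i) (f (i + 1)) (f (i + 2)) +
      (if f i ∈ T ∧ f (i + 1) ∈ T then (1 : ℚ) else 0)) ≤ N.TF r T k f := by
    unfold TF
    refine sum_le_sum_of_subset_of_nonneg ?_ (fun i _ _ => nn i)
    intro i hi
    simp only [mem_insert, mem_singleton] at hi
    rw [mem_range]
    omega
  rw [sum_insert, sum_insert, sum_insert, sum_singleton] at hs
  · have := le1 r1
    have := le1 m
    have := le1 r2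
    have := le1 (k - 1)
    linarith
  all_goals
    simp only [mem_insert, mem_singleton, not_or]
    omega

/-- a short corner in `T` -/
theorem TF_short (h : N.IsWin k f) (ha : ∀ i, N.a (f i) = 1) (hr : 0 ≤ r) (hT : N.Clq T)
    (hc : 2 ≤ T.card) (hx : f 2 ∈ T) (hS : N.S (f 2)) :
    3 ≤ N.TF r T k f ∧ ((¬ N.S (f 1) → N.adj (f 1) (f 3)) → (¬ N.S (f 3) → N.adj (f 1) (f 3)) →
      4 ≤ N.TF r T k f) := by
  classical
  have hk := h.five
  have hsum := TF_three N (f := f) (T := T) hk hr
  have hcr : N.Cr (f 1) (f 2) (f 3) := (h.cor 1).cr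
  have n12 : f 1 ≠ f 2 := f_ne N h (by omega) (by omega)
  have n23 : f 2 ≠ f 3 := f_ne N h (by omega) (by omega)
  have n13 : f 1 ≠ f 3 := f_ne N h (by omega) (by omega)
  have e21 : N.adj (f 2) (f 1) := N.symm (win_edge N h 1).1
  have e23 : N.adj (f 2) (f 3) := (win_edge N h 2).1
  have c3 := hT.card_le N
  have W1 : 0 ≤ N.wt r T (f 0) (f 1) (f 2) := N.wt_nonneg hr
  have W2 : 0 ≤ N.wt r T (f 1) (f 2) (f 3) := N.wt_nonneg hr
  have W3 : 0 ≤ N.wt r T (f 2) (f 3) (f 4) := N.wt_nonneg hr
  have I1 : (0 : ℚ) ≤ (if f 1 ∈ T ∧ f 2 ∈ T then 1 else 0) := by split_ifs <;> norm_num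
  have I2 : (0 : ℚ) ≤ (if f 2 ∈ T ∧ f 3 ∈ T then 1 else 0) := by split_ifs <;> norm_num
  have I1' : f 1 ∈ T → (if f 1 ∈ T ∧ f 2 ∈ T then (1 : ℚ) else 0) = 1 := fun h => if_pos ⟨h, hx⟩
  have I2' : f 3 ∈ T → (if f 2 ∈ T ∧ f 3 ∈ T then (1 : ℚ) else 0) = 1 := fun h => if_pos ⟨hx, h⟩
  -- far corners with two marks
  have F1 : f 1 ∉ T → ∀ y ∈ T, y ≠ f 2 → N.adj (f 1) y → 1 ≤ N.wt r T (f 0) (f 1) (f 2) :=
    fun hb y hy hne hya => w_far2 N hT hb (ha 1) hy hx hne hya (N.symm e21)
  have F3 : f 3 ∉ T → ∀ y ∈ T, y ≠ f 2 → N.adj (f 3) y → 1 ≤ N.wt r T (f 2) (f 3) (f 4) :=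
    fun hb y hy hne hya => w_far2 N hT hb (ha 3) hy hx hne hya (N.symm e23)
  rcases (by omega : T.card = 2 ∨ T.card = 3) with hc2 | hc3
  · -- two marks
    have hW2 : N.wt r T (f 1) (f 2) (f 3) = 2 := w_nearS N hx hc2 hS
    obtain ⟨y, hyT, hy2⟩ : ∃ y ∈ T, y ≠ f 2 := by
      obtain ⟨y, hy⟩ := Finset.exists_mem_ne (by omega : 1 < T.card) (f 2)
      exact ⟨y, hy.1, hy.2⟩
    have hT2 : ∀ z ∈ T, z = f 2 ∨ z = y := by
      intro z hz
      by_contra hcon
      push Not at hcon
      have : ({f 2, y, z} : Finset κ) ⊆ T := by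
        intro v hv
        simp only [mem_insert, mem_singleton] at hv
        rcases hv with rfl | rfl | rfl
        · exact hx
        · exact hyT
        · exact hz
      have h1 := card_le_card this
      rw [card_insert_of_notMem, card_pair hcon.2.symm] at h1
      · omega
      · simp only [mem_insert, mem_singleton, not_or]; exact ⟨hy2.symm, hcon.1.symm⟩
    have hya : N.adj (f 2) y := hT _ hx _ hyT hy2.symm
    rcases Cr.S_cases N hcr hS with ⟨h13, hN⟩ | ⟨p, hp, h1p, h3p, h13, hp1, hp3, hN⟩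
    · rcases (hN y).1 hya with e | e
      · have h3T : f 3 ∉ T := by
          intro hc; rcases hT2 _ hc with e' | e'
          · exact n23 e'.symm
          · exact n13 (e.symm.trans e'.symm)
        have := F3 h3T y hyT hy2 (by rw [e]; exact N.symm h13)
        have := I1' (e ▸ hyT)
        exact ⟨by linarith, fun _ _ => by linarith⟩
      · have h3T : f 1 ∉ T := by
          intro hc; rcases hT2 _ hc with e' | e'
          · exact n12 e'
          · exact n13 (e'.trans e)
        have := F1 h3T y hyT hy2 (by rw [e]; exact h13)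
        have := I2' (e ▸ hyT)
        exact ⟨by linarith, fun _ _ => by linarith⟩
    · rcases (hN y).1 hya with e | e | e
      · have i1 := I1' (e ▸ hyT)
        refine ⟨by linarith, fun h1 _ => ?_⟩
        by_cases hS1 : N.S (f 1)
        · have : N.wt r T (f 0) (f 1) (f 2) = 2 := w_nearS N (e ▸ hyT) hc2 hS1
          linarith
        · exact absurd (h1 hS1) h13
      · have h1T : f 1 ∉ T := by
          intro hc; rcases hT2 _ hc with e' | e'
          · exact n12 e'
          · exact hp1 (e.symm.trans e'.symm)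
        have h3T : f 3 ∉ T := by
          intro hc; rcases hT2 _ hc with e' | e'
          · exact n23 e'.symm
          · exact hp3 (e.symm.trans e'.symm)
        have := F1 h1T y hyT hy2 (by rw [e]; exact h1p)
        have := F3 h3T y hyT hy2 (by rw [e]; exact h3p)
        exact ⟨by linarith, fun _ _ => by linarith⟩
      · have i2 := I2' (e ▸ hyT)
        refine ⟨by linarith, fun _ h1 => ?_⟩
        by_cases hS1 : N.S (f 3)
        · have : N.wt r T (f 2) (f 3) (f 4) = 2 := w_nearS N (e ▸ hyT) hc2 hS1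
          linarith
        · exact absurd (h1 hS1) h13
  · -- three marks
    have hW2 : N.wt r T (f 1) (f 2) (f 3) = 1 := w_near3S N hx hc3.ge hS
    have hTe : (T.erase (f 2)).card = 2 := by rw [card_erase_of_mem hx]; omega
    rw [card_eq_two] at hTe
    obtain ⟨y, z, hyz, hyzT⟩ := hTe
    have hy : y ∈ T.erase (f 2) := by rw [hyzT]; exact mem_insert_self _ _
    have hz : z ∈ T.erase (f 2) := by rw [hyzT]; exact mem_insert_of_mem (mem_singleton_self _)
    rw [mem_erase] at hy hz
    have hTm : ∀ v ∈ T, v = f 2 ∨ v = y ∨ v = z := by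
      intro v hv
      by_cases h1 : v = f 2
      · exact Or.inl h1
      · have : v ∈ T.erase (f 2) := mem_erase.2 ⟨h1, hv⟩
        rw [hyzT, mem_insert, mem_singleton] at this
        exact Or.inr this
    have hya : N.adj (f 2) y := hT _ hx _ hy.2 hy.1.symm
    have hza : N.adj (f 2) z := hT _ hx _ hz.2 hz.1.symm
    have hyza : N.adj y z := hT _ hy.2 _ hz.2 hyz
    rcases Cr.S_cases N hcr hS with ⟨h13, hN⟩ | ⟨p, hp, h1p, h3p, h13, hp1, hp3, hN⟩
    · -- both window neighbours
      have h1T : f 1 ∈ T ∧ f 3 ∈ T := by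
        rcases (hN y).1 hya with e | e <;> rcases (hN z).1 hza with e' | e'
        · exact absurd (e.trans e'.symm) hyz
        · exact ⟨e ▸ hy.2, e' ▸ hz.2⟩
        · exact ⟨e' ▸ hz.2, e ▸ hy.2⟩
        · exact absurd (e.trans e'.symm) hyz
      have i1 := I1' h1T.1
      have i2 := I2' h1T.2
      have v1 : 1 / 2 ≤ N.wt r T (f 0) (f 1) (f 2) := w_near3 N h1T.1 hc3.ge
      have v3 : 1 / 2 ≤ N.wt r T (f 2) (f 3) (f 4) := w_near3 N h1T.2 hc3.ge
      exact ⟨by linarith, fun _ _ => by linarith⟩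
    · -- the hub and one window neighbour
      have hcase : (p ∈ T ∧ f 1 ∈ T ∧ f 3 ∉ T) ∨ (p ∈ T ∧ f 3 ∈ T ∧ f 1 ∉ T) := by
        have key : ∀ y z : κ, y ∈ T → z ∈ T → y ≠ z → N.adj y z →
            (∀ v ∈ T, v = f 2 ∨ v = y ∨ v = z) → (y = f 1 ∨ y = p ∨ y = f 3) →
            (z = f 1 ∨ z = p ∨ z = f 3) →
            (p ∈ T ∧ f 1 ∈ T ∧ f 3 ∉ T) ∨ (p ∈ T ∧ f 3 ∈ T ∧ f 1 ∉ T) := by
          intro y z hy hz hyz hyza hTm h1 h2
          rcases h1 with e | e | e <;> rcases h2 with e' | e' | e'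
          · exact absurd (e.trans e'.symm) hyz
          · left
            refine ⟨e' ▸ hz, e ▸ hy, fun h3 => ?_⟩
            rcases hTm _ h3 with g | g | g
            · exact n23 g.symm
            · exact n13 (g.trans e).symm
            · exact hp3 (g.trans e').symm
          · rw [e, e'] at hyza; exact absurd hyza h13
          · left
            refine ⟨e ▸ hy, e' ▸ hz, fun h3 => ?_⟩
            rcases hTm _ h3 with g | g | g
            · exact n23 g.symm
            · exact hp3 (g.trans e).symm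
            · exact n13 (g.trans e').symm
          · exact absurd (e.trans e'.symm) hyz
          · right
            refine ⟨e ▸ hy, e' ▸ hz, fun h3 => ?_⟩
            rcases hTm _ h3 with g | g | g
            · exact n12 g
            · exact hp1 (g.trans e).symm
            · exact n13 (g.trans e')
          · rw [e, e'] at hyza; exact absurd (N.symm hyza) h13
          · right
            refine ⟨e' ▸ hz, e ▸ hy, fun h3 => ?_⟩
            rcases hTm _ h3 with g | g | g
            · exact n12 g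
            · exact n13 (g.trans e)
            · exact hp1 (g.trans e').symm
          · exact absurd (e.trans e'.symm) hyz
        exact key y z hy.2 hz.2 hyz hyza hTm ((hN y).1 hya) ((hN z).1 hza)
      have hp2 : p ≠ f 2 := (N.ne_of_adj hp).symm
      rcases hcase with ⟨hpT, h1T, h3T⟩ | ⟨hpT, h3T, h1T⟩
      · have i1 := I1' h1T
        have v3 := F3 h3T p hpT hp2 h3p
        have v1 : 1 / 2 ≤ N.wt r T (f 0) (f 1) (f 2) := w_near3 N h1T hc3.ge
        refine ⟨by linarith, fun h1 _ => ?_⟩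
        by_cases hS1 : N.S (f 1)
        · have : N.wt r T (f 0) (f 1) (f 2) = 1 := w_near3S N h1T hc3.ge hS1
          linarith
        · exact absurd (h1 hS1) h13
      · have i2 := I2' h3T
        have v1 := F1 h1T p hpT hp2 h1p
        have v3 : 1 / 2 ≤ N.wt r T (f 2) (f 3) (f 4) := w_near3 N h3T hc3.ge
        refine ⟨by linarith, fun _ h1 => ?_⟩
        by_cases hS1 : N.S (f 3)
        · have : N.wt r T (f 2) (f 3) (f 4) = 1 := w_near3S N h3T hc3.ge hS1
          linarith
        · exact absurd (h1 hS1) h13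

section two

variable {j : ℕ} {p q : κ}

theorem Two.four_lt (D : Two N k j f p q) (hn : N.adj (f 0) (f j)) (hp : ∀ i, p ≠ f i) :
    4 ≤ j := by
  have h := D.win
  have hk := h.five
  have hj := D.hj
  have hj' := D.hj'
  have w := fun i => (win_edge N h i).1
  by_contra hc
  rcases (by omega : j = 2 ∨ j = 3) with e | e
  · subst e
    exact N.noK4 (w 0) hn (N.symm (D.adj_p N hp (i := 0) (by omega))) (w 1)
      (N.symm (D.adj_p N hp (i := 1) (by omega))) (N.symm (D.adj_p N hp (i := 2) (by omega)))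
  · subst e
    rcases N.noC4 (w 0) (w 1) (w 2) (N.symm hn) (f_ne N h (by omega) (by omega))
      (f_ne N h (by omega) (by omega)) with h1 | h1
    · rcases D.a3 2 (by omega) (by omega) _ (N.symm h1) with e' | e' | e'
      · exact f_ne N h (show 0 < 1 by omega) (by omega) e'
      · exact hp 0 e'.symm
      · exact f_ne N h (show 0 < 3 by omega) (by omega) e'
    · rcases D.a3 1 (by omega) (by omega) _ h1 with e' | e' | e'
      · exact f_ne N h (show 0 < 3 by omega) (by omega) e'.symm
      · exact hp _ e'.symm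
      · exact f_ne N h (show 2 < 3 by omega) (by omega) e'.symm

/-- a short corner of the first run with two marks `f 0`, `f j` -/
theorem Two.run_two (D : Two N k j f p q) (hn : N.adj (f 0) (f j)) (hp : p = f 0 ∨ p = f j) :
    ∃ i, 0 < i ∧ i < j ∧ N.adj (f i) (f 0) ∧ N.adj (f i) (f j) := by
  have h := D.win
  have hk := h.five
  have hj := D.hj
  have hj' := D.hj'
  have w := fun i => (win_edge N h i).1
  rcases hp with e | e
  · refine ⟨j - 1, by omega, by omega, ?_, ?_⟩
    · rcases D.a2 (j - 1) (by omega) with e' | e'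
      · rw [e] at e'; exact absurd e' (f_ne N h (by omega) (by omega))
      · rw [e] at e'; exact N.symm e'
    · have := w (j - 1)
      rwa [show j - 1 + 1 = j by omega] at this
  · refine ⟨1, by omega, by omega, N.symm (w 0), ?_⟩
    rcases D.a2 1 (by omega) with e' | e'
    · rw [e] at e'; exact absurd e'.symm (f_ne N h (by omega) (by omega))
    · rw [e] at e'; exact N.symm e'

theorem Two.Q0 (D : Two N k j f p q) (hn : ¬ N.adj (f 0) (f j)) : N.Q (f 0) := by
  have h := D.win
  have hk := h.five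
  have hj := D.hj
  have hj' := D.hj'
  have hp := D.off_p N hn
  have hq := D.off_q N hn
  have q0 := D.adj_q N hq (i := k) (by omega) le_rfl
  rw [D.perk] at q0
  exact Cr.Q_of4 N (D.cor0 N).cr (N.symm q0)
    (N.symm (D.adj_q N hq (i := k - 1) (by omega) (by omega)))
    (N.symm (D.adj_p N hp (i := 0) (by omega))) (N.symm (D.adj_p N hp (i := 1) (by omega)))
    (N.symm (D.hubs N hn)) (hq 1) (hp _)

theorem Two.Q0' (D : Two N k j f p q) (hn : N.adj (f 0) (f j)) (hp : ∀ i, p ≠ f i)
    (hk2 : k = j + 2) : N.Q (f 0) := by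
  have h := D.win
  have hk := h.five
  have hj := D.hj
  have h1 : N.adj (f j) (f (k - 1)) := by
    have := (win_edge N h j).1
    rwa [show k - 1 = j + 1 by omega]
  exact Cr.Q_of4 N (D.cor0 N).cr hn (N.symm h1)
    (N.symm (D.adj_p N hp (i := 0) (by omega))) (N.symm (D.adj_p N hp (i := 1) (by omega)))
    (N.symm (D.adj_p N hp (i := j) le_rfl)) (f_ne N h (by omega) (by omega)).symm (hp _)

theorem Two.Qj' (D : Two N k j f p q) (hn : N.adj (f 0) (f j)) (hp : ∀ i, p ≠ f i)
    (hk2 : k = j + 2) : N.Q (f j) := by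
  have h := D.win
  have hk := h.five
  have hj := D.hj
  have h1 : N.adj (f (j + 1)) (f 0) := by
    have := (win_edge N h (j + 1)).1
    rwa [show j + 1 + 1 = k by omega, D.perk] at this
  have hc := (h.cor (j - 1)).cr
  rw [show j - 1 + 1 = j by omega, show j - 1 + 2 = j + 1 by omega] at hc
  exact Cr.Q_of4 N hc (N.symm (D.adj_p N hp (i := j) le_rfl))
    (N.symm (D.adj_p N hp (i := j - 1) (by omega))) (N.symm hn) h1
    (D.adj_p N hp (i := 0) (by omega)) (hp _) (f_ne N h (by omega) (by omega))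

/-- the sum over a window with two long corners -/
theorem Two.TF_ge (D : Two N k j f p q) (hr : 0 ≤ r) {w1 w2 wv wu : ℚ}
    (e1 : ∃ i, 0 < i ∧ i < j ∧ w1 ≤ N.wt r T (f (i - 1)) (f i) (f (i + 1)))
    (ev : w2 ≤ N.wt r T (f (j - 1)) (f j) (f (j + 1)))
    (e2 : ∃ i, j < i ∧ i < k ∧ wv ≤ N.wt r T (f (i - 1)) (f i) (f (i + 1)))
    (eu : wu ≤ N.wt r T (f (k - 1)) (f 0) (f 1)) :
    w1 + w2 + wv + wu ≤ N.TF r T k f := by
  have h := D.win
  have hk := h.five
  have hj := D.hj
  have hj' := D.hj'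
  obtain ⟨i1, a1, a2, a3⟩ := e1
  obtain ⟨i2, b1, b2, b3⟩ := e2
  have e1' : f (k + 1) = f 1 := by
    have := D.win.per 1
    rwa [add_comm 1 k] at this
  refine TF_four N (m := j - 1) (r1 := i1 - 1) (r2 := i2 - 1) (by omega) (by omega) (by omega) hr
    ?_ ?_ ?_ ?_
  · rwa [show i1 - 1 + 1 = i1 by omega, show i1 - 1 + 2 = i1 + 1 by omega]
  · rwa [show j - 1 + 1 = j by omega, show j - 1 + 2 = j + 1 by omega]
  · rwa [show i2 - 1 + 1 = i2 by omega, show i2 - 1 + 2 = i2 + 1 by omega]
  · rwa [show k - 1 + 1 = k by omega, show k - 1 + 2 = k + 1 by omega, D.perk, e1']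

/-- members of `T` if no short corner is in `T` -/
theorem Two.mem_T (D : Two N k j f p q) (hno : ∀ i, 0 < i → i < k → i ≠ j → f i ∉ T) {z : κ}
    (hz : z ∈ T) : z = f 0 ∨ z = f j ∨ (z = p ∧ ∀ i, p ≠ f i) ∨ (z = q ∧ ∀ i, q ≠ f i) := by
  have h := D.win
  have hk := h.five
  have onW : ∀ i, z = f i → z = f 0 ∨ z = f j := by
    intro i hi
    rw [← mod_eq N h i] at hi
    have hik := Nat.mod_lt i (show 0 < k by omega)
    generalize i % k = i at hi hik
    by_cases h0 : i = 0
    · left; rw [hi, h0]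
    by_cases h1 : i = j
    · right; rw [hi, h1]
    · exact absurd (hi ▸ hz) (hno i (by omega) hik h1)
  by_cases hW : ∃ i, z = f i
  · obtain ⟨i, hi⟩ := hW
    rcases onW i hi with h1 | h1
    · exact Or.inl h1
    · exact Or.inr (Or.inl h1)
  push Not at hW
  rcases D.all N z with e | e | ⟨i, hi⟩
  · right; right; left
    exact ⟨e, fun i => e ▸ hW i⟩
  · right; right; right
    exact ⟨e, fun i => e ▸ hW i⟩
  · exact absurd hi (hW i)

theorem Two.no_swap (D : Two N k j f p q) (hno : ∀ i, 0 < i → i < k → i ≠ j → f i ∉ T) :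
    ∀ i, 0 < i → i < k → i ≠ k - j → (fun i => f (i + j)) i ∉ T := by
  have hj := D.hj
  have hj' := D.hj'
  intro i h1 h2 h3
  show f (i + j) ∉ T
  rcases Nat.lt_or_ge (i + j) k with h4 | h4
  · exact hno _ (by omega) h4 (by omega)
  · have := D.win.per (i + j - k)
    rw [show i + j - k + k = i + j by omega] at this
    rw [this]
    exact hno _ (by omega) (by omega) (by omega)

theorem exists_other (hc : 2 ≤ T.card) (x : κ) : ∃ y ∈ T, y ≠ x := by
  obtain ⟨y, hy⟩ := Finset.exists_mem_ne (by omega : 1 < T.card) x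
  exact ⟨y, hy.1, hy.2⟩

/-- `f 0` near, `f j` far -/
theorem Two.B0 (D : Two N k j f p q) (ha : ∀ i, N.a (f i) = 1) (hr : 1 ≤ r) (hT : N.Clq T)
    (hc : 2 ≤ T.card) (hno : ∀ i, 0 < i → i < k → i ≠ j → f i ∉ T) (h0 : f 0 ∈ T)
    (hjT : f j ∉ T) : 3 ≤ N.TF r T k f := by
  classical
  have h := D.win
  have hk := h.five
  have hj := D.hj
  have hj' := D.hj'
  have w := fun i => (win_edge N h i).1
  have hT0 : ∀ i, 0 ≤ N.wt r T (f (i - 1)) (f i) (f (i + 1)) :=
    fun i => N.wt_nonneg (by linarith)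
  have nu0 : 1 / 2 ≤ N.wt r T (f (k - 1)) (f 0) (f 1) :=
    w_near N h0 hc (ha 0) (hno _ (by omega) (by omega) (by omega))
      (hno _ (by omega) (by omega) (by omega))
  have nv0 : 1 ≤ N.wt r T (f (j - 1)) (f j) (f (j + 1)) := w_far N hjT (ha j) D.longj hr
  -- short corners with two marks
  have s1 : (∀ i, p ≠ f i) → p ∈ T → 1 ≤ N.wt r T (f (1 - 1)) (f 1) (f (1 + 1)) := by
    intro hp hpT
    exact w_far2 N hT (hno _ (by omega) (by omega) (by omega)) (ha 1) h0 hpT (hp 0).symm
      (N.symm (w 0)) (N.symm (D.adj_p N hp (by omega)))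
  have s2 : (∀ i, q ≠ f i) → q ∈ T →
      1 ≤ N.wt r T (f (k - 1 - 1)) (f (k - 1)) (f (k - 1 + 1)) := by
    intro hq hqT
    refine w_far2 N hT (hno _ (by omega) (by omega) (by omega)) (ha _) h0 hqT (hq 0).symm
      ?_ (N.symm (D.adj_q N hq (by omega) (by omega)))
    have := w (k - 1)
    rwa [show k - 1 + 1 = k by omega, D.perk] at this
  have ap : (∀ i, p ≠ f i) → N.adj (f j) p := fun hp => N.symm (D.adj_p N hp le_rfl)
  have aq : (∀ i, q ≠ f i) → N.adj (f j) q :=
    fun hq => N.symm (D.adj_q N hq le_rfl (by omega))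
  obtain ⟨z, hz, hz0⟩ := exists_other hc (f 0)
  by_cases hn : N.adj (f 0) (f j)
  · rcases D.mem_T N hno hz with e | e | ⟨e, hp⟩ | ⟨e, hq⟩
    · exact absurd e hz0
    · exact absurd (e ▸ hz) hjT
    · rw [e] at hz
      have v : 3 / 2 ≤ N.wt r T (f (j - 1)) (f j) (f (j + 1)) :=
        w_far32 N hjT (ha j) D.longj h0 hz (hp 0).symm (N.symm hn) (ap hp)
      have := D.TF_ge N (T := T) (r := r) (by linarith) (w1 := 1) (w2 := 3 / 2) (wv := 0)
        (wu := 1 / 2) ⟨1, by omega, by omega, s1 hp hz⟩ v ⟨k - 1, by omega, by omega, hT0 _⟩ nu0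
      linarith
    · rw [e] at hz
      have v : 3 / 2 ≤ N.wt r T (f (j - 1)) (f j) (f (j + 1)) :=
        w_far32 N hjT (ha j) D.longj h0 hz (hq 0).symm (N.symm hn) (aq hq)
      have := D.TF_ge N (T := T) (r := r) (by linarith) (w1 := 0) (w2 := 3 / 2) (wv := 1)
        (wu := 1 / 2) ⟨1, by omega, by omega, hT0 _⟩ v ⟨k - 1, by omega, by omega, s2 hq hz⟩ nu0
      linarith
  · have hp := D.off_p N hn
    have hq := D.off_q N hn
    by_cases hpT : p ∈ T
    · by_cases hqT : q ∈ T
      · have v : 3 / 2 ≤ N.wt r T (f (j - 1)) (f j) (f (j + 1)) :=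
          w_far32 N hjT (ha j) D.longj hpT hqT (D.p_ne_q N hp hq) (ap hp) (aq hq)
        have := D.TF_ge N (T := T) (r := r) (by linarith) (w1 := 1) (w2 := 3 / 2) (wv := 1)
          (wu := 1 / 2) ⟨1, by omega, by omega, s1 hp hpT⟩ v
          ⟨k - 1, by omega, by omega, s2 hq hqT⟩ nu0
        linarith
      · have hc2 : T.card = 2 := by
          have : T ⊆ {f 0, p} := by
            intro v hv
            rw [mem_insert, mem_singleton]
            rcases D.mem_T N hno hv with e | e | ⟨e, -⟩ | ⟨e, -⟩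
            · exact Or.inl e
            · exact absurd (e ▸ hv) hjT
            · exact Or.inr e
            · exact absurd (e ▸ hv) hqT
          have h1 := card_le_card this
          have h2 : ({f 0, p} : Finset κ).card ≤ 2 := card_le_two
          omega
        have u : 1 ≤ N.wt r T (f (k - 1)) (f 0) (f 1) :=
          w_nearQ N h0 hc2 (D.Q0 N hn) (hno _ (by omega) (by omega) (by omega))
            (hno _ (by omega) (by omega) (by omega))
        have := D.TF_ge N (T := T) (r := r) (by linarith) (w1 := 1) (w2 := 1) (wv := 0)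
          (wu := 1) ⟨1, by omega, by omega, s1 hp hpT⟩ nv0
          ⟨k - 1, by omega, by omega, hT0 _⟩ u
        linarith
    · have hqT : q ∈ T := by
        rcases D.mem_T N hno hz with e | e | ⟨e, -⟩ | ⟨e, -⟩
        · exact absurd e hz0
        · exact absurd (e ▸ hz) hjT
        · exact absurd (e ▸ hz) hpT
        · exact e ▸ hz
      have hc2 : T.card = 2 := by
        have : T ⊆ {f 0, q} := by
          intro v hv
          rw [mem_insert, mem_singleton]
          rcases D.mem_T N hno hv with e | e | ⟨e, -⟩ | ⟨e, -⟩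
          · exact Or.inl e
          · exact absurd (e ▸ hv) hjT
          · exact absurd (e ▸ hv) hpT
          · exact Or.inr e
        have h1 := card_le_card this
        have h2 : ({f 0, q} : Finset κ).card ≤ 2 := card_le_two
        omega
      have u : 1 ≤ N.wt r T (f (k - 1)) (f 0) (f 1) :=
        w_nearQ N h0 hc2 (D.Q0 N hn) (hno _ (by omega) (by omega) (by omega))
          (hno _ (by omega) (by omega) (by omega))
      have := D.TF_ge N (T := T) (r := r) (by linarith) (w1 := 0) (w2 := 1) (wv := 1)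
        (wu := 1) ⟨1, by omega, by omega, hT0 _⟩ nv0
        ⟨k - 1, by omega, by omega, s2 hq hqT⟩ u
      linarith

/-- both long corners near, `q` on the window -/
theorem Two.B2 (D : Two N k j f p q) (ha : ∀ i, N.a (f i) = 1) (hr : 1 ≤ r) (hT : N.Clq T)
    (hc : 2 ≤ T.card) (hno : ∀ i, 0 < i → i < k → i ≠ j → f i ∉ T) (h0 : f 0 ∈ T)
    (hjT : f j ∈ T) (hq : q = f 0 ∨ q = f j) : 9 ≤ (k : ℚ) + N.TF r T k f := by
  classical
  have h := D.win
  have hk := h.five
  have hj := D.hj
  have hj' := D.hj'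
  have w := fun i => (win_edge N h i).1
  have hne : f 0 ≠ f j := f_ne N h (by omega) (by omega)
  have hn : N.adj (f 0) (f j) := hT _ h0 _ hjT hne
  have hT0 : ∀ i, 0 ≤ N.wt r T (f (i - 1)) (f i) (f (i + 1)) :=
    fun i => N.wt_nonneg (by linarith)
  have nu0 : 1 / 2 ≤ N.wt r T (f (k - 1)) (f 0) (f 1) :=
    w_near N h0 hc (ha 0) (hno _ (by omega) (by omega) (by omega))
      (hno _ (by omega) (by omega) (by omega))
  have nv0 : 1 / 2 ≤ N.wt r T (f (j - 1)) (f j) (f (j + 1)) :=
    w_near N hjT hc (ha j) (hno _ (by omega) (by omega) (by omega))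
      (hno _ (by omega) (by omega) (by omega))
  -- the second run
  have s2 : ∃ i, j < i ∧ i < k ∧ 1 ≤ N.wt r T (f (i - 1)) (f i) (f (i + 1)) := by
    rcases hq with e | e
    · refine ⟨j + 1, by omega, by omega, w_far2 N hT (hno _ (by omega) (by omega) (by omega))
        (ha _) h0 hjT hne ?_ (N.symm (w j))⟩
      rcases D.b2 (j + 1) (by omega) (by omega) with e' | e'
      · rw [e] at e'; exact absurd e' (f_ne N h (by omega) (by omega))
      · rw [e] at e'; exact N.symm e'
    · refine ⟨k - 1, by omega, by omega, w_far2 N hT (hno _ (by omega) (by omega) (by omega))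
        (ha _) h0 hjT hne ?_ ?_⟩
      · have := w (k - 1)
        rwa [show k - 1 + 1 = k by omega, D.perk] at this
      · rcases D.b2 (k - 1) (by omega) (by omega) with e' | e'
        · rw [e] at e'; exact absurd e' (f_ne N h (by omega) (by omega))
        · rw [e] at e'; exact N.symm e'
  have hk6 : 6 ≤ k := by
    by_contra hcon
    have : k = 5 := by omega
    subst this
    exact D.not_five N
  have hk6' : (6 : ℚ) ≤ k := by exact_mod_cast hk6
  have hD := fun w1 => D.TF_ge N (T := T) (r := r) (by linarith) (w1 := w1) (w2 := 1 / 2)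
    (wv := 1) (wu := 1 / 2)
  rcases D.p_off with e | e | hp
  · obtain ⟨i, i1, i2, i3, i4⟩ := D.run_two N hn (Or.inl e)
    have := hD 1 ⟨i, i1, i2, w_far2 N hT (hno _ i1 (by omega) (by omega)) (ha _) h0 hjT hne i3 i4⟩
      nv0 s2 nu0
    linarith
  · obtain ⟨i, i1, i2, i3, i4⟩ := D.run_two N hn (Or.inr e)
    have := hD 1 ⟨i, i1, i2, w_far2 N hT (hno _ i1 (by omega) (by omega)) (ha _) h0 hjT hne i3 i4⟩
      nv0 s2 nu0
    linarith
  · -- `p` off the window
    have hj4 := D.four_lt N hn hp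
    rcases Nat.lt_or_ge k 7 with h7 | h7
    · have hkj : k = j + 2 := by omega
      by_cases hpT : p ∈ T
      · have s1 : 1 ≤ N.wt r T (f (1 - 1)) (f 1) (f (1 + 1)) :=
          w_far2 N hT (hno _ (by omega) (by omega) (by omega)) (ha 1) h0 hpT (hp 0).symm
            (N.symm (w 0)) (N.symm (D.adj_p N hp (by omega)))
        have := hD 1 ⟨1, by omega, by omega, s1⟩ nv0 s2 nu0
        linarith
      · have hc2 : T.card = 2 := by
          have : T ⊆ {f 0, f j} := by
            intro v hv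
            rw [mem_insert, mem_singleton]
            rcases D.mem_T N hno hv with e | e | ⟨e, -⟩ | ⟨e, hqo⟩
            · exact Or.inl e
            · exact Or.inr e
            · exact absurd (e ▸ hv) hpT
            · rcases hq with e' | e'
              · exact absurd e' (hqo 0)
              · exact absurd e' (hqo j)
          have h1 := card_le_card this
          have h2 : ({f 0, f j} : Finset κ).card ≤ 2 := card_le_two
          omega
        have u : 1 ≤ N.wt r T (f (k - 1)) (f 0) (f 1) :=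
          w_nearQ N h0 hc2 (D.Q0' N hn hp hkj) (hno _ (by omega) (by omega) (by omega))
            (hno _ (by omega) (by omega) (by omega))
        have v : 1 ≤ N.wt r T (f (j - 1)) (f j) (f (j + 1)) :=
          w_nearQ N hjT hc2 (D.Qj' N hn hp hkj) (hno _ (by omega) (by omega) (by omega))
            (hno _ (by omega) (by omega) (by omega))
        have := D.TF_ge N (T := T) (r := r) (by linarith) (w1 := 0) (w2 := 1)
          (wv := 1) (wu := 1) ⟨1, by omega, by omega, hT0 _⟩ v s2 u
        linarith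
    · have h7' : (7 : ℚ) ≤ k := by exact_mod_cast h7
      have := hD 0 ⟨1, by omega, by omega, hT0 _⟩ nv0 s2 nu0
      linarith

/-- no short corner near -/
theorem Two.B (D : Two N k j f p q) (ha : ∀ i, N.a (f i) = 1) (hr : 1 ≤ r) (hT : N.Clq T)
    (hc : 2 ≤ T.card) (hno : ∀ i, 0 < i → i < k → i ≠ j → f i ∉ T) :
    9 ≤ (k : ℚ) + N.TF r T k f := by
  classical
  have h := D.win
  have hk := h.five
  have hj := D.hj
  have hj' := D.hj'
  have hk6 : 6 ≤ k := by
    by_contra hcon
    have : k = 5 := by omega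
    subst this
    exact D.not_five N
  have hk6' : (6 : ℚ) ≤ k := by exact_mod_cast hk6
  have hsh := (m_SHIFT N k f j h).2.2 r T
  have hT0 : ∀ i, 0 ≤ N.wt r T (f (i - 1)) (f i) (f (i + 1)) :=
    fun i => N.wt_nonneg (by linarith)
  have e0 : f (0 + j) = f j := by rw [zero_add]
  have ej : f (k - j + j) = f 0 := by
    rw [show k - j + j = k by omega, D.perk]
  by_cases h0 : f 0 ∈ T
  · by_cases h1 : f j ∈ T
    · rcases D.q_off with e | e | hq
      · exact D.B2 N ha hr hT hc hno h0 h1 (Or.inl e)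
      · exact D.B2 N ha hr hT hc hno h0 h1 (Or.inr e)
      · rcases D.p_off with e | e | hp
        · rw [← hsh]
          exact D.swap.B2 N (fun i => ha _) hr hT hc (D.no_swap N hno) (by rw [e0]; exact h1)
            (by rw [ej]; exact h0) (Or.inr (by rw [ej]; exact e))
        · rw [← hsh]
          exact D.swap.B2 N (fun i => ha _) hr hT hc (D.no_swap N hno) (by rw [e0]; exact h1)
            (by rw [ej]; exact h0) (Or.inl (by rw [e0]; exact e))
        · -- both runs of type H
          have hne : f 0 ≠ f j := f_ne N h (by omega) (by omega)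
          have hn : N.adj (f 0) (f j) := hT _ h0 _ h1 hne
          have k1 := D.four_lt N hn hp
          have k2 := D.swap.four_lt N ((D.swap_adj N).2 (N.symm hn)) (fun i => hq _)
          have hk8 : 8 ≤ k := by omega
          have hk8' : (8 : ℚ) ≤ k := by exact_mod_cast hk8
          have nu0 : 1 / 2 ≤ N.wt r T (f (k - 1)) (f 0) (f 1) :=
            w_near N h0 hc (ha 0) (hno _ (by omega) (by omega) (by omega))
              (hno _ (by omega) (by omega) (by omega))
          have nv0 : 1 / 2 ≤ N.wt r T (f (j - 1)) (f j) (f (j + 1)) :=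
            w_near N h1 hc (ha j) (hno _ (by omega) (by omega) (by omega))
              (hno _ (by omega) (by omega) (by omega))
          have := D.TF_ge N (T := T) (r := r) (by linarith) (w1 := 0) (w2 := 1 / 2)
            (wv := 0) (wu := 1 / 2) ⟨1, by omega, by omega, hT0 _⟩ nv0
            ⟨k - 1, by omega, by omega, hT0 _⟩ nu0
          linarith
    · have := D.B0 N ha hr hT hc hno h0 h1
      linarith
  · by_cases h1 : f j ∈ T
    · have := D.swap.B0 N (fun i => ha _) hr hT hc (D.no_swap N hno) (by rw [e0]; exact h1)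
        (by rw [ej]; exact h0)
      rw [hsh] at this
      linarith
    · -- only hubs
      obtain ⟨y, hy, z, hz, hyz⟩ := Finset.one_lt_card.1 (show 1 < T.card by omega)
      have hpq : (∀ i, p ≠ f i) ∧ (∀ i, q ≠ f i) ∧ p ∈ T ∧ q ∈ T := by
        rcases D.mem_T N hno hy with e | e | ⟨e, hp⟩ | ⟨e, hq⟩
        · exact absurd (e ▸ hy) h0
        · exact absurd (e ▸ hy) h1
        · rcases D.mem_T N hno hz with e' | e' | ⟨e', hp'⟩ | ⟨e', hq⟩
          · exact absurd (e' ▸ hz) h0
          · exact absurd (e' ▸ hz) h1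
          · exact absurd (e.trans e'.symm) hyz
          · exact ⟨hp, hq, e ▸ hy, e' ▸ hz⟩
        · rcases D.mem_T N hno hz with e' | e' | ⟨e', hp⟩ | ⟨e', hq'⟩
          · exact absurd (e' ▸ hz) h0
          · exact absurd (e' ▸ hz) h1
          · exact ⟨hp, hq, e' ▸ hz, e ▸ hy⟩
          · exact absurd (e.trans e'.symm) hyz
      obtain ⟨hp, hq, hpT, hqT⟩ := hpq
      have hne : p ≠ q := by
        rintro rfl
        rcases D.mem_T N hno hy with e | e | ⟨e, hp⟩ | ⟨e, hq⟩
        · exact h0 (e ▸ hy)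
        · exact h1 (e ▸ hy)
        · rcases D.mem_T N hno hz with e' | e' | ⟨e', hp'⟩ | ⟨e', hq⟩
          · exact h0 (e' ▸ hz)
          · exact h1 (e' ▸ hz)
          · exact hyz (e.trans e'.symm)
          · exact hyz (e.trans e'.symm)
        · rcases D.mem_T N hno hz with e' | e' | ⟨e', hp'⟩ | ⟨e', hq⟩
          · exact h0 (e' ▸ hz)
          · exact h1 (e' ▸ hz)
          · exact hyz (e.trans e'.symm)
          · exact hyz (e.trans e'.symm)
      have hadj : N.adj p q := hT _ hpT _ hqT hne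
      have hn : ¬ N.adj (f 0) (f j) := fun hn => D.not_hubs N hn hp hq hadj
      have q0 := D.adj_q N hq (i := k) (by omega) le_rfl
      rw [D.perk] at q0
      have u : 3 / 2 ≤ N.wt r T (f (k - 1)) (f 0) (f 1) :=
        w_far32 N h0 (ha 0) D.long0 hpT hqT hne (N.symm (D.adj_p N hp (by omega))) (N.symm q0)
      have v : 3 / 2 ≤ N.wt r T (f (j - 1)) (f j) (f (j + 1)) :=
        w_far32 N h1 (ha j) D.longj hpT hqT hne (N.symm (D.adj_p N hp le_rfl))
          (N.symm (D.adj_q N hq le_rfl (by omega)))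
      have := D.TF_ge N (T := T) (r := r) (by linarith) (w1 := 0) (w2 := 3 / 2)
        (wv := 0) (wu := 3 / 2) ⟨1, by omega, by omega, hT0 _⟩ v
        ⟨k - 1, by omega, by omega, hT0 _⟩ u
      linarith

end two

/-- a short corner in `T`, anywhere -/
theorem TF_short' (h : N.IsWin k f) (ha : ∀ i, N.a (f i) = 1) (hr : 0 ≤ r) (hT : N.Clq T)
    (hc : 2 ≤ T.card) {i : ℕ} (hx : f i ∈ T) (hS : N.S (f i)) :
    3 ≤ N.TF r T k f ∧ ((∀ a b : ℕ, ¬ N.S (f a) → f b ≠ f a → N.adj (f a) (f b)) →
      4 ≤ N.TF r T k f) := by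
  have hk := h.five
  obtain ⟨g1, -, g3⟩ := m_SHIFT N k f (i + k - 2) h
  have e2 : f (2 + (i + k - 2)) = f i := by
    rw [show 2 + (i + k - 2) = i + k by omega, h.per]
  have key := TF_short N g1 (fun n => ha _) hr hT hc (by rw [e2]; exact hx) (by rw [e2]; exact hS)
  rw [g3] at key
  refine ⟨key.1, fun hF => key.2 ?_ ?_⟩
  · intro h1
    exact hF _ _ h1 (f_ne N g1 (show 1 < 3 by omega) (by omega)).symm
  · intro h1
    exact N.symm (hF _ _ h1 (f_ne N g1 (show 1 < 3 by omega) (by omega)))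

end Low

end Nerve

open Nerve Nerve.Low

theorem m_LOWB : StLowB := by
  intro κ _ _ N T k f hc hT h hl
  have hk := h.five
  obtain ⟨ha, -, -⟩ := m_LOWA N k f h hl
  have hk5 : (5 : ℚ) ≤ k := by exact_mod_cast hk
  unfold Nerve.D
  rcases shape N h hl with ⟨-, s, p, D⟩ | ⟨s, j, p, q, D⟩
  · obtain ⟨-, -, g3⟩ := m_SHIFT N k f s h
    rw [← g3]
    -- a short corner in `T`
    have hex : ∃ i, (fun i => f (i + s)) i ∈ T ∧ N.S ((fun i => f (i + s)) i) := by
      generalize (fun i => f (i + s)) = f at D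
      obtain ⟨z, hz, hzp⟩ := exists_other hc p
      have : ∃ i, z = f i := (D.all N z).resolve_left hzp
      obtain ⟨i, hi⟩ := this
      rw [← mod_eq N D.win i] at hi
      have hik := Nat.mod_lt i (show 0 < k by omega)
      generalize i % k = i at hi hik
      refine ⟨i, hi ▸ hz, ?_⟩
      by_cases h0 : i = 0
      · rw [h0] at hi ⊢
        by_contra hS
        exact hzp (hi.trans (D.fan N hS).symm)
      · exact D.sh i (by omega) hik
    have hF : ∀ a b : ℕ, ¬ N.S ((fun i => f (i + s)) a) →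
        (fun i => f (i + s)) b ≠ (fun i => f (i + s)) a →
        N.adj ((fun i => f (i + s)) a) ((fun i => f (i + s)) b) := by
      generalize (fun i => f (i + s)) = f at D
      intro a b h1 h2
      rw [← mod_eq N D.win a] at h1 h2 ⊢
      rw [← mod_eq N D.win b] at h2 ⊢
      have hak := Nat.mod_lt a (show 0 < k by omega)
      have hbk := Nat.mod_lt b (show 0 < k by omega)
      generalize a % k = a at h1 h2 hak ⊢
      generalize b % k = b at h2 hbk ⊢
      have ha0 : a = 0 := by
        by_contra hne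
        exact h1 (D.sh a (by omega) hak)
      subst ha0
      have hp := D.fan N h1
      rcases D.a2 b (by omega) with e | e
      · exact absurd (e.symm.trans hp) h2
      · rwa [hp] at e
    obtain ⟨i, hi, hS⟩ := hex
    have := (TF_short' N D.win (T := T) (r := 3 / 2) (fun i => ha _) (by norm_num) hT hc hi hS).2 hF
    linarith
  · obtain ⟨-, -, g3⟩ := m_SHIFT N k f s h
    rw [← g3]
    have ha' : ∀ i, N.a ((fun i => f (i + s)) i) = 1 := fun i => ha _
    generalize (fun i => f (i + s)) = f at D ha'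
    have hk6 : 6 ≤ k := by
      by_contra hcon
      have : k = 5 := by omega
      subst this
      exact D.not_five N
    have hk6' : (6 : ℚ) ≤ k := by exact_mod_cast hk6
    by_cases hno : ∀ i, 0 < i → i < k → i ≠ j → f i ∉ T
    · have := D.B N (T := T) (r := 3 / 2) ha' (by norm_num) hT hc hno
      linarith
    · push Not at hno
      obtain ⟨i, h0, h1, h2, h3⟩ := hno
      have := (TF_short' N D.win (T := T) (r := 3 / 2) ha' (by norm_num) hT hc h3
        (D.short_of N h0 h1 h2)).1
      linarith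

end Pool.Agent.Helper26.OC
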