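import Mathlib
import Pool.Agent.Helper26.OC.St3
import Pool.Agent.Helper26.OC.Base
import Pool.Agent.Helper26.OC.Wt
import Pool.Agent.Helper26.OC.PO

/-!
# Module VF: the inequality at far vertices
-/

set_option autoImplicit false

open Finset

namespace Pool.Agent.Helper26.OC

open Pool.Agent.Helper56.OC (tf tsp tc0 tc1 tc2)

namespace VF

theorem tf_ge {G a t : ℕ} {x : ℚ} (ha : a ≠ 0) (h1 : x ≤ -4 + G + 2 * a - t / 2)
    (h2 : x ≤ a + 2) : x ≤ tf (G : ℚ) a t := by
  unfold tf
  rw [if_neg (by exact_mod_cast ha)]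
  exact le_min h1 h2

theorem tsp_zero {G a : ℕ} (hs : ¬ ((G = 3 ∧ a = 1) ∨ (G = 2 ∧ a = 2))) :
    tsp (G : ℚ) a = 0 := by
  unfold tsp
  rw [if_neg]
  exact_mod_cast hs

theorem tsp_le (G a : ℕ) : tsp (G : ℚ) a ≤ 1 := by
  unfold tsp
  split_ifs <;> norm_num

theorem tc0_ge {G a t : ℕ} {x : ℚ} (ha : a ≠ 0) (hs : ¬ ((G = 3 ∧ a = 1) ∨ (G = 2 ∧ a = 2)))
    (h1 : x ≤ -4 + G + 2 * a - t / 2) (h2 : x ≤ a + 2) : x ≤ tc0 (G : ℚ) a t := by
  unfold tc0
  rw [tsp_zero hs, sub_zero]
  exact tf_ge ha h1 h2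

theorem tc0_ge' {G a t : ℕ} {x : ℚ} (ha : a ≠ 0)
    (h1 : x + 1 ≤ -4 + G + 2 * a - t / 2) (h2 : x + 1 ≤ a + 2) : x ≤ tc0 (G : ℚ) a t := by
  unfold tc0
  have := tsp_le G a
  have := tf_ge ha h1 h2
  linarith

variable {κ : Type} [Fintype κ] [DecidableEq κ] (N : Nerve κ)

omit [DecidableEq κ] in
theorem card_wd (b : κ) : (N.wd b).card = N.a b := rfl

omit [DecidableEq κ] in
theorem mem_wd {b w : κ} : w ∈ N.wd b ↔ N.adj b w ∧ N.win b w := by
  classical
  unfold Nerve.wd
  rw [mem_filter]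
  exact ⟨fun h => h.2, fun h => ⟨mem_univ _, h⟩⟩

omit [DecidableEq κ] in
theorem cor_wd {b w : κ} (h : w ∈ N.wd b) : N.Cor (N.rot b w) b w :=
  N.cor_of_win ((mem_wd N).1 h).1 ((mem_wd N).1 h).2

omit [DecidableEq κ] in
theorem wd_cor {u b w : κ} (h : N.Cor u b w) : w ∈ N.wd b ∧ u = N.rot b w :=
  ⟨(mem_wd N).2 ⟨h.2.1, h.2.2.2.2⟩, h.2.2.1.symm⟩

/-- every vertex has a neighbour -/
theorem G_ne (h5 : 5 ≤ Fintype.card κ) (b : κ) : N.G b ≠ 0 := by
  classical
  intro h0
  have h1 : ∀ y, ¬ N.adj b y := by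
    intro y hy
    unfold Nerve.G at h0
    rw [card_eq_zero, filter_eq_empty_iff] at h0
    exact h0 (mem_univ y) hy
  have h2 : ∀ x, x = b := by
    intro x
    exact N.conn (fun x => x = b) (by
      rintro u v rfl hv
      exact absurd hv (h1 v)) b x rfl
  have h3 : Fintype.card κ ≤ 1 := Fintype.card_le_one_iff.2 (fun x y => (h2 x).trans (h2 y).symm)
  omega

/-- the sum of the weights when each term is bounded -/
theorem sum_le {s : Finset κ} {f : κ → ℚ} {c : ℚ} (h : ∀ w ∈ s, f w ≤ c) :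
    ∑ w ∈ s, f w ≤ s.card * c := by
  have := sum_le_card_nsmul s f c h
  rwa [nsmul_eq_mul] at this

/-- facts about a corner with bonus -/
theorem Bon_facts {T : Finset κ} {u b w : κ} (h : N.Bon T u b w) :
    N.Cor u b w ∧ N.S w ∧ N.S u ∧ N.nu T b = 0 ∧ 2 ≤ N.a b ∧ T.card = 2 ∧
      (∃ z, N.Cor b w z) ∧ ∃ z, N.Cor z u b := by
  obtain ⟨hT, f, hf, -, -, h2, h3, h4, -, -, hu, hw, -, hn, ha⟩ := h
  have c1 := hf.cor 1
  have c2 := hf.cor 2
  have c3 := hf.cor 3
  simp only [Nat.reduceAdd] at c1 c2 c3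
  rw [h2, h3] at c1
  rw [h2, h3, h4] at c2
  rw [h3, h4] at c3
  exact ⟨c2, hw, hu, hn, ha, hT, ⟨_, c3⟩, ⟨_, c1⟩⟩

/-- the corners with bonus -/
theorem Bon_thin {T : Finset κ} {u b w : κ} (h : N.Bon T u b w) :
    ¬ N.Thin b u ∧ ¬ N.Thin b w := by
  obtain ⟨-, hw, hu, -, -, -, ⟨z, hz⟩, ⟨z', hz'⟩⟩ := Bon_facts N h
  refine ⟨fun ht => ?_, fun ht => ?_⟩
  · exact Nerve.Cr.not_thin N (Or.inl hz' : N.Cr z' u b) hu.1 (ht.symm N)
  · exact Nerve.Cr.not_thin N (Or.inr hz : N.Cr z w b) hw.1 (ht.symm N)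

open Classical in
/-- the corners with bonus at `b` -/
noncomputable def Bs (T : Finset κ) (b : κ) : Finset κ :=
  (N.wd b).filter (fun w => N.Bon T (N.rot b w) b w)

open Classical in
/-- there are at most two of them -/
theorem Bs_card (T : Finset κ) (b : κ) : (Bs N T b).card ≤ 2 := by
  by_cases hne : (Bs N T b).Nonempty
  swap
  · rw [not_nonempty_iff_eq_empty] at hne
    rw [hne]; simp
  obtain ⟨w0, hw0⟩ := hne
  have hT : T.card = 2 := (mem_filter.1 hw0).2.1
  have key : ∀ w ∈ Bs N T b, ∃ x ∈ T, ∃ f : ℕ → κ, N.IsWin 5 f ∧ f 0 = x ∧ f 1 ∈ T ∧ f 3 = b ∧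
      f 4 = w := by
    intro w hw
    obtain ⟨-, f, hf, h0, h1, h2, h3, h4, -⟩ := (mem_filter.1 hw).2
    exact ⟨f 0, h0, f, hf, rfl, h1, h3, h4⟩
  choose! g hg using key
  rw [← hT]
  refine card_le_card_of_injOn g (fun w hw => (hg w hw).1) ?_
  intro w hw w' hw' he
  obtain ⟨hx, f, hf, f0, f1, f3, f4⟩ := hg w hw
  obtain ⟨hx', f', hf', f0', f1', f3', f4'⟩ := hg w' hw'
  have e0 : f 0 = f' 0 := by rw [f0, f0', he]
  have c0 := hf.cor 0
  have c0' := hf'.cor 0
  have c1 := hf.cor 1
  have c1' := hf'.cor 1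
  have c2 := hf.cor 2
  have c2' := hf'.cor 2
  simp only [Nat.reduceAdd, zero_add] at c0 c0' c1 c1' c2 c2'
  have n1 : f 0 ≠ f 1 := c0.ne_ub N
  have n1' : f' 0 ≠ f' 1 := c0'.ne_ub N
  have e1 : f 1 = f' 1 := by
    by_contra hne
    have h3 : ({f 0, f 1, f' 1} : Finset κ) ⊆ T := by
      intro v hv
      rw [mem_insert, mem_insert, mem_singleton] at hv
      rcases hv with rfl | rfl | rfl
      · rw [f0]; exact hx
      · exact f1
      · exact f1'
    have h4 := card_le_card h3
    rw [card_insert_of_notMem, card_pair hne] at h4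
    · omega
    · rw [mem_insert, mem_singleton, not_or]
      exact ⟨n1, by rw [e0]; exact n1'⟩
  rw [← e0, ← e1] at c0'
  have e2 : f 2 = f' 2 := c0.next_unique N c0'
  rw [← e1, ← e2] at c1'
  have e3 : f 3 = f' 3 := c1.next_unique N c1'
  rw [← e2, ← e3] at c2'
  have e4 : f 4 = f' 4 := c2.next_unique N c2'
  rw [← f4, ← f4', e4]

open Classical in
/-- the total bonus at `b` is at most one -/
theorem beta_sum (T : Finset κ) (b : κ) : ∑ w ∈ N.wd b, N.beta T (N.rot b w) b w ≤ 1 := by
  have h1 : ∑ w ∈ N.wd b, N.beta T (N.rot b w) b w = ∑ w ∈ Bs N T b, N.beta T (N.rot b w) b w := by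
    symm
    apply sum_subset (filter_subset _ _)
    intro w hw hw'
    unfold Nerve.beta
    rw [if_neg]
    intro hB
    exact hw' (mem_filter.2 ⟨hw, hB⟩)
  rw [h1]
  have hc := Bs_card N T b
  by_cases h2 : (Bs N T b).card ≤ 1
  · have h3 : ∀ w ∈ Bs N T b, N.beta T (N.rot b w) b w ≤ 1 := by
      intro w _
      unfold Nerve.beta
      split_ifs <;> norm_num
    have h4 := sum_le h3
    have h5 : ((Bs N T b).card : ℚ) ≤ 1 := by exact_mod_cast h2
    linarith
  · have h3 : ∀ w ∈ Bs N T b, N.beta T (N.rot b w) b w ≤ 1 / 2 := by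
      intro w hw
      have h4 : ∃ w' ∈ Bs N T b, w' ≠ w := by
        by_contra hne
        push Not at hne
        exact h2 (card_le_one.2 fun x hx y hy => (hne x hx).trans (hne y hy).symm)
      obtain ⟨w', hw', hne⟩ := h4
      unfold Nerve.beta
      rw [if_pos (mem_filter.1 hw).2, if_pos]
      exact ⟨N.rot b w', w', cor_wd N (mem_filter.1 hw').1, hne, (mem_filter.1 hw').2⟩
    have h4 := sum_le h3
    have h5 : ((Bs N T b).card : ℚ) ≤ 2 := by exact_mod_cast hc
    linarith

theorem beta_nonneg (T : Finset κ) (u b w : κ) : 0 ≤ N.beta T u b w := by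
  classical
  unfold Nerve.beta
  split_ifs <;> norm_num

theorem beta_zero {T : Finset κ} {u b w : κ} (h : ¬ N.Bon T u b w) : N.beta T u b w = 0 := by
  unfold Nerve.beta
  rw [if_neg h]

theorem om_not_free {T : Finset κ} {b : κ} (hb : b ∉ T) (hF : ¬ N.Free T b) (u w : κ) :
    N.om T u b w = N.wf (7 / 4) T u b w + N.beta T u b w := by
  unfold Nerve.om
  rw [if_neg hb, if_neg hF]

/-- no bonus unless `nu = 0` and `2 ≤ a` -/
theorem om_eq {T : Finset κ} {b : κ} (hb : b ∉ T) (hF : ¬ N.Free T b)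
    (h : ¬ (N.nu T b = 0 ∧ 2 ≤ N.a b)) (u w : κ) :
    N.om T u b w = N.wf (7 / 4) T u b w := by
  rw [om_not_free N hb hF, beta_zero, add_zero]
  intro hB
  have := Bon_facts N hB
  exact h ⟨this.2.2.2.1, this.2.2.2.2.1⟩

end VF

open VF

/-- case `b` free -/
private theorem free_case (cnt : StCnt) {κ : Type} [Fintype κ] [DecidableEq κ] (N : Nerve κ)
    (T : Finset κ) (h5 : 5 ≤ Fintype.card κ) (hT : N.Clq T) (b : κ) (hb : b ∉ T)
    (hF : N.Free T b) :
    (if N.nu T b ≤ 1 then (1 : ℚ) else 0) + ∑ w ∈ N.wd b, (N.om T (N.rot b w) b w - 1) ≤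
    N.chiA T b := by
  classical
  obtain ⟨c1, c2, c3, c4, c5, c6⟩ := cnt N h5
  obtain ⟨-, ⟨ha, hG⟩, hth⟩ := hF
  have hF' : N.Free T b := ⟨hb, ⟨ha, hG⟩, hth⟩
  have hnu : N.nu T b ≤ 1 := by
    by_contra hc
    push Not at hc
    unfold Nerve.nu at hc
    rw [one_lt_card] at hc
    obtain ⟨y, hy, z, hz, hyz⟩ := hc
    rw [mem_filter] at hy hz
    have h1 := hT y hy.1 z hz.1 hyz
    exact (hth y hy.1 hy.2).2 z (N.symm hz.2) (N.symm h1)
  rw [if_pos hnu]
  -- the sum
  have hcard : (N.wd b).card = 2 := by rw [card_wd, ha]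
  obtain ⟨w1, w2, hne, hwd⟩ := card_eq_two.1 hcard
  have m1 : w1 ∈ N.wd b := by rw [hwd]; simp
  have m2 : w2 ∈ N.wd b := by rw [hwd]; simp
  have other : ∀ w w' : κ, w ∈ N.wd b → w' ∈ N.wd b → w ≠ w' → (∀ z ∈ N.wd b, z = w ∨ z = w') →
      ((∃ u' z', N.Cor u' b z' ∧ z' ≠ w ∧ N.Bad T u' b z') ↔ N.Bad T (N.rot b w') b w') := by
    intro w w' hw hw' hne hall
    constructor
    · rintro ⟨u', z', hc, hz, hB⟩
      obtain ⟨h1, h2⟩ := wd_cor N hc
      have h3 : z' = w' := (hall z' h1).resolve_left hz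
      rw [← h3, ← h2]
      exact hB
    · intro hB
      exact ⟨N.rot b w', w', cor_wd N hw', hne.symm, hB⟩
  have hall1 : ∀ z ∈ N.wd b, z = w1 ∨ z = w2 := by
    intro z hz; rw [hwd] at hz; simpa using hz
  have hall2 : ∀ z ∈ N.wd b, z = w2 ∨ z = w1 := fun z hz => (hall1 z hz).symm
  have o1 := other w1 w2 m1 m2 hne hall1
  have o2 := other w2 w1 m2 m1 hne.symm hall2
  have hsum : ∑ w ∈ N.wd b, (N.om T (N.rot b w) b w - 1) = 3 / 2 := by
    rw [hwd, sum_pair hne]
    unfold Nerve.om
    rw [if_neg hb, if_neg hb, if_pos hF', if_pos hF']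
    simp only [o1, o2]
    ring
  rw [hsum]
  have hG' : N.G b = 3 := hG
  unfold Nerve.chiA
  rcases Nat.lt_or_ge (N.nu T b) 1 with h0 | h1
  · have h0' : N.nu T b = 0 := by omega
    rw [if_pos h0']
    have d3 := c3 b
    have d4 := c4 b
    have d5 := c5 b (by omega)
    rw [ha, hG] at d4
    rw [ha] at d3
    have ht : N.t b = 1 := by
      have : N.t b ≠ 2 := by
        intro h
        have := d5 (by rw [h, ha])
        omega
      omega
    apply tc0_ge (by omega) (by omega)
    · rw [hG, ha, ht]; norm_num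
    · rw [ha]; norm_num
  · have h1' : N.nu T b = 1 := by omega
    rw [if_neg (by omega), if_pos h1']
    have hdm : N.dm T b = 0 := by
      unfold Nerve.dm
      apply sum_eq_zero
      intro y hy
      rw [mem_filter] at hy
      have := (c2 b y hy.2).1 (hth y hy.1 hy.2)
      rw [this]; simp
    rw [hdm, hG, ha]
    unfold tc1
    norm_num

/-- case of two marks -/
private theorem two_case {κ : Type} [Fintype κ] [DecidableEq κ] (N : Nerve κ)
    (T : Finset κ) (b : κ) (hb : b ∉ T)
    (hF : ¬ N.Free T b) (hn : N.nu T b = 2) (ha0 : N.a b ≠ 0) :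
    (if N.nu T b ≤ 1 then (1 : ℚ) else 0) + ∑ w ∈ N.wd b, (N.om T (N.rot b w) b w - 1) ≤
    N.chiA T b := by
  classical
  rw [if_neg (by omega), zero_add]
  unfold Nerve.chiA
  rw [if_neg (by omega), if_neg (by omega)]
  have hom : ∀ w, N.om T (N.rot b w) b w = N.wf (7 / 4) T (N.rot b w) b w :=
    fun w => om_eq N hb hF (by omega) _ _
  simp only [hom]
  by_cases ha : N.a b = 1
  · by_cases hG : N.G b ≤ 3
    · have h1 : ∀ w ∈ N.wd b, N.wf (7 / 4) T (N.rot b w) b w - 1 ≤ 0 := by
        intro w _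
        unfold Nerve.wf
        rw [if_pos ha, if_pos hG, if_pos hn]; norm_num
      have h2 := sum_le h1
      rw [mul_zero] at h2
      refine h2.trans ?_
      rw [ha]
      unfold tc2
      have : (N.G b : ℚ) ≤ 3 := by exact_mod_cast hG
      simp [this]
    · have h1 : ∀ w ∈ N.wd b, N.wf (7 / 4) T (N.rot b w) b w - 1 ≤ 1 / 2 := by
        intro w _
        unfold Nerve.wf
        rw [if_pos ha, if_neg hG, if_neg (by omega), if_neg (by omega)]; norm_num
      have h2 := sum_le h1
      rw [card_wd, ha] at h2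
      refine h2.trans ?_
      rw [ha]
      unfold tc2
      have : ¬ (N.G b : ℚ) ≤ 3 := by
        intro h; exact hG (by exact_mod_cast h)
      simp [this]
  · have h1 : ∀ w ∈ N.wd b, N.wf (7 / 4) T (N.rot b w) b w - 1 ≤ 1 / 2 := by
      intro w _
      unfold Nerve.wf
      rw [if_neg ha]
      by_cases hG : N.G b = 2
      · rw [if_pos hG, if_neg (by omega)]; norm_num
      · rw [if_neg hG, if_neg hF, if_neg (by omega), if_neg (by omega), if_neg (by omega)]
        norm_num
    have h2 := sum_le h1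
    rw [card_wd] at h2
    refine h2.trans ?_
    unfold tc2
    rw [if_neg (by exact_mod_cast ha0), if_neg (by exact_mod_cast ha)]
    linarith

/-- case of one mark -/
private theorem one_case (cnt : StCnt) {κ : Type} [Fintype κ] [DecidableEq κ] (N : Nerve κ)
    (T : Finset κ) (h5 : 5 ≤ Fintype.card κ) (b : κ) (hb : b ∉ T)
    (hF : ¬ N.Free T b) (hn : N.nu T b = 1) (ha0 : N.a b ≠ 0) (hG2 : 2 ≤ N.G b) :
    (if N.nu T b ≤ 1 then (1 : ℚ) else 0) + ∑ w ∈ N.wd b, (N.om T (N.rot b w) b w - 1) ≤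
    N.chiA T b := by
  classical
  obtain ⟨c1, c2, c3, c4, c5, c6⟩ := cnt N h5
  rw [if_pos (by omega)]
  unfold Nerve.chiA
  rw [if_neg (by omega), if_pos hn]
  have hom : ∀ w, N.om T (N.rot b w) b w = N.wf (7 / 4) T (N.rot b w) b w :=
    fun w => om_eq N hb hF (by omega) _ _
  simp only [hom]
  -- the mark
  have hy : ∃ y, T.filter (fun y => N.adj b y) = {y} := by
    rw [← card_eq_one]
    have h1 : N.nu T b = (T.filter (fun y => N.adj b y)).card := by
      unfold Nerve.nu
      congr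
    omega
  obtain ⟨y, hy⟩ := hy
  have hyT : y ∈ T ∧ N.adj b y := by
    have : y ∈ T.filter (fun y => N.adj b y) := by rw [hy]; simp
    exact mem_filter.1 this
  have hyu : ∀ z ∈ T, N.adj b z → z = y := by
    intro z hz hbz
    have : z ∈ T.filter (fun y => N.adj b y) := mem_filter.2 ⟨hz, hbz⟩
    rw [hy] at this
    simpa using this
  have hdm : N.dm T b = N.cn b y := by
    unfold Nerve.dm
    have h1 : ∀ s : Finset κ, s = T.filter (fun y => N.adj b y) →
        ∑ z ∈ s, (N.cn b z : ℚ) = N.cn b y := by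
      intro s hs
      rw [hs, hy, sum_singleton]
    exact h1 _ (by ext z; simp only [mem_filter])
  rw [hdm]
  have hiff : ∀ w ∈ N.wd b, ((N.rot b w ∈ T ∨ w ∈ T) ↔ (w = y ∨ N.rot b w = y)) := by
    intro w hw
    have h1 := ((mem_wd N).1 hw).1
    constructor
    · rintro (h | h)
      · exact Or.inr (hyu _ h (N.rot_adj h1))
      · exact Or.inl (hyu _ h h1)
    · rintro (rfl | h)
      · exact Or.inr hyT.1
      · left; rw [h]; exact hyT.1
  have hcn := c1 b y hyT.2
  by_cases ha : N.a b = 1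
  · have hwd1 : (N.wd b).card = 1 := by rw [card_wd, ha]
    obtain ⟨w, hw⟩ := card_eq_one.1 hwd1
    have mw : w ∈ N.wd b := by rw [hw]; simp
    rw [hw, sum_singleton]
    rw [hw] at hcn
    by_cases hG : N.G b ≤ 3
    · unfold Nerve.wf
      rw [if_pos ha, if_pos hG, if_neg (by omega), ha]
      unfold tc1
      have h1 : (N.G b : ℚ) ≠ 1 := by
        intro h
        have : N.G b = 1 := by exact_mod_cast h
        omega
      have h2 : (N.G b : ℚ) ≤ 3 := by exact_mod_cast hG
      have h1n : N.G b ≠ 1 := by omega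
      simp [h1n, h2]
    · have h1 : (N.G b : ℚ) ≠ 1 := by
        intro h
        have : N.G b = 1 := by exact_mod_cast h
        omega
      have h2 : ¬ (N.G b : ℚ) ≤ 3 := by
        intro h; exact hG (by exact_mod_cast h)
      unfold Nerve.wf
      rw [if_pos ha, if_neg hG, if_neg (by omega), if_pos hn, ha]
      by_cases hm : w = y ∨ N.rot b w = y
      · rw [if_pos ((hiff w mw).2 hm)]
        have h3 : ({w} : Finset κ).filter (fun w => w = y ∨ N.rot b w = y) = {w} := by
          rw [filter_singleton, if_pos hm]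
        rw [h3, card_singleton] at hcn
        have h4 : (N.cn b y : ℚ) = 1 := by push_cast at hcn; linarith
        rw [h4]
        unfold tc1
        have h1n : N.G b ≠ 1 := by omega
        simp [h1n, h2]
      · rw [if_neg (fun h => hm ((hiff w mw).1 h))]
        have h3 : ({w} : Finset κ).filter (fun w => w = y ∨ N.rot b w = y) = ∅ := by
          rw [filter_singleton, if_neg hm]
        rw [h3, card_empty] at hcn
        have h4 : (N.cn b y : ℚ) = 2 := by push_cast at hcn; linarith
        rw [h4]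
        unfold tc1
        by_cases hG4 : N.G b = 4
        · rw [hG4]; norm_num
        · have h6 : (N.G b : ℚ) ≠ 4 := by exact_mod_cast hG4
          rw [if_neg hG4]
          have h1n : N.G b ≠ 1 := by omega
          simp [h1n, h2, h6]
  · by_cases hG : N.G b = 2
    · have h1 : ∀ w ∈ N.wd b, N.wf (7 / 4) T (N.rot b w) b w - 1 ≤ 0 := by
        intro w _
        unfold Nerve.wf
        rw [if_neg ha, if_pos hG, if_neg (by omega)]; norm_num
      have h2 := sum_le h1
      rw [mul_zero] at h2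
      have h3 : tc1 (N.G b : ℚ) (N.a b) (N.cn b y) = 1 := by
        unfold tc1
        rw [if_neg (by exact_mod_cast ha0), if_neg (by exact_mod_cast ha), hG]
        norm_num
      rw [h3]
      linarith
    · have h1 : ∀ w ∈ N.wd b, N.wf (7 / 4) T (N.rot b w) b w - 1 =
          1 / 2 + (if w = y ∨ N.rot b w = y then 1 / 2 else 0) := by
        intro w hw
        unfold Nerve.wf
        rw [if_neg ha, if_neg hG, if_neg hF, if_neg (by omega), if_neg (by omega), if_pos hn]
        by_cases hm : w = y ∨ N.rot b w = y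
        · rw [if_pos ((hiff w hw).2 hm), if_pos hm]; norm_num
        · rw [if_neg (fun h => hm ((hiff w hw).1 h)), if_neg hm]; norm_num
      rw [sum_congr rfl h1, sum_add_distrib, sum_const, card_wd, nsmul_eq_mul, ← sum_filter,
        sum_const, nsmul_eq_mul, hcn]
      have h3 : tc1 (N.G b : ℚ) (N.a b) (N.cn b y) =
          1 + (N.a b : ℚ) / 2 + (2 - (N.cn b y : ℚ)) / 2 := by
        unfold tc1
        rw [if_neg (by exact_mod_cast ha0), if_neg (by exact_mod_cast ha),
          if_neg (by exact_mod_cast hG), if_neg]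
        rintro ⟨e1, e2, e3⟩
        apply hF
        refine ⟨hb, ⟨by exact_mod_cast e2, by exact_mod_cast e1⟩, ?_⟩
        intro z hz hbz
        rw [hyu z hz hbz, c2 b y hyT.2]
        exact_mod_cast e3
      rw [h3]
      linarith

/-- case without marks -/
private theorem zero_case (cnt : StCnt) {κ : Type} [Fintype κ] [DecidableEq κ] (N : Nerve κ)
    (T : Finset κ) (h5 : 5 ≤ Fintype.card κ) (b : κ) (hb : b ∉ T)
    (hF : ¬ N.Free T b) (hn : N.nu T b = 0) (ha0 : N.a b ≠ 0) (hG2 : 2 ≤ N.G b) :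
    (if N.nu T b ≤ 1 then (1 : ℚ) else 0) + ∑ w ∈ N.wd b, (N.om T (N.rot b w) b w - 1) ≤
    N.chiA T b := by
  classical
  obtain ⟨c1, c2, c3, c4, c5, c6⟩ := cnt N h5
  have haG := N.a_le_G b
  rw [if_pos (by omega)]
  unfold Nerve.chiA
  rw [if_pos hn]
  by_cases ha : N.a b = 1
  · have hom : ∀ w, N.om T (N.rot b w) b w = N.wf (7 / 4) T (N.rot b w) b w :=
      fun w => om_eq N hb hF (by omega) _ _
    simp only [hom]
    have ht : N.t b = 0 := c6 b ha
    have hc : (N.wd b).card = 1 := by rw [card_wd, ha]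
    by_cases hG : N.G b ≤ 3
    · have h1 : ∀ w ∈ N.wd b, N.wf (7 / 4) T (N.rot b w) b w - 1 ≤ -1 := by
        intro w _
        unfold Nerve.wf
        rw [if_pos ha, if_pos hG, if_neg (by omega)]; norm_num
      have h2 := sum_le h1
      rw [hc] at h2
      have h3 : (0 : ℚ) ≤ tc0 (N.G b : ℚ) (N.a b) (N.t b) := by
        rcases (by omega : N.G b = 2 ∨ N.G b = 3) with h | h
        · apply tc0_ge (by omega) (by omega)
          · rw [h, ha, ht]; norm_num
          · rw [ha]; norm_num
        · apply tc0_ge' (by omega)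
          · rw [h, ha, ht]; norm_num
          · rw [ha]; norm_num
      push_cast at h2
      linarith
    · by_cases hG4 : N.G b = 4
      · have h1 : ∀ w ∈ N.wd b, N.wf (7 / 4) T (N.rot b w) b w - 1 ≤ 1 := by
          intro w _
          unfold Nerve.wf
          rw [if_pos ha, if_neg hG, if_pos hn, if_pos hG4]; norm_num
        have h2 := sum_le h1
        rw [hc] at h2
        have h3 : (2 : ℚ) ≤ tc0 (N.G b : ℚ) (N.a b) (N.t b) := by
          apply tc0_ge (by omega) (by omega)
          · rw [hG4, ha, ht]; norm_num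
          · rw [ha]; norm_num
        push_cast at h2
        linarith
      · have h1 : ∀ w ∈ N.wd b, N.wf (7 / 4) T (N.rot b w) b w - 1 ≤ 2 := by
          intro w _
          unfold Nerve.wf
          rw [if_pos ha, if_neg hG, if_pos hn, if_neg hG4]; norm_num
        have h2 := sum_le h1
        rw [hc] at h2
        have h3 : (3 : ℚ) ≤ tc0 (N.G b : ℚ) (N.a b) (N.t b) := by
          have h6 : (5 : ℚ) ≤ N.G b := by exact_mod_cast (by omega : 5 ≤ N.G b)
          apply tc0_ge (by omega) (by omega)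
          · rw [ha, ht]; push_cast; linarith
          · rw [ha]; norm_num
        push_cast at h2
        linarith
  -- at least two corners
  have ha2 : 2 ≤ N.a b := by omega
  have hom : ∀ w, N.om T (N.rot b w) b w = N.wf (7 / 4) T (N.rot b w) b w +
      N.beta T (N.rot b w) b w := fun w => om_not_free N hb hF _ _
  simp only [hom]
  have d3 := c3 b
  have d4 := c4 b
  have d5 := c5 b (by omega)
  have q3 : (N.t b : ℚ) ≤ N.a b := by exact_mod_cast d3
  have q4 : 2 * (N.a b : ℚ) ≤ N.G b + N.t b := by exact_mod_cast d4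
  by_cases hG : N.G b = 2
  · have ha' : N.a b = 2 := by omega
    have ht : N.t b = 2 := by omega
    have hSt : N.St b := ⟨ha', hG⟩
    have h1 : ∀ w ∈ N.wd b, N.wf (7 / 4) T (N.rot b w) b w + N.beta T (N.rot b w) b w - 1 ≤
        -1 / 2 := by
      intro w _
      rw [beta_zero]
      · unfold Nerve.wf
        rw [if_neg ha, if_pos hG, if_pos hn]; norm_num
      · intro hB
        obtain ⟨k1, k2, -, -, -, -, ⟨z, hz⟩, -⟩ := Bon_facts N hB
        exact Nerve.not_St_of_S N (Or.inl k1) (Or.inr hz : N.Cr z w b) k2 hSt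
    have h2 := sum_le h1
    rw [card_wd, ha'] at h2
    have h3 : (0 : ℚ) ≤ tc0 (N.G b : ℚ) (N.a b) (N.t b) := by
      apply tc0_ge' (by omega)
      · rw [hG, ha', ht]; norm_num
      · rw [ha']; norm_num
    push_cast at h2
    linarith
  by_cases h33 : N.G b = 3 ∧ N.a b = 3
  · obtain ⟨hG3, ha3⟩ := h33
    have ht : N.t b = 3 := by omega
    have h1 : ∀ w ∈ N.wd b, N.wf (7 / 4) T (N.rot b w) b w + N.beta T (N.rot b w) b w - 1 ≤
        5 / 6 := by
      intro w _
      rw [beta_zero]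
      · unfold Nerve.wf
        rw [if_neg ha, if_neg hG, if_neg hF, if_pos ⟨hG3, ha3, hn⟩]; norm_num
      · intro hB
        obtain ⟨k1, k2, -, -, -, -, ⟨z, hz⟩, -⟩ := Bon_facts N hB
        exact Nerve.not_111 N (Or.inl k1) (Or.inr hz : N.Cr z w b) k2 ⟨hG3, ha3⟩
    have h2 := sum_le h1
    rw [card_wd, ha3] at h2
    have h3 : (7 / 2 : ℚ) ≤ tc0 (N.G b : ℚ) (N.a b) (N.t b) := by
      apply tc0_ge (by omega) (by omega)
      · rw [hG3, ha3, ht]; norm_num
      · rw [ha3]; norm_num
    push_cast at h2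
    linarith
  -- the main case
  have hG4 : 4 ≤ N.G b := by
    by_contra hc
    have h3 : N.G b = 3 := by omega
    have h2 : N.a b = 2 := by
      have : N.a b ≠ 3 := fun h => h33 ⟨h3, h⟩
      omega
    apply hF
    refine ⟨hb, ⟨h2, h3⟩, ?_⟩
    intro z hz hbz
    exact absurd hbz (N.nu_eq_zero.1 hn z hz)
  have qG : (4 : ℚ) ≤ N.G b := by exact_mod_cast hG4
  have qa : (2 : ℚ) ≤ N.a b := by exact_mod_cast ha2
  have hwf : ∀ w ∈ N.wd b, N.wf (7 / 4) T (N.rot b w) b w + N.beta T (N.rot b w) b w - 1 =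
      1 + N.beta T (N.rot b w) b w := by
    intro w _
    unfold Nerve.wf
    rw [if_neg ha, if_neg hG, if_neg hF, if_neg (by omega), if_pos hn]; ring
  rw [sum_congr rfl hwf, sum_add_distrib, sum_const, card_wd, nsmul_eq_mul, mul_one]
  by_cases hBs : (Bs N T b).Nonempty
  · have hbeta := beta_sum N T b
    obtain ⟨w, hw⟩ := hBs
    have hwB : N.Bon T (N.rot b w) b w := (mem_filter.1 hw).2
    have hwwd : w ∈ N.wd b := (mem_filter.1 hw).1
    obtain ⟨nt1, nt2⟩ := Bon_thin N hwB
    have main : (2 : ℚ) + N.a b ≤ tc0 (N.G b : ℚ) (N.a b) (N.t b) := by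
      apply tc0_ge (by omega) (by omega)
      · by_cases ha' : N.a b = 2
        · have ht : N.t b = 0 := by
            by_contra hne
            have hpos : 0 < N.t b := Nat.pos_of_ne_zero hne
            unfold Nerve.t at hpos
            rw [card_pos] at hpos
            obtain ⟨y, hy⟩ := hpos
            have hthin : N.Thin b y := (mem_filter.1 hy).2
            have e1 := c1 b y hthin.1
            rw [(c2 b y hthin.1).1 hthin] at e1
            have e2 : ((N.wd b).filter (fun w => w = y ∨ N.rot b w = y)).card = 2 := by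
              have : (((N.wd b).filter (fun w => w = y ∨ N.rot b w = y)).card : ℚ) = 2 := by
                rw [e1]; norm_num
              exact_mod_cast this
            have e3 : (N.wd b).filter (fun w => w = y ∨ N.rot b w = y) = N.wd b :=
              eq_of_subset_of_card_le (filter_subset _ _) (by rw [e2, card_wd, ha'])
            rw [← e3] at hwwd
            rcases (mem_filter.1 hwwd).2 with h | h
            · rw [h] at nt2; exact nt2 hthin
            · rw [h] at nt1; exact nt1 hthin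
          rw [ha', ht]; push_cast; linarith
        · have hta : N.t b ≠ N.a b := by
            intro h
            have := d5 h
            exact nt2 (N.thin_of_aG this.symm ((mem_wd N).1 hwwd).1)
          have hta' : N.t b + 1 ≤ N.a b := by omega
          have q5 : (N.t b : ℚ) + 1 ≤ N.a b := by exact_mod_cast hta'
          have q6 : (3 : ℚ) ≤ N.a b := by exact_mod_cast (by omega : 3 ≤ N.a b)
          linarith
      · linarith
    linarith
  · have hzero : ∑ w ∈ N.wd b, N.beta T (N.rot b w) b w = 0 := by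
      apply sum_eq_zero
      intro w hw
      apply beta_zero
      intro hB
      exact hBs ⟨w, mem_filter.2 ⟨hw, hB⟩⟩
    rw [hzero, add_zero]
    apply tc0_ge (by omega) (by omega)
    · by_cases hta : N.t b = N.a b
      · have h1 := d5 hta
        have q5 : (N.t b : ℚ) = N.a b := by exact_mod_cast hta
        have q6 : (N.G b : ℚ) = N.a b := by exact_mod_cast h1
        rw [q5, q6]
        rw [q6] at qG
        linarith
      · have hta' : N.t b + 1 ≤ N.a b := by omega
        have q5 : (N.t b : ℚ) + 1 ≤ N.a b := by exact_mod_cast hta'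
        linarith
    · linarith

theorem m_VF (cnt : StCnt) : StVF := by
  intro κ _ _ N T h5 hT b hb
  classical
  have hG0 := G_ne N h5 b
  have hnu := N.nu_le hT hb
  by_cases ha0 : N.a b = 0
  · have hwd : N.wd b = ∅ := by
      rw [← card_eq_zero, card_wd, ha0]
    rw [hwd, sum_empty, add_zero]
    unfold Nerve.chiA
    have hGq : (N.G b : ℚ) ≠ 0 := by exact_mod_cast hG0
    have haq : (N.a b : ℚ) = 0 := by exact_mod_cast ha0
    rw [haq]
    rcases (by omega : N.nu T b = 0 ∨ N.nu T b = 1 ∨ N.nu T b = 2) with h | h | h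
    · rw [if_pos (by omega), if_pos h]
      unfold tc0 tf tsp
      simp [hGq]
    · rw [if_pos (by omega), if_neg (by omega), if_pos h]
      unfold tc1
      simp
    · rw [if_neg (by omega), if_neg (by omega), if_neg (by omega)]
      unfold tc2
      simp
  by_cases hF : N.Free T b
  · exact free_case cnt N T h5 hT b hb hF
  have hG2 : 2 ≤ N.G b := by
    have h1 : (N.wd b).Nonempty := by
      rw [← card_pos, card_wd]; omega
    obtain ⟨w, hw⟩ := h1
    exact N.two_le_G (cor_wd N hw)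
  rcases (by omega : N.nu T b = 0 ∨ N.nu T b = 1 ∨ N.nu T b = 2) with h | h | h
  · exact zero_case cnt N T h5 b hb hF h ha0 hG2
  · exact one_case cnt N T h5 b hb hF h ha0 hG2
  · exact two_case N T b hb hF h ha0

end Pool.Agent.Helper26.OC
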