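import Mathlib
import Pool.Agent.Helper26.OC.St3

/-!
# Module VN: the inequality at near vertices
-/

set_option autoImplicit false

open Finset

namespace Pool.Agent.Helper26.OC

open Pool.Agent.Helper56.OC (tf tsp tc0 tc1 tc2)

namespace VN

variable {κ : Type} [Fintype κ] [DecidableEq κ] (N : Nerve κ)

omit [DecidableEq κ] in
theorem card_wd (b : κ) : (N.wd b).card = N.a b := rfl

omit [DecidableEq κ] in
theorem G_ne_zero (h5 : 5 ≤ Fintype.card κ) (b : κ) : N.G b ≠ 0 := by
  classical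
  intro h
  have hno : ∀ y, ¬ N.adj b y := by
    intro y hy
    unfold Nerve.G at h
    rw [card_eq_zero] at h
    have : y ∈ univ.filter (fun y => N.adj b y) := mem_filter.2 ⟨mem_univ _, hy⟩
    rw [h] at this
    exact absurd this (notMem_empty _)
  have hall : ∀ z, z = b := by
    intro z
    refine N.conn (fun z => z = b) ?_ b z rfl
    rintro a c rfl hac
    exact absurd hac (hno c)
  have : Fintype.card κ ≤ 1 := Fintype.card_le_one_iff.2 fun x y => (hall x).trans (hall y).symm
  omega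

omit [Fintype κ] in
theorem filter_eq {T : Finset κ} (hT : N.Clq T) {b : κ} (hb : b ∈ T)
    [DecidablePred (fun y => N.adj b y)] :
    T.filter (fun y => N.adj b y) = T.erase b := by
  ext y
  rw [mem_filter, mem_erase]
  constructor
  · rintro ⟨h1, h2⟩
    exact ⟨(N.ne_of_adj h2).symm, h1⟩
  · rintro ⟨h1, h2⟩
    exact ⟨h2, hT b hb y h2 h1.symm⟩

omit [Fintype κ] in
theorem nu_eq {T : Finset κ} (hT : N.Clq T) {b : κ} (hb : b ∈ T) : N.nu T b = T.card - 1 := by
  classical
  unfold Nerve.nu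
  rw [filter_eq N hT hb, card_erase_of_mem hb]

/-- the weights -/
theorem om_near {T : Finset κ} {b : κ} (hb : b ∈ T) (u w : κ) :
    N.om T u b w = if T.card = 1 ∧ N.a b = 1 then 2 else if T.card = 1 ∧ N.a b = 2 then 3 / 2
      else N.wn T u b w := by
  unfold Nerve.om
  rw [if_pos hb]

theorem case1 (h5 : 5 ≤ Fintype.card κ) {T : Finset κ} {b : κ} (hb : b ∈ T)
    (hT1 : T.card = 1) (hnu : N.nu T b = 0) :
    ∑ w ∈ N.wd b, (N.om T (N.rot b w) b w - 1) - 5 ≤ - N.chnA T b := by
  have hG := G_ne_zero N h5 b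
  have haG := N.a_le_G b
  unfold Nerve.chnA
  rw [if_pos hnu]
  have hs : ∑ w ∈ N.wd b, (N.om T (N.rot b w) b w - 1) =
      (N.a b : ℚ) * ((if N.a b = 1 then 2 else if N.a b = 2 then 3 / 2 else
        if N.G b = 3 ∧ N.a b = 3 then 1 / 6 else if N.a b = 0 then 1 else 0) - 1) := by
    by_cases h0 : N.a b = 0
    · have hwd : N.wd b = ∅ := by
        rw [← card_eq_zero, card_wd, h0]
      rw [hwd, sum_empty, h0]
      simp
    rw [sum_congr rfl (fun w _ => by rw [om_near N hb]), ← card_wd, ← nsmul_eq_mul, ← sum_const]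
    refine sum_congr rfl fun w _ => ?_
    rw [card_wd]
    by_cases h1 : N.a b = 1
    · rw [if_pos ⟨hT1, h1⟩, if_pos h1]
    rw [if_neg (fun h => h1 h.2), if_neg h1]
    by_cases h2 : N.a b = 2
    · rw [if_pos ⟨hT1, h2⟩, if_pos h2]
    rw [if_neg (fun h => h2 h.2), if_neg h2]
    unfold Nerve.wn
    rw [if_pos hT1, if_neg h1, if_neg (show ¬ N.G b = 2 by omega), if_neg (fun h => h2 h.2),
      if_neg h0]
  rw [hs]
  unfold tf
  have hGq : (N.G b : ℚ) ≠ 0 := Nat.cast_ne_zero.2 hG
  by_cases h0 : N.a b = 0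
  · rw [h0, if_pos Nat.cast_zero, if_neg hGq]
    norm_num
  · have h0q : (N.a b : ℚ) ≠ 0 := Nat.cast_ne_zero.2 h0
    rw [if_neg h0q]
    have h1 := min_le_right (-4 + (N.G b : ℚ) + 2 * (N.a b : ℚ) - (N.t b : ℚ) / 2) ((N.a b : ℚ) + 2)
    by_cases e1 : N.a b = 1
    · rw [if_pos e1]
      have e1q : (N.a b : ℚ) = 1 := by rw [e1]; norm_num
      rw [e1q] at h1 ⊢
      linarith
    rw [if_neg e1]
    by_cases e2 : N.a b = 2
    · rw [if_pos e2]
      have e2q : (N.a b : ℚ) = 2 := by rw [e2]; norm_num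
      rw [e2q] at h1 ⊢
      linarith
    rw [if_neg e2]
    by_cases e3 : N.G b = 3 ∧ N.a b = 3
    · rw [if_pos e3]
      have e3q : (N.a b : ℚ) = 3 := by rw [e3.2]; norm_num
      rw [e3q] at h1 ⊢
      linarith
    rw [if_neg e3, if_neg h0]
    linarith

theorem case3 {T : Finset κ} {b : κ} (hb : b ∈ T)
    (hT3 : T.card = 3) (hnu : N.nu T b = 2) :
    ∑ w ∈ N.wd b, (N.om T (N.rot b w) b w - 1) - 0 ≤ - N.chnA T b := by
  have hn0 : ¬ N.nu T b = 0 := by omega
  have hn1 : ¬ N.nu T b = 1 := by omega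
  unfold Nerve.chnA Nerve.chiA
  simp only [if_neg hn0, if_neg hn1]
  have hs : ∑ w ∈ N.wd b, (N.om T (N.rot b w) b w - 1) =
      (N.a b : ℚ) * ((if N.a b = 1 ∧ N.G b ≤ 3 then 1 else 1 / 2) - 1) := by
    rw [sum_congr rfl (fun w _ => by
      rw [om_near N hb, if_neg (fun h => by omega), if_neg (fun h => by omega), Nerve.wn,
        if_neg (by omega), if_neg (by omega)]),
      sum_const, nsmul_eq_mul, card_wd]
  rw [hs]
  unfold tc2
  by_cases h0 : N.a b = 0
  · rw [h0, if_pos Nat.cast_zero]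
    norm_num
  · have h0q : (N.a b : ℚ) ≠ 0 := Nat.cast_ne_zero.2 h0
    rw [if_neg h0q]
    by_cases h1 : N.a b = 1
    · rw [h1, if_pos Nat.cast_one]
      by_cases h3 : N.G b ≤ 3
      · have h3q : (N.G b : ℚ) ≤ 3 := by exact_mod_cast h3
        rw [if_pos h3q, if_pos ⟨rfl, h3⟩]
        norm_num
      · have h3q : ¬ (N.G b : ℚ) ≤ 3 := by
          intro h; exact h3 (by exact_mod_cast h)
        rw [if_neg h3q, if_neg (fun h => h3 h.2)]
        norm_num
    · have h1q : (N.a b : ℚ) ≠ 1 := by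
        intro h; exact h1 (by exact_mod_cast h)
      rw [if_neg h1q, if_neg (fun h => h1 h.1)]
      linarith

theorem case2 (cnt : StCnt) (h5 : 5 ≤ Fintype.card κ) {T : Finset κ} (hT : N.Clq T) {b : κ} (hb : b ∈ T)
    (hT2 : T.card = 2) (hnu : N.nu T b = 1) :
    ∑ w ∈ N.wd b, (N.om T (N.rot b w) b w - 1) - 1 ≤ - N.chnA T b := by
  classical
  obtain ⟨c1, c2, -, -, -, -⟩ := cnt N h5
  have hG := G_ne_zero N h5 b
  have haG := N.a_le_G b
  -- the other member
  obtain ⟨y, hy⟩ : ∃ y, T.erase b = {y} := by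
    rw [← card_eq_one, card_erase_of_mem hb, hT2]
  have hyT : y ∈ T.erase b := by rw [hy]; exact mem_singleton_self y
  have hyb : y ≠ b := (mem_erase.1 hyT).1
  have hyT' : y ∈ T := (mem_erase.1 hyT).2
  have hby : N.adj b y := hT b hb y hyT' hyb.symm
  have hmem : ∀ z, z ≠ b → (z ∈ T ↔ z = y) := by
    intro z hz
    rw [← mem_singleton, ← hy, mem_erase]
    exact ⟨fun h => ⟨hz, h⟩, fun h => h.2⟩
  have hdm : N.dm T b = N.cn b y := by
    unfold Nerve.dm
    rw [filter_eq N hT hb, hy, sum_singleton]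
  have hthin : (∀ z ∈ T, N.adj b z → N.Thin b z) ↔ N.cn b y = 0 := by
    rw [← c2 b y hby]
    constructor
    · exact fun h => h y hyT' hby
    · intro h z hz hbz
      have : z = y := (hmem z (N.ne_of_adj hbz).symm).1 hz
      rw [this]; exact h
  have hcnt := c1 b y hby
  -- the condition
  have hcond : ∀ w ∈ N.wd b, ((N.rot b w ∈ T ∨ w ∈ T) ↔ (w = y ∨ N.rot b w = y)) := by
    intro w hw
    have hw' : N.adj b w := by
      unfold Nerve.wd at hw
      exact (mem_filter.1 hw).2.1
    rw [hmem w (N.ne_of_adj hw').symm, hmem (N.rot b w) (N.ne_of_adj (N.rot_adj hw')).symm]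
    exact or_comm
  -- sums
  have hsum : ∀ p q : ℚ, ∑ w ∈ N.wd b, (if w = y ∨ N.rot b w = y then p else q) =
      p * (2 - N.cn b y) + q * (N.a b - (2 - N.cn b y)) := by
    intro p q
    rw [sum_ite, sum_const, sum_const, nsmul_eq_mul, nsmul_eq_mul]
    have h1 := card_filter_add_card_filter_not (s := N.wd b) (fun w => w = y ∨ N.rot b w = y)
    rw [card_wd] at h1
    have h2 : ((N.wd b).filter (fun w => ¬ (w = y ∨ N.rot b w = y))).card =
        (N.a b : ℚ) - ((N.wd b).filter (fun w => w = y ∨ N.rot b w = y)).card := by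
      rw [← h1]; push_cast; ring
    rw [h2, hcnt]
    ring
  have hom : ∀ w ∈ N.wd b, N.om T (N.rot b w) b w - 1 =
      (if N.a b = 1 then
        (if N.G b ≤ 3 then 1 else if w = y ∨ N.rot b w = y then -1 else if N.G b = 4 then 0 else -(1 / 2))
      else if N.G b = 2 then 0
      else if N.G b = 3 ∧ N.a b = 2 ∧ N.cn b y = 0 then -(3 / 4)
      else if w = y ∨ N.rot b w = y then -1 else -(1 / 2)) := by
    intro w hw
    have e := hcond w hw
    rw [om_near N hb, if_neg (fun h => by omega), if_neg (fun h => by omega), Nerve.wn,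
      if_neg (by omega), if_pos hT2]
    simp only [e, hthin]
    split_ifs <;> norm_num
  rw [sum_congr rfl hom]
  have hn0 : ¬ N.nu T b = 0 := by omega
  unfold Nerve.chnA Nerve.chiA
  simp only [if_neg hn0, if_pos hnu]
  rw [hdm]
  unfold tc1
  by_cases h0 : N.a b = 0
  · have hwd : N.wd b = ∅ := by
      rw [← card_eq_zero, card_wd, h0]
    rw [hwd, sum_empty, h0, if_pos Nat.cast_zero]
    norm_num
  have h0q : (N.a b : ℚ) ≠ 0 := Nat.cast_ne_zero.2 h0
  rw [if_neg h0q]
  by_cases h1 : N.a b = 1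
  · have h1q : (N.a b : ℚ) = 1 := by rw [h1, Nat.cast_one]
    rw [if_pos h1q]
    simp only [if_pos h1]
    by_cases h3 : N.G b ≤ 3
    · have h3q : (N.G b : ℚ) ≤ 3 := by exact_mod_cast h3
      simp only [if_pos h3, if_pos h3q]
      rw [sum_const, nsmul_eq_mul, card_wd, h1q]
      split_ifs <;> norm_num
    · have h3q : ¬ (N.G b : ℚ) ≤ 3 := by
        intro h; exact h3 (by exact_mod_cast h)
      have hG1 : ¬ (N.G b : ℚ) = 1 := by
        intro h; apply h3q; rw [h]; norm_num
      simp only [if_neg h3, if_neg h3q, if_neg hG1]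
      rw [hsum, h1q]
      -- the number of corners at `y` is 0 or 1
      have hle : ((N.wd b).filter (fun w => w = y ∨ N.rot b w = y)).card ≤ 1 := by
        have := card_filter_le (N.wd b) (fun w => w = y ∨ N.rot b w = y)
        rw [card_wd, h1] at this
        exact this
      rcases Nat.le_one_iff_eq_zero_or_eq_one.1 hle with h | h
      · rw [h] at hcnt
        have hc : (N.cn b y : ℚ) = 2 := by push_cast at hcnt; linarith
        rw [hc, if_neg (show ¬ (2 : ℚ) = 1 by norm_num)]
        by_cases h4 : N.G b = 4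
        · have h4q : (N.G b : ℚ) = 4 := by rw [h4]; norm_num
          rw [if_pos h4, if_pos h4q]
          norm_num
        · have h4q : ¬ (N.G b : ℚ) = 4 := by
            intro h; exact h4 (by exact_mod_cast h)
          rw [if_neg h4, if_neg h4q]
          norm_num
      · rw [h] at hcnt
        have hc : (N.cn b y : ℚ) = 1 := by push_cast at hcnt; linarith
        rw [hc, if_pos (rfl : (1 : ℚ) = 1)]
        split_ifs <;> norm_num
  · have h1q : ¬ (N.a b : ℚ) = 1 := by
      intro h; exact h1 (by exact_mod_cast h)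
    rw [if_neg h1q]
    simp only [if_neg h1]
    by_cases h2 : N.G b = 2
    · have h2q : (N.G b : ℚ) = 2 := by rw [h2]; norm_num
      simp only [if_pos h2, if_pos h2q]
      rw [sum_const_zero]
      norm_num
    · have h2q : ¬ (N.G b : ℚ) = 2 := by
        intro h; exact h2 (by exact_mod_cast h)
      simp only [if_neg h2, if_neg h2q]
      by_cases h3 : N.G b = 3 ∧ N.a b = 2 ∧ N.cn b y = 0
      · have h3q : (N.G b : ℚ) = 3 ∧ (N.a b : ℚ) = 2 ∧ (N.cn b y : ℚ) = 0 := by
          obtain ⟨e1, e2, e3⟩ := h3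
          rw [e1, e2, e3]
          norm_num
        simp only [if_pos h3, if_pos h3q]
        rw [sum_const, nsmul_eq_mul, card_wd, h3q.2.1]
        norm_num
      · have h3q : ¬ ((N.G b : ℚ) = 3 ∧ (N.a b : ℚ) = 2 ∧ (N.cn b y : ℚ) = 0) := by
          rintro ⟨e1, e2, e3⟩
          exact h3 ⟨by exact_mod_cast e1, by exact_mod_cast e2, by exact_mod_cast e3⟩
        simp only [if_neg h3, if_neg h3q]
        rw [hsum]
        linarith

end VN

open VN in
/-- **MODULE VN.** -/
theorem m_VN (cnt : StCnt) : StVN := by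
  intro κ _ _ N T h5 hT b hb
  have hc := hT.card_le N
  have hpos : 0 < T.card := card_pos.2 ⟨b, hb⟩
  have hnu := nu_eq N hT hb
  have h123 : T.card = 1 ∨ T.card = 2 ∨ T.card = 3 := by omega
  rcases h123 with h | h | h
  · rw [if_pos h]
    exact case1 N h5 hb h (by omega)
  · rw [if_neg (by omega), if_pos h]
    exact case2 N cnt h5 hT hb h (by omega)
  · rw [if_neg (by omega), if_neg (by omega)]
    exact case3 N hb h (by omega)

end Pool.Agent.Helper26.OC
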