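import Mathlib
import Pool.Agent.Helper26.OC.AsC
import Pool.Agent.Helper26.OC.M_CNT
import Pool.Agent.Helper26.OC.M_VF
import Pool.Agent.Helper26.OC.M_VN
import Pool.Agent.Helper26.OC.M_BASE
import Pool.Agent.Helper26.OC.M_LOW

/-!
# Assembly, part D: the block inequality for nerves
-/

set_option autoImplicit false

open Finset

namespace Pool.Agent.Helper26.OC

open Pool.Agent.Helper56.OC (tf tsp tc0 tc1 tc2)

namespace Nerve

variable {κ : Type} [Fintype κ] [DecidableEq κ] {N : Nerve κ} {T : Finset κ}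
  {k : ℕ} {f g : ℕ → κ}

theorem om_nonneg {u b w : κ} : 0 ≤ N.om T u b w :=
  (N.wt_nonneg (q := 3 / 2) (by norm_num)).trans (N.om_ge fun hF => N.om_free_ge hF)

open Classical in
/-- final weights for `T = {x}`, `a x ≤ 2`, far strips marked -/
theorem om_single {x u b w : κ} (hc : N.Cr u b w) (ha : N.a x ≤ 2) (hm : N.MS {x} b) :
    (if ¬ N.S b then (1 : ℚ) else 0) + (if b = x then (if N.S x then 2 else 1 / 2) else 0) ≤
      N.om {x} u b w := by
  by_cases hb : b = x
  · subst hb
    rw [if_pos rfl]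
    have ha1 := Cr.a_pos N hc
    unfold om
    rw [if_pos (mem_singleton_self _), card_singleton]
    by_cases hS : N.S b
    · rw [if_neg (not_not.2 hS), if_pos hS, if_pos ⟨rfl, hS.1⟩]
      norm_num
    · rw [if_pos hS, if_neg hS]
      by_cases h1 : N.a b = 1
      · rw [if_pos ⟨rfl, h1⟩]; norm_num
      · rw [if_neg (by tauto), if_pos ⟨rfl, by omega⟩]; norm_num
  · rw [if_neg hb, add_zero]
    have hb' : b ∉ ({x} : Finset κ) := by rw [mem_singleton]; exact hb
    by_cases hS : N.S b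
    · rw [if_neg (not_not.2 hS)]; exact om_nonneg
    · rw [if_pos hS]
      exact (N.one_le_far (q := 3 / 2) hb' (Cr.a_pos N hc) hS hm (by norm_num)).trans
        (N.om_ge fun hF => N.om_free_ge hF)

/-- **Windows, one near facet with at most two corners.** -/
theorem W1a {x : κ} (hNR : N.NR2 {x}) (ha : N.a x ≤ 2)
    (hlow : ∀ k f, N.IsWin k f → 3 ≤ N.lng k f) (hf : N.IsWin k f) : 0 ≤ N.OS {x} k f := by
  classical
  have hne : ({x} : Finset κ).Nonempty := ⟨x, mem_singleton_self x⟩
  have hT : N.Clq {x} := by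
    intro y hy z hz hyz
    rw [mem_singleton] at hy hz
    exact absurd (hy.trans hz.symm) hyz
  have hl := hlow k f hf
  by_cases hxf : ∀ i, f i ∉ ({x} : Finset κ)
  · rcases N.D32 hne hT hNR hf (fun h => by omega) (Or.inr (Or.inl hxf)) with h | ⟨rfl, hl, hms⟩
    · exact h.trans N.OS_ge_D
    · have hP : N.P5 {x} f := ⟨hf, hl, hms⟩
      exact (N.W5_TF hf (hP.pl.far N le_rfl (hxf 0) (hxf 1) (hxf 2) (hxf 3) (hxf 4) (hms 0)
        (hms 1) (hms 2) (hms 3) (hms 4))).trans N.OS_ge_D
  by_cases hus : ∃ i, N.St (f i) ∧ f i ∉ ({x} : Finset κ) ∧ N.nu {x} (f i) = 0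
  · exact (m_ST N {x} k f hne hT hNR hf hus).trans N.OS_ge_D
  have hms := N.ms_of hus
  push Not at hxf
  obtain ⟨i, hi⟩ := hxf
  have hi' : f i = x := mem_singleton.1 hi
  -- shift, so that `x = f 1`
  have h5 := hf.five
  have hkpos : 0 < k := by omega
  have e1 : f (1 + (i + k - 1)) = x := by
    rw [show 1 + (i + k - 1) = i + k by omega, hf.per, hi']
  rw [← hf.OS_shift {x} (i + k - 1)]
  have hwin := hf.shift (i + k - 1)
  have hl' : 3 ≤ N.lng k (fun j => f (j + (i + k - 1))) := hlow _ _ hwin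
  have hms' : ∀ j, N.MS {x} (f (j + (i + k - 1))) := fun j => hms _
  obtain ⟨f', hf'⟩ : ∃ f' : ℕ → κ, f' = fun j => f (j + (i + k - 1)) := ⟨_, rfl⟩
  have e1' : f' 1 = x := by rw [hf']; exact e1
  have hms'' : ∀ j, N.MS {x} (f' j) := by rw [hf']; exact hms'
  rw [← hf'] at hwin hl' ⊢
  clear hf' hms' hms e1 hi hi' hus
  have hcount : 3 + (if N.S x then (2 : ℚ) else 1 / 2) ≤
      ∑ j ∈ range k, N.om {x} (f' j) (f' (j + 1)) (f' (j + 2)) := by
    have h1 : ∑ j ∈ range k, ((if ¬ N.S (f' (j + 1)) then (1 : ℚ) else 0) +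
        (if f' (j + 1) = x then (if N.S x then 2 else 1 / 2) else 0)) ≤
        ∑ j ∈ range k, N.om {x} (f' j) (f' (j + 1)) (f' (j + 2)) :=
      sum_le_sum fun j _ => om_single (hwin.cor j).cr ha (hms'' (j + 1))
    rw [sum_add_distrib] at h1
    have h2 : (3 : ℚ) ≤ ∑ j ∈ range k, (if ¬ N.S (f' (j + 1)) then (1 : ℚ) else 0) := by
      have h3 := hwin.lng_shift 1
      have h4 : (N.lng k (fun i => f' (i + 1)) : ℚ) =
          ∑ j ∈ range k, (if ¬ N.S (f' (j + 1)) then (1 : ℚ) else 0) := by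
        unfold lng
        rw [card_filter]
        push_cast
        rfl
      rw [← h4, h3]
      exact_mod_cast hl'
    have h5 : (if N.S x then (2 : ℚ) else 1 / 2) ≤
        ∑ j ∈ range k, (if f' (j + 1) = x then (if N.S x then (2 : ℚ) else 1 / 2) else 0) := by
      have h6 := single_le_sum (f := fun j => if f' (j + 1) = x then
        (if N.S x then (2 : ℚ) else 1 / 2) else 0) (s := range k) (fun j _ => by
          split_ifs <;> norm_num) (mem_range.2 hkpos)
      rw [Nat.zero_add, if_pos e1'] at h6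
      exact h6
    linarith
  have hsum : ∑ j ∈ range k, N.om {x} (f' j) (f' (j + 1)) (f' (j + 2)) ≤
      ∑ j ∈ range k, (N.om {x} (f' j) (f' (j + 1)) (f' (j + 2)) +
        (if f' j ∈ ({x} : Finset κ) ∧ f' (j + 1) ∈ ({x} : Finset κ) then (1 : ℚ) else 0)) :=
    sum_le_sum fun j _ => by split_ifs <;> linarith
  by_cases hS : N.S x
  · rw [if_pos hS] at hcount
    unfold OS
    have : (5 : ℚ) ≤ k := by exact_mod_cast h5
    linarith
  · rw [if_neg hS] at hcount
    rcases Nat.lt_or_ge 5 k with h6 | h6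
    · unfold OS
      have : (6 : ℚ) ≤ k := by exact_mod_cast h6
      linarith
    · have hk : k = 5 := by omega
      subst hk
      -- pentagon
      have hP : N.P5 {x} f' := ⟨hwin, hl', hms''⟩
      have hpl := PL.rot N hP.pl
      rw [e1'] at hpl
      have h9 := (hpl.one N hS (hms'' _) (hms'' _) (q := 3 / 2) le_rfl (by norm_num)).1 rfl
      unfold W5 at h9
      rw [hwin.OS5, e1']
      have hax := Cr.a_pos N hpl.p.c0
      have w0 : 3 / 2 ≤ N.om {x} (f' 0) x (f' 2) := by
        unfold om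
        rw [if_pos (mem_singleton_self _), card_singleton]
        by_cases h1 : N.a x = 1
        · rw [if_pos ⟨rfl, h1⟩]; norm_num
        · rw [if_neg (by tauto), if_pos ⟨rfl, by omega⟩]
      have hge : ∀ u b w, N.wt (3 / 2) {x} u b w ≤ N.om {x} u b w := fun u b w =>
        N.om_ge fun hF => N.om_free_ge hF
      have w1 := hge x (f' 2) (f' 3)
      have w2 := hge (f' 2) (f' 3) (f' 4)
      have w3 := hge (f' 3) (f' 4) (f' 0)
      have w4 := hge (f' 4) (f' 0) x
      linarith

end Nerve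

end Pool.Agent.Helper26.OC
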