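import Mathlib
import Pool.Agent.Helper26.OC.AsD

/-!
# The block inequality for nerves
-/

set_option autoImplicit false

open Finset

namespace Pool.Agent.Helper26.OC

open Pool.Agent.Helper56.OC (tf tsp tc0 tc1 tc2)

namespace Nerve

variable {κ : Type} [Fintype κ] [DecidableEq κ] {N : Nerve κ} {T : Finset κ}
  {k : ℕ} {f g : ℕ → κ}

theorem win_mem {f : ℕ → κ} (hf : N.IsWin k f) (ha1 : ∀ i, N.a (f i) = 1)
    (ha0 : ∀ v, (∀ i, f i ≠ v) → N.a v = 0) {b w : κ} (hbw : N.adj b w) (hw : N.win b w) :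
    ∃ i, f i = b ∧ f (i + 1) = w := by
  have hb : ∃ i, f i = b := by
    by_contra hcon
    push Not at hcon
    have := ha0 b hcon
    have := N.a_pos hbw hw
    omega
  obtain ⟨i, rfl⟩ := hb
  have h5 := hf.five
  have hc := hf.cor (i + k - 1)
  rw [show i + k - 1 + 1 = i + k by omega, show i + k - 1 + 2 = i + k + 1 by omega, hf.per,
    hf.per1] at hc
  exact ⟨i, rfl, N.win_unique (ha1 i) hbw hw hc.2.1 hc.2.2.2.2⟩

theorem sum_a {f : ℕ → κ} (hf : N.IsWin k f) (ha1 : ∀ i, N.a (f i) = 1)
    (ha0 : ∀ v, (∀ i, f i ≠ v) → N.a v = 0) : ∑ b, N.a b = k := by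
  classical
  have h1 : ∀ b, N.a b = if b ∈ (range k).image f then 1 else 0 := by
    intro b
    split_ifs with h
    · obtain ⟨i, -, rfl⟩ := mem_image.1 h
      exact ha1 i
    · apply ha0
      rintro i rfl
      obtain ⟨j, hj, hj2⟩ := hf.mod i
      apply h
      rw [mem_image]
      exact ⟨j, mem_range.2 hj, (hj2 0).symm⟩
  rw [sum_congr rfl fun b _ => h1 b, sum_boole, Nat.cast_id]
  have h2 : univ.filter (fun b => b ∈ (range k).image f) = (range k).image f := by
    ext b; simp only [mem_filter, mem_univ, true_and]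
  rw [h2, card_image_of_injOn, card_range]
  intro i hi j hj h
  exact hf.inj i (mem_range.1 hi) j (mem_range.1 hj) h

theorem G_ne_zero' (h5 : 5 ≤ Fintype.card κ) (b : κ) : N.G b ≠ 0 := VN.G_ne_zero N h5 b

/-- one near facet and a window with at most two long corners -/
theorem low_one (hE : N.Euler) (h5 : 5 ≤ Fintype.card κ) {x : κ} (hf : N.IsWin k f)
    (hl : N.lng k f ≤ 2) : 0 ≤ N.BB {x} := by
  classical
  obtain ⟨ha1, ha0, hk5⟩ := m_LOWA N k f hf hl
  have hT : N.Clq {x} := by
    intro y hy z hz hyz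
    rw [mem_singleton] at hy hz
    exact absurd (hy.trans hz.symm) hyz
  have h1 := hE.2 k f hf fun b w hbw hw => win_mem hf ha1 ha0 hbw hw
  have hsum := sum_a hf ha1 ha0
  have hk := hf.five
  have hGx := N.G_ne_zero' h5 x
  -- far vertices
  have hfar : ∀ b ∉ ({x} : Finset κ), 1 - (N.a b : ℚ) ≤ N.chiA {x} b := by
    intro b hb
    have h2 := m_VF m_CNT N {x} h5 hT b hb
    have h3 : N.nu {x} b ≤ 1 := by
      unfold nu
      exact (card_filter_le _ _).trans (card_singleton x).le
    rw [if_pos h3] at h2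
    have h4 : -(N.a b : ℚ) ≤ ∑ w ∈ N.wd b, (N.om {x} (N.rot b w) b w - 1) := by
      have h6 : ∑ w ∈ N.wd b, (-1 : ℚ) ≤ ∑ w ∈ N.wd b, (N.om {x} (N.rot b w) b w - 1) :=
        sum_le_sum fun w _ => by
          have := om_nonneg (N := N) (T := {x}) (u := N.rot b w) (b := b) (w := w)
          linarith
      rw [sum_const, nsmul_eq_mul] at h6
      have h7 : ((N.wd b).card : ℚ) = N.a b := rfl
      rw [h7] at h6
      linarith
    linarith
  -- the near vertex
  have hnu : N.nu {x} x = 0 := (N.nu_single x x).2 (N.irr x)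
  have hnear : N.chnA {x} x = tf (N.G x) (N.a x) (N.t x) := by
    unfold chnA
    rw [if_pos hnu]
  -- the sum
  have hs : ∑ b, (if b ∈ ({x} : Finset κ) then - N.chnA {x} b else N.chiA {x} b) =
      - N.chnA {x} x + ∑ b ∈ univ.erase x, N.chiA {x} b := by
    rw [← add_sum_erase univ _ (mem_univ x), if_pos (mem_singleton_self x)]
    congr 1
    refine sum_congr rfl fun b hb => ?_
    rw [if_neg]
    rw [mem_singleton]
    exact (mem_erase.1 hb).1
  have hs2 : ∑ b ∈ univ.erase x, (1 - (N.a b : ℚ)) ≤ ∑ b ∈ univ.erase x, N.chiA {x} b :=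
    sum_le_sum fun b hb => hfar b (by rw [mem_singleton]; exact (mem_erase.1 hb).1)
  have hs3 : ∑ b ∈ univ.erase x, (1 - (N.a b : ℚ)) =
      (Fintype.card κ : ℚ) - 1 - ((k : ℚ) - N.a x) := by
    have e1 : ∑ b, (1 - (N.a b : ℚ)) = (Fintype.card κ : ℚ) - k := by
      rw [sum_sub_distrib, sum_const, nsmul_eq_mul, mul_one, card_univ]
      have : ((∑ b, N.a b : ℕ) : ℚ) = k := by rw [hsum]
      push_cast at this
      rw [this]
    have e2 := add_sum_erase univ (fun b => (1 - (N.a b : ℚ))) (mem_univ x)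
    rw [e1] at e2
    linarith
  unfold BB
  rw [hs]
  have hGq : (N.G x : ℚ) ≠ 0 := Nat.cast_ne_zero.2 hGx
  have hkq : (5 : ℚ) ≤ k := by exact_mod_cast hk
  have hx01 : N.a x = 0 ∨ N.a x = 1 := by
    by_cases h : ∃ i, f i = x
    · obtain ⟨i, rfl⟩ := h
      exact Or.inr (ha1 i)
    · push Not at h
      exact Or.inl (ha0 x h)
  rcases hx01 with hx | hx
  · have ht : tf (N.G x) (N.a x) (N.t x) ≤ 1 := by
      unfold tf
      rw [hx, if_pos Nat.cast_zero, if_neg hGq]
    rw [hx] at hs3
    push_cast at hs3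
    linarith
  · have ht : tf (N.G x) (N.a x) (N.t x) ≤ 3 := by
      unfold tf
      rw [hx, if_neg (by norm_num)]
      refine (min_le_right _ _).trans ?_
      norm_num
    rw [hx] at hs3
    push_cast at hs3
    rcases Nat.lt_or_ge 5 k with h6 | h6
    · have : (6 : ℚ) ≤ k := by exact_mod_cast h6
      linarith
    · have hk' : k = 5 := by omega
      subst hk'
      have hG4 : N.G x ≤ 4 := by
        by_cases h : ∃ i, f i = x
        · obtain ⟨i, rfl⟩ := h
          exact (hk5 rfl).2 i
        · push Not at h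
          have := ha0 x h
          omega
      have hG4q : (N.G x : ℚ) ≤ 4 := by exact_mod_cast hG4
      have ht' : tf (N.G x) (N.a x) (N.t x) ≤ 2 := by
        unfold tf
        rw [hx, if_neg (by norm_num)]
        refine (min_le_left _ _).trans ?_
        have : (0 : ℚ) ≤ (N.t x : ℚ) := Nat.cast_nonneg _
        push_cast
        linarith
      push_cast at h1 hs3
      linarith

end Nerve

/-- **The block inequality for nerves.** -/
theorem m_BLOCK5 : StBlock5 := by
  intro κ _ _ N hE h5 T hne hT hNR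
  classical
  have hc3 := Nerve.Clq.card_le N hT
  have hc1 := hne.card_pos
  by_cases hlow1 : T.card = 1 ∧ ∃ k f, N.IsWin k f ∧ N.lng k f ≤ 2
  · obtain ⟨hc, k, f, hf, hl⟩ := hlow1
    obtain ⟨x, rfl⟩ := card_eq_one.1 hc
    exact Nerve.low_one hE h5 hf hl
  -- all windows have a nonnegative surplus
  have hW : ∀ k f, N.IsWin k f → 0 ≤ N.OS T k f := by
    intro k f hf
    by_cases hc : T.card = 1
    · obtain ⟨x, rfl⟩ := card_eq_one.1 hc
      have hl : ∀ k f, N.IsWin k f → 3 ≤ N.lng k f := by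
        intro k f hf
        by_contra h
        exact hlow1 ⟨hc, k, f, hf, by omega⟩
      by_cases ha : N.a x ≤ 2
      · exact Nerve.W1a hNR ha hl hf
      · refine Nerve.W1b hne hT hNR (fun k f hf h => by have := hl k f hf; omega)
          (Or.inr fun y hy => ?_) hf
        rw [mem_singleton] at hy
        subst hy
        omega
    · exact Nerve.W1b hne hT hNR (fun k f hf h => m_LOWB N T k f (by omega) hT hf h)
        (Or.inl (by omega)) hf
  have hg : ∀ k f, N.IsWin k f → (9 : ℚ) ≤ ∑ i ∈ range k,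
      (1 + N.om T (f i) (f (i + 1)) (f (i + 2)) + Nerve.ed T (f (i + 1)) (f (i + 2))) := by
    intro k f hf
    have h1 := hW k f hf
    have h2 : ∑ i ∈ range k, Nerve.ed T (f (i + 1)) (f (i + 2)) =
        ∑ i ∈ range k, Nerve.ed T (f i) (f (i + 1)) :=
      SHIFT.sum_shift (fun i => Nerve.ed T (f i) (f (i + 1))) k
        (fun i => by simp only [hf.per i, hf.per1 i]) 1
    rw [sum_add_distrib, sum_add_distrib, h2, sum_const, nsmul_eq_mul, mul_one, card_range]
    unfold Nerve.OS at h1
    rw [sum_add_distrib] at h1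
    unfold Nerve.ed
    linarith
  have hE1 := hE.1 (fun u b w => 1 + N.om T u b w + Nerve.ed T b w) hg
  have hbase := m_BASE m_CNT N T h5 hne hT
  -- the constants
  set c : ℚ := if T.card = 1 then 5 else if T.card = 2 then 1 else 0 with hcdef
  have hvert : ∀ b, ∑ w ∈ N.wd b, (N.om T (N.rot b w) b w - 1) +
      (if b ∈ T then - c else (if N.nu T b ≤ 1 then (1 : ℚ) else 0)) ≤
      (if b ∈ T then - N.chnA T b else N.chiA T b) := by
    intro b
    by_cases hb : b ∈ T
    · rw [if_pos hb, if_pos hb]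
      have := m_VN m_CNT N T h5 hT b hb
      linarith
    · rw [if_neg hb, if_neg hb]
      have := m_VF m_CNT N T h5 hT b hb
      linarith
  have hsum := sum_le_sum (s := univ) fun b _ => hvert b
  rw [sum_add_distrib] at hsum
  have hconst : ∑ b, (if b ∈ T then - c else (if N.nu T b ≤ 1 then (1 : ℚ) else 0)) =
      (Fintype.card κ : ℚ) - (T.card : ℚ) * (1 + c) -
        ∑ b ∈ univ.filter (fun b => b ∉ T), (if N.nu T b ≤ 1 then (0 : ℚ) else 1) := by
    have e0 : ∀ b, (if b ∈ T then - c else (if N.nu T b ≤ 1 then (1 : ℚ) else 0)) =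
        1 - (if b ∈ T then (1 + c) else 0) -
          (if b ∉ T then (if N.nu T b ≤ 1 then (0 : ℚ) else 1) else 0) := by
      intro b
      by_cases hb : b ∈ T
      · rw [if_pos hb, if_pos hb, if_neg (not_not.2 hb)]; ring
      · rw [if_neg hb, if_neg hb, if_pos hb]
        split_ifs <;> ring
    rw [sum_congr rfl fun b _ => e0 b, sum_sub_distrib, sum_sub_distrib, sum_const, card_univ,
      nsmul_eq_mul, mul_one, sum_filter]
    congr 2
    rw [← sum_filter, sum_const, nsmul_eq_mul]
    congr 2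
    congr 1
    ext b
    simp only [mem_filter, mem_univ, true_and]
  have hE2 : ∑ b, ∑ w ∈ N.wd b, (1 + N.om T (N.rot b w) b w + Nerve.ed T b w - 2) =
      ∑ b, ∑ w ∈ N.wd b, (N.om T (N.rot b w) b w - 1) + ∑ b, ∑ w ∈ N.wd b, Nerve.ed T b w := by
    rw [← sum_add_distrib]
    refine sum_congr rfl fun b _ => ?_
    rw [← sum_add_distrib]
    exact sum_congr rfl fun w _ => by ring
  rw [hE2] at hE1
  rw [hconst] at hsum
  unfold Nerve.BB
  linarith

end Pool.Agent.Helper26.OC
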