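import Mathlib
import Pool.Agent.Helper26.OC.St
import Pool.Agent.Helper26.OC.M_SHIFT

/-!
# Windows with at most two long corners
-/

set_option autoImplicit false
set_option linter.unusedSectionVars false

open Finset

namespace Pool.Agent.Helper26.OC

namespace Nerve

namespace Low

variable {κ : Type} [Fintype κ] [DecidableEq κ] (N : Nerve κ)

section tools

variable {k : ℕ} {f : ℕ → κ}

theorem per_mul (h : N.IsWin k f) (i n : ℕ) : f (i + n * k) = f i := by
  induction n with
  | zero => simp
  | succ n ih => rw [Nat.succ_mul, ← add_assoc, h.per, ih]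

theorem mod_eq (h : N.IsWin k f) (i : ℕ) : f (i % k) = f i := by
  have h1 := per_mul N h (i % k) (i / k)
  have h2 : i % k + i / k * k = i := Nat.mod_add_div' i k
  rw [h2] at h1
  exact h1.symm

theorem f_eq (h : N.IsWin k f) {i j : ℕ} : f i = f j ↔ i % k = j % k := by
  have hk : 0 < k := by have := h.five; omega
  constructor
  · intro he
    rw [← mod_eq N h i, ← mod_eq N h j] at he
    exact h.inj _ (Nat.mod_lt _ hk) _ (Nat.mod_lt _ hk) he
  · intro he
    rw [← mod_eq N h i, ← mod_eq N h j, he]

/-- different corners -/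
theorem f_ne (h : N.IsWin k f) {i j : ℕ} (h1 : i < j) (h2 : j < i + k) : f i ≠ f j := by
  intro he
  rw [f_eq N h] at he
  have hk : 0 < k := by have := h.five; omega
  have h3 : k ∣ j - i := (Nat.modEq_iff_dvd' h1.le).1 he
  have h4 := Nat.le_of_dvd (by omega) h3
  omega

theorem win_edge (h : N.IsWin k f) (i : ℕ) : N.adj (f i) (f (i + 1)) ∧ N.win (f i) (f (i + 1)) :=
  ⟨(h.cor i).1, (h.cor i).2.2.2.1⟩

/-- the inner triangle at a window edge -/
theorem edge_tri (h : N.IsWin k f) {i : ℕ} {p : κ} (h0 : N.adj p (f i)) (h1 : N.adj p (f (i + 1))) :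
    (N.rot p (f (i + 1)) = f i ∧ ¬ N.win p (f (i + 1))) ∧
    (N.rot (f i) p = f (i + 1) ∧ ¬ N.win (f i) p) ∧
    (N.rot (f (i + 1)) (f i) = p ∧ ¬ N.win (f (i + 1)) (f i)) := by
  obtain ⟨ha, hw⟩ := win_edge N h i
  have hc := N.cor_of_win ha hw
  obtain ⟨e1, e2⟩ := hc.cn_right N (N.symm h0) h1
  obtain ⟨t1, t2, t3⟩ := N.tri_of (N.symm h0) e2
  rw [e1] at t1 t2 t3
  have w1 : ¬ N.win p (f (i + 1)) := fun hw' => e2 ((N.win_next (N.symm h0) t1 t2).2 hw')
  have w2 : ¬ N.win (f (i + 1)) (f i) := fun hw' => w1 ((N.win_next t1 (N.symm ha) t3).2 hw')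
  exact ⟨⟨t2, w1⟩, ⟨e1, e2⟩, ⟨t3, w2⟩⟩

/-- a window dart into a corner with `a = 1` is on the window -/
theorem into_one (h : N.IsWin k f) {i : ℕ} {x : κ} (ha : N.a (f (i + 1)) = 1)
    (hx : N.adj x (f (i + 1))) (hw : N.win x (f (i + 1))) : x = f i := by
  obtain ⟨z, hz, hr⟩ := N.exists_rot (N.symm hx)
  have hwz := (N.win_next hx hz hr).1 hw
  have hc := h.cor i
  have := N.win_unique ha hc.2.1 hc.2.2.2.2 hz hwz
  rw [← hr, this, hc.2.2.1]

/-- the target of a window dart has a window dart -/
theorem out_of_win {x y : κ} (hx : N.adj x y) (hw : N.win x y) :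
    ∃ z, N.adj y z ∧ N.rot y z = x ∧ N.win y z := by
  obtain ⟨z, hz, hr⟩ := N.exists_rot (N.symm hx)
  exact ⟨z, hz, hr, (N.win_next hx hz hr).1 hw⟩

/-- **Runs of short corners have a hub.** -/
theorem run (h : N.IsWin k f) (i0 : ℕ) : ∀ m : ℕ, 1 ≤ m → (∀ i < m, N.S (f (i0 + i + 1))) →
    ∃ p, (∀ i < m, p ≠ f (i0 + i + 1)) ∧ (∀ i ≤ m + 1, p = f (i0 + i) ∨ N.adj p (f (i0 + i))) ∧
      (∀ i < m, ∀ z, N.adj (f (i0 + i + 1)) z → z = f (i0 + i) ∨ z = p ∨ z = f (i0 + i + 2)) := by
  have h5 := h.five
  intro m hm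
  induction m, hm using Nat.le_induction with
  | base =>
    intro hS
    have hc : N.Cr (f i0) (f (i0 + 1)) (f (i0 + 2)) := (h.cor i0).cr
    have hS1 := hS 0 (by omega)
    rw [add_zero] at hS1
    rcases Cr.S_cases N hc hS1 with ⟨h1, h2⟩ | ⟨p, h1, h2, h3, h4, h5, h6, h7⟩
    · refine ⟨f i0, ?_, ?_, ?_⟩
      · intro i hi
        have : i = 0 := by omega
        subst this
        exact f_ne N h (by omega) (by omega)
      · intro i hi
        rcases (by omega : i = 0 ∨ i = 1 ∨ i = 2) with rfl | rfl | rfl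
        · exact Or.inl rfl
        · exact Or.inr (win_edge N h i0).1
        · exact Or.inr h1
      · intro i hi z hz
        have : i = 0 := by omega
        subst this
        rw [add_zero] at hz ⊢
        rcases (h2 z).1 hz with h | h
        · exact Or.inl h
        · exact Or.inr (Or.inr h)
    · refine ⟨p, ?_, ?_, ?_⟩
      · intro i hi
        have : i = 0 := by omega
        subst this
        exact (N.ne_of_adj h1).symm
      · intro i hi
        rcases (by omega : i = 0 ∨ i = 1 ∨ i = 2) with rfl | rfl | rfl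
        · exact Or.inr (N.symm h2)
        · exact Or.inr (N.symm h1)
        · exact Or.inr (N.symm h3)
      · intro i hi z hz
        have : i = 0 := by omega
        subst this
        rw [add_zero] at hz ⊢
        exact (h7 z).1 hz
  | succ m hm ih =>
    intro hS
    obtain ⟨p, p1, p2, p3⟩ := ih (fun i hi => hS i (by omega))
    -- the new short corner
    have hc : N.Cr (f (i0 + m)) (f (i0 + m + 1)) (f (i0 + m + 2)) := (h.cor (i0 + m)).cr
    have hSm := hS m (by omega)
    by_cases hpm : p = f (i0 + m + 1)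
    · -- then `m = 1`
      have hm1 : m = 1 := by
        by_contra hne
        obtain ⟨n, rfl⟩ : ∃ n, m = n + 2 := ⟨m - 2, by omega⟩
        have q1 : N.adj (f (i0 + (n + 2) + 1)) (f (i0 + n)) := by
          have := p2 n (by omega)
          rw [hpm] at this
          rcases this with h1 | h1
          · exact absurd h1.symm (f_ne N h (by omega) (by omega))
          · exact h1
        have q2 : N.adj (f (i0 + (n + 2) + 1)) (f (i0 + n + 1)) := by
          have := p2 (n + 1) (by omega)
          rw [hpm] at this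
          rcases this with h1 | h1
          · exact absurd h1.symm (f_ne N h (by omega) (by omega))
          · exact h1
        have r1 : f (i0 + n) ≠ f (i0 + (n + 2)) := f_ne N h (by omega) (by omega)
        have r2 : f (i0 + n) ≠ f (i0 + (n + 2) + 2) := f_ne N h (by omega) (by omega)
        have r3 : f (i0 + n + 1) ≠ f (i0 + (n + 2)) := f_ne N h (by omega) (by omega)
        have r4 : f (i0 + n + 1) ≠ f (i0 + (n + 2) + 2) := f_ne N h (by omega) (by omega)
        have r5 : f (i0 + n) ≠ f (i0 + n + 1) := f_ne N h (by omega) (by omega)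
        rcases Cr.S_cases N hc hSm with ⟨-, h2⟩ | ⟨z, -, -, -, -, -, -, h2⟩
        · rcases (h2 _).1 q1 with e | e
          · exact r1 e
          · exact r2 e
        · rcases (h2 _).1 q1 with e | e | e
          · exact r1 e
          · rcases (h2 _).1 q2 with e' | e' | e'
            · exact r3 e'
            · exact r5 (e.trans e'.symm)
            · exact r4 e'
          · exact r2 e
      subst hm1
      have q1 : N.adj (f (i0 + 1 + 1)) (f i0) := by
        have := p2 0 (by omega)
        rw [hpm, add_zero] at this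
        rcases this with h1 | h1
        · exact absurd h1.symm (f_ne N h (by omega) (by omega))
        · exact h1
      have hb3 : N.adj (f (i0 + 3)) (f i0) ∧
          ∀ z, N.adj (f (i0 + 1 + 1)) z → z = f (i0 + 1) ∨ z = f i0 ∨ z = f (i0 + 3) := by
        have r1 : f i0 ≠ f (i0 + 1) := f_ne N h (by omega) (by omega)
        have r2 : f i0 ≠ f (i0 + 1 + 2) := f_ne N h (by omega) (by omega)
        rcases Cr.S_cases N hc hSm with ⟨-, h2⟩ | ⟨z, h3, -, h4, -, -, -, h2⟩
        · rcases (h2 _).1 q1 with e | e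
          · exact absurd e r1
          · exact absurd e r2
        · rcases (h2 _).1 q1 with e | e | e
          · exact absurd e r1
          · rw [← e] at h4 h2
            exact ⟨h4, fun z hz => (h2 z).1 hz⟩
          · exact absurd e r2
      refine ⟨f i0, ?_, ?_, ?_⟩
      · intro i hi
        exact f_ne N h (by omega) (by omega)
      · intro i hi
        rcases (by omega : i = 0 ∨ i = 1 ∨ i = 2 ∨ i = 3) with rfl | rfl | rfl | rfl
        · exact Or.inl rfl
        · exact Or.inr (win_edge N h i0).1
        · exact Or.inr (N.symm q1)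
        · exact Or.inr (N.symm hb3.1)
      · intro i hi z hz
        rcases (by omega : i = 0 ∨ i = 1) with rfl | rfl
        · rcases p3 0 (by omega) z hz with e | e | e
          · exact Or.inl e
          · right; right; rw [e, hpm]
          · exact Or.inr (Or.inr e)
        · exact hb3.2 z hz
    · -- the same hub
      have hadj : N.adj p (f (i0 + m + 1)) := by
        rcases p2 (m + 1) (by omega) with h1 | h1
        · exact absurd h1 hpm
        · exact h1
      have hpm' : N.adj p (f (i0 + m)) := by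
        rcases p2 m (by omega) with h1 | h1
        · obtain ⟨n, rfl⟩ : ∃ n, m = n + 1 := ⟨m - 1, by omega⟩
          exact absurd h1 (p1 n (by omega))
        · exact h1
      have hnew : (p = f (i0 + m + 2) ∨ N.adj p (f (i0 + m + 2))) ∧
          ∀ z, N.adj (f (i0 + m + 1)) z → z = f (i0 + m) ∨ z = p ∨ z = f (i0 + m + 2) := by
        have hne : p ≠ f (i0 + m) := N.ne_of_adj hpm'
        rcases Cr.S_cases N hc hSm with ⟨h1, h2⟩ | ⟨z, h3, h5, h4, h6, -, -, h2⟩
        · refine ⟨?_, fun z hz => ?_⟩
          · rcases (h2 p).1 (N.symm hadj) with e | e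
            · exact absurd e hne
            · exact Or.inl e
          · rcases (h2 z).1 hz with e | e
            · exact Or.inl e
            · exact Or.inr (Or.inr e)
        · rcases (h2 p).1 (N.symm hadj) with e | e | e
          · exact absurd e hne
          · subst e
            exact ⟨Or.inr (N.symm h4), fun z hz => (h2 z).1 hz⟩
          · exfalso
            rw [e] at hpm'
            exact h6 (N.symm hpm')
      refine ⟨p, ?_, ?_, ?_⟩
      · intro i hi
        by_cases him : i = m
        · rw [him]; exact hpm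
        · exact p1 i (by omega)
      · intro i hi
        by_cases him : i = m + 2
        · rw [him]; exact hnew.1
        · exact p2 i (by omega)
      · intro i hi z hz
        by_cases him : i = m
        · subst him; exact hnew.2 z hz
        · exact p3 i (by omega) z hz

/-! ### Window darts -/

/-- A graph in which all vertices other than four are short corners of one window has no other
window. -/
theorem win_on (h : N.IsWin k f) (u v a b : κ)
    (hZ : ∀ z, (z = u ∨ z = v ∨ z = a ∨ z = b) ∨ ∃ i, z = f i ∧ N.S (f i)) {x y : κ}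
    (hxy : N.adj x y) (hw : N.win x y) : ∃ i, x = f i ∧ y = f (i + 1) := by
  classical
  by_contra hno
  have hk := h.five
  -- darts off the window
  have short_tgt : ∀ x y : κ, N.adj x y → N.win x y → (¬ ∃ i, x = f i ∧ y = f (i + 1)) →
      (x = u ∨ x = v ∨ x = a ∨ x = b) := by
    intro x y hxy hw hn
    rcases hZ x with h1 | ⟨i, rfl, hS⟩
    · exact h1
    · exfalso
      apply hn
      have hc := (h.cor (i + k - 1))
      rw [show i + k - 1 + 1 = i + k by omega, show i + k - 1 + 2 = i + 1 + k by omega, h.per,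
        h.per] at hc
      exact ⟨i, rfl, N.win_unique hS.1 hc.2.1 hc.2.2.2.2 hxy hw⟩
  have step : ∀ p : {p : κ × κ // (N.adj p.1 p.2 ∧ N.win p.1 p.2) ∧
      ¬ ∃ i, p.1 = f i ∧ p.2 = f (i + 1)}, ∃ q : {p : κ × κ // (N.adj p.1 p.2 ∧ N.win p.1 p.2) ∧
      ¬ ∃ i, p.1 = f i ∧ p.2 = f (i + 1)}, q.1.1 = p.1.2 ∧ N.rot q.1.1 q.1.2 = p.1.1 := by
    rintro ⟨⟨x, y⟩, ⟨hxy, hw⟩, hn⟩
    dsimp only at hxy hw hn
    obtain ⟨z, hz, hr, hwz⟩ := out_of_win N hxy hw
    refine ⟨⟨(y, z), ⟨hz, hwz⟩, ?_⟩, rfl, hr⟩
    rintro ⟨i, h1, h2⟩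
    dsimp only at h1 h2
    apply hn
    have hc := (h.cor (i + k - 1))
    rw [show i + k - 1 + 1 = i + k by omega, show i + k - 1 + 2 = i + 1 + k by omega, h.per,
      h.per, ← h1, ← h2] at hc
    refine ⟨i + k - 1, ?_, ?_⟩
    · rw [← hr]; exact hc.2.2.1
    · rw [show i + k - 1 + 1 = i + k by omega, h.per]; exact h1
  choose nx hnx1 hnx2 using step
  let p0 : {p : κ × κ // (N.adj p.1 p.2 ∧ N.win p.1 p.2) ∧
      ¬ ∃ i, p.1 = f i ∧ p.2 = f (i + 1)} := ⟨(x, y), ⟨hxy, hw⟩, hno⟩
  let g : ℕ → κ := fun n => (nx^[n] p0).1.1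
  have hg1 : ∀ n, g (n + 1) = (nx^[n] p0).1.2 := by
    intro n
    show (nx^[n + 1] p0).1.1 = _
    rw [Function.iterate_succ_apply']
    exact hnx1 _
  have hwin : ∀ n, N.adj (g n) (g (n + 1)) ∧ N.rot (g (n + 1)) (g (n + 2)) = g n ∧
      N.win (g n) (g (n + 1)) := by
    intro n
    refine ⟨?_, ?_, ?_⟩
    · rw [hg1]; exact (nx^[n] p0).2.1.1
    · have h1 := hnx2 (nx^[n] p0)
      rw [← Function.iterate_succ_apply' nx n p0] at h1
      rw [show g (n + 2) = (nx^[n + 1] p0).1.2 from hg1 (n + 1)]
      exact h1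
    · rw [hg1]; exact (nx^[n] p0).2.1.2
  have hmem : ∀ n, g n ∈ ({u, v, a, b} : Finset κ) := by
    intro n
    have h1 := short_tgt _ _ (nx^[n] p0).2.1.1 (nx^[n] p0).2.1.2 (nx^[n] p0).2.2
    simp only [mem_insert, mem_singleton]
    exact h1
  have hinj : Set.InjOn g (range 5 : Finset ℕ) := by
    intro i hi j hj hij
    rw [coe_range, Set.mem_Iio] at hi hj
    rcases lt_trichotomy i j with h1 | h1 | h1
    · exfalso
      refine N.len5 g hwin i (j - i) (by omega) (by omega) ?_
      rw [show i + (j - i) = j by omega]; exact hij.symm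
    · exact h1
    · exfalso
      refine N.len5 g hwin j (i - j) (by omega) (by omega) ?_
      rw [show j + (i - j) = i by omega]; exact hij
  have h1 : ((range 5).image g).card = 5 := by
    rw [card_image_of_injOn hinj, card_range]
  have h2 : (range 5).image g ⊆ ({u, v, a, b} : Finset κ) := by
    intro z hz
    obtain ⟨n, -, rfl⟩ := mem_image.1 hz
    exact hmem n
  have h3 := card_le_card h2
  have h4 : ({u, v, a, b} : Finset κ).card ≤ 4 := card_le_four
  omega

/-- if all window darts are on one window -/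
theorem a_of_win_on (h : N.IsWin k f)
    (hZ : ∀ x y, N.adj x y → N.win x y → ∃ i, x = f i ∧ y = f (i + 1)) :
    (∀ i, N.a (f i) = 1) ∧ (∀ v, (∀ i, f i ≠ v) → N.a v = 0) := by
  classical
  constructor
  · intro i
    have h1 := N.a_eq_of (b := f i) (s := {f (i + 1)}) (by
      intro z
      rw [mem_singleton]
      constructor
      · rintro ⟨h1, h2⟩
        obtain ⟨j, h3, h4⟩ := hZ _ _ h1 h2
        rw [f_eq N h] at h3
        rw [h4, f_eq N h]
        exact (Nat.ModEq.add_right 1 h3).symm
      · rintro rfl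
        exact win_edge N h i)
    rwa [card_singleton] at h1
  · intro v hv
    have h1 := N.a_eq_of (b := v) (s := ∅) (by
      intro z
      constructor
      · rintro ⟨h1, h2⟩
        obtain ⟨j, h3, h4⟩ := hZ _ _ h1 h2
        exact absurd h3.symm (hv j)
      · intro hz; exact absurd hz (notMem_empty _))
    rwa [card_empty] at h1

end tools

end Low

end Nerve

end Pool.Agent.Helper26.OC
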