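import Pool.Agent.Helper26.OC.M_LOWa

/-!
# Windows with at most two long corners: structure
-/

set_option autoImplicit false
set_option linter.unusedSectionVars false

open Finset

namespace Pool.Agent.Helper26.OC

namespace Nerve

namespace Low

variable {κ : Type} [Fintype κ] [DecidableEq κ] (N : Nerve κ)

section two

variable {k : ℕ} {f : ℕ → κ}

/-- the corner at `f i`, `i ≥ 1` -/
theorem cor_at (h : N.IsWin k f) {i : ℕ} (hi : 1 ≤ i) :
    N.Cor (f (i - 1)) (f i) (f (i + 1)) := by
  have := h.cor (i - 1)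
  rwa [show i - 1 + 1 = i by omega, show i - 1 + 2 = i + 1 by omega] at this

/-- the rotation at any vertex stays in a closed set at short corners -/
theorem closed_short (h : N.IsWin k f) {Z : κ → Prop} (hW : ∀ i, Z (f i)) {i : ℕ} {x : κ}
    (hi : 1 ≤ i) (hS : N.S (f i)) (hN : ∀ z, N.adj (f i) z → Z z) (hx : N.adj x (f i)) :
    Z (N.rot x (f i)) := by
  by_cases hw : N.win x (f i)
  · obtain ⟨j, rfl⟩ : ∃ j, i = j + 1 := ⟨i - 1, by omega⟩
    have hxe := into_one N h hS.1 hx hw
    have hk := h.five
    have hc := (h.cor (j + k - 1))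
    rw [show j + k - 1 + 1 = j + k by omega, show j + k - 1 + 2 = j + 1 + k by omega, h.per,
      h.per] at hc
    rw [hxe, hc.2.2.1]
    exact hW _
  · obtain ⟨e1, -, -⟩ := N.tri_of hx hw
    exact hN _ e1

/-- two long corners which are neighbours on the window -/
theorem no_adj_long (h : N.IsWin k f) {s : ℕ} (h0 : ¬ N.S (f s)) (h1 : ¬ N.S (f (s + 1)))
    (hS : ∀ i, 0 < i → i < k - 1 → N.S (f (s + 1 + i))) : False := by
  have hk := h.five
  obtain ⟨p, p1, p2, -⟩ := run N h (s + 1) (k - 2) (by omega) (fun i hi => by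
    have := hS (i + 1) (by omega) (by omega)
    rwa [← add_assoc] at this)
  have hper : f (s + 1 + (k - 1)) = f s := by rw [show s + 1 + (k - 1) = s + k by omega, h.per]
  have hprev : N.Cr (f (s + 1 + (k - 2))) (f s) (f (s + 1)) := by
    have := (h.cor (s + k - 1)).cr
    rw [show s + k - 1 + 1 = s + k by omega, show s + k - 1 + 2 = s + 1 + k by omega, h.per,
      h.per] at this
    rw [show s + 1 + (k - 2) = s + k - 1 by omega]
    exact this
  have hnext : N.Cr (f s) (f (s + 1)) (f (s + 2)) := (h.cor s).cr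
  have a0 := p2 0 (by omega)
  have a1 := p2 1 (by omega)
  have a2 := p2 (k - 1) (by omega)
  have a3 := p2 (k - 2) (by omega)
  rw [hper] at a2
  rw [add_zero] at a0
  rw [show s + 1 + 1 = s + 2 by omega] at a1
  have hp2 : p ≠ f (s + 2) := by
    have := p1 0 (by omega)
    rwa [show s + 1 + 0 + 1 = s + 2 by omega] at this
  have hp3 : p ≠ f (s + 1 + (k - 2)) := by
    have := p1 (k - 3) (by omega)
    rwa [show s + 1 + (k - 3) + 1 = s + 1 + (k - 2) by omega] at this
  have a1' := a1.resolve_left hp2
  have a3' := a3.resolve_left hp3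
  rcases a0 with e | a0
  · -- hub is `f (s+1)`
    rw [e] at a3'
    exact h0 (Cr.S_of2 N hprev (N.symm a3'))
  · rcases a2 with e | a2
    · rw [e] at a1'
      exact h1 (Cr.S_of2 N hnext a1')
    · exact h1 (Cr.S_of3 N hnext (N.symm a0) (N.symm a2) (N.symm a1'))

/-- A window with exactly two long corners `f 0`, `f j` and the hubs of its two runs. -/
structure Two (k j : ℕ) (f : ℕ → κ) (p q : κ) : Prop where
  win : N.IsWin k f
  hj : 2 ≤ j
  hj' : j + 2 ≤ k
  long0 : ¬ N.S (f 0)
  longj : ¬ N.S (f j)
  sh1 : ∀ i, 0 < i → i < j → N.S (f i)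
  sh2 : ∀ i, j < i → i < k → N.S (f i)
  a1 : ∀ i, 0 < i → i < j → p ≠ f i
  a2 : ∀ i ≤ j, p = f i ∨ N.adj p (f i)
  a3 : ∀ i, 0 < i → i < j → ∀ z, N.adj (f i) z → z = f (i - 1) ∨ z = p ∨ z = f (i + 1)
  b1 : ∀ i, j < i → i < k → q ≠ f i
  b2 : ∀ i, j ≤ i → i ≤ k → q = f i ∨ N.adj q (f i)
  b3 : ∀ i, j < i → i < k → ∀ z, N.adj (f i) z → z = f (i - 1) ∨ z = q ∨ z = f (i + 1)

variable {j : ℕ} {p q : κ}

theorem Two.swap (D : Two N k j f p q) : Two N k (k - j) (fun i => f (i + j)) q p := by
  have hk := D.win.five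
  have hj := D.hj
  have hj' := D.hj'
  have hm : ∀ i, k - j ≤ i → f (i + j) = f (i + j - k) := by
    intro i hi
    have := D.win.per (i + j - k)
    rwa [show i + j - k + k = i + j by omega] at this
  have hm' : ∀ i, k - j ≤ i → f (i + 1 + j) = f (i + j - k + 1) := by
    intro i hi
    have := hm (i + 1) (by omega)
    rwa [show i + 1 + j - k = i + j - k + 1 by omega] at this
  refine ⟨(m_SHIFT N k f j D.win).1, by omega, by omega, ?_, ?_, ?_, ?_, ?_, ?_, ?_, ?_, ?_, ?_⟩
  · show ¬ N.S (f (0 + j))
    rw [zero_add]; exact D.longj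
  · show ¬ N.S (f (k - j + j))
    rw [hm (k - j) le_rfl, show k - j + j - k = 0 by omega]; exact D.long0
  · intro i h1 h2
    exact D.sh2 _ (by omega) (by omega)
  · intro i h1 h2
    show N.S (f (i + j))
    rw [hm i (by omega)]
    exact D.sh1 _ (by omega) (by omega)
  · intro i h1 h2
    exact D.b1 _ (by omega) (by omega)
  · intro i h1
    exact D.b2 _ (by omega) (by omega)
  · intro i h1 h2 z hz
    have := D.b3 (i + j) (by omega) (by omega) z hz
    rw [show i + j - 1 = i - 1 + j by omega, show i + j + 1 = i + 1 + j by omega] at this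
    exact this
  · intro i h1 h2
    show p ≠ f (i + j)
    rw [hm i (by omega)]
    exact D.a1 _ (by omega) (by omega)
  · intro i h1 h2
    show p = f (i + j) ∨ N.adj p (f (i + j))
    rw [hm i (by omega)]
    exact D.a2 _ (by omega)
  · intro i h1 h2 z hz
    have hz' : N.adj (f (i + j)) z := hz
    rw [hm i (by omega)] at hz'
    have := D.a3 _ (by omega) (by omega) z hz'
    show z = f (i - 1 + j) ∨ z = p ∨ z = f (i + 1 + j)
    rw [hm' i (by omega), show f (i - 1 + j) = f (i + j - k - 1) by
      rw [hm (i - 1) (by omega), show i - 1 + j - k = i + j - k - 1 by omega]]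
    exact this

theorem Two.perk (D : Two N k j f p q) : f k = f 0 := by
  have := D.win.per 0
  rwa [zero_add] at this

/-- the hub of the first run is not on the second run -/
theorem Two.p_off (D : Two N k j f p q) : p = f 0 ∨ p = f j ∨ ∀ i, p ≠ f i := by
  by_contra hc
  push Not at hc
  obtain ⟨h0, hjj, i, hi⟩ := hc
  have hk := D.win.five
  have hj := D.hj
  have hj' := D.hj'
  have h := D.win
  rw [← mod_eq N h i] at hi
  have hik := Nat.mod_lt i (show 0 < k by omega)
  generalize i % k = i at hi hik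
  have hi0 : 0 < i := by
    rcases Nat.eq_zero_or_pos i with e | e
    · exact absurd (e ▸ hi) h0
    · exact e
  have hij : j < i := by
    rcases lt_trichotomy i j with e | e | e
    · exact absurd hi (D.a1 i hi0 e)
    · exact absurd (e ▸ hi) hjj
    · exact e
  -- `f 1` is a neighbour of the short corner `f i = p`
  have n1 : N.adj (f i) (f 1) := by
    rcases D.a2 1 (by omega) with e | e
    · exact absurd e (D.a1 1 (by omega) (by omega))
    · rwa [hi] at e
  have q1 : q = f 1 := by
    rcases D.b3 i hij hik _ n1 with e | e | e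
    · exact absurd e (f_ne N h (by omega) (by omega))
    · exact e.symm
    · rcases Nat.lt_or_ge (i + 1) k with h1 | h1
      · exact absurd e (f_ne N h (by omega) (by omega))
      · have : i + 1 = k := by omega
        rw [this, D.perk] at e
        exact absurd e.symm (f_ne N h (by omega) (by omega))
  -- the neighbours of `f 1`
  have key : ∀ t, j ≤ t → t < k → f t = p ∨ f t = f 2 := by
    intro t h1 h2
    rcases D.b2 t h1 (by omega) with e | e
    · rw [q1] at e
      exact absurd e (f_ne N h (by omega) (by omega))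
    · rw [q1] at e
      rcases D.a3 1 (by omega) (by omega) _ e with e | e | e
      · rw [show (1 : ℕ) - 1 = 0 by omega] at e
        exact absurd e.symm (f_ne N h (by omega) (by omega))
      · exact Or.inl e
      · exact Or.inr e
  have t2 : ∀ t, j < t → t < k → t = i := by
    intro t h1 h2
    rcases key t (by omega) h2 with e | e
    · rw [hi, f_eq N h, Nat.mod_eq_of_lt h2, Nat.mod_eq_of_lt hik] at e
      exact e
    · rw [f_eq N h, Nat.mod_eq_of_lt h2, Nat.mod_eq_of_lt (show 2 < k by omega)] at e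
      omega
  have e1 := t2 (j + 1) (by omega) (by omega)
  have e2 := t2 (k - 1) (by omega) (by omega)
  have e3 : j = 2 := by
    rcases key j le_rfl (by omega) with e | e
    · exact absurd e.symm hjj
    · rw [f_eq N h, Nat.mod_eq_of_lt (show j < k by omega),
        Nat.mod_eq_of_lt (show 2 < k by omega)] at e
      exact e
  omega

theorem Two.swap_f (D : Two N k j f p q) : (∀ i, ∃ l, f i = f (l + j)) := by
  intro i
  have hk := D.win.five
  have hj' := D.hj'
  refine ⟨i + (k - j), ?_⟩
  rw [show i + (k - j) + j = i + k by omega, D.win.per]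

theorem Two.q_off (D : Two N k j f p q) : q = f 0 ∨ q = f j ∨ ∀ i, q ≠ f i := by
  have hj := D.hj
  have hj' := D.hj'
  rcases D.swap.p_off with e | e | e
  · right; left; rw [zero_add] at e; exact e
  · left
    have e' : q = f (k - j + j) := e
    rw [show k - j + j = k by omega, D.perk] at e'
    exact e'
  · right; right
    intro i
    obtain ⟨l, hl⟩ := D.swap_f N i
    rw [hl]; exact e l

/-- neighbours of `p` -/
theorem Two.adj_p (D : Two N k j f p q) (hp : ∀ i, p ≠ f i) {i : ℕ} (hi : i ≤ j) :
    N.adj p (f i) := (D.a2 i hi).resolve_left (hp i)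

theorem Two.adj_q (D : Two N k j f p q) (hq : ∀ i, q ≠ f i) {i : ℕ} (hi : j ≤ i) (hi' : i ≤ k) :
    N.adj q (f i) := (D.b2 i hi hi').resolve_left (hq i)

/-- the hubs are different -/
theorem Two.p_ne_q (D : Two N k j f p q) (hp : ∀ i, p ≠ f i) (hq : ∀ i, q ≠ f i) : p ≠ q := by
  intro he
  have hk := D.win.five
  have hj := D.hj
  have hj' := D.hj'
  have c0 := (cor_at N D.win (i := k) (by omega)).cr
  have e1 : f (k + 1) = f 1 := by
    have := D.win.per 1
    rwa [add_comm 1 k] at this
  rw [D.perk, e1] at c0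
  have h1 := D.adj_p N hp (i := 0) (by omega)
  have h2 := D.adj_p N hp (i := 1) (by omega)
  have h3 := D.adj_q N hq (i := k - 1) (by omega) (by omega)
  rw [← he] at h3
  exact D.long0 (Cr.S_of3 N c0 (N.symm h1) (N.symm h3) (N.symm h2))

/-- the corner at `f 0` -/
theorem Two.cor0 (D : Two N k j f p q) : N.Cor (f (k - 1)) (f 0) (f 1) := by
  have hk := D.win.five
  have c0 := (cor_at N D.win (i := k) (by omega))
  have e1 : f (k + 1) = f 1 := by
    have := D.win.per 1
    rwa [add_comm 1 k] at this
  rwa [D.perk, e1] at c0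

/-- if the long corners are not adjacent, the hubs are off the window -/
theorem Two.off_p (D : Two N k j f p q) (hn : ¬ N.adj (f 0) (f j)) : ∀ i, p ≠ f i := by
  have hk := D.win.five
  have hj := D.hj
  have hj' := D.hj'
  have hne : f 0 ≠ f j := f_ne N D.win (by omega) (by omega)
  rcases D.p_off with e | e | e
  · exfalso
    rcases D.a2 j le_rfl with h1 | h1
    · exact hne (e.symm.trans h1)
    · rw [e] at h1; exact hn h1
  · exfalso
    rcases D.a2 0 (by omega) with h1 | h1
    · exact hne (h1.symm.trans e)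
    · rw [e] at h1; exact hn (N.symm h1)
  · exact e

theorem Two.swap_adj (D : Two N k j f p q) :
    N.adj ((fun i => f (i + j)) 0) ((fun i => f (i + j)) (k - j)) ↔ N.adj (f j) (f 0) := by
  have hj' := D.hj'
  show N.adj (f (0 + j)) (f (k - j + j)) ↔ _
  rw [zero_add, show k - j + j = k by omega, D.perk]

theorem Two.off_q (D : Two N k j f p q) (hn : ¬ N.adj (f 0) (f j)) : ∀ i, q ≠ f i := by
  intro i
  obtain ⟨l, hl⟩ := D.swap_f N i
  rw [hl]
  exact D.swap.off_p N (fun h => hn (N.symm ((D.swap_adj N).1 h))) l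

/-- the hubs are adjacent if the long corners are not -/
theorem Two.hubs (D : Two N k j f p q) (hn : ¬ N.adj (f 0) (f j)) : N.adj p q := by
  have hj := D.hj
  have hj' := D.hj'
  have hp := D.off_p N hn
  have hq := D.off_q N hn
  have h0 : N.adj q (f 0) := by
    have := D.adj_q N hq (i := k) (by omega) le_rfl
    rwa [D.perk] at this
  rcases N.noC4 (N.symm (D.adj_p N hp (i := 0) (by omega))) (D.adj_p N hp (i := j) le_rfl)
    (N.symm (D.adj_q N hq (i := j) le_rfl (by omega))) h0
    (f_ne N D.win (by omega) (by omega)) (D.p_ne_q N hp hq) with h1 | h1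
  · exact absurd h1 hn
  · exact h1

/-- the hubs are not adjacent if the long corners are -/
theorem Two.not_hubs (D : Two N k j f p q) (hn : N.adj (f 0) (f j)) (hp : ∀ i, p ≠ f i)
    (hq : ∀ i, q ≠ f i) : ¬ N.adj p q := by
  intro hpq
  have hj := D.hj
  have hj' := D.hj'
  have h0 : N.adj q (f 0) := by
    have := D.adj_q N hq (i := k) (by omega) le_rfl
    rwa [D.perk] at this
  exact N.noK4 hn (N.symm (D.adj_p N hp (i := 0) (by omega))) (N.symm h0)
    (N.symm (D.adj_p N hp (i := j) le_rfl)) (N.symm (D.adj_q N hq (i := j) le_rfl (by omega))) hpq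

/-- the closed set -/
def ZZ (f : ℕ → κ) (p q : κ) (z : κ) : Prop := z = p ∨ z = q ∨ ∃ i, z = f i

/-- neighbours of short corners -/
theorem Two.closedS (D : Two N k j f p q) {i : ℕ} (h0 : 0 < i) (h1 : i < k) (h2 : i ≠ j) {z : κ}
    (hz : N.adj (f i) z) : ZZ f p q z := by
  rcases Nat.lt_or_gt_of_ne h2 with h3 | h3
  · rcases D.a3 i h0 h3 z hz with e | e | e
    · exact Or.inr (Or.inr ⟨_, e⟩)
    · exact Or.inl e
    · exact Or.inr (Or.inr ⟨_, e⟩)
  · rcases D.b3 i h3 h1 z hz with e | e | e
    · exact Or.inr (Or.inr ⟨_, e⟩)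
    · exact Or.inr (Or.inl e)
    · exact Or.inr (Or.inr ⟨_, e⟩)

theorem Two.short_of (D : Two N k j f p q) {i : ℕ} (h0 : 0 < i) (h1 : i < k) (h2 : i ≠ j) :
    N.S (f i) := by
  rcases Nat.lt_or_gt_of_ne h2 with h3 | h3
  · exact D.sh1 i h0 h3
  · exact D.sh2 i h3 h1

/-- rotation from a short corner stays in the closed set -/
theorem Two.rotS (D : Two N k j f p q) {i : ℕ} (h0 : 0 < i) (h1 : i < k) (h2 : i ≠ j) {x : κ}
    (hx : N.adj x (f i)) : ZZ f p q (N.rot x (f i)) :=
  closed_short N D.win (Z := ZZ f p q) (fun i => Or.inr (Or.inr ⟨i, rfl⟩)) h0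
    (D.short_of N h0 h1 h2) (fun _ hz => D.closedS N h0 h1 h2 hz) hx

/-- neighbours of `f 0` -/
theorem Two.closed0 (D : Two N k j f p q) {z : κ} (hz : N.adj (f 0) z) : ZZ f p q z := by
  have hk := D.win.five
  have hj := D.hj
  have hj' := D.hj'
  have h := D.win
  have c0 := D.cor0 N
  refine N.rot_ind (ZZ f p q) c0.2.1 (Or.inr (Or.inr ⟨1, rfl⟩)) ?_ z hz
  clear hz z
  intro z hz hZ
  have onW : ∀ i, z = f i → ZZ f p q (N.rot (f 0) z) := by
    intro i hi
    rw [← mod_eq N h i] at hi
    have hik := Nat.mod_lt i (show 0 < k by omega)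
    generalize i % k = i at hi hik
    by_cases hi0 : i = 0
    · rw [hi, hi0] at hz; exact absurd hz (N.irr _)
    by_cases hij : i = j
    · rw [hij] at hi
      rw [hi] at hz ⊢
      rcases D.p_off with e | e | e
      · have h1 : N.adj (f 0) (f (j - 1)) := by
          rcases D.a2 (j - 1) (by omega) with e' | e'
          · rw [e] at e'; exact absurd e' (f_ne N h (by omega) (by omega))
          · rwa [e] at e'
        have h2 := edge_tri N h (i := j - 1) h1 (by rwa [show j - 1 + 1 = j by omega])
        rw [show j - 1 + 1 = j by omega] at h2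
        exact Or.inr (Or.inr ⟨_, h2.1.1⟩)
      · have h1 : N.adj (f j) (f 1) := by
          rcases D.a2 1 (by omega) with e' | e'
          · rw [e] at e'; exact absurd e'.symm (f_ne N h (by omega) (by omega))
          · rwa [e] at e'
        have h2 := edge_tri N h (i := 0) (N.symm hz) h1
        exact Or.inr (Or.inr ⟨_, h2.2.1.1⟩)
      · rcases N.adj_rot hz (N.symm (D.adj_p N e (i := 0) (by omega)))
          (N.symm (D.adj_p N e (i := j) le_rfl)) with h1 | h1
        · exact Or.inl h1.1
        · exfalso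
          have h2 := (edge_tri N h (i := 0) (D.adj_p N e (i := 0) (by omega))
            (D.adj_p N e (i := 1) (by omega))).2.1.1
          rw [h1.1] at h2
          exact f_ne N h (show 0 + 1 < j by omega) (by omega) h2.symm
    · rw [hi] at hz ⊢
      exact D.rotS N (by omega) hik hij hz
  by_cases hW : ∃ i, z = f i
  · obtain ⟨i, hi⟩ := hW
    exact onW i hi
  push Not at hW
  rcases hZ with e | e | ⟨i, e⟩
  · -- `z = p`
    rw [e] at hW
    have h2 := (edge_tri N h (i := 0) (D.adj_p N hW (i := 0) (by omega))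
      (D.adj_p N hW (i := 1) (by omega))).2.1.1
    rw [e]
    exact Or.inr (Or.inr ⟨_, h2⟩)
  · -- `z = q`
    rw [e] at hW hz
    rw [e]
    have q0 := D.adj_q N hW (i := k) (by omega) le_rfl
    have h3 := (edge_tri N h (i := k - 1) (D.adj_q N hW (i := k - 1) (by omega) (by omega))
      (by rwa [show k - 1 + 1 = k by omega])).2.2.1
    rw [show k - 1 + 1 = k by omega, D.perk] at h3
    rw [D.perk] at q0
    by_cases hn : N.adj (f 0) (f j)
    · rcases N.adj_rot hz hn (D.adj_q N hW (i := j) le_rfl (by omega)) with h1 | h1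
      · exact Or.inr (Or.inr ⟨_, h1.1⟩)
      · exfalso
        have h4 : f j = f (k - 1) := N.rot_inj hn (N.symm c0.1) (h1.1.trans h3.symm)
        exact f_ne N h (show j < k - 1 by omega) (by omega) h4
    · have hp := D.off_p N hn
      rcases N.adj_rot hz (N.symm (D.adj_p N hp (i := 0) (by omega))) (N.symm (D.hubs N hn)) with
        h1 | h1
      · exact Or.inl h1.1
      · exfalso
        have h2 := (edge_tri N h (i := 0) (D.adj_p N hp (i := 0) (by omega))
          (D.adj_p N hp (i := 1) (by omega))).2.1.1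
        rw [h1.1] at h2
        exact hW _ h2
  · exact absurd e (hW i)

/-- neighbours of the hub `p` -/
theorem Two.closedp (D : Two N k j f p q) (hp : ∀ i, p ≠ f i) {z : κ} (hz : N.adj p z) :
    ZZ f p q z := by
  have hk := D.win.five
  have hj := D.hj
  have hj' := D.hj'
  have h := D.win
  have p0 := D.adj_p N hp (i := 0) (by omega)
  have p1 := D.adj_p N hp (i := 1) (by omega)
  have pj := D.adj_p N hp (i := j) le_rfl
  have pj1 := D.adj_p N hp (i := j - 1) (by omega)
  have t1 := (edge_tri N h (i := 0) p0 p1).1.1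
  have t2 := (edge_tri N h (i := j - 1) pj1 (by rwa [show j - 1 + 1 = j by omega])).1.1
  rw [show j - 1 + 1 = j by omega] at t2
  refine N.rot_ind (ZZ f p q) p0 (Or.inr (Or.inr ⟨0, rfl⟩)) ?_ z hz
  clear hz z
  intro z hz hZ
  have onW : ∀ i, z = f i → ZZ f p q (N.rot p z) := by
    intro i hi
    rw [← mod_eq N h i] at hi
    have hik := Nat.mod_lt i (show 0 < k by omega)
    generalize i % k = i at hi hik
    by_cases hi0 : i = 0
    · rw [hi, hi0] at hz ⊢
      by_cases hn : N.adj (f 0) (f j)
      · rcases N.adj_rot p0 pj hn with h1 | h1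
        · exact Or.inr (Or.inr ⟨_, h1.1⟩)
        · exfalso
          rw [t2] at h1
          exact f_ne N h (show 0 < j - 1 by omega) (by omega) h1.1.symm
      · have hq := D.off_q N hn
        have q0 := D.adj_q N hq (i := k) (by omega) le_rfl
        rw [D.perk] at q0
        rcases N.adj_rot p0 (D.hubs N hn) (N.symm q0) with h1 | h1
        · exact Or.inr (Or.inl h1.1)
        · exfalso
          have h4 : q = f (0 + 1) := N.rot_inj (D.hubs N hn) p1 (h1.1.trans t1.symm)
          exact hq _ h4
    by_cases hij : i = j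
    · rw [hi, hij, t2]
      exact Or.inr (Or.inr ⟨_, rfl⟩)
    · rw [hi] at hz ⊢
      exact D.rotS N (by omega) hik hij hz
  by_cases hW : ∃ i, z = f i
  · obtain ⟨i, hi⟩ := hW
    exact onW i hi
  push Not at hW
  rcases hZ with e | e | ⟨i, e⟩
  · rw [e] at hz; exact absurd hz (N.irr _)
  · rw [e] at hW hz
    rw [e]
    by_cases hn : N.adj (f 0) (f j)
    · exact absurd hz (D.not_hubs N hn hp hW)
    · rcases N.adj_rot hz pj (D.adj_q N hW (i := j) le_rfl (by omega)) with h1 | h1
      · exact Or.inr (Or.inr ⟨_, h1.1⟩)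
      · exfalso
        rw [t2] at h1
        exact hW _ h1.1.symm
  · exact absurd e (hW i)

theorem ZZ_swap (D : Two N k j f p q) {z : κ} (hz : ZZ (fun i => f (i + j)) q p z) :
    ZZ f p q z := by
  rcases hz with e | e | ⟨i, e⟩
  · exact Or.inr (Or.inl e)
  · exact Or.inl e
  · exact Or.inr (Or.inr ⟨_, e⟩)

/-- every vertex is on the window or a hub -/
theorem Two.all (D : Two N k j f p q) (z : κ) : ZZ f p q z := by
  have hk := D.win.five
  have hj := D.hj
  have hj' := D.hj'
  have h := D.win
  refine N.conn (ZZ f p q) ?_ (f 0) z (Or.inr (Or.inr ⟨0, rfl⟩))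
  clear z
  intro x y hx hxy
  have onW : ∀ i, x = f i → ZZ f p q y := by
    intro i hi
    rw [← mod_eq N h i] at hi
    have hik := Nat.mod_lt i (show 0 < k by omega)
    generalize i % k = i at hi hik
    rw [hi] at hxy
    by_cases hi0 : i = 0
    · rw [hi0] at hxy; exact D.closed0 N hxy
    by_cases hij : i = j
    · rw [hij] at hxy
      refine ZZ_swap N D (D.swap.closed0 N ?_)
      show N.adj (f (0 + j)) y
      rwa [zero_add]
    · exact D.closedS N (by omega) hik hij hxy
  by_cases hW : ∃ i, x = f i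
  · obtain ⟨i, hi⟩ := hW
    exact onW i hi
  push Not at hW
  rcases hx with e | e | ⟨i, e⟩
  · rw [e] at hxy hW
    exact D.closedp N hW hxy
  · rw [e] at hxy hW
    exact ZZ_swap N D (D.swap.closedp N (fun i => hW _) hxy)
  · exact absurd e (hW i)

/-- the window darts are on the window -/
theorem Two.win_on (D : Two N k j f p q) : ∀ x y, N.adj x y → N.win x y →
    ∃ i, x = f i ∧ y = f (i + 1) := by
  have hk := D.win.five
  have hj := D.hj
  have hj' := D.hj'
  intro x y hxy hw
  refine Low.win_on N D.win (f 0) (f j) p q ?_ hxy hw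
  intro z
  rcases D.all N z with e | e | ⟨i, hi⟩
  · exact Or.inl (Or.inr (Or.inr (Or.inl e)))
  · exact Or.inl (Or.inr (Or.inr (Or.inr e)))
  · rw [← mod_eq N D.win i] at hi
    have hik := Nat.mod_lt i (show 0 < k by omega)
    generalize i % k = i at hi hik
    by_cases hi0 : i = 0
    · rw [hi0] at hi; exact Or.inl (Or.inl hi)
    by_cases hij : i = j
    · rw [hij] at hi; exact Or.inl (Or.inr (Or.inl hi))
    · exact Or.inr ⟨i, hi, D.short_of N (by omega) hik hij⟩

end two

end Low

end Nerve

end Pool.Agent.Helper26.OC
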