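import Pool.Agent.Helper26.OC.M_LOWb

/-!
# Windows with at most two long corners: at most one long corner; module LOWA
-/

set_option autoImplicit false
set_option linter.unusedSectionVars false

open Finset

namespace Pool.Agent.Helper26.OC

namespace Nerve

namespace Low

variable {κ : Type} [Fintype κ] [DecidableEq κ] (N : Nerve κ)

section one

variable {k : ℕ} {f : ℕ → κ}

/-- A window whose corners `f 1, …, f (k-1)` are short, and its hub. -/
structure One (k : ℕ) (f : ℕ → κ) (p : κ) : Prop where
  win : N.IsWin k f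
  sh : ∀ i, 0 < i → i < k → N.S (f i)
  a1 : ∀ i, 0 < i → i < k → p ≠ f i
  a2 : ∀ i ≤ k, p = f i ∨ N.adj p (f i)
  a3 : ∀ i, 0 < i → i < k → ∀ z, N.adj (f i) z → z = f (i - 1) ∨ z = p ∨ z = f (i + 1)

theorem one_of (h : N.IsWin k f) (hS : ∀ i, 0 < i → i < k → N.S (f i)) : ∃ p, One N k f p := by
  have hk := h.five
  obtain ⟨p, p1, p2, p3⟩ := run N h 0 (k - 1) (by omega) (fun i hi => by
    rw [zero_add]; exact hS _ (by omega) (by omega))
  refine ⟨p, h, hS, ?_, ?_, ?_⟩
  · intro i h1 h2
    have := p1 (i - 1) (by omega)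
    rwa [show 0 + (i - 1) + 1 = i by omega] at this
  · intro i h1
    have := p2 i (by omega)
    rwa [zero_add] at this
  · intro i h1 h2 z hz
    have := p3 (i - 1) (by omega) z (by rwa [show 0 + (i - 1) + 1 = i by omega])
    rwa [show 0 + (i - 1) = i - 1 by omega, show i - 1 + 2 = i + 1 by omega] at this

variable {p : κ}

theorem One.perk (D : One N k f p) : f k = f 0 := by
  have := D.win.per 0
  rwa [zero_add] at this

theorem One.cor0 (D : One N k f p) : N.Cor (f (k - 1)) (f 0) (f 1) := by
  have hk := D.win.five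
  have c0 := (cor_at N D.win (i := k) (by omega))
  have e1 : f (k + 1) = f 1 := by
    have := D.win.per 1
    rwa [add_comm 1 k] at this
  rwa [D.perk, e1] at c0

theorem One.off (D : One N k f p) : p = f 0 ∨ ∀ i, p ≠ f i := by
  by_contra hc
  push Not at hc
  obtain ⟨h0, i, hi⟩ := hc
  have hk := D.win.five
  rw [← mod_eq N D.win i] at hi
  have hik := Nat.mod_lt i (show 0 < k by omega)
  generalize i % k = i at hi hik
  rcases Nat.eq_zero_or_pos i with e | e
  · exact h0 (e ▸ hi)
  · exact D.a1 i e hik hi

/-- the closed set -/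
def ZO (f : ℕ → κ) (p : κ) (z : κ) : Prop := z = p ∨ ∃ i, z = f i

theorem One.closedS (D : One N k f p) {i : ℕ} (h0 : 0 < i) (h1 : i < k) {z : κ}
    (hz : N.adj (f i) z) : ZO f p z := by
  rcases D.a3 i h0 h1 z hz with e | e | e
  · exact Or.inr ⟨_, e⟩
  · exact Or.inl e
  · exact Or.inr ⟨_, e⟩

theorem One.all (D : One N k f p) (z : κ) : ZO f p z := by
  have hk := D.win.five
  have h := D.win
  have rotS : ∀ i, 0 < i → i < k → ∀ x, N.adj x (f i) → ZO f p (N.rot x (f i)) := by
    intro i h0 h1 x hx
    exact closed_short N D.win (Z := ZO f p) (fun i => Or.inr ⟨i, rfl⟩) h0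
      (D.sh i h0 h1) (fun _ hz => D.closedS N h0 h1 hz) hx
  -- neighbours of `f 0`
  have c0 := D.cor0 N
  have p0 : (∀ i, p ≠ f i) → ∀ i, N.adj p (f i) := by
    intro hp i
    rw [← mod_eq N h i]
    have hik := Nat.mod_lt i (show 0 < k by omega)
    exact (D.a2 _ (by omega)).resolve_left (hp _)
  have cl0 : ∀ z, N.adj (f 0) z → ZO f p z := by
    intro z hz
    rcases D.off N with e | e
    · refine N.rot_ind (ZO f p) c0.2.1 (Or.inr ⟨1, rfl⟩) ?_ z hz
      clear hz z
      intro z hz hZ
      have hZ' : ∃ i, z = f i := by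
        rcases hZ with h1 | h1
        · exact ⟨0, h1.trans e⟩
        · exact h1
      obtain ⟨i, hi⟩ := hZ'
      rw [← mod_eq N h i] at hi
      have hik := Nat.mod_lt i (show 0 < k by omega)
      generalize i % k = i at hi hik
      by_cases hi0 : i = 0
      · rw [hi, hi0] at hz; exact absurd hz (N.irr _)
      · rw [hi] at hz ⊢
        exact rotS i (by omega) hik _ hz
    · rcases (c0.nbr3 N (N.symm (p0 e 0)) (N.symm (p0 e _)) (p0 e 1) z).1 hz with h1 | h1 | h1
      · exact Or.inr ⟨_, h1⟩
      · exact Or.inl h1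
      · exact Or.inr ⟨_, h1⟩
  have clp : (∀ i, p ≠ f i) → ∀ z, N.adj p z → ZO f p z := by
    intro e z hz
    refine N.rot_ind (ZO f p) (p0 e 0) (Or.inr ⟨0, rfl⟩) ?_ z hz
    clear hz z
    intro z hz hZ
    rcases hZ with h1 | ⟨i, hi⟩
    · rw [h1] at hz; exact absurd hz (N.irr _)
    rw [← mod_eq N h i] at hi
    have hik := Nat.mod_lt i (show 0 < k by omega)
    generalize i % k = i at hi hik
    by_cases hi0 : i = 0
    · have h2 := (edge_tri N h (i := k - 1) (p0 e (k - 1)) (p0 e _)).1.1
      rw [show k - 1 + 1 = k by omega, D.perk] at h2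
      rw [hi, hi0, h2]
      exact Or.inr ⟨_, rfl⟩
    · rw [hi] at hz ⊢
      exact rotS i (by omega) hik _ hz
  refine N.conn (ZO f p) ?_ (f 0) z (Or.inr ⟨0, rfl⟩)
  clear z
  intro x y hx hxy
  have onW : ∀ i, x = f i → ZO f p y := by
    intro i hi
    rw [← mod_eq N h i] at hi
    have hik := Nat.mod_lt i (show 0 < k by omega)
    generalize i % k = i at hi hik
    rw [hi] at hxy
    by_cases hi0 : i = 0
    · rw [hi0] at hxy; exact cl0 _ hxy
    · exact D.closedS N (by omega) hik hxy
  by_cases hW : ∃ i, x = f i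
  · obtain ⟨i, hi⟩ := hW
    exact onW i hi
  push Not at hW
  rcases hx with e | ⟨i, e⟩
  · rw [e] at hxy hW
    exact clp hW _ hxy
  · exact absurd e (hW i)

theorem One.win_on (D : One N k f p) : ∀ x y, N.adj x y → N.win x y →
    ∃ i, x = f i ∧ y = f (i + 1) := by
  have hk := D.win.five
  intro x y hxy hw
  refine Low.win_on N D.win (f 0) p p p ?_ hxy hw
  intro z
  rcases D.all N z with e | ⟨i, hi⟩
  · exact Or.inl (Or.inr (Or.inl e))
  · rw [← mod_eq N D.win i] at hi
    have hik := Nat.mod_lt i (show 0 < k by omega)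
    generalize i % k = i at hi hik
    by_cases hi0 : i = 0
    · rw [hi0] at hi; exact Or.inl (Or.inl hi)
    · exact Or.inr ⟨i, hi, D.sh i (by omega) hik⟩

/-- the long corner is adjacent to all others -/
theorem One.fan (D : One N k f p) (h0 : ¬ N.S (f 0)) : p = f 0 := by
  have hk := D.win.five
  rcases D.off N with e | e
  · exact e
  · exfalso
    have p0 : ∀ i, i ≤ k → N.adj p (f i) := fun i hi => (D.a2 i hi).resolve_left (e i)
    exact h0 (Cr.S_of3 N (D.cor0 N).cr (N.symm (p0 0 (by omega))) (N.symm (p0 _ (by omega)))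
      (N.symm (p0 1 (by omega))))

/-- numbers of the corners for `k = 5` -/
theorem One.G_le (D : One N 5 f p) (i : ℕ) : N.G (f i) ≤ 4 := by
  classical
  rw [← mod_eq N D.win i]
  have hik := Nat.mod_lt i (show 0 < 5 by omega)
  generalize i % 5 = i at hik
  by_cases hi0 : i = 0
  · rw [hi0]
    by_cases hS : N.S (f 0)
    · exact le_trans hS.2 (by norm_num)
    · have hp := D.fan N hS
      have h1 : (univ.filter (fun y => N.adj (f 0) y)) ⊆ ({f 1, f 2, f 3, f 4} : Finset κ) := by
        intro z hz
        rw [mem_filter] at hz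
        have hz := hz.2
        have : ∃ i, z = f i := by
          rcases D.all N z with e | e
          · exact ⟨0, e.trans hp⟩
          · exact e
        obtain ⟨i, hi⟩ := this
        rw [← mod_eq N D.win i] at hi
        have hik := Nat.mod_lt i (show 0 < 5 by omega)
        generalize i % 5 = i at hi hik
        simp only [mem_insert, mem_singleton]
        rcases (by omega : i = 0 ∨ i = 1 ∨ i = 2 ∨ i = 3 ∨ i = 4) with e | e | e | e | e
        · rw [hi, e] at hz; exact absurd hz (N.irr _)
        · rw [e] at hi; exact Or.inl hi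
        · rw [e] at hi; exact Or.inr (Or.inl hi)
        · rw [e] at hi; exact Or.inr (Or.inr (Or.inl hi))
        · rw [e] at hi; exact Or.inr (Or.inr (Or.inr hi))
      exact (card_le_card h1).trans card_le_four
  · exact le_trans (D.sh i (by omega) hik).2 (by norm_num)

end one

section two

variable {k j : ℕ} {f : ℕ → κ} {p q : κ}

theorem two_of (h : N.IsWin k f) (hj0 : 0 < j) (hjk : j < k) (h0 : ¬ N.S (f 0))
    (h1 : ¬ N.S (f j)) (hS : ∀ i, 0 < i → i < k → i ≠ j → N.S (f i)) :
    ∃ p q, Two N k j f p q := by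
  have hk := h.five
  have hj2 : 2 ≤ j := by
    by_contra hc
    have : j = 1 := by omega
    subst this
    refine no_adj_long N h (s := 0) h0 (by rwa [zero_add]) (fun i hi hi' => ?_)
    rw [show 0 + 1 + i = i + 1 by omega]
    exact hS _ (by omega) (by omega) (by omega)
  have hj3 : j + 2 ≤ k := by
    by_contra hc
    have : j = k - 1 := by omega
    subst this
    refine no_adj_long N h (s := k - 1) h1 ?_ (fun i hi hi' => ?_)
    · rw [show k - 1 + 1 = 0 + k by omega, h.per]; exact h0
    · rw [show k - 1 + 1 + i = i + k by omega, h.per]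
      exact hS _ (by omega) (by omega) (by omega)
  obtain ⟨p, p1, p2, p3⟩ := run N h 0 (j - 1) (by omega) (fun i hi => by
    rw [zero_add]; exact hS _ (by omega) (by omega) (by omega))
  obtain ⟨q, q1, q2, q3⟩ := run N h j (k - j - 1) (by omega) (fun i hi => by
    exact hS _ (by omega) (by omega) (by omega))
  refine ⟨p, q, h, hj2, hj3, h0, h1, fun i h2 h3 => hS i h2 (by omega) (by omega),
    fun i h2 h3 => hS i (by omega) h3 (by omega), ?_, ?_, ?_, ?_, ?_, ?_⟩
  · intro i h1 h2
    have := p1 (i - 1) (by omega)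
    rwa [show 0 + (i - 1) + 1 = i by omega] at this
  · intro i h1
    have := p2 i (by omega)
    rwa [zero_add] at this
  · intro i h1 h2 z hz
    have := p3 (i - 1) (by omega) z (by rwa [show 0 + (i - 1) + 1 = i by omega])
    rwa [show 0 + (i - 1) = i - 1 by omega, show i - 1 + 2 = i + 1 by omega] at this
  · intro i h1 h2
    have := q1 (i - j - 1) (by omega)
    rwa [show j + (i - j - 1) + 1 = i by omega] at this
  · intro i h1 h2
    have := q2 (i - j) (by omega)
    rwa [show j + (i - j) = i by omega] at this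
  · intro i h1 h2 z hz
    have := q3 (i - j - 1) (by omega) z (by rwa [show j + (i - j - 1) + 1 = i by omega])
    rwa [show j + (i - j - 1) = i - 1 by omega, show i - 1 + 2 = i + 1 by omega] at this

theorem Two.not_five2 (D : Two N 5 2 f p q) : False := by
  have h := D.win
  have e5 : f 5 = f 0 := D.perk
  have w := fun i => (win_edge N h i).1
  by_cases hn : N.adj (f 0) (f 2)
  · rcases D.q_off with e | e | e
    · have h3 : N.adj (f 0) (f 3) := by
        rcases D.b2 3 (by omega) (by omega) with e' | e'
        · rw [e] at e'; exact absurd e' (f_ne N h (by omega) (by omega))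
        · rwa [e] at e'
      exact D.longj (Cr.S_of3 N (h.cor 1).cr (N.symm hn) (N.symm (w 0)) (N.symm h3))
    · have h3 : N.adj (f 2) (f 4) := by
        rcases D.b2 4 (by omega) (by omega) with e' | e'
        · rw [e] at e'; exact absurd e' (f_ne N h (by omega) (by omega))
        · rwa [e] at e'
      exact D.long0 (Cr.S_of3 N (D.cor0 N).cr hn (N.symm h3) (w 1))
    · have c4 : N.adj (f 4) (f 0) := by rw [← e5]; exact w 4
      rcases N.noC4 (w 2) (w 3) c4 hn (f_ne N h (by omega) (by omega))
        (f_ne N h (show 0 < 3 by omega) (by omega)).symm with h1 | h1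
      · rcases D.b3 4 (by omega) (by omega) _ (N.symm h1) with e' | e' | e'
        · exact f_ne N h (show 2 < 3 by omega) (by omega) e'
        · exact e 2 e'.symm
        · rw [show (4 : ℕ) + 1 = 5 by omega, e5] at e'
          exact f_ne N h (show 0 < 2 by omega) (by omega) e'.symm
      · rcases D.b3 3 (by omega) (by omega) _ h1 with e' | e' | e'
        · exact f_ne N h (show 0 < 2 by omega) (by omega) e'
        · exact e 0 e'.symm
        · exact f_ne N h (show 0 < 4 by omega) (by omega) e'
  · have hp := D.off_p N hn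
    have hq := D.off_q N hn
    have q0 := D.adj_q N hq (i := 5) (by omega) (by omega)
    rw [e5] at q0
    rcases N.noC4 (w 0) (w 1) (N.symm (D.adj_q N hq (i := 2) le_rfl (by omega))) q0
      (f_ne N h (by omega) (by omega)) (hq 1).symm with h1 | h1
    · exact hn h1
    · rcases D.a3 1 (by omega) (by omega) _ h1 with e' | e' | e'
      · exact hq _ e'
      · exact D.p_ne_q N hp hq e'.symm
      · exact hq _ e'

theorem Two.not_five (D : Two N 5 j f p q) : False := by
  have hj := D.hj
  have hj' := D.hj'
  rcases (by omega : j = 2 ∨ j = 3) with e | e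
  · subst e; exact D.not_five2 N
  · subst e; exact D.swap.not_five2 N

end two

/-- the shape of a window with at most two long corners -/
theorem shape {k : ℕ} {f : ℕ → κ} (h : N.IsWin k f) (hl : N.lng k f ≤ 2) :
    (N.lng k f ≤ 1 ∧ ∃ s p, One N k (fun i => f (i + s)) p) ∨
    (∃ s j p q, Two N k j (fun i => f (i + s)) p q) := by
  classical
  have hk := h.five
  have hmem : ∀ i, ¬ N.S (f i) → i % k ∈ (range k).filter (fun i => ¬ N.S (f i)) := by
    intro i hi
    rw [mem_filter, mem_range]
    refine ⟨Nat.mod_lt i (by omega), ?_⟩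
    rw [mod_eq N h]; exact hi
  rcases Nat.lt_or_ge (N.lng k f) 2 with h2 | h2
  · left
    refine ⟨by omega, ?_⟩
    rcases (by omega : N.lng k f = 0 ∨ N.lng k f = 1) with h3 | h3
    · unfold lng at h3
      rw [card_eq_zero] at h3
      refine ⟨0, one_of N (m_SHIFT N k f 0 h).1 ?_⟩
      intro i _ _
      by_contra hc
      have := hmem _ hc
      rw [h3] at this
      exact notMem_empty _ this
    · unfold lng at h3
      rw [card_eq_one] at h3
      obtain ⟨s, hs⟩ := h3
      have hs' : s ∈ (range k).filter (fun i => ¬ N.S (f i)) := by rw [hs]; exact mem_singleton_self s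
      rw [mem_filter, mem_range] at hs'
      refine ⟨s, one_of N (m_SHIFT N k f s h).1 ?_⟩
      intro i h0 h1
      by_contra hc
      have := hmem _ hc
      rw [hs, mem_singleton] at this
      have h4 : i + s ≡ 0 + s [MOD k] := by
        show (i + s) % k = (0 + s) % k
        rw [this, zero_add, Nat.mod_eq_of_lt hs'.1]
      have h5 := Nat.ModEq.add_right_cancel' s h4
      have h6 := Nat.ModEq.eq_of_lt_of_lt h5 h1 (by omega)
      omega
  · right
    have h3 : N.lng k f = 2 := by omega
    unfold lng at h3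
    rw [card_eq_two] at h3
    obtain ⟨s, t, hst, hs⟩ := h3
    have key : ∀ s t : ℕ, s < t → s < k → t < k → ¬ N.S (f s) → ¬ N.S (f t) →
        (∀ i, ¬ N.S (f i) → i % k = s ∨ i % k = t) →
        (∃ s j p q, Two N k j (fun i => f (i + s)) p q) := by
      intro s t hst hsk htk hs ht hall
      refine ⟨s, t - s, two_of N (m_SHIFT N k f s h).1 (by omega) (by omega) ?_ ?_ ?_⟩
      · show ¬ N.S (f (0 + s)); rwa [zero_add]
      · show ¬ N.S (f (t - s + s)); rwa [show t - s + s = t by omega]
      · intro i h0 h1 h2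
        by_contra hc
        rcases hall _ hc with this | this
        · have h4 : i + s ≡ 0 + s [MOD k] := by
            show (i + s) % k = (0 + s) % k
            rw [this, zero_add, Nat.mod_eq_of_lt hsk]
          have h5 := Nat.ModEq.add_right_cancel' s h4
          have h6 := Nat.ModEq.eq_of_lt_of_lt h5 h1 (by omega)
          omega
        · have h4 : i + s ≡ (t - s) + s [MOD k] := by
            show (i + s) % k = (t - s + s) % k
            rw [this, show t - s + s = t by omega, Nat.mod_eq_of_lt htk]
          have h5 := Nat.ModEq.add_right_cancel' s h4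
          have h6 := Nat.ModEq.eq_of_lt_of_lt h5 h1 (by omega)
          exact h2 h6
    have hs1 : s ∈ (range k).filter (fun i => ¬ N.S (f i)) := by
      rw [hs]; exact mem_insert_self _ _
    have ht1 : t ∈ (range k).filter (fun i => ¬ N.S (f i)) := by
      rw [hs]; exact mem_insert_of_mem (mem_singleton_self _)
    rw [mem_filter, mem_range] at hs1 ht1
    have hall : ∀ i, ¬ N.S (f i) → i % k = s ∨ i % k = t := by
      intro i hi
      have := hmem _ hi
      rw [hs, mem_insert, mem_singleton] at this
      exact this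
    rcases Nat.lt_or_gt_of_ne hst with h4 | h4
    · exact key s t h4 hs1.1 ht1.1 hs1.2 ht1.2 hall
    · exact key t s h4 ht1.1 hs1.1 ht1.2 hs1.2 (fun i hi => (hall i hi).symm)

theorem unshift {k s : ℕ} {f : ℕ → κ} (h : N.IsWin k f) (i : ℕ) : ∃ l, f i = f (l + s) := by
  have hk := h.five
  refine ⟨i + (s * k - s), ?_⟩
  have h1 : s ≤ s * k := Nat.le_mul_of_pos_right s (by omega)
  rw [show i + (s * k - s) + s = i + s * k by omega, per_mul N h]

end Low

end Nerve

open Nerve Nerve.Low

theorem m_LOWA : StLowA := by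
  intro κ _ _ N k f h hl
  have hk := h.five
  have main : ∀ s, (∀ x y, N.adj x y → N.win x y → ∃ i, x = f (i + s) ∧ y = f (i + 1 + s)) →
      (∀ i, N.a (f i) = 1) ∧ (∀ v, (∀ i, f i ≠ v) → N.a v = 0) := by
    intro s hs
    refine a_of_win_on N h (fun x y hxy hw => ?_)
    obtain ⟨i, h1, h2⟩ := hs x y hxy hw
    exact ⟨i + s, h1, by rw [h2, show i + 1 + s = i + s + 1 by omega]⟩
  rcases shape N h hl with ⟨h1, s, p, D⟩ | ⟨s, j, p, q, D⟩
  · obtain ⟨g1, g2⟩ := main s (D.win_on N)
    refine ⟨g1, g2, fun hk5 => ⟨h1, fun i => ?_⟩⟩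
    subst hk5
    obtain ⟨l, hl⟩ := unshift N h (s := s) i
    rw [hl]
    exact D.G_le N l
  · obtain ⟨g1, g2⟩ := main s (D.win_on N)
    refine ⟨g1, g2, fun hk5 => ?_⟩
    subst hk5
    exact absurd D (fun D => D.not_five N)

end Pool.Agent.Helper26.OC
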